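import Pool.Agent.Lib.MP_0a5c67_an.Defs

/-! Task A1: Parseval on unit intervals and the isometry `L²(𝕋) → W ψ`, `m ↦ m ψ`. -/

set_option autoImplicit false

open MeasureTheory Filter Topology Set
open scoped ENNReal InnerProductSpace ComplexConjugate

noncomputable section

namespace Pool.Agent.Wav

/-- the exponential `e^{-2πikx}` -/
def a1_ek (k : ℤ) (x : ℝ) : ℂ := Complex.exp (-(2 * Real.pi * k * x : ℝ) * Complex.I)

lemma a1_T_ae (k : ℤ) (f : H) : T k f =ᵐ[volume] fun x => a1_ek k x * f x :=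
  M_ae (Per.exp k).toBM f

lemma a1_ek_conj (k : ℤ) (x : ℝ) : conj (a1_ek k x) = a1_ek (-k) x := by
  unfold a1_ek
  rw [← Complex.exp_conj]
  congr 1
  simp only [map_mul, map_neg, Complex.conj_ofReal, Complex.conj_I]
  push_cast
  ring

lemma a1_ek_mul (k l : ℤ) (x : ℝ) : a1_ek k x * a1_ek l x = a1_ek (k + l) x := by
  unfold a1_ek
  rw [← Complex.exp_add]
  congr 1
  push_cast
  ring

lemma a1_norm_ek (k : ℤ) (x : ℝ) : ‖a1_ek k x‖ = 1 := by
  unfold a1_ek
  rw [← Complex.ofReal_neg, Complex.norm_exp_ofReal_mul_I]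

lemma a1_ek_fourier (k : ℤ) (x : ℝ) : a1_ek (-k) x = fourier k (x : AddCircle (1 : ℝ)) := by
  rw [fourier_coe_apply]
  unfold a1_ek
  congr 1
  push_cast
  ring

lemma a1_inner_T_h (a l : ℤ) (g : H) :
    ⟪T l (h a), g⟫_ℂ = ∫ x in Ico (a : ℝ) (a + 1), a1_ek (-l) x * g x := by
  rw [L2.inner_def, ← integral_indicator measurableSet_Ico]
  refine integral_congr_ae ?_
  filter_upwards [a1_T_ae l (h a), h_ae a] with x h1 h2
  rw [h1, h2]
  simp only [RCLike.inner_apply, map_mul]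
  rw [a1_ek_conj]
  by_cases hx : x ∈ Ico (a : ℝ) (a + 1)
  · rw [ind_of_mem hx, indicator_of_mem hx, map_one]
    ring
  · rw [ind_of_notMem hx, indicator_of_notMem hx, map_zero]
    ring

/-- (PU) Parseval on the unit interval `[a,a+1)`. -/
theorem parseval_unit (a : ℤ) (g : H) :
    HasSum (fun l : ℤ => ‖⟪T l (h a), g⟫_ℂ‖ ^ 2) (∫ x in Ico (a : ℝ) (a + 1), ‖g x‖ ^ 2) := by
  have hab : (a : ℝ) < a + 1 := by linarith
  have hL : MemLp g 2 (volume.restrict (Ioc (a : ℝ) (a + 1))) := (Lp.memLp g).restrict _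
  have hs := hasSum_sq_fourierCoeffOn hab hL
  have e1 : ((a : ℝ) + 1 - a)⁻¹ • ∫ x in (a : ℝ)..(a + 1), ‖g x‖ ^ 2
      = ∫ x in Ico (a : ℝ) (a + 1), ‖g x‖ ^ 2 := by
    rw [add_sub_cancel_left, inv_one, one_smul, intervalIntegral.integral_of_le hab.le,
      integral_Ioc_eq_integral_Ioo, integral_Ico_eq_integral_Ioo]
  rw [e1] at hs
  rw [← (Equiv.neg ℤ).hasSum_iff]
  convert hs using 2 with l
  simp only [Function.comp_apply, Equiv.neg_apply]
  rw [a1_inner_T_h, fourierCoeffOn_eq_integral, neg_neg]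
  have e2 : (a : ℝ) + 1 - a = 1 := by ring
  rw [e2, div_one, one_smul, intervalIntegral.integral_of_le hab.le,
      integral_Ioc_eq_integral_Ioo, integral_Ico_eq_integral_Ioo]
  congr 2
  refine integral_congr_ae (ae_of_all _ fun x => ?_)
  simp only [smul_eq_mul]
  congr 1
  have := a1_ek_fourier (-l) x
  rw [neg_neg] at this
  exact this

theorem a1_hasSum_Ico (g : H) :
    HasSum (fun a : ℤ => ∫ x in Ico (a : ℝ) (a + 1), ‖g x‖ ^ 2) (‖g‖ ^ 2) := by
  rw [norm_sq_eq, ← setIntegral_univ, ← iUnion_Ico_intCast]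
  refine hasSum_integral_iUnion (fun a => measurableSet_Ico) ?_ ?_
  · exact pairwise_disjoint_Ico_intCast ℝ
  · exact ((Lp.memLp g).integrable_norm_pow (by norm_num)).integrableOn

theorem parseval_all (g : H) :
    HasSum (fun al : ℤ × ℤ => ‖⟪T al.2 (h al.1), g⟫_ℂ‖ ^ 2) (‖g‖ ^ 2) := by
  have h1 := fun a => parseval_unit a g
  have h2 := a1_hasSum_Ico g
  have hs : Summable (fun al : ℤ × ℤ => ‖⟪T al.2 (h al.1), g⟫_ℂ‖ ^ 2) := by
    rw [summable_prod_of_nonneg (fun _ => by positivity)]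
    refine ⟨fun a => (h1 a).summable, ?_⟩
    convert h2.summable with a
    exact (h1 a).tsum_eq
  have := hs.hasSum.prod_fiberwise h1
  rw [← this.unique h2]
  exact hs.hasSum

/-- the functions `T l (h a)` are total -/
theorem eq_zero_of_inner (g : H) (hg : ∀ a l : ℤ, ⟪T l (h a), g⟫_ℂ = 0) : g = 0 := by
  have h1 := parseval_all g
  simp only [hg, norm_zero, ne_eq, OfNat.ofNat_ne_zero, not_false_eq_true, zero_pow] at h1
  have h2 := h1.unique hasSum_zero
  rw [sq_eq_zero_iff, norm_eq_zero] at h2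
  exact h2

theorem T_add (k l : ℤ) (f : H) : T k (T l f) = T (k + l) f := by
  ext1
  refine (a1_T_ae _ _).trans (EventuallyEq.trans ?_ (a1_T_ae _ _).symm)
  filter_upwards [a1_T_ae l f] with x hx
  rw [hx, ← mul_assoc, a1_ek_mul]

theorem T_zero (f : H) : T 0 f = f := by
  ext1
  refine (a1_T_ae _ _).trans ?_
  filter_upwards with x
  simp [a1_ek]

theorem inner_T (k : ℤ) (f g : H) : ⟪T k f, g⟫_ℂ = ⟪f, T (-k) g⟫_ℂ := by
  rw [L2.inner_def, L2.inner_def]
  refine integral_congr_ae ?_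
  filter_upwards [a1_T_ae k f, a1_T_ae (-k) g] with x h1 h2
  rw [h1, h2]
  simp only [RCLike.inner_apply, map_mul, a1_ek_conj]
  ring

theorem norm_T (k : ℤ) (f : H) : ‖T k f‖ = ‖f‖ := by
  have h2 : ‖T k f‖ ^ 2 = ‖f‖ ^ 2 := by
    rw [norm_sq_eq, norm_sq_eq]
    refine integral_congr_ae ?_
    filter_upwards [a1_T_ae k f] with x hx
    rw [hx, norm_mul, a1_norm_ek, one_mul]
  exact (sq_eq_sq₀ (norm_nonneg _) (norm_nonneg _)).1 h2

/-- orthonormality of the modulations from the inner products with `ψ` -/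
theorem orth_of_inner {ψ : H} (h1 : ∀ k : ℤ, ⟪ψ, T k ψ⟫_ℂ = if k = 0 then 1 else 0) :
    Orthonormal ℂ (fun k : ℤ => T k ψ) := by
  rw [orthonormal_iff_ite]
  intro k l
  rw [inner_T, T_add, h1]
  congr 1
  rw [eq_iff_iff]
  constructor
  · intro hh; omega
  · intro hh; omega

/-- the pushforward of `|ψ|² dx` to the circle -/
def a1_muC (ψ : H) : Measure (AddCircle (1 : ℝ)) :=
  (volume.withDensity fun x => ENNReal.ofReal (‖ψ x‖ ^ 2)).map ((↑) : ℝ → AddCircle (1 : ℝ))

lemma a1_integrable_nsq (ψ : H) : Integrable (fun x => ‖ψ x‖ ^ 2) volume :=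
  (Lp.memLp ψ).integrable_norm_pow (by norm_num)

lemma a1_isFin (ψ : H) :
    IsFiniteMeasure (volume.withDensity fun x => ENNReal.ofReal (‖ψ x‖ ^ 2)) :=
  isFiniteMeasure_withDensity_ofReal (a1_integrable_nsq ψ).2

lemma a1_measurable_nsq (ψ : H) : Measurable fun x => ENNReal.ofReal (‖ψ x‖ ^ 2) :=
  ((Lp.stronglyMeasurable ψ).measurable.norm.pow_const 2).ennreal_ofReal

instance a1_instFin (ψ : H) : IsFiniteMeasure (a1_muC ψ) := by
  have := a1_isFin ψ
  unfold a1_muC
  infer_instance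

lemma a1_integral_muC (ψ : H) {F : AddCircle (1 : ℝ) → ℂ} (hF : Measurable F) :
    ∫ y, F y ∂(a1_muC ψ) = ∫ x : ℝ, F x * (‖ψ x‖ ^ 2 : ℝ) := by
  unfold a1_muC
  rw [integral_map AddCircle.measurable_mk'.aemeasurable hF.aestronglyMeasurable]
  rw [integral_withDensity_eq_integral_toReal_smul (a1_measurable_nsq ψ)
    (ae_of_all _ fun x => ENNReal.ofReal_lt_top)]
  refine integral_congr_ae (ae_of_all _ fun x => ?_)
  simp only
  rw [ENNReal.toReal_ofReal (by positivity), Complex.real_smul, mul_comm]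

lemma a1_integral_fourier_muC {ψ : H} (ho : Orthonormal ℂ (fun k : ℤ => T k ψ)) (n : ℤ) :
    ∫ y, fourier n y ∂(a1_muC ψ) = if n = 0 then 1 else 0 := by
  rw [a1_integral_muC ψ (fourier n).continuous.measurable]
  have h1 := orthonormal_iff_ite.1 ho 0 (-n)
  rw [T_zero, L2.inner_def] at h1
  have h2 : (if (0 : ℤ) = -n then (1 : ℂ) else 0) = if n = 0 then 1 else 0 := by
    by_cases hn : n = 0
    · simp [hn]
    · rw [if_neg hn, if_neg]
      omega
  rw [← h2, ← h1]
  refine integral_congr_ae ?_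
  filter_upwards [a1_T_ae (-n) ψ] with x hx
  rw [hx, ← a1_ek_fourier]
  simp only [RCLike.inner_apply]
  rw [mul_assoc, Complex.mul_conj, Complex.normSq_eq_norm_sq]

lemma a1_integral_fourier_vol (n : ℤ) :
    ∫ y : AddCircle (1 : ℝ), fourier n y = if n = 0 then 1 else 0 := by
  rw [← AddCircle.intervalIntegral_preimage 1 0]
  by_cases hn : n = 0
  · subst hn
    simp
  · rw [if_neg hn, AddCircle.intervalIntegral_preimage 1 0]
    exact integral_eq_zero_of_add_right_eq_neg (fourier_add_half_inv_index hn one_pos)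

lemma a1_integral_cont_muC {ψ : H} (ho : Orthonormal ℂ (fun k : ℤ => T k ψ))
    (F : C(AddCircle (1 : ℝ), ℂ)) :
    ∫ y, F y ∂(a1_muC ψ) = ∫ y : AddCircle (1 : ℝ), F y := by
  have hF : F ∈ (Submodule.span ℂ (range (@fourier (1 : ℝ)))).topologicalClosure := by
    rw [span_fourier_closure_eq_top]
    trivial
  have hint : ∀ (μ : Measure (AddCircle (1 : ℝ))) [IsFiniteMeasure μ]
      (G : C(AddCircle (1 : ℝ), ℂ)), Integrable G μ := fun μ _ G =>
    (BoundedContinuousFunction.mkOfCompact G).integrable μ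
  have hlip : ∀ (μ : Measure (AddCircle (1 : ℝ))) [IsFiniteMeasure μ],
      Continuous fun G : C(AddCircle (1 : ℝ), ℂ) => ∫ y, G y ∂μ := by
    intro μ _
    have h1 : LipschitzWith (Real.toNNReal (μ.real univ)) 
        fun G : C(AddCircle (1 : ℝ), ℂ) => ∫ y, G y ∂μ := by
      refine LipschitzWith.of_dist_le_mul fun G1 G2 => ?_
      rw [dist_eq_norm, dist_eq_norm, ← integral_sub (hint μ G1) (hint μ G2)]
      refine (norm_integral_le_of_norm_le_const (C := ‖G1 - G2‖) (ae_of_all _ fun y => ?_)).trans ?_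
      · exact (G1 - G2).norm_coe_le_norm y
      · rw [Real.coe_toNNReal _ measureReal_nonneg, mul_comm]
    exact h1.continuous
  have hcl : IsClosed {G : C(AddCircle (1 : ℝ), ℂ) |
      ∫ y, G y ∂(a1_muC ψ) = ∫ y : AddCircle (1 : ℝ), G y} :=
    isClosed_eq (hlip _) (hlip _)
  refine hcl.closure_subset_iff.2 ?_ hF
  intro G hG
  refine Submodule.span_induction ?_ ?_ ?_ ?_ hG
  · rintro _ ⟨n, rfl⟩
    change ∫ y, fourier n y ∂(a1_muC ψ) = ∫ y : AddCircle (1 : ℝ), fourier n y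
    rw [a1_integral_fourier_muC ho, a1_integral_fourier_vol]
  · simp
  · intro G1 G2 _ _ h1 h2
    simp only [mem_ofPred_eq, ContinuousMap.add_apply] at h1 h2 ⊢
    rw [integral_add (hint _ _) (hint _ _), integral_add (hint _ _) (hint _ _), h1, h2]
  · intro c G1 _ h1
    simp only [mem_ofPred_eq, ContinuousMap.smul_apply] at h1 ⊢
    rw [integral_smul, integral_smul, h1]

lemma a1_muC_eq {ψ : H} (ho : Orthonormal ℂ (fun k : ℤ => T k ψ)) : a1_muC ψ = volume := by
  refine ext_of_forall_integral_eq_of_IsFiniteMeasure fun f => ?_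
  have h1 := a1_integral_cont_muC ho ⟨fun y => ((f y : ℝ) : ℂ), by fun_prop⟩
  simp only [ContinuousMap.coe_mk] at h1
  rw [integral_complex_ofReal, integral_complex_ofReal] at h1
  exact_mod_cast h1

/-- periodisation: `∑_k |ψ(x+k)|² = 1` in integrated form -/
theorem J_int {ψ : H} (ho : Orthonormal ℂ (fun k : ℤ => T k ψ)) {m : ℝ → ℂ} (hm : Per m) :
    ∫ x, m x * (‖ψ x‖ ^ 2 : ℝ) = ∫ x in Ico (0 : ℝ) 1, m x := by
  have hper : Function.Periodic m 1 := hm.per
  have hlift : Measurable (hper.lift : AddCircle (1 : ℝ) → ℂ) := by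
    have h1 : (hper.lift : AddCircle (1 : ℝ) → ℂ)
        = fun y => m ((AddCircle.measurableEquivIco 1 0 y : Ico (0 : ℝ) (0 + 1)) : ℝ) := by
      funext y
      conv_lhs => rw [← AddCircle.coe_equivIco (p := 1) (a := 0) (y := y)]
      rfl
    rw [h1]
    exact hm.meas.comp (measurable_subtype_coe.comp (AddCircle.measurableEquivIco 1 0).measurable)
  have h1 := a1_integral_muC ψ hlift
  rw [a1_muC_eq ho, ← AddCircle.integral_preimage 1 0] at h1
  have h2 : ∫ x in Ico (0 : ℝ) 1, m x = ∫ x in Ioc (0 : ℝ) (0 + 1), hper.lift (x : AddCircle (1 : ℝ)) := by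
    rw [zero_add, integral_Ioc_eq_integral_Ioo, integral_Ico_eq_integral_Ioo]
    rfl
  rw [h2, h1]
  rfl

lemma Per.a1_mul {m n : ℝ → ℂ} (hm : Per m) (hn : Per n) : Per (fun x => m x * n x) :=
  { hm.toBM.mul hn.toBM with per := fun x => by rw [hm.per, hn.per] }

lemma Per.a1_sub {m n : ℝ → ℂ} (hm : Per m) (hn : Per n) : Per (fun x => m x - n x) :=
  { hm.toBM.sub hn.toBM with per := fun x => by rw [hm.per, hn.per] }

lemma Per.a1_star {m : ℝ → ℂ} (hm : Per m) : Per (fun x => conj (m x)) :=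
  { hm.toBM.star with per := fun x => by rw [hm.per] }

/-- (J) -/
theorem J_inner {ψ : H} (ho : Orthonormal ℂ (fun k : ℤ => T k ψ)) {m n : ℝ → ℂ} (hm : Per m)
    (hn : Per n) :
    ⟪M m ψ, M n ψ⟫_ℂ = ∫ x in Ico (0 : ℝ) 1, conj (m x) * n x := by
  rw [← J_int ho (hm.a1_star.a1_mul hn), L2.inner_def]
  refine integral_congr_ae ?_
  filter_upwards [M_ae hm.toBM ψ, M_ae hn.toBM ψ] with x h1 h2
  rw [h1, h2]
  simp only [RCLike.inner_apply, map_mul]
  rw [← Complex.normSq_eq_norm_sq, Complex.normSq_eq_conj_mul_self]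
  ring

theorem J_norm {ψ : H} (ho : Orthonormal ℂ (fun k : ℤ => T k ψ)) {m : ℝ → ℂ} (hm : Per m) :
    ‖M m ψ‖ ^ 2 = ∫ x in Ico (0 : ℝ) 1, ‖m x‖ ^ 2 := by
  have h1 := J_int ho (hm.a1_star.a1_mul hm)
  apply Complex.ofReal_injective
  have h2 : ∀ x, conj (m x) * m x = ((‖m x‖ ^ 2 : ℝ) : ℂ) := fun x => by
    rw [← Complex.normSq_eq_conj_mul_self, Complex.normSq_eq_norm_sq]
  simp only [h2] at h1
  rw [norm_M_sq hm.toBM, ← integral_complex_ofReal, ← integral_complex_ofReal, ← h1]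
  simp only [Complex.ofReal_mul]

theorem a1_proj_norm_sq {ι E : Type*} [NormedAddCommGroup E] [InnerProductSpace ℂ E] [CompleteSpace E]
    {v : ι → E} (hv : Orthonormal ℂ v) (K : Submodule ℂ E) [K.HasOrthogonalProjection]
    (hK : K = (Submodule.span ℂ (Set.range v)).topologicalClosure) (f : E) :
    HasSum (fun i => ‖⟪v i, f⟫_ℂ‖ ^ 2) (‖K.starProjection f‖ ^ 2) := by
  have hc : CompleteSpace K := by
    subst hK
    exact (Submodule.isClosed_topologicalClosure _).completeSpace_coe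
  have hmem : ∀ i, v i ∈ K := fun i => by
    rw [hK]
    exact Submodule.le_topologicalClosure _ (Submodule.subset_span ⟨i, rfl⟩)
  let v' : ι → K := fun i => ⟨v i, hmem i⟩
  have hv' : Orthonormal ℂ v' := by
    classical
    rw [orthonormal_iff_ite] at hv ⊢
    exact hv
  have hbot : (Submodule.span ℂ (Set.range v'))ᗮ = ⊥ := by
    rw [eq_bot_iff]
    intro x hx
    rw [Submodule.mem_orthogonal] at hx
    have h1 : (x : E) ∈ (Submodule.span ℂ (Set.range v))ᗮ := by
      rw [Submodule.mem_orthogonal]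
      intro u hu
      refine Submodule.span_induction ?_ ?_ ?_ ?_ hu
      · rintro _ ⟨i, rfl⟩
        exact hx (v' i) (Submodule.subset_span ⟨i, rfl⟩)
      · simp
      · intro a b _ _ ha hb
        rw [inner_add_left, ha, hb, add_zero]
      · intro c a _ ha
        rw [inner_smul_left, ha, mul_zero]
    have hKo : Kᗮ = (Submodule.span ℂ (Set.range v))ᗮ := by
      rw [hK, Submodule.orthogonal_closure]
    have h2 : (x : E) ∈ Kᗮ := by
      rw [hKo]
      exact h1
    have h3 : ⟪(x : E), (x : E)⟫_ℂ = 0 := (Submodule.mem_orthogonal _ _).1 h2 x x.2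
    rw [inner_self_eq_zero] at h3
    exact (Submodule.mem_bot _).2 (Subtype.ext h3)
  let b : HilbertBasis ι ℂ K := HilbertBasis.mkOfOrthogonalEqBot hv' hbot
  have hb : ∀ i, b i = v' i := fun i => by
    simp [b]
  let x : K := ⟨K.starProjection f, K.starProjection_apply_mem f⟩
  have h1 := b.hasSum_inner_mul_inner x x
  have h2 : ∀ i, ⟪x, b i⟫_ℂ * ⟪b i, x⟫_ℂ = ((‖⟪v i, f⟫_ℂ‖ ^ 2 : ℝ) : ℂ) := fun i => by
    have h3 : ⟪b i, x⟫_ℂ = ⟪v i, f⟫_ℂ := by
      rw [hb]
      change ⟪v i, K.starProjection f⟫_ℂ = _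
      rw [← K.inner_starProjection_left_eq_right, Submodule.starProjection_eq_self_iff.2 (hmem i)]
    rw [← inner_conj_symm, h3, ← Complex.normSq_eq_conj_mul_self, Complex.normSq_eq_norm_sq]
  have h4 : ⟪x, x⟫_ℂ = ((‖K.starProjection f‖ ^ 2 : ℝ) : ℂ) := by
    rw [inner_self_eq_norm_sq_to_K]
    push_cast
    rfl
  simp only [h2] at h1
  rw [h4] at h1
  exact_mod_cast h1

theorem PW_proj (ψ : H) : Proj (PW ψ) where
  idem f := by
    unfold PW
    exact Submodule.starProjection_eq_self_iff.2 ((W ψ).starProjection_apply_mem f)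
  symm f g := (W ψ).inner_starProjection_left_eq_right f g

theorem T_mem_W (ψ : H) (k : ℤ) : T k ψ ∈ W ψ :=
  Submodule.le_topologicalClosure _ (Submodule.subset_span ⟨k, rfl⟩)

theorem PW_self (ψ : H) (k : ℤ) : PW ψ (T k ψ) = T k ψ :=
  Submodule.starProjection_eq_self_iff.2 (T_mem_W ψ k)

/-- `‖P_W f‖² = Σ_k |⟨T^k ψ, f⟩|²` -/
theorem PW_norm_sq {ψ : H} (ho : Orthonormal ℂ (fun k : ℤ => T k ψ)) (f : H) :
    HasSum (fun k : ℤ => ‖⟪T k ψ, f⟫_ℂ‖ ^ 2) (‖PW ψ f‖ ^ 2) :=
  a1_proj_norm_sq ho (W ψ) rfl f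

/-- (J) -/
theorem J_mem {ψ : H} (ho : Orthonormal ℂ (fun k : ℤ => T k ψ)) {m : ℝ → ℂ} (hm : Per m) :
    M m ψ ∈ W ψ := by
  rw [Submodule.mem_iff_norm_starProjection]
  have h1 := PW_norm_sq ho (M m ψ)
  have hL : MemLp m 2 (volume.restrict (Ioc (0 : ℝ) 1)) := by
    obtain ⟨C, hC⟩ := hm.bdd
    exact MemLp.of_bound hm.meas.aestronglyMeasurable C (ae_of_all _ hC)
  have hs := hasSum_sq_fourierCoeffOn (show (0 : ℝ) < 1 by norm_num) hL
  have e1 : ((1 : ℝ) - 0)⁻¹ • ∫ x in (0 : ℝ)..1, ‖m x‖ ^ 2 = ‖M m ψ‖ ^ 2 := by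
    rw [J_norm ho hm, sub_zero, inv_one, one_smul, intervalIntegral.integral_of_le zero_le_one,
      integral_Ioc_eq_integral_Ioo, integral_Ico_eq_integral_Ioo]
  rw [e1, ← (Equiv.neg ℤ).hasSum_iff] at hs
  have h2 : ‖PW ψ (M m ψ)‖ ^ 2 = ‖M m ψ‖ ^ 2 := by
    refine HasSum.unique ?_ hs
    convert h1 using 2 with k
    simp only [Function.comp_apply, Equiv.neg_apply]
    have h3 : T k ψ = M (a1_ek k) ψ := rfl
    have hek : Per (a1_ek k) := Per.exp k
    rw [h3, J_inner ho hek hm, fourierCoeffOn_eq_integral, neg_neg]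
    rw [sub_zero, div_one, one_smul, intervalIntegral.integral_of_le zero_le_one,
      integral_Ioc_eq_integral_Ioo, integral_Ico_eq_integral_Ioo]
    congr 2
    refine integral_congr_ae (ae_of_all _ fun x => ?_)
    simp only [smul_eq_mul]
    congr 1
    rw [a1_ek_conj, a1_ek_fourier]
  exact (sq_eq_sq₀ (norm_nonneg _) (norm_nonneg _)).1 h2

theorem W_M {ψ : H} (ho : Orthonormal ℂ (fun k : ℤ => T k ψ)) {m : ℝ → ℂ} (hm : Per m) {f : H}
    (hf : f ∈ W ψ) : M m f ∈ W ψ := by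
  have hcl : IsClosed {f : H | M m f ∈ W ψ} :=
    (Submodule.isClosed_topologicalClosure _).preimage (M m).continuous
  refine hcl.closure_subset_iff.2 ?_ hf
  intro g hg
  refine Submodule.span_induction ?_ ?_ ?_ ?_ hg
  · rintro _ ⟨k, rfl⟩
    change M m (T k ψ) ∈ W ψ
    have hek : Per (a1_ek k) := Per.exp k
    have h3 : T k ψ = M (a1_ek k) ψ := rfl
    rw [h3, M_M hm.toBM hek.toBM]
    exact J_mem ho (hm.a1_mul hek)
  · change M m 0 ∈ W ψ
    rw [map_zero]
    exact zero_mem _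
  · intro g1 g2 _ _ h1 h2
    change M m (g1 + g2) ∈ W ψ
    rw [map_add]
    exact add_mem h1 h2
  · intro c g1 _ h1
    change M m (c • g1) ∈ W ψ
    rw [map_smul]
    exact Submodule.smul_mem _ _ h1

theorem PW_comm {ψ : H} (ho : Orthonormal ℂ (fun k : ℤ => T k ψ)) : PComm (PW ψ) := by
  intro m hm f
  refine Submodule.eq_starProjection_of_mem_of_inner_eq_zero
    (W_M ho hm ((W ψ).starProjection_apply_mem f)) fun w hw => ?_
  rw [← map_sub, inner_M_left hm.toBM]
  exact (W ψ).starProjection_inner_eq_zero f _ (W_M ho hm.a1_star hw)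

/-- consequence: `|ψ| ≤ 1` a.e. -/
theorem norm_psi_le_one {ψ : H} (ho : Orthonormal ℂ (fun k : ℤ => T k ψ)) :
    ∀ᵐ x, ‖ψ x‖ ≤ 1 := by
  have key : ∀ a : ℤ, ∀ᵐ x ∂(volume.restrict (Ico (a : ℝ) (a + 1))), ‖ψ x‖ ^ 2 ≤ 1 := by
    intro a
    have h1 : (fun x => ‖ψ x‖ ^ 2) ≤ᵐ[volume.restrict (Ico (a : ℝ) (a + 1))] fun _ => 1 := by
      refine ae_le_of_forall_setIntegral_le (a1_integrable_nsq ψ).integrableOn
        (integrable_const _) fun s hs _ => ?_
      rw [Measure.restrict_restrict hs]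
      let r : ℝ → ℝ := fun x => s.indicator (fun _ => (1 : ℝ)) (a + Int.fract x)
      have hr : Measurable r :=
        (measurable_const.indicator hs).comp (measurable_const.add measurable_fract)
      have hr0 : ∀ x, 0 ≤ r x := fun x => indicator_nonneg (fun _ _ => zero_le_one) _
      have hr1 : ∀ x, r x ≤ 1 := fun x =>
        indicator_le_self' (fun _ _ => zero_le_one) _
      have hper : Per (fun x => ((r x : ℝ) : ℂ)) :=
        { meas := Complex.measurable_ofReal.comp hr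
          bdd := ⟨1, fun x => by
            rw [Complex.norm_real, Real.norm_eq_abs, abs_of_nonneg (hr0 x)]
            exact hr1 x⟩
          per := fun x => by
            change ((s.indicator (fun _ => (1 : ℝ)) (a + Int.fract (x + 1)) : ℝ) : ℂ) = _
            rw [Int.fract_add_one] }
      have hJ := J_int ho hper
      have hJ' : ∫ x, r x * ‖ψ x‖ ^ 2 = ∫ x in Ico (0 : ℝ) 1, r x := by
        apply Complex.ofReal_injective
        rw [← integral_complex_ofReal, ← integral_complex_ofReal, ← hJ]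
        simp only [Complex.ofReal_mul]
      have hrI : ∀ x ∈ Ico (a : ℝ) (a + 1), r x = s.indicator (fun _ => (1 : ℝ)) x := by
        intro x hx
        have hfl : ⌊x⌋ = a := Int.floor_eq_iff.2 hx
        have : (a : ℝ) + Int.fract x = x := by
          rw [← hfl]
          exact Int.floor_add_fract x
        simp only [r, this]
      have hint : Integrable (fun x => r x * ‖ψ x‖ ^ 2) volume :=
        (a1_integrable_nsq ψ).bdd_mul (c := 1) hr.aestronglyMeasurable (ae_of_all _ fun x => by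
          rw [Real.norm_eq_abs, abs_of_nonneg (hr0 x)]
          exact hr1 x)
      calc ∫ x in s ∩ Ico (a : ℝ) (a + 1), ‖ψ x‖ ^ 2
          = ∫ x in Ico (a : ℝ) (a + 1), r x * ‖ψ x‖ ^ 2 := by
            rw [inter_comm, ← setIntegral_indicator hs]
            refine setIntegral_congr_fun measurableSet_Ico fun x hx => ?_
            simp only [hrI x hx, indicator]
            split_ifs <;> simp
        _ ≤ ∫ x, r x * ‖ψ x‖ ^ 2 :=
            setIntegral_le_integral hint (ae_of_all _ fun x => mul_nonneg (hr0 x) (by positivity))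
        _ = ∫ x in Ico (0 : ℝ) 1, r x := hJ'
        _ = ∫ x in Ico (a : ℝ) (a + 1), r x := by
            have hp : Function.Periodic r 1 := fun x => by
              simp only [r, Int.fract_add_one]
            have h2 := hp.intervalIntegral_add_eq 0 a
            rw [zero_add, intervalIntegral.integral_of_le zero_le_one,
              intervalIntegral.integral_of_le (by linarith), integral_Ioc_eq_integral_Ioo,
              integral_Ioc_eq_integral_Ioo] at h2
            rw [integral_Ico_eq_integral_Ioo, integral_Ico_eq_integral_Ioo, h2]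
        _ = ∫ x in s ∩ Ico (a : ℝ) (a + 1), (1 : ℝ) := by
            rw [inter_comm, ← setIntegral_indicator hs]
            exact setIntegral_congr_fun measurableSet_Ico fun x hx => hrI x hx
    exact h1
  have h2 : ∀ᵐ x : ℝ, ∀ a : ℤ, x ∈ Ico (a : ℝ) (a + 1) → ‖ψ x‖ ^ 2 ≤ 1 := by
    rw [ae_all_iff]
    intro a
    exact (ae_restrict_iff' measurableSet_Ico).1 (key a)
  filter_upwards [h2] with x hx
  have h3 := hx ⌊x⌋ ⟨Int.floor_le x, Int.lt_floor_add_one x⟩
  exact (sq_le_one_iff₀ (norm_nonneg _)).1 h3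

/-- a bounded measurable representative of `ψ` -/
def a1_bdRep (ψ : H) (x : ℝ) : ℂ := by
  classical
  exact if ‖ψ x‖ ≤ 1 then ψ x else 0

lemma a1_bdRep_BM (ψ : H) : BM (a1_bdRep ψ) where
  meas := by
    have h1 : Measurable (ψ : ℝ → ℂ) := (Lp.stronglyMeasurable ψ).measurable
    unfold a1_bdRep
    exact Measurable.ite (measurableSet_le h1.norm measurable_const) h1 measurable_const
  bdd := ⟨1, fun x => by
    unfold a1_bdRep
    split_ifs with hx
    · exact hx
    · simp⟩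

lemma a1_bdRep_ae {ψ : H} (ho : Orthonormal ℂ (fun k : ℤ => T k ψ)) :
    a1_bdRep ψ =ᵐ[volume] ψ := by
  filter_upwards [norm_psi_le_one ho] with x hx
  unfold a1_bdRep
  rw [if_pos hx]

/-- For `f` supported in a unit interval, `‖P_W f‖² = ∫ |ψ|²|f|²`. -/
theorem PW_norm_sq_unit {ψ : H} (ho : Orthonormal ℂ (fun k : ℤ => T k ψ)) (a : ℤ) (f : H)
    (hf : Q (Ico (a : ℝ) (a + 1)) f = f) :
    ‖PW ψ f‖ ^ 2 = ∫ x, ‖ψ x‖ ^ 2 * ‖f x‖ ^ 2 := by
  have hB := (a1_bdRep_BM ψ).star
  have hfa : ∀ᵐ x, f x = ind (Ico (a : ℝ) (a + 1)) x * f x := by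
    have h1 := Q_ae (measurableSet_Ico : MeasurableSet (Ico (a : ℝ) (a + 1))) f
    rw [hf] at h1
    exact h1
  have h1 := PW_norm_sq ho f
  have h2 := parseval_unit a (M (fun x => conj (a1_bdRep ψ x)) f)
  have h3 : ∀ k : ℤ, ⟪T k ψ, f⟫_ℂ = ⟪T k (h a), M (fun x => conj (a1_bdRep ψ x)) f⟫_ℂ := by
    intro k
    rw [L2.inner_def, L2.inner_def]
    refine integral_congr_ae ?_
    filter_upwards [a1_T_ae k ψ, a1_T_ae k (h a), h_ae a, M_ae hB f, a1_bdRep_ae ho, hfa]
      with x e1 e2 e3 e4 e5 e6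
    rw [e1, e2, e3, e4, e5]
    simp only [RCLike.inner_apply, map_mul]
    have e7 : conj (ind (Ico (a : ℝ) (a + 1)) x) = ind (Ico (a : ℝ) (a + 1)) x := by
      by_cases hx : x ∈ Ico (a : ℝ) (a + 1)
      · rw [ind_of_mem hx, map_one]
      · rw [ind_of_notMem hx, map_zero]
    rw [e7]
    conv_lhs => rw [e6]
    ring
  simp only [h3] at h1
  rw [h1.unique h2, ← integral_indicator measurableSet_Ico]
  refine integral_congr_ae ?_
  filter_upwards [M_ae hB f, a1_bdRep_ae ho, hfa] with x e4 e5 e6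
  by_cases hx : x ∈ Ico (a : ℝ) (a + 1)
  · rw [indicator_of_mem hx, e4, e5, norm_mul, RCLike.norm_conj, mul_pow]
  · rw [indicator_of_notMem hx]
    rw [ind_of_notMem hx, zero_mul] at e6
    rw [e6]
    simp

end Pool.Agent.Wav
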