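import Pool.Agent.Lib.MP_0a5c67_an.A1

/-! Task A2: elementary facts on projections, `Q`, and densities of `PComm` projections. -/

set_option autoImplicit false

open MeasureTheory Filter Topology Set
open scoped ENNReal InnerProductSpace ComplexConjugate

noncomputable section

namespace Pool.Agent.Wav

/-! ### projections -/

theorem Proj.norm_sq {P : H →L[ℂ] H} (hP : Proj P) (f : H) : ((‖P f‖ ^ 2 : ℝ) : ℂ) = ⟪P f, f⟫_ℂ := by
  have h1 : ⟪P f, f⟫_ℂ = ⟪P f, P f⟫_ℂ := by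
    rw [← hP.symm (P f) f, hP.idem]
  rw [h1, inner_self_eq_norm_sq_to_K]
  push_cast
  rfl

/-- Pythagoras -/
theorem Proj.pyth {P : H →L[ℂ] H} (hP : Proj P) (f : H) : ‖f‖ ^ 2 = ‖P f‖ ^ 2 + ‖f - P f‖ ^ 2 := by
  have h0 : ⟪P f, f - P f⟫_ℂ = 0 := by
    rw [inner_sub_right, ← hP.symm (P f) f, hP.idem, sub_self]
  have h1 := norm_add_sq_eq_norm_sq_add_norm_sq_of_inner_eq_zero (P f) (f - P f) h0
  rw [add_sub_cancel] at h1
  rw [pow_two, pow_two, pow_two]
  exact h1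

theorem Proj.norm_le {P : H →L[ℂ] H} (hP : Proj P) (f : H) : ‖P f‖ ≤ ‖f‖ := by
  have h := hP.pyth f
  have h2 : ‖P f‖ ^ 2 ≤ ‖f‖ ^ 2 := by nlinarith [sq_nonneg ‖f - P f‖]
  exact (sq_le_sq₀ (norm_nonneg _) (norm_nonneg _)).1 h2

theorem Proj.eq_of_norm {P : H →L[ℂ] H} (hP : Proj P) {f : H} (hf : ‖P f‖ = ‖f‖) : P f = f := by
  have h := hP.pyth f
  rw [hf] at h
  have h2 : ‖f - P f‖ ^ 2 = 0 := by linarith
  have h3 : ‖f - P f‖ = 0 := by simpa using h2
  exact (sub_eq_zero.1 (norm_eq_zero.1 h3)).symm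

theorem Proj.le_symm {P R : H →L[ℂ] H} (hP : Proj P) (hR : Proj R) (hRP : ∀ f, P (R f) = R f)
    (f : H) : R (P f) = R f := by
  refine ext_inner_right ℂ fun g => ?_
  rw [hR.symm, hP.symm, hRP, ← hR.symm]

/-- difference of nested projections -/
theorem Proj.sub {P R : H →L[ℂ] H} (hP : Proj P) (hR : Proj R) (hRP : ∀ f, P (R f) = R f) :
    Proj (P - R) := by
  refine ⟨fun f => ?_, fun f g => ?_⟩
  · simp only [_root_.sub_apply, map_sub, hP.idem, hR.idem, hRP,
      hP.le_symm hR hRP, sub_self, sub_zero]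
  · simp only [_root_.sub_apply, inner_sub_left, inner_sub_right, hP.symm f g,
      hR.symm f g]

theorem Proj.sub_norm_sq {P R : H →L[ℂ] H} (hP : Proj P) (hR : Proj R)
    (hRP : ∀ f, P (R f) = R f) (f : H) : ‖(P - R) f‖ ^ 2 = ‖P f‖ ^ 2 - ‖R f‖ ^ 2 := by
  have h1 := (hP.sub hR hRP).norm_sq f
  have h2 : ((‖(P - R) f‖ ^ 2 : ℝ) : ℂ) = ((‖P f‖ ^ 2 - ‖R f‖ ^ 2 : ℝ) : ℂ) := by
    rw [h1, Complex.ofReal_sub, hP.norm_sq, hR.norm_sq, _root_.sub_apply,
      inner_sub_left]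
  exact_mod_cast h2

theorem PComm.sub {A B : H →L[ℂ] H} (hA : PComm A) (hB : PComm B) : PComm (A - B) := by
  intro m hm f
  rw [_root_.sub_apply, _root_.sub_apply, hA m hm, hB m hm, map_sub]

theorem PComm.comm_T {A : H →L[ℂ] H} (hA : PComm A) (k : ℤ) (f : H) : A (T k f) = T k (A f) :=
  hA _ (Per.exp k) f

theorem proj_cD {P : H →L[ℂ] H} (hP : Proj P) : Proj (cD P) := by
  refine ⟨fun f => ?_, fun f g => ?_⟩
  · simp only [cD_apply, LinearIsometryEquiv.symm_apply_apply, hP.idem]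
  · simp only [cD_apply]
    rw [LinearIsometryEquiv.inner_map_eq_flip, hP.symm]
    exact LinearIsometryEquiv.inner_map_eq_flip D.symm f _

theorem Per.comp_two {m : ℝ → ℂ} (hm : Per m) : Per (fun x => m (2 * x)) where
  meas := hm.meas.comp (measurable_const_mul 2)
  bdd := (hm.toBM.comp_mul 2).bdd
  per := fun x => by
    have : 2 * (x + 1) = (2 * x + 1) + 1 := by ring
    rw [this, hm.per, hm.per]

theorem pcomm_cD {P : H →L[ℂ] H} (hP : PComm P) : PComm (cD P) := by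
  intro m hm f
  rw [cD_apply, cD_apply, Dsymm_M hm.toBM, hP _ hm.comp_two, D_M hm.comp_two.toBM]
  congr 2
  ext x
  congr 1
  ring

/-! ### the projections `Q A` -/

theorem ind_mul (A B : Set ℝ) : (fun x => ind A x * ind B x) = ind (A ∩ B) := by
  ext x
  unfold ind
  by_cases h1 : x ∈ A <;> by_cases h2 : x ∈ B <;> simp [h1, h2]

theorem conj_ind (A : Set ℝ) : (fun x => conj (ind A x)) = ind A := by
  ext x
  unfold ind
  by_cases h1 : x ∈ A <;> simp [h1]

theorem Q_Q {A B : Set ℝ} (hA : MeasurableSet A) (hB : MeasurableSet B) (f : H) :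
    Q A (Q B f) = Q (A ∩ B) f := by
  unfold Q
  rw [M_M (BM.ind hA) (BM.ind hB), ind_mul]

theorem proj_Q {A : Set ℝ} (hA : MeasurableSet A) : Proj (Q A) := by
  refine ⟨fun f => ?_, fun f g => ?_⟩
  · rw [Q_Q hA hA, inter_self]
  · unfold Q
    rw [inner_M_left (BM.ind hA), conj_ind]

theorem pcomm_Q {A : Set ℝ} (hA : MeasurableSet A) : PComm (Q A) := by
  intro m hm f
  exact M_comm (BM.ind hA) hm.toBM f

theorem Q_empty (f : H) : Q ∅ f = 0 := by
  have : ind ∅ = fun _ => 0 := by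
    ext x
    simp [ind]
  unfold Q
  rw [this, M_zero]

theorem Q_univ (f : H) : Q univ f = f := by
  have : ind univ = fun _ => 1 := by
    ext x
    simp [ind]
  unfold Q
  rw [this, M_one]

theorem Q_union {A B : Set ℝ} (hA : MeasurableSet A) (hB : MeasurableSet B) (hd : Disjoint A B)
    (f : H) : Q (A ∪ B) f = Q A f + Q B f := by
  have : ind (A ∪ B) = fun x => ind A x + ind B x := by
    ext x
    unfold ind
    by_cases h1 : x ∈ A
    · have h2 : x ∉ B := fun h => (Set.disjoint_left.1 hd) h1 h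
      simp [h1, h2]
    · by_cases h2 : x ∈ B <;> simp [h1, h2]
  unfold Q
  rw [this, M_add (BM.ind hA) (BM.ind hB)]

theorem Q_norm_sq {A : Set ℝ} (hA : MeasurableSet A) (f : H) :
    ‖Q A f‖ ^ 2 = ∫ x in A, ‖f x‖ ^ 2 := by
  unfold Q
  rw [norm_M_sq (BM.ind hA), ← integral_indicator hA]
  refine integral_congr_ae (ae_of_all _ fun x => ?_)
  by_cases h : x ∈ A
  · simp [ind, h]
  · simp [ind, h]

theorem Q_eq_zero_iff {A : Set ℝ} (hA : MeasurableSet A) (f : H) :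
    Q A f = 0 ↔ ∀ᵐ x, x ∈ A → f x = 0 := by
  constructor
  · intro h
    have h1 := Q_ae hA f
    rw [h] at h1
    filter_upwards [h1, Lp.coeFn_zero ℂ 2 (volume : Measure ℝ)] with x hx hx0 hxA
    rw [hx0, ind_of_mem hxA, one_mul] at hx
    exact hx.symm
  · intro h
    ext1
    filter_upwards [Q_ae hA f, Lp.coeFn_zero ℂ 2 (volume : Measure ℝ), h] with x hx hx0 hxA
    rw [hx, hx0]
    by_cases hx' : x ∈ A
    · rw [hxA hx', mul_zero]
      rfl
    · rw [ind_of_notMem hx', zero_mul]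
      rfl

theorem Q_eq_self_iff {A : Set ℝ} (hA : MeasurableSet A) (f : H) :
    Q A f = f ↔ ∀ᵐ x, x ∉ A → f x = 0 := by
  constructor
  · intro h
    have h1 := Q_ae hA f
    rw [h] at h1
    filter_upwards [h1] with x hx hxA
    rw [hx, ind_of_notMem hxA, zero_mul]
  · intro h
    ext1
    filter_upwards [Q_ae hA f, h] with x hx hxA
    rw [hx]
    by_cases hx' : x ∈ A
    · rw [ind_of_mem hx', one_mul]
    · rw [hxA hx', mul_zero]

theorem D_Q {A : Set ℝ} (hA : MeasurableSet A) (f : H) :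
    D (Q A f) = Q ((fun x => x / 2) ⁻¹' A) (D f) := by
  unfold Q
  rw [D_M (BM.ind hA)]
  rfl

theorem Dsymm_Q {A : Set ℝ} (hA : MeasurableSet A) (f : H) :
    D.symm (Q A f) = Q ((fun x => 2 * x) ⁻¹' A) (D.symm f) := by
  unfold Q
  rw [Dsymm_M (BM.ind hA)]
  rfl

theorem Dpow_Q (n : ℕ) {A : Set ℝ} (hA : MeasurableSet A) (f : H) :
    (D ^ n) (Q A f) = Q ((fun x => x / 2 ^ n) ⁻¹' A) ((D ^ n) f) := by
  unfold Q
  rw [Dpow_M n (BM.ind hA)]
  rfl

lemma integrable_norm_sq (f : H) : Integrable (fun x => ‖f x‖ ^ 2) :=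
  (memLp_two_iff_integrable_sq_norm (Lp.memLp f).1).1 (Lp.memLp f)

/-- strong continuity of multiplication operators -/
theorem M_tendsto {ι : Type*} {l : Filter ι} [l.IsCountablyGenerated] {m : ι → ℝ → ℂ} {m0 : ℝ → ℂ}
    (hm : ∀ i, BM (m i)) (hm0 : BM m0) {C : ℝ} (hC : ∀ i x, ‖m i x‖ ≤ C)
    (hlim : ∀ᵐ x, Tendsto (fun i => m i x) l (𝓝 (m0 x))) (f : H) :
    Tendsto (fun i => M (m i) f) l (𝓝 (M m0 f)) := by
  obtain ⟨C0, hC0⟩ := hm0.bdd
  have key : Tendsto (fun i => ∫ x, ‖m i x - m0 x‖ ^ 2 * ‖f x‖ ^ 2) l (𝓝 (∫ x : ℝ, (0:ℝ))) := by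
    refine tendsto_integral_filter_of_dominated_convergence (fun x => (C + C0) ^ 2 * ‖f x‖ ^ 2)
      ?_ ?_ ?_ ?_
    · refine Eventually.of_forall fun i => ?_
      exact ((((hm i).meas.sub hm0.meas).norm.pow_const 2).aestronglyMeasurable).mul
        (integrable_norm_sq f).1
    · refine Eventually.of_forall fun i => ae_of_all _ fun x => ?_
      rw [Real.norm_of_nonneg (by positivity)]
      refine mul_le_mul_of_nonneg_right ?_ (by positivity)
      exact pow_le_pow_left₀ (norm_nonneg _)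
        ((norm_sub_le _ _).trans (add_le_add (hC i x) (hC0 x))) 2
    · exact (integrable_norm_sq f).const_mul _
    · filter_upwards [hlim] with x hx
      have h1 : Tendsto (fun i => ‖m i x - m0 x‖) l (𝓝 0) := by
        have := (hx.sub_const (m0 x)).norm
        simpa using this
      have h2 := (h1.pow 2).mul_const (‖f x‖ ^ 2)
      simpa using h2
  rw [integral_zero] at key
  rw [tendsto_iff_norm_sub_tendsto_zero]
  have h3 : ∀ i, ‖M (m i) f - M m0 f‖ = Real.sqrt (∫ x, ‖m i x - m0 x‖ ^ 2 * ‖f x‖ ^ 2) := by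
    intro i
    rw [← M_sub (hm i) hm0, ← norm_M_sq ((hm i).sub hm0), Real.sqrt_sq (norm_nonneg _)]
  simp_rw [h3]
  have h4 := (Real.continuous_sqrt.tendsto 0).comp key
  rw [Real.sqrt_zero] at h4
  exact h4

/-- `Q` of sets increasing to a set of full measure -/
theorem Q_tendsto_of_absorb {A : ℕ → Set ℝ} (hA : ∀ n, MeasurableSet (A n)) (hmono : Monotone A)
    (habs : ∀ᵐ x, ∃ n, x ∈ A n) (f : H) : Tendsto (fun n => Q (A n) f) atTop (𝓝 f) := by
  have h := M_tendsto (l := atTop) (fun n => BM.ind (hA n)) (BM.const 1) (C := 1)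
    (fun n x => by
      by_cases hx : x ∈ A n <;> simp [ind, hx])
    (by
      filter_upwards [habs] with x hx
      obtain ⟨n, hn⟩ := hx
      refine tendsto_const_nhds.congr' ?_
      filter_upwards [eventually_ge_atTop n] with k hk
      rw [ind_of_mem (hmono hk hn)]) f
  rw [M_one] at h
  exact h

/-! ### densities -/

lemma mem_unit_floor (x : ℝ) : x ∈ Ico ((⌊x⌋ : ℤ) : ℝ) ((⌊x⌋ : ℤ) + 1) :=
  ⟨Int.floor_le x, Int.lt_floor_add_one x⟩

lemma floor_of_mem_unit {a : ℤ} {x : ℝ} (hx : x ∈ Ico (a : ℝ) (a + 1)) : ⌊x⌋ = a :=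
  Int.floor_eq_iff.2 hx

lemma ae_of_unit {Φ : ℝ → Prop} (h : ∀ a : ℤ, ∀ᵐ x : ℝ, x ∈ Ico (a : ℝ) (a + 1) → Φ x) :
    ∀ᵐ x : ℝ, Φ x := by
  rw [← ae_all_iff] at h
  filter_upwards [h] with x hx
  exact hx ⌊x⌋ (mem_unit_floor x)

lemma add_fract_of_mem {a : ℤ} {x : ℝ} (hx : x ∈ Ico (a : ℝ) (a + 1)) :
    (a : ℝ) + Int.fract x = x := by
  rw [Int.fract, floor_of_mem_unit hx]
  ring

/-- periodisation of a symbol from the unit interval -/
lemma BM.periodize {m : ℝ → ℂ} (hm : BM m) (a : ℤ) : Per (fun x => m (a + Int.fract x)) where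
  meas := hm.meas.comp (measurable_const.add measurable_fract)
  bdd := by
    obtain ⟨C, hC⟩ := hm.bdd
    exact ⟨C, fun x => hC _⟩
  per := fun x => by rw [Int.fract_add_one]

lemma M_periodize {m : ℝ → ℂ} (hm : BM m) (a : ℤ) {f : H}
    (hf : Q (Ico (a : ℝ) (a + 1)) f = f) :
    M (fun x => m (a + Int.fract x)) f = M m f := by
  ext1
  have h1 := (Q_eq_self_iff measurableSet_Ico f).1 hf
  filter_upwards [M_ae hm f, M_ae (hm.periodize a).toBM f, h1] with x hx1 hx2 hx3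
  rw [hx1, hx2]
  by_cases hx : x ∈ Ico (a : ℝ) (a + 1)
  · rw [add_fract_of_mem hx]
  · rw [hx3 hx, mul_zero, mul_zero]

lemma Q_h (a : ℤ) : Q (Ico (a : ℝ) (a + 1)) (h a) = h a := by
  rw [Q_eq_self_iff measurableSet_Ico]
  filter_upwards [h_ae a] with x hx hx'
  rw [hx, ind_of_notMem hx']

lemma Q_mono_self {A B : Set ℝ} (hA : MeasurableSet A) (hB : MeasurableSet B) (hAB : A ⊆ B) {f : H}
    (hf : Q A f = f) : Q B f = f := by
  rw [Q_eq_self_iff hB]
  filter_upwards [(Q_eq_self_iff hA f).1 hf] with x hx hx'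
  exact hx fun h => hx' (hAB h)

/-- the key computation: `⟪1_B h_a, P h_a⟫ = ‖P (1_B h_a)‖²` -/
lemma inner_Q_h {P : H →L[ℂ] H} (hP : Proj P) (hc : PComm P) (a : ℤ) {B : Set ℝ}
    (hB : MeasurableSet B) :
    ⟪Q B (h a), P (h a)⟫_ℂ = ((‖P (Q B (h a))‖ ^ 2 : ℝ) : ℂ) := by
  set F : ℝ → ℂ := fun x => ind B (a + Int.fract x) with hF
  have hFp : Per F := (BM.ind hB).periodize a
  have h1 : M F (h a) = Q B (h a) := M_periodize (BM.ind hB) a (Q_h a)
  have hFF : (fun x => F x * F x) = F := by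
    ext x
    simp only [hF]
    unfold ind
    by_cases hx : (a : ℝ) + Int.fract x ∈ B <;> simp [hx]
  have hFc : (fun x => conj (F x)) = F := by
    ext x
    simp only [hF]
    unfold ind
    by_cases hx : (a : ℝ) + Int.fract x ∈ B <;> simp [hx]
  have h2 : ⟪M F (h a), P (h a)⟫_ℂ = ⟪P (M F (h a)), P (h a)⟫_ℂ := by
    rw [hP.symm (M F (h a)) (P (h a)), hP.idem]
  have h3 : ⟪P (M F (h a)), P (h a)⟫_ℂ = ⟪M F (P (h a)), M F (P (h a))⟫_ℂ := by
    rw [hc F hFp, inner_M_left hFp.toBM, hFc, inner_M_left hFp.toBM, hFc,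
      M_M hFp.toBM hFp.toBM, hFF]
  rw [← h1, h2, h3, inner_self_eq_norm_sq_to_K, ← hc F hFp]
  push_cast
  rfl

lemma inner_Q_h_eq (a : ℤ) {B : Set ℝ} (hB : MeasurableSet B) (u : H) :
    ⟪Q B (h a), u⟫_ℂ = ∫ x in B, u x ∂(volume.restrict (Ico (a : ℝ) (a + 1))) := by
  rw [Measure.restrict_restrict hB, ← integral_indicator (hB.inter measurableSet_Ico), L2.inner_def]
  refine integral_congr_ae ?_
  filter_upwards [Q_ae hB (h a), h_ae a] with x hx1 hx2
  rw [hx1, hx2]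
  by_cases h1 : x ∈ B <;> by_cases h2 : x ∈ Ico (a : ℝ) (a + 1)
  · rw [ind_of_mem h1, ind_of_mem h2, indicator_of_mem (mem_inter h1 h2)]
    simp
  · rw [ind_of_notMem h2, indicator_of_notMem (fun h => h2 h.2)]
    simp
  · rw [ind_of_notMem h1, indicator_of_notMem (fun h => h1 h.1)]
    simp
  · rw [ind_of_notMem h1, indicator_of_notMem (fun h => h1 h.1)]
    simp

lemma integrable_unit (a : ℤ) (u : H) :
    Integrable (fun x => u x) (volume.restrict (Ico (a : ℝ) (a + 1))) :=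
  ((Lp.memLp u).restrict (Ico (a : ℝ) (a + 1))).integrable (by norm_num)

lemma norm_Q_h_sq (a : ℤ) {B : Set ℝ} (hB : MeasurableSet B) :
    ‖Q B (h a)‖ ^ 2 = ∫ _x in B, (1 : ℝ) ∂(volume.restrict (Ico (a : ℝ) (a + 1))) := by
  rw [Measure.restrict_restrict hB, ← integral_indicator (hB.inter measurableSet_Ico), norm_sq_eq]
  refine integral_congr_ae ?_
  filter_upwards [Q_ae hB (h a), h_ae a] with x hx1 hx2
  rw [hx1, hx2]
  by_cases h1 : x ∈ B <;> by_cases h2 : x ∈ Ico (a : ℝ) (a + 1)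
  · rw [ind_of_mem h1, ind_of_mem h2, indicator_of_mem (mem_inter h1 h2)]
    simp
  · rw [ind_of_notMem h2, indicator_of_notMem (fun h => h2 h.2)]
    simp
  · rw [ind_of_notMem h1, indicator_of_notMem (fun h => h1 h.1)]
    simp
  · rw [ind_of_notMem h1, indicator_of_notMem (fun h => h1 h.1)]
    simp

/-- On `[a,a+1)` the function `P h_a` is real with values in `[0,1]`. -/
lemma P_h_range {P : H →L[ℂ] H} (hP : Proj P) (hc : PComm P) (a : ℤ) :
    ∀ᵐ x : ℝ, x ∈ Ico (a : ℝ) (a + 1) →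
      0 ≤ (P (h a) x).re ∧ (P (h a) x).re ≤ 1 ∧ (P (h a) x).im = 0 := by
  rw [← ae_restrict_iff' measurableSet_Ico]
  have hint := integrable_unit a (P (h a))
  have hre : Integrable (fun x => (P (h a) x).re) (volume.restrict (Ico (a : ℝ) (a + 1))) := hint.re
  have him : Integrable (fun x => (P (h a) x).im) (volume.restrict (Ico (a : ℝ) (a + 1))) := hint.im
  have key : ∀ s : Set ℝ, MeasurableSet s →
      (∫ x in s, (P (h a) x).re ∂(volume.restrict (Ico (a : ℝ) (a + 1)))) = ‖P (Q s (h a))‖ ^ 2 ∧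
      (∫ x in s, (P (h a) x).im ∂(volume.restrict (Ico (a : ℝ) (a + 1)))) = 0 := by
    intro s hs
    have h1 := inner_Q_h hP hc a hs
    rw [inner_Q_h_eq a hs] at h1
    have h2 : ∫ x in s, (P (h a) x).re ∂(volume.restrict (Ico (a : ℝ) (a + 1)))
        = (∫ x in s, P (h a) x ∂(volume.restrict (Ico (a : ℝ) (a + 1)))).re :=
      integral_re (hint.restrict (s := s))
    have h3 : ∫ x in s, (P (h a) x).im ∂(volume.restrict (Ico (a : ℝ) (a + 1)))
        = (∫ x in s, P (h a) x ∂(volume.restrict (Ico (a : ℝ) (a + 1)))).im :=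
      integral_im (hint.restrict (s := s))
    rw [h2, h3, h1]
    exact ⟨Complex.ofReal_re _, Complex.ofReal_im _⟩
  have a1 := ae_nonneg_of_forall_setIntegral_nonneg hre
    (fun s hs _ => by rw [(key s hs).1]; positivity)
  have a2 := ae_le_of_forall_setIntegral_le hre (integrable_const (1 : ℝ))
    (fun s hs _ => by
      rw [(key s hs).1, ← norm_Q_h_sq a hs]
      exact pow_le_pow_left₀ (norm_nonneg _) (hP.norm_le _) 2)
  have a3 := ae_nonneg_of_forall_setIntegral_nonneg him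
    (fun s hs _ => by rw [(key s hs).2])
  have a4 := ae_le_of_forall_setIntegral_le him (integrable_const (0 : ℝ))
    (fun s hs _ => by
      rw [(key s hs).2]
      simp)
  filter_upwards [a1, a2, a3, a4] with x h1 h2 h3 h4
  exact ⟨h1, h2, le_antisymm h4 h3⟩

lemma meas_floor_family {u : ℤ → ℝ → ℝ} (hu : ∀ a, Measurable (u a)) :
    Measurable (fun x : ℝ => u ⌊x⌋ x) := by
  have h1 : Measurable (fun q : ℤ × ℝ => u q.1 q.2) :=
    measurable_from_prod_countable_right hu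
  exact h1.comp (Int.measurable_floor.prodMk measurable_id)

theorem exists_dens {P : H →L[ℂ] H} (hP : Proj P) (hc : PComm P) : ∃ p : ℝ → ℝ, IsDens P p := by
  set p : ℝ → ℝ := fun x => max 0 (min 1 (P (h ⌊x⌋) x).re) with hp
  have hpm : Measurable p := by
    have hu : ∀ a : ℤ, Measurable (fun x => max 0 (min 1 (P (h a) x).re)) := fun a =>
      measurable_const.max (measurable_const.min
        (Complex.measurable_re.comp (Lp.stronglyMeasurable (P (h a))).measurable))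
    exact meas_floor_family hu
  have hp0 : ∀ x, 0 ≤ p x := fun x => le_max_left _ _
  have hp1 : ∀ x, p x ≤ 1 := fun x => max_le zero_le_one (min_le_left _ _)
  have hpBM : BM (fun x => (p x : ℂ)) := ⟨Complex.measurable_ofReal.comp hpm, 1, fun x => by
    rw [Complex.norm_real, Real.norm_of_nonneg (hp0 x)]
    exact hp1 x⟩
  have hQh : ∀ a : ℤ, Q (Ico (a : ℝ) (a + 1)) (P (h a)) = M (fun x => (p x : ℂ)) (h a) := by
    intro a
    ext1
    filter_upwards [Q_ae (measurableSet_Ico : MeasurableSet (Ico (a : ℝ) (a + 1))) (P (h a)),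
      M_ae hpBM (h a), h_ae a, P_h_range hP hc a] with x h1 h2 h3 h4
    rw [h1, h2, h3]
    by_cases hx : x ∈ Ico (a : ℝ) (a + 1)
    · obtain ⟨h5, h6, h7⟩ := h4 hx
      rw [ind_of_mem hx, one_mul, mul_one]
      simp only [hp]
      rw [floor_of_mem_unit hx, min_eq_right h6, max_eq_right h5]
      apply Complex.ext
      · simp
      · simpa using h7
    · rw [ind_of_notMem hx, zero_mul, mul_zero]
  refine ⟨p, hpm, hp0, hp1, fun a f hf => ?_⟩
  -- truncations
  set A : ℕ → Set ℝ := fun n => {x | ‖f x‖ ≤ n} with hA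
  have hfm : Measurable (fun x => f x) := (Lp.stronglyMeasurable f).measurable
  have hAm : ∀ n, MeasurableSet (A n) := fun n => measurableSet_le hfm.norm measurable_const
  have hAmono : Monotone A := by
    intro m n hmn x hx
    exact le_trans (show ‖f x‖ ≤ (m : ℝ) from hx) (by exact_mod_cast hmn)
  have hAabs : ∀ᵐ x : ℝ, ∃ n, x ∈ A n := ae_of_all _ fun x => exists_nat_ge ‖f x‖
  have hlim := Q_tendsto_of_absorb hAm hAmono hAabs f
  have hn : ∀ n, Q (Ico (a : ℝ) (a + 1)) (P (Q (A n) f)) = M (fun x => (p x : ℂ)) (Q (A n) f) := by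
    intro n
    set G : ℝ → ℂ := (A n).indicator (fun x => f x) with hG
    have hGB : BM G := ⟨hfm.indicator (hAm n), n, fun x => by
      simp only [hG]
      by_cases hx : x ∈ A n
      · rw [indicator_of_mem hx]
        exact hx
      · rw [indicator_of_notMem hx, norm_zero]
        positivity⟩
    have h1 : Q (A n) f = M (fun x => G (a + Int.fract x)) (h a) := by
      rw [M_periodize hGB a (Q_h a)]
      ext1
      filter_upwards [Q_ae (hAm n) f, M_ae hGB (h a), h_ae a,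
        (Q_eq_self_iff measurableSet_Ico f).1 hf] with x h1 h2 h3 h4
      rw [h1, h2, h3]
      simp only [hG]
      by_cases hx : x ∈ A n
      · rw [indicator_of_mem hx, ind_of_mem hx, one_mul]
        by_cases hx' : x ∈ Ico (a : ℝ) (a + 1)
        · rw [ind_of_mem hx', mul_one]
        · rw [ind_of_notMem hx', mul_zero, h4 hx']
      · rw [indicator_of_notMem hx, ind_of_notMem hx, zero_mul, zero_mul]
    have hGp := hGB.periodize a
    rw [h1, hc _ hGp, pcomm_Q measurableSet_Ico _ hGp, hQh, M_comm hpBM hGp.toBM]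
  have l1 : Tendsto (fun n => Q (Ico (a : ℝ) (a + 1)) (P (Q (A n) f))) atTop
      (𝓝 (Q (Ico (a : ℝ) (a + 1)) (P f))) :=
    (((Q (Ico (a : ℝ) (a + 1))).continuous.comp P.continuous).tendsto f).comp hlim
  have l2 : Tendsto (fun n => M (fun x => (p x : ℂ)) (Q (A n) f)) atTop
      (𝓝 (M (fun x => (p x : ℂ)) f)) :=
    ((M (fun x => (p x : ℂ))).continuous.tendsto f).comp hlim
  simp_rw [hn] at l1
  exact tendsto_nhds_unique l1 l2

theorem IsDens.bm {P : H →L[ℂ] H} {p : ℝ → ℝ} (hp : IsDens P p) : BM (fun x => (p x : ℂ)) :=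
  ⟨Complex.measurable_ofReal.comp hp.meas, 1, fun x => by
    rw [Complex.norm_real, Real.norm_of_nonneg (hp.nonneg x)]
    exact hp.le_one x⟩

theorem IsDens.ae_unique {P : H →L[ℂ] H} {p q : ℝ → ℝ} (hp : IsDens P p) (hq : IsDens P q) :
    p =ᵐ[volume] q := by
  refine ae_of_unit (Φ := fun x => p x = q x) fun a => ?_
  have h1 : M (fun x => (p x : ℂ)) (h a) = M (fun x => (q x : ℂ)) (h a) := by
    rw [← hp.spec a (h a) (Q_h a), ← hq.spec a (h a) (Q_h a)]
  have h2 := M_ae hp.bm (h a)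
  rw [h1] at h2
  filter_upwards [h2, M_ae hq.bm (h a), h_ae a] with x hx1 hx2 hx3 hx
  rw [hx2, hx3, ind_of_mem hx, mul_one, mul_one] at hx1
  exact_mod_cast hx1.symm

theorem IsDens.congr {P : H →L[ℂ] H} {p q : ℝ → ℝ} (hp : IsDens P p) (hq : Measurable q)
    (h0 : ∀ x, 0 ≤ q x) (h1 : ∀ x, q x ≤ 1) (hpq : p =ᵐ[volume] q) : IsDens P q := by
  refine ⟨hq, h0, h1, fun a f hf => ?_⟩
  have hqB : BM (fun x => (q x : ℂ)) := ⟨Complex.measurable_ofReal.comp hq, 1, fun x => by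
    rw [Complex.norm_real, Real.norm_of_nonneg (h0 x)]
    exact h1 x⟩
  rw [hp.spec a f hf]
  refine M_congr hp.bm hqB ?_ f
  filter_upwards [hpq] with x hx
  rw [hx]

theorem IsDens.norm_sq {P : H →L[ℂ] H} {p : ℝ → ℝ} (hp : IsDens P p) (hP : Proj P) (a : ℤ) (f : H)
    (hf : Q (Ico (a : ℝ) (a + 1)) f = f) : ‖P f‖ ^ 2 = ∫ x, p x * ‖f x‖ ^ 2 := by
  have h1 : ((‖P f‖ ^ 2 : ℝ) : ℂ) = ⟪M (fun x => (p x : ℂ)) f, f⟫_ℂ := by
    rw [hP.norm_sq, ← hp.spec a f hf, (proj_Q measurableSet_Ico).symm, hf]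
  have h2 : ⟪M (fun x => (p x : ℂ)) f, f⟫_ℂ = ((∫ x, p x * ‖f x‖ ^ 2 : ℝ) : ℂ) := by
    rw [L2.inner_def]
    refine Eq.trans ?_ integral_complex_ofReal
    refine integral_congr_ae ?_
    filter_upwards [M_ae hp.bm f] with x hx
    rw [hx]
    simp only [RCLike.inner_apply, map_mul, Complex.conj_ofReal]
    rw [mul_comm (f x), mul_assoc, ← Complex.normSq_eq_conj_mul_self, Complex.normSq_eq_norm_sq]
    push_cast
    ring
  rw [h2] at h1
  exact_mod_cast h1

/-- a density is determined by the norms on indicator functions of sets in unit intervals;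
used to compute densities -/
theorem isDens_of_norm_sq {P : H →L[ℂ] H} (hP : Proj P) (hc : PComm P) {q : ℝ → ℝ}
    (hq : Measurable q) (h0 : ∀ x, 0 ≤ q x) (h1 : ∀ x, q x ≤ 1)
    (hn : ∀ (a : ℤ) (f : H), Q (Ico (a : ℝ) (a + 1)) f = f → ‖P f‖ ^ 2 = ∫ x, q x * ‖f x‖ ^ 2) :
    IsDens P q := by
  obtain ⟨p, hp⟩ := exists_dens hP hc
  refine hp.congr hq h0 h1 ?_
  refine ae_of_unit (Φ := fun x => p x = q x) fun a => ?_
  rw [← ae_restrict_iff' measurableSet_Ico]
  have hint : ∀ r : ℝ → ℝ, Measurable r → (∀ x, 0 ≤ r x) → (∀ x, r x ≤ 1) →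
      Integrable r (volume.restrict (Ico (a : ℝ) (a + 1))) := by
    intro r hr hr0 hr1
    refine Integrable.mono' (integrable_const (1 : ℝ)) hr.aestronglyMeasurable
      (ae_of_all _ fun x => ?_)
    rw [Real.norm_of_nonneg (hr0 x)]
    exact hr1 x
  have hcomp : ∀ (r : ℝ → ℝ) (s : Set ℝ), MeasurableSet s →
      ∫ x, r x * ‖(Q s (h a) : H) x‖ ^ 2 = ∫ x in s, r x ∂(volume.restrict (Ico (a : ℝ) (a + 1))) := by
    intro r s hs
    rw [Measure.restrict_restrict hs, ← integral_indicator (hs.inter measurableSet_Ico)]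
    refine integral_congr_ae ?_
    filter_upwards [Q_ae hs (h a), h_ae a] with x hx1 hx2
    rw [hx1, hx2]
    by_cases h1 : x ∈ s <;> by_cases h2 : x ∈ Ico (a : ℝ) (a + 1)
    · rw [ind_of_mem h1, ind_of_mem h2, indicator_of_mem (mem_inter h1 h2)]
      simp
    · rw [ind_of_notMem h2, indicator_of_notMem (fun h => h2 h.2)]
      simp
    · rw [ind_of_notMem h1, indicator_of_notMem (fun h => h1 h.1)]
      simp
    · rw [ind_of_notMem h1, indicator_of_notMem (fun h => h1 h.1)]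
      simp
  refine Integrable.ae_eq_of_forall_setIntegral_eq p q (hint p hp.meas hp.nonneg hp.le_one)
    (hint q hq h0 h1) fun s hs _ => ?_
  have hsupp : Q (Ico (a : ℝ) (a + 1)) (Q s (h a)) = Q s (h a) := by
    rw [Q_Q measurableSet_Ico hs, inter_comm, ← Q_Q hs measurableSet_Ico, Q_h]
  rw [← hcomp p s hs, ← hcomp q s hs, ← hp.norm_sq hP a _ hsupp, ← hn a _ hsupp]

theorem IsDens.conjD {P : H →L[ℂ] H} {p : ℝ → ℝ} (hp : IsDens P p) (hP : Proj P) (hc : PComm P) :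
    IsDens (cD P) (fun x => p (x / 2)) := by
  refine isDens_of_norm_sq (proj_cD hP) (pcomm_cD hc) (hp.meas.comp (measurable_id.div_const 2))
    (fun x => hp.nonneg _) (fun x => hp.le_one _) fun a f hf => ?_
  have hn : ‖cD P f‖ = ‖P (D.symm f)‖ := by
    rw [cD_apply, LinearIsometryEquiv.norm_map]
  have hAm : MeasurableSet ((fun x : ℝ => 2 * x) ⁻¹' (Ico (a : ℝ) (a + 1))) :=
    (measurable_const_mul 2) measurableSet_Ico
  have hsub : ((fun x : ℝ => 2 * x) ⁻¹' (Ico (a : ℝ) (a + 1))) ⊆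
      Ico (((a / 2 : ℤ) : ℤ) : ℝ) (((a / 2 : ℤ) : ℤ) + 1) := by
    intro x hx
    obtain ⟨hx1, hx2⟩ := hx
    have e1 : 2 * (a / 2) ≤ a := by omega
    have e2 : a + 1 ≤ 2 * (a / 2) + 2 := by omega
    have e1' : (2 : ℝ) * ((a / 2 : ℤ) : ℝ) ≤ a := by exact_mod_cast e1
    have e2' : (a : ℝ) + 1 ≤ 2 * ((a / 2 : ℤ) : ℝ) + 2 := by exact_mod_cast e2
    simp only at hx1 hx2
    constructor <;> linarith
  have hsupp : Q (Ico (((a / 2 : ℤ) : ℤ) : ℝ) (((a / 2 : ℤ) : ℤ) + 1)) (D.symm f) = D.symm f := by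
    refine Q_mono_self hAm measurableSet_Ico hsub ?_
    rw [← Dsymm_Q measurableSet_Ico, hf]
  rw [hn, hp.norm_sq hP (a / 2) _ hsupp]
  have h1 : ∫ x, p x * ‖(D.symm f : H) x‖ ^ 2 = ∫ x, 2 * (p ((2 * x) / 2) * ‖f (2 * x)‖ ^ 2) := by
    refine integral_congr_ae ?_
    filter_upwards [Dsymm_ae f] with x hx
    rw [hx, norm_mul, mul_pow, Complex.norm_real, Real.norm_of_nonneg (Real.sqrt_nonneg 2),
      Real.sq_sqrt (by norm_num)]
    have : (2 * x) / 2 = x := by ring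
    rw [this]
    ring
  rw [h1, integral_const_mul,
    Measure.integral_comp_mul_left (fun x => p (x / 2) * ‖f x‖ ^ 2) (2 : ℝ)]
  rw [smul_eq_mul, ← mul_assoc]
  norm_num

/-- the union of the unit intervals with index in a finite set -/
def US (s : Finset ℤ) : Set ℝ := {x | ⌊x⌋ ∈ s}

lemma measurableSet_US (s : Finset ℤ) : MeasurableSet (US s) :=
  Int.measurable_floor s.measurableSet

lemma US_insert {a : ℤ} {s : Finset ℤ} : US (insert a s) = Ico (a : ℝ) (a + 1) ∪ US s := by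
  ext x
  simp only [US, Finset.mem_insert, mem_ofPred_eq, mem_union]
  constructor
  · rintro (h | h)
    · left
      rw [← h]
      exact mem_unit_floor x
    · exact Or.inr h
  · rintro (h | h)
    · exact Or.inl (floor_of_mem_unit h)
    · exact Or.inr h

lemma Q_US_tendsto (f : H) :
    Tendsto (fun n : ℕ => Q (US (Finset.Icc (-(n : ℤ)) n)) f) atTop (𝓝 f) := by
  refine Q_tendsto_of_absorb (fun n => measurableSet_US _) ?_ ?_ f
  · intro m n hmn x hx
    simp only [US, Finset.mem_Icc, mem_ofPred_eq] at hx ⊢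
    omega
  · refine ae_of_all _ fun x => ⟨⌊x⌋.natAbs, ?_⟩
    simp only [US, Finset.mem_Icc, mem_ofPred_eq]
    omega

/-- a closed linear condition can be checked on functions supported in unit intervals -/
lemma fix_of_units {R : H →L[ℂ] H} (f : H)
    (hu : ∀ a : ℤ, R (Q (Ico (a : ℝ) (a + 1)) f) = Q (Ico (a : ℝ) (a + 1)) f) : R f = f := by
  have h1 : ∀ s : Finset ℤ, R (Q (US s) f) = Q (US s) f := by
    intro s
    induction s using Finset.induction_on with
    | empty =>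
      have : US ∅ = ∅ := by
        ext x
        simp [US]
      rw [this, Q_empty, map_zero]
    | insert a s ha ih =>
      have hd : Disjoint (Ico (a : ℝ) (a + 1)) (US s) := by
        rw [Set.disjoint_left]
        intro x hx hx'
        have h1 := floor_of_mem_unit hx
        simp only [US, mem_ofPred_eq] at hx'
        rw [h1] at hx'
        exact ha hx'
      rw [US_insert, Q_union measurableSet_Ico (measurableSet_US s) hd, map_add, hu a, ih]
  have h2 := Q_US_tendsto f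
  have h3 := (R.continuous.tendsto f).comp h2
  have h4 : (R ∘ fun n : ℕ => Q (US (Finset.Icc (-(n : ℤ)) n)) f) =
      fun n : ℕ => Q (US (Finset.Icc (-(n : ℤ)) n)) f := by
    ext1 n
    exact h1 _
  rw [h4] at h3
  exact tendsto_nhds_unique h3 h2

/-- where the density is `1`, functions are in the range -/
theorem IsDens.fix {P : H →L[ℂ] H} {p : ℝ → ℝ} (hp : IsDens P p) (hP : Proj P) {A : Set ℝ}
    (hA : MeasurableSet A) (h1 : ∀ᵐ x, x ∈ A → p x = 1) (f : H) : P (Q A f) = Q A f := by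
  refine fix_of_units _ fun a => ?_
  set g := Q (Ico (a : ℝ) (a + 1)) (Q A f) with hg
  have hgs : Q (Ico (a : ℝ) (a + 1)) g = g := (proj_Q measurableSet_Ico).idem _
  have hgA : Q A g = g := by
    rw [hg, Q_Q measurableSet_Ico hA, Q_Q hA (measurableSet_Ico.inter hA)]
    congr 1
    congr 1
    ext x
    simp only [mem_inter_iff]
    tauto
  refine hP.eq_of_norm ?_
  have h2 := hp.norm_sq hP a g hgs
  have h3 : ∫ x, p x * ‖g x‖ ^ 2 = ∫ x, ‖g x‖ ^ 2 := by
    refine integral_congr_ae ?_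
    filter_upwards [h1, (Q_eq_self_iff hA g).1 hgA] with x hx1 hx2
    by_cases hx : x ∈ A
    · rw [hx1 hx, one_mul]
    · rw [hx2 hx]
      simp
  rw [h3, ← norm_sq_eq] at h2
  exact (sq_eq_sq₀ (norm_nonneg _) (norm_nonneg _)).1 h2

theorem IsDens.one_of_fix {P : H →L[ℂ] H} {p : ℝ → ℝ} (hp : IsDens P p) (hP : Proj P) {A : Set ℝ}
    (hA : MeasurableSet A) (h1 : ∀ f, P (Q A f) = Q A f) : ∀ᵐ x, x ∈ A → p x = 1 := by
  have _ := hP
  refine ae_of_unit fun a => ?_
  have hsupp : Q (Ico (a : ℝ) (a + 1)) (Q A (h a)) = Q A (h a) := by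
    rw [Q_Q measurableSet_Ico hA, inter_comm, ← Q_Q hA measurableSet_Ico, Q_h]
  have h2 := hp.spec a _ hsupp
  rw [h1, hsupp] at h2
  have h3 := M_ae hp.bm (Q A (h a))
  rw [← h2] at h3
  filter_upwards [h3, Q_ae hA (h a), h_ae a] with x hx1 hx2 hx3 hx hxA
  rw [hx2, hx3, ind_of_mem hx, ind_of_mem hxA, mul_one, mul_one] at hx1
  exact_mod_cast hx1.symm

/-- for subsets of unit intervals on which `p ≤ δ` -/
theorem IsDens.norm_Q_le {P : H →L[ℂ] H} {p : ℝ → ℝ} (hp : IsDens P p) (hP : Proj P) (a : ℤ)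
    {A : Set ℝ} (hA : MeasurableSet A) (hAa : A ⊆ Ico (a : ℝ) (a + 1)) {δ : ℝ} (hδ0 : 0 ≤ δ)
    (hδ : ∀ᵐ x, x ∈ A → p x ≤ δ) (f : H) : ‖Q A (P f)‖ ^ 2 ≤ δ * ‖f‖ ^ 2 := by
  set g := Q A (P f) with hg
  have hgA : Q A g = g := (proj_Q hA).idem _
  have hgs : Q (Ico (a : ℝ) (a + 1)) g = g := Q_mono_self hA measurableSet_Ico hAa hgA
  -- `‖P g‖² ≤ δ ‖g‖²`
  have h1 : ‖P g‖ ^ 2 ≤ δ * ‖g‖ ^ 2 := by
    rw [hp.norm_sq hP a g hgs, norm_sq_eq g, ← integral_const_mul]
    refine integral_mono_ae ?_ ((integrable_norm_sq g).const_mul δ) ?_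
    · refine Integrable.mono' (integrable_norm_sq g)
        (hp.meas.aestronglyMeasurable.mul (integrable_norm_sq g).1) (ae_of_all _ fun x => ?_)
      rw [Real.norm_of_nonneg (mul_nonneg (hp.nonneg x) (by positivity))]
      exact mul_le_of_le_one_left (by positivity) (hp.le_one x)
    · filter_upwards [hδ, (Q_eq_self_iff hA g).1 hgA] with x hx1 hx2
      by_cases hx : x ∈ A
      · exact mul_le_mul_of_nonneg_right (hx1 hx) (by positivity)
      · rw [hx2 hx]
        simp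
  -- `‖g‖² ≤ ‖f‖ ‖P g‖`
  have h2 : ‖g‖ ^ 2 ≤ ‖f‖ * ‖P g‖ := by
    have e1 : ((‖g‖ ^ 2 : ℝ) : ℂ) = ⟪f, P g⟫_ℂ := by
      have := (proj_Q hA).norm_sq (P f)
      rw [← hg] at this
      rw [this, ← hP.symm f g, hg, (proj_Q hA).symm]
    have e2 : ‖g‖ ^ 2 = ‖(⟪f, P g⟫_ℂ : ℂ)‖ := by
      rw [← e1, Complex.norm_real, Real.norm_of_nonneg (by positivity)]
    rw [e2]
    exact norm_inner_le_norm _ _
  have h3 : ‖P g‖ ≤ Real.sqrt δ * ‖g‖ := by
    have : ‖P g‖ ^ 2 ≤ (Real.sqrt δ * ‖g‖) ^ 2 := by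
      rw [mul_pow, Real.sq_sqrt hδ0]
      exact h1
    exact (sq_le_sq₀ (norm_nonneg _) (by positivity)).1 this
  have h4 : ‖g‖ ≤ Real.sqrt δ * ‖f‖ := by
    by_cases hg0 : ‖g‖ = 0
    · rw [hg0]
      positivity
    · have hgp : 0 < ‖g‖ := lt_of_le_of_ne (norm_nonneg _) (Ne.symm hg0)
      have h5 : ‖g‖ * ‖g‖ ≤ (Real.sqrt δ * ‖f‖) * ‖g‖ := by
        calc ‖g‖ * ‖g‖ = ‖g‖ ^ 2 := by ring
          _ ≤ ‖f‖ * ‖P g‖ := h2
          _ ≤ ‖f‖ * (Real.sqrt δ * ‖g‖) := mul_le_mul_of_nonneg_left h3 (norm_nonneg _)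
          _ = (Real.sqrt δ * ‖f‖) * ‖g‖ := by ring
      exact le_of_mul_le_mul_right h5 hgp
  calc ‖g‖ ^ 2 ≤ (Real.sqrt δ * ‖f‖) ^ 2 := pow_le_pow_left₀ (norm_nonneg _) h4 2
    _ = δ * ‖f‖ ^ 2 := by rw [mul_pow, Real.sq_sqrt hδ0]

end Pool.Agent.Wav
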