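import Pool.Agent.Lib.MP_0a5c67_an.A2

/-! Task A3: the trace `tr P = Σ_a ‖P h_a‖²`. -/

set_option autoImplicit false

open MeasureTheory Filter Topology Set
open scoped ENNReal InnerProductSpace ComplexConjugate

noncomputable section

namespace Pool.Agent.Wav

/-- `tr P = t` -/
def TR (P : H →L[ℂ] H) (t : ℝ) : Prop := HasSum (fun a : ℤ => ‖P (h a)‖ ^ 2) t

/-! ### helper lemmas -/

theorem a3_hasSum_iff {ι : Type*} {f : ι → ℝ} (hf : ∀ i, 0 ≤ f i) {t : ℝ} (ht : 0 ≤ t) :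
    HasSum f t ↔ ∑' i, ENNReal.ofReal (f i) = ENNReal.ofReal t := by
  constructor
  · intro hs
    rw [← ENNReal.ofReal_tsum_of_nonneg hf hs.summable, hs.tsum_eq]
  · intro hs
    have h1 : Summable f := by
      have h2 := ENNReal.summable_toReal (f := fun i => ENNReal.ofReal (f i))
        (by rw [hs]; exact ENNReal.ofReal_ne_top)
      simpa only [ENNReal.toReal_ofReal (hf _)] using h2
    have h3 := ENNReal.ofReal_tsum_of_nonneg hf h1
    rw [hs] at h3
    have h4 : ∑' i, f i = t :=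
      (ENNReal.ofReal_eq_ofReal_iff (tsum_nonneg hf) ht).mp h3
    rw [← h4]
    exact h1.hasSum

theorem a3_Q_h (a : ℤ) : Q (Ico (a : ℝ) (a + 1)) (h a) = h a := by
  rw [Q_eq_self_iff measurableSet_Ico]
  filter_upwards [h_ae a] with x hx hxa
  rw [hx, ind_of_notMem hxa]

theorem a3_norm_h (a : ℤ) : ∀ᵐ x, ‖h a x‖ ^ 2 = (Ico (a : ℝ) (a + 1)).indicator (fun _ => (1 : ℝ)) x := by
  filter_upwards [h_ae a] with x hx
  rw [hx]
  by_cases hxa : x ∈ Ico (a : ℝ) (a + 1)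
  · rw [ind_of_mem hxa, indicator_of_mem hxa]
    simp
  · rw [ind_of_notMem hxa, indicator_of_notMem hxa]
    simp

theorem a3_int_mul_h (a : ℤ) (p : ℝ → ℝ) :
    ∫ x, p x * ‖h a x‖ ^ 2 = ∫ x in Ico (a : ℝ) (a + 1), p x := by
  rw [← integral_indicator measurableSet_Ico]
  refine integral_congr_ae ?_
  filter_upwards [a3_norm_h a] with x hx
  rw [hx]
  by_cases hxa : x ∈ Ico (a : ℝ) (a + 1)
  · rw [indicator_of_mem hxa, indicator_of_mem hxa, mul_one]
  · rw [indicator_of_notMem hxa, indicator_of_notMem hxa, mul_zero]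

theorem a3_disj : Pairwise (Function.onFun Disjoint fun a : ℤ => Ico (a : ℝ) (a + 1)) :=
  pairwise_disjoint_Ico_intCast ℝ

theorem a3_union : ⋃ a : ℤ, Ico (a : ℝ) (a + 1) = univ := iUnion_Ico_intCast ℝ

theorem a3_hasSum_int {p : ℝ → ℝ} (hp : Integrable p) :
    HasSum (fun a : ℤ => ∫ x in Ico (a : ℝ) (a + 1), p x) (∫ x, p x) := by
  have := hasSum_integral_iUnion (f := p) (μ := volume) (fun a : ℤ => measurableSet_Ico) a3_disj
    (by rw [a3_union]; exact hp.integrableOn)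
  rwa [a3_union, setIntegral_univ] at this

theorem IsDens.a3_integrableOn {P : H →L[ℂ] H} {p : ℝ → ℝ} (hp : IsDens P p) {s : Set ℝ}
    (hs : volume s ≠ ∞) : IntegrableOn p s := by
  refine Measure.integrableOn_of_bounded (M := 1) hs hp.meas.aestronglyMeasurable ?_
  refine ae_of_all _ fun x => ?_
  rw [Real.norm_of_nonneg (hp.nonneg x)]
  exact hp.le_one x

/-- trace as integral of the density -/
theorem tr_iff_dens {P : H →L[ℂ] H} {p : ℝ → ℝ} (hp : IsDens P p) (hP : Proj P) (t : ℝ) :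
    TR P t ↔ Integrable p ∧ ∫ x, p x = t := by
  have h1 : ∀ a : ℤ, ‖P (h a)‖ ^ 2 = ∫ x in Ico (a : ℝ) (a + 1), p x := by
    intro a
    rw [hp.norm_sq hP a (h a) (a3_Q_h a), a3_int_mul_h]
  unfold TR
  simp only [h1]
  constructor
  · intro hs
    have hi : IntegrableOn p (⋃ a : ℤ, Ico (a : ℝ) (a + 1)) := by
      refine integrableOn_iUnion_of_summable_integral_norm (fun a => ?_) ?_
      · exact hp.a3_integrableOn (by simp)
      · refine hs.summable.congr fun a => ?_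
        refine setIntegral_congr_fun measurableSet_Ico fun x _ => ?_
        exact (Real.norm_of_nonneg (hp.nonneg x)).symm
    rw [a3_union, integrableOn_univ] at hi
    exact ⟨hi, (a3_hasSum_int hi).unique hs⟩
  · rintro ⟨hi, rfl⟩
    exact a3_hasSum_int hi

theorem tr_cD {P : H →L[ℂ] H} (hP : Proj P) (hc : PComm P) {t : ℝ} (ht : TR P t) :
    TR (cD P) (2 * t) := by
  obtain ⟨p, hp⟩ := exists_dens hP hc
  have h1 := (tr_iff_dens hp hP t).mp ht
  rw [tr_iff_dens (hp.conjD hP hc) (proj_cD hP)]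
  refine ⟨h1.1.comp_div two_ne_zero, ?_⟩
  rw [Measure.integral_comp_div, h1.2]
  simp

/-- exchange: for operators commuting with the modulations -/
theorem tr_adjoint {F : H →L[ℂ] H} (hF : ∀ (k : ℤ) (f : H), F (T k f) = T k (F f)) {t : ℝ}
    (ht : TR F t) : TR (ContinuousLinearMap.adjoint F) t := by
  have ht0 : 0 ≤ t := ht.nonneg fun a => sq_nonneg _
  have key : ∀ (G : H →L[ℂ] H) (a : ℤ), ENNReal.ofReal (‖G (h a)‖ ^ 2) =
      ∑' b : ℤ, ∑' l : ℤ, ENNReal.ofReal (‖⟪T l (h b), G (h a)⟫_ℂ‖ ^ 2) := by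
    intro G a
    have h1 := (a3_hasSum_iff (fun _ => sq_nonneg _) (sq_nonneg _)).mp (parseval_all (G (h a)))
    rw [← h1, ENNReal.tsum_prod']
  have h1 : ∑' a : ℤ, ENNReal.ofReal (‖F (h a)‖ ^ 2) = ENNReal.ofReal t :=
    (a3_hasSum_iff (fun _ => sq_nonneg _) ht0).mp ht
  refine (a3_hasSum_iff (fun _ => sq_nonneg _) ht0).mpr ?_
  rw [← h1]
  simp only [key]
  rw [ENNReal.tsum_comm]
  refine tsum_congr fun b => tsum_congr fun a => ?_
  rw [← (Equiv.neg ℤ).tsum_eq]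
  refine tsum_congr fun l => ?_
  congr 2
  rw [Equiv.neg_apply, ContinuousLinearMap.adjoint_inner_right, hF, inner_T, neg_neg,
    norm_inner_symm]

theorem tr_zero {P : H →L[ℂ] H} (hP : Proj P) (hc : PComm P) (h0 : TR P 0) (f : H) : P f = 0 := by
  have h1 := (hasSum_zero_iff_of_nonneg (fun a => sq_nonneg (‖P (h a)‖))).mp h0
  have h2 : ∀ a : ℤ, P (h a) = 0 := by
    intro a
    have := congrFun h1 a
    simpa using this
  refine eq_zero_of_inner _ fun a l => ?_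
  rw [← hP.symm, hc.comm_T, h2, map_zero, inner_zero_left]

theorem a3_norm_psi {ψ : H} (ho : Orthonormal ℂ (fun k : ℤ => T k ψ)) : ‖ψ‖ = 1 := by
  have := ho.1 0
  rwa [norm_T] at this

theorem a3_int_psi (ψ : H) : Integrable (fun x => ‖ψ x‖ ^ 2) :=
  (memLp_two_iff_integrable_sq_norm (Lp.aestronglyMeasurable ψ)).mp (Lp.memLp ψ)

theorem tr_PW {ψ : H} (ho : Orthonormal ℂ (fun k : ℤ => T k ψ)) : TR (PW ψ) 1 := by
  have h1 : ∀ a : ℤ, ‖PW ψ (h a)‖ ^ 2 = ∫ x in Ico (a : ℝ) (a + 1), ‖ψ x‖ ^ 2 := by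
    intro a
    rw [PW_norm_sq_unit ho a (h a) (a3_Q_h a), a3_int_mul_h]
  unfold TR
  simp only [h1]
  have h2 := a3_hasSum_int (a3_int_psi ψ)
  rwa [← norm_sq_eq, a3_norm_psi ho, one_pow] at h2

theorem a3_Q_iff {A : Set ℝ} (hA : MeasurableSet A) {t : ℝ} (ht : 0 ≤ t) :
    TR (Q A) t ↔ volume A = ENNReal.ofReal t := by
  unfold TR
  rw [a3_hasSum_iff (fun _ => sq_nonneg _) ht]
  have h1 : ∀ a : ℤ, ENNReal.ofReal (‖Q A (h a)‖ ^ 2) = volume (A ∩ Ico (a : ℝ) (a + 1)) := by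
    intro a
    have h2 : ‖Q A (h a)‖ ^ 2 = volume.real (A ∩ Ico (a : ℝ) (a + 1)) := by
      rw [Q_norm_sq hA]
      have h3 : ∫ x in A, ‖h a x‖ ^ 2 =
          ∫ x in A, (Ico (a : ℝ) (a + 1)).indicator (fun _ => (1 : ℝ)) x :=
        integral_congr_ae (ae_restrict_of_ae (a3_norm_h a))
      rw [h3, setIntegral_indicator measurableSet_Ico, setIntegral_const, smul_eq_mul, mul_one]
    rw [h2, Measure.real, ENNReal.ofReal_toReal]
    refine ne_top_of_le_ne_top ?_ (measure_mono inter_subset_right)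
    simp
  simp only [h1]
  have h2 : volume A = ∑' a : ℤ, volume (A ∩ Ico (a : ℝ) (a + 1)) := by
    rw [← measure_iUnion, ← inter_iUnion, a3_union, inter_univ]
    · intro a b hab
      exact (a3_disj hab).mono inter_subset_right inter_subset_right
    · exact fun a => hA.inter measurableSet_Ico
  rw [← h2]

theorem tr_Q {A : Set ℝ} (hA : MeasurableSet A) (hfin : volume A ≠ ∞) :
    TR (Q A) (volume.real A) := by
  rw [a3_Q_iff hA measureReal_nonneg]
  exact (ENNReal.ofReal_toReal hfin).symm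

theorem tr_Q_finite {A : Set ℝ} (hA : MeasurableSet A) {t : ℝ} (ht : TR (Q A) t) :
    volume A = ENNReal.ofReal t :=
  (a3_Q_iff hA (ht.nonneg fun a => sq_nonneg _)).mp ht

theorem tr_sub {P R : H →L[ℂ] H} (hP : Proj P) (hR : Proj R) (hRP : ∀ f, P (R f) = R f) {s t : ℝ}
    (hs : TR P s) (ht : TR R t) : TR (P - R) (s - t) := by
  unfold TR
  simp only [Proj.sub_norm_sq hP hR hRP]
  exact hs.sub ht

/-- a `PComm` projection dominated by one of finite trace has finite trace -/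
theorem tr_le {P R : H →L[ℂ] H} (hP : Proj P) (hR : Proj R) (hRP : ∀ f, P (R f) = R f) {s : ℝ}
    (hs : TR P s) : ∃ t, t ≤ s ∧ TR R t := by
  have h1 : ∀ a : ℤ, ‖R (h a)‖ ^ 2 ≤ ‖P (h a)‖ ^ 2 := by
    intro a
    rw [← hP.le_symm hR hRP]
    exact pow_le_pow_left₀ (norm_nonneg _) (hR.norm_le _) 2
  have h2 : Summable (fun a : ℤ => ‖R (h a)‖ ^ 2) :=
    Summable.of_nonneg_of_le (fun a => sq_nonneg _) h1 hs.summable
  exact ⟨_, hasSum_le h1 h2.hasSum hs, h2.hasSum⟩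

/-- (T7) -/
theorem norm_sq_le_tr {ψ : H} (ho : Orthonormal ℂ (fun k : ℤ => T k ψ)) {Z : H →L[ℂ] H}
    (hZ : Proj Z) (hc : PComm Z) {t : ℝ} (ht : TR Z t) : ‖Z ψ‖ ^ 2 ≤ t := by
  have h1 := parseval_all (Z ψ)
  have h2 : ∀ a l : ℤ, ‖⟪T l (h a), Z ψ⟫_ℂ‖ ^ 2 = ‖⟪T (-l) ψ, Z (h a)⟫_ℂ‖ ^ 2 := by
    intro a l
    rw [← hZ.symm, hc.comm_T, inner_T, norm_inner_symm]
  have h3 : ∀ a : ℤ, Summable (fun l : ℤ => ‖⟪T l (h a), Z ψ⟫_ℂ‖ ^ 2) := by
    intro a
    simp only [h2]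
    exact (Equiv.neg ℤ).summable_iff.mpr (ho.inner_products_summable (x := Z (h a)))
  have h4 := h1.prod_fiberwise fun a => (h3 a).hasSum
  refine hasSum_le (fun a => ?_) h4 ht
  simp only [h2]
  have h5 := (Equiv.neg ℤ).tsum_eq (fun l : ℤ => ‖⟪T l ψ, Z (h a)⟫_ℂ‖ ^ 2)
  simp only [Equiv.neg_apply] at h5
  rw [h5]
  exact ho.tsum_inner_products_le (x := Z (h a))

theorem a3_fix_W {ψ : H} {R : H →L[ℂ] H} (hc : PComm R) (hψ : R ψ = ψ) {f : H} (hf : f ∈ W ψ) :
    R f = f := by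
  set S : Submodule ℂ H := LinearMap.ker ((R : H →ₗ[ℂ] H) - LinearMap.id) with hS
  have hmem : ∀ g : H, g ∈ S ↔ R g = g := by
    intro g
    rw [hS, LinearMap.mem_ker, LinearMap.sub_apply, sub_eq_zero]
    rfl
  have hcl : IsClosed (S : Set H) := by
    have : (S : Set H) = {g | R g = g} := by
      ext g
      exact hmem g
    rw [this]
    exact isClosed_eq R.continuous continuous_id
  have hle : W ψ ≤ S := by
    refine Submodule.topologicalClosure_minimal _ ?_ hcl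
    rw [Submodule.span_le]
    rintro _ ⟨k, rfl⟩
    show T k ψ ∈ S
    rw [hmem, hc.comm_T, hψ]
  exact (hmem f).mp (hle hf)

theorem a3_PW_mem (ψ f : H) : PW ψ f ∈ W ψ := Submodule.starProjection_apply_mem _ _

/-- equality criterion: `PW ψ ≤ R`, same trace `1` -/
theorem PW_eq_of_tr {ψ : H} (ho : Orthonormal ℂ (fun k : ℤ => T k ψ)) {R : H →L[ℂ] H}
    (hR : Proj R) (hc : PComm R) (hψ : R ψ = ψ) (ht : TR R 1) (f : H) : R f = PW ψ f := by
  have h1 : ∀ g, R (PW ψ g) = PW ψ g := fun g => a3_fix_W hc hψ (a3_PW_mem ψ g)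
  have h2 := tr_sub hR (PW_proj ψ) h1 ht (tr_PW ho)
  rw [sub_self] at h2
  have h3 := tr_zero (hR.sub (PW_proj ψ) h1) (hc.sub (PW_comm ho)) h2 f
  rw [sub_apply, sub_eq_zero] at h3
  exact h3

/-! ### consequences for `IsGM` -/

variable {P : H →L[ℂ] H} {ψ : H} {p : ℝ → ℝ}

theorem a3_PW_psi (ψ : H) : PW ψ ψ = ψ := by
  have := PW_self ψ 0
  rwa [T_zero] at this

theorem IsGM.Ppsi (hG : IsGM P ψ) : P ψ = 0 := by
  have h1 : cD P ψ = P ψ + ψ := by
    rw [cD_apply, hG.twoscale, a3_PW_psi]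
  have h2 := (proj_cD hG.proj).norm_sq ψ
  have h3 := hG.proj.norm_sq ψ
  have h4 : ⟪cD P ψ, ψ⟫_ℂ = ⟪P ψ, ψ⟫_ℂ + ⟪ψ, ψ⟫_ℂ := by
    rw [h1, inner_add_left]
  rw [← h2, ← h3, inner_self_eq_norm_sq_to_K] at h4
  have h5 : ‖cD P ψ‖ ^ 2 = ‖P ψ‖ ^ 2 + ‖ψ‖ ^ 2 := by
    apply Complex.ofReal_injective
    rw [h4]
    push_cast
    rfl
  have h6 := pow_le_pow_left₀ (norm_nonneg _) ((proj_cD hG.proj).norm_le ψ) 2
  have h7 : ‖P ψ‖ ^ 2 ≤ 0 := by linarith
  have h8 : ‖P ψ‖ = 0 := by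
    have := sq_nonneg ‖P ψ‖
    exact pow_eq_zero_iff two_ne_zero |>.mp (le_antisymm h7 this)
  exact norm_eq_zero.mp h8

theorem IsGM.P_PW (hG : IsGM P ψ) (f : H) : P (PW ψ f) = 0 := by
  have hle : W ψ ≤ LinearMap.ker (P : H →ₗ[ℂ] H) := by
    refine Submodule.topologicalClosure_minimal _ ?_ ?_
    · rw [Submodule.span_le]
      rintro _ ⟨k, rfl⟩
      show P (T k ψ) = 0
      rw [hG.comm.comm_T, hG.Ppsi, map_zero]
    · exact P.isClosed_ker
  exact hle (a3_PW_mem ψ f)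

theorem IsGM.PW_P (hG : IsGM P ψ) (f : H) : PW ψ (P f) = 0 := by
  have h1 : ∀ g, ⟪PW ψ (P f), g⟫_ℂ = 0 := by
    intro g
    rw [(PW_proj ψ).symm, hG.proj.symm, hG.P_PW, inner_zero_right]
  exact inner_self_eq_zero.mp (h1 _)

theorem IsGM.P_Dsymm (hG : IsGM P ψ) (f : H) : P (D.symm (P f)) = D.symm (P f) := by
  have h1 := hG.twoscale (P f)
  rw [hG.proj.idem, hG.PW_P, add_zero] at h1
  have h2 := congrArg D.symm h1
  rwa [D.symm_apply_apply] at h2

theorem IsGM.P_Dsymm_psi (hG : IsGM P ψ) : P (D.symm ψ) = D.symm ψ := by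
  have h1 := hG.twoscale ψ
  rw [hG.Ppsi, a3_PW_psi, zero_add] at h1
  have h2 := congrArg D.symm h1
  rwa [D.symm_apply_apply] at h2

theorem a3_ae_eq {F G : ℝ → ℝ} (hF : ∀ a : ℤ, IntegrableOn F (Ico (a : ℝ) (a + 1)))
    (hG : ∀ a : ℤ, IntegrableOn G (Ico (a : ℝ) (a + 1)))
    (hFG : ∀ (a : ℤ) (A : Set ℝ), MeasurableSet A → A ⊆ Ico (a : ℝ) (a + 1) →
      ∫ x in A, F x = ∫ x in A, G x) : F =ᵐ[volume] G := by
  have h1 : ∀ a : ℤ, (Ico (a : ℝ) (a + 1)).indicator F =ᵐ[volume]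
      (Ico (a : ℝ) (a + 1)).indicator G := by
    intro a
    refine Integrable.ae_eq_of_forall_setIntegral_eq _ _
      ((integrable_indicator_iff measurableSet_Ico).mpr (hF a))
      ((integrable_indicator_iff measurableSet_Ico).mpr (hG a)) fun s hs _ => ?_
    rw [setIntegral_indicator measurableSet_Ico, setIntegral_indicator measurableSet_Ico]
    exact hFG a _ (hs.inter measurableSet_Ico) inter_subset_right
  filter_upwards [ae_all_iff.mpr h1] with x hx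
  have h2 : x ∈ Ico ((⌊x⌋ : ℤ) : ℝ) ((⌊x⌋ : ℤ) + 1) := ⟨Int.floor_le x, Int.lt_floor_add_one x⟩
  have h3 := hx ⌊x⌋
  rwa [indicator_of_mem h2, indicator_of_mem h2] at h3

theorem a3_Q_Qh (a : ℤ) {A : Set ℝ} (hA : MeasurableSet A) :
    Q (Ico (a : ℝ) (a + 1)) (Q A (h a)) = Q A (h a) := by
  rw [Q_Q measurableSet_Ico hA, inter_comm, ← Q_Q hA measurableSet_Ico, a3_Q_h]

theorem a3_int_mul_Qh (a : ℤ) {A : Set ℝ} (hA : MeasurableSet A)
    (hAa : A ⊆ Ico (a : ℝ) (a + 1)) (p : ℝ → ℝ) :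
    ∫ x, p x * ‖Q A (h a) x‖ ^ 2 = ∫ x in A, p x := by
  rw [← integral_indicator hA]
  refine integral_congr_ae ?_
  filter_upwards [Q_ae hA (h a), h_ae a] with x hx1 hx2
  rw [hx1, hx2]
  by_cases hxa : x ∈ A
  · rw [ind_of_mem hxa, ind_of_mem (hAa hxa), indicator_of_mem hxa]
    simp
  · rw [ind_of_notMem hxa, indicator_of_notMem hxa]
    simp

theorem IsGM.dens_half (hG : IsGM P ψ) (hp : IsDens P p) :
    ∀ᵐ x, p (x / 2) = p x + ‖ψ x‖ ^ 2 := by
  have hq := hp.conjD hG.proj hG.comm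
  refine a3_ae_eq (fun a => hq.a3_integrableOn (by simp))
    (fun a => (hp.a3_integrableOn (by simp)).add (a3_int_psi ψ).integrableOn) fun a A hA hAa => ?_
  have h1 := hq.norm_sq (proj_cD hG.proj) a (Q A (h a)) (a3_Q_Qh a hA)
  have h2 := hp.norm_sq hG.proj a (Q A (h a)) (a3_Q_Qh a hA)
  have h3 := PW_norm_sq_unit hG.orth a (Q A (h a)) (a3_Q_Qh a hA)
  rw [a3_int_mul_Qh a hA hAa] at h1 h2 h3
  rw [← h1, integral_add (hp.a3_integrableOn (ne_top_of_le_ne_top (by simp) (measure_mono hAa)))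
    (a3_int_psi ψ).integrableOn, ← h2, ← h3, cD_apply, hG.twoscale]
  have h4 : ⟪P (Q A (h a)), PW ψ (Q A (h a))⟫_ℂ = 0 := by
    rw [hG.proj.symm, hG.P_PW, inner_zero_right]
  have h5 := norm_add_sq_eq_norm_sq_add_norm_sq_of_inner_eq_zero _ _ h4
  rw [sq, sq, sq]
  exact h5

theorem a3_iter (hP : Proj P) (hc : PComm P) (hp : IsDens P p) (n : ℕ) :
    Proj (cD^[n] P) ∧ PComm (cD^[n] P) ∧ IsDens (cD^[n] P) (fun x => p (x / 2 ^ n)) := by
  induction n with
  | zero => simpa using ⟨hP, hc, hp⟩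
  | succ n ih =>
    rw [Function.iterate_succ_apply']
    refine ⟨proj_cD ih.1, pcomm_cD ih.2.1, ?_⟩
    have := ih.2.2.conjD ih.1 ih.2.1
    have e : (fun x : ℝ => p (x / 2 ^ (n + 1))) = fun x => p (x / 2 / 2 ^ n) := by
      funext x
      congr 1
      rw [pow_succ]
      field_simp
    rw [e]
    exact this

theorem a3_iter_apply (P : H →L[ℂ] H) (n : ℕ) (f : H) :
    (cD^[n] P) f = (D ^ n) (P ((D ^ n).symm f)) := by
  induction n generalizing f with
  | zero => rfl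
  | succ n ih =>
    rw [Function.iterate_succ_apply', cD_apply, ih, pow_succ']
    rfl

theorem IsGM.dens_tendsto (hG : IsGM P ψ) (hp : IsDens P p) :
    ∀ᵐ x, Tendsto (fun n : ℕ => p (x / 2 ^ n)) atTop (𝓝 1) := by
  -- monotonicity
  have h1 : ∀ᵐ x, ∀ n : ℕ, p (x / 2 ^ n) ≤ p (x / 2 ^ (n + 1)) := by
    rw [ae_all_iff]
    intro n
    have hqmp : Measure.QuasiMeasurePreserving (fun x : ℝ => x / 2 ^ n) volume volume := by
      have := qmp_mul (c := (2 ^ n)⁻¹) (by positivity)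
      have e : (fun x : ℝ => (2 ^ n)⁻¹ * x) = fun x => x / 2 ^ n := by
        funext x
        rw [inv_mul_eq_div]
      rwa [e] at this
    filter_upwards [hqmp.ae (hG.dens_half hp)] with x hx
    have e : x / 2 ^ (n + 1) = x / 2 ^ n / 2 := by
      rw [pow_succ]
      field_simp
    rw [e, hx]
    have := sq_nonneg ‖ψ (x / 2 ^ n)‖
    linarith
  -- the integrals
  have h2 : ∀ a : ℤ, Tendsto (fun n : ℕ => ∫ x in Ico (a : ℝ) (a + 1), p (x / 2 ^ n)) atTop
      (𝓝 1) := by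
    intro a
    have h3 : ∀ n : ℕ, ∫ x in Ico (a : ℝ) (a + 1), p (x / 2 ^ n) =
        ‖(D ^ n) (P ((D ^ n).symm (h a)))‖ ^ 2 := by
      intro n
      obtain ⟨i1, i2, i3⟩ := a3_iter hG.proj hG.comm hp n
      have h4 := i3.norm_sq i1 a (h a) (a3_Q_h a)
      rw [a3_int_mul_h, a3_iter_apply] at h4
      exact h4.symm
    simp only [h3]
    have h4 := ((hG.dense (h a)).norm.pow 2)
    have h5 : ‖h a‖ ^ 2 = 1 := by
      rw [norm_sq_eq, integral_congr_ae (a3_norm_h a), integral_indicator measurableSet_Ico,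
        setIntegral_const]
      simp [Measure.real]
    rwa [h5] at h4
  have h3 : ∀ a : ℤ, ∀ᵐ x, x ∈ Ico (a : ℝ) (a + 1) → 
      Tendsto (fun n : ℕ => p (x / 2 ^ n)) atTop (𝓝 1) := by
    intro a
    set μ : Measure ℝ := volume.restrict (Ico (a : ℝ) (a + 1)) with hμ
    have hfin : IsFiniteMeasure μ := ⟨by rw [hμ, Measure.restrict_apply_univ]; simp⟩
    set q : ℝ → ℝ := fun x => ⨆ n : ℕ, p (x / 2 ^ n) with hq
    have hm : ∀ n : ℕ, Measurable fun x => p (x / 2 ^ n) := fun n =>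
      hp.meas.comp (measurable_id.div_const _)
    have hlim : ∀ᵐ x, Tendsto (fun n : ℕ => p (x / 2 ^ n)) atTop (𝓝 (q x)) := by
      filter_upwards [h1] with x hx
      refine tendsto_atTop_ciSup (monotone_nat_of_le_succ hx) ?_
      exact ⟨1, by rintro _ ⟨n, rfl⟩; exact hp.le_one _⟩
    have hlimμ : ∀ᵐ x ∂μ, Tendsto (fun n : ℕ => p (x / 2 ^ n)) atTop (𝓝 (q x)) :=
      ae_restrict_of_ae hlim
    have hqm : AEStronglyMeasurable q μ :=
      aestronglyMeasurable_of_tendsto_ae atTop (fun n => (hm n).aestronglyMeasurable) hlimμ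
    have hconv := tendsto_integral_of_dominated_convergence (μ := μ) (fun _ => (1 : ℝ))
      (F := fun (n : ℕ) x => p (x / 2 ^ n)) (fun n => (hm n).aestronglyMeasurable)
      (integrable_const 1) (fun n => ae_of_all _ fun x => by
        rw [Real.norm_of_nonneg (hp.nonneg _)]
        exact hp.le_one _) hlimμ
    have hint : ∫ x, q x ∂μ = 1 := tendsto_nhds_unique hconv (h2 a)
    have hq1 : ∀ x, q x ≤ 1 := fun x => ciSup_le fun n => hp.le_one _
    have hq0 : ∀ x, 0 ≤ q x := fun x =>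
      (hp.nonneg (x / 2 ^ 0)).trans (le_ciSup (f := fun n : ℕ => p (x / 2 ^ n))
        ⟨1, by rintro _ ⟨n, rfl⟩; exact hp.le_one _⟩ 0)
    have hqi : Integrable q μ :=
      Integrable.of_bound hqm 1 (ae_of_all _ fun x => by
        rw [Real.norm_of_nonneg (hq0 x)]
        exact hq1 x)
    have hz : ∫ x, (1 - q x) ∂μ = 0 := by
      rw [integral_sub (integrable_const 1) hqi, hint, integral_const, hμ]
      simp [Measure.real]
    have hz2 := (integral_eq_zero_iff_of_nonneg (fun x => sub_nonneg.mpr (hq1 x))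
      ((integrable_const 1).sub hqi)).mp hz
    rw [hμ] at hz2
    have hz3 := (ae_restrict_iff' measurableSet_Ico).mp hz2
    filter_upwards [hz3, hlim] with x hx1 hx2 hxa
    have h6 := hx1 hxa
    simp only [Pi.zero_apply] at h6
    have h7 : q x = 1 := by linarith
    rwa [h7] at hx2
  filter_upwards [ae_all_iff.mpr h3] with x hx
  exact hx ⌊x⌋ ⟨Int.floor_le x, Int.lt_floor_add_one x⟩

end Pool.Agent.Wav
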