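import Pool.Agent.Lib.MP_0a5c67_an.A3

/-! Task B1: `IsGM P ψ → IsWav ψ`. -/

set_option autoImplicit false

open MeasureTheory Filter Topology Set
open scoped ENNReal InnerProductSpace ComplexConjugate

noncomputable section

namespace Pool.Agent.Wav

/-- Parseval for the closed span of an orthonormal family -/
theorem b1_parseval {ι : Type*} {v : ι → H} (hv : Orthonormal ℂ v) (y : H)
    (K : Submodule ℂ H) (hK : K = (Submodule.span ℂ (Set.range v)).topologicalClosure)
    [K.HasOrthogonalProjection] :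
    HasSum (fun i => ‖⟪v i, y⟫_ℂ‖ ^ 2) (‖K.starProjection y‖ ^ 2) := by
  classical
  have hcl : IsClosed (K : Set H) := by
    rw [hK]; exact Submodule.isClosed_topologicalClosure _
  have : CompleteSpace K := hcl.completeSpace_coe
  have hmem : ∀ i, v i ∈ K := fun i => by
    rw [hK]
    exact Submodule.le_topologicalClosure _ (Submodule.subset_span ⟨i, rfl⟩)
  let v' : ι → K := fun i => ⟨v i, hmem i⟩
  have hv' : Orthonormal ℂ v' := by
    rw [orthonormal_iff_ite] at hv ⊢
    intro i j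
    exact hv i j
  have hspan : ⊤ ≤ (Submodule.span ℂ (Set.range v')).topologicalClosure := by
    intro x _
    have hx : (x : H) ∈ (Submodule.span ℂ (Set.range v)).topologicalClosure := hK ▸ x.2
    rw [← SetLike.mem_coe, Submodule.topologicalClosure_coe, Metric.mem_closure_iff] at hx ⊢
    intro ε hε
    obtain ⟨b, hb, hbd⟩ := hx ε hε
    have hbK : b ∈ K := by
      rw [hK]; exact Submodule.le_topologicalClosure _ hb
    refine ⟨⟨b, hbK⟩, ?_, hbd⟩
    have : Submodule.map K.subtype (Submodule.span ℂ (Set.range v')) =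
        Submodule.span ℂ (Set.range v) := by
      rw [Submodule.map_span]
      congr 1
      ext z
      constructor
      · rintro ⟨_, ⟨i, rfl⟩, rfl⟩; exact ⟨i, rfl⟩
      · rintro ⟨i, rfl⟩; exact ⟨v' i, ⟨i, rfl⟩, rfl⟩
    have hb' : b ∈ Submodule.map K.subtype (Submodule.span ℂ (Set.range v')) := by
      rw [this]; exact hb
    obtain ⟨c, hc, hcb⟩ := hb'
    have : c = ⟨b, hbK⟩ := Subtype.ext hcb
    rw [← this]; exact hc
  let B := HilbertBasis.mk hv' hspan
  have hB : ∀ i, B i = v' i := fun i => by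
    rw [HilbertBasis.coe_mk]
  have h1 := B.hasSum_inner_mul_inner (K.orthogonalProjectionOnto y) (K.orthogonalProjectionOnto y)
  have h2 : (⟪K.orthogonalProjectionOnto y, K.orthogonalProjectionOnto y⟫_ℂ : ℂ)
      = ((‖K.starProjection y‖ ^ 2 : ℝ) : ℂ) := by
    rw [inner_self_eq_norm_sq_to_K]
    have : ‖K.orthogonalProjectionOnto y‖ = ‖K.starProjection y‖ := rfl
    rw [this]
    push_cast
    rfl
  have h3 : ∀ i, ⟪K.orthogonalProjectionOnto y, B i⟫_ℂ * ⟪B i, K.orthogonalProjectionOnto y⟫_ℂ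
      = ((‖⟪v i, y⟫_ℂ‖ ^ 2 : ℝ) : ℂ) := by
    intro i
    rw [hB, ← inner_conj_symm (K.orthogonalProjectionOnto y) (v' i)]
    have : ⟪v' i, K.orthogonalProjectionOnto y⟫_ℂ = ⟪v i, y⟫_ℂ := by
      rw [Submodule.coe_inner]
      change ⟪v i, K.starProjection y⟫_ℂ = _
      rw [← Submodule.inner_starProjection_left_eq_right,
        Submodule.starProjection_eq_self_iff.2 (hmem i)]
    rw [this, mul_comm, Complex.mul_conj, Complex.normSq_eq_norm_sq]
  simp only [h3, h2] at h1
  exact_mod_cast h1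

theorem b1_inner_h (a b : ℤ) : ⟪h a, h b⟫_ℂ = if a = b then 1 else 0 := by
  unfold h
  rw [L2.inner_indicatorConstLp_indicatorConstLp (hμs := by simp) (hμt := by simp)]
  by_cases hab : a = b
  · subst hab
    simp
  · rw [if_neg hab]
    have : (Ico (a : ℝ) (a + 1) ∩ Ico (b : ℝ) (b + 1)) = ∅ := by
      rcases lt_or_gt_of_ne hab with h | h
      · have h' : (a : ℝ) + 1 ≤ b := by exact_mod_cast h
        ext x; simp only [mem_inter_iff, mem_Ico, mem_empty_iff_false, iff_false]
        rintro ⟨⟨_, h2⟩, h3, _⟩; linarith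
      · have h' : (b : ℝ) + 1 ≤ a := by exact_mod_cast h
        ext x; simp only [mem_inter_iff, mem_Ico, mem_empty_iff_false, iff_false]
        rintro ⟨⟨h1, h2⟩, h3, h4⟩; linarith
    rw [this]
    simp

theorem b1_orth_h : Orthonormal ℂ h := by
  rw [orthonormal_iff_ite]
  exact b1_inner_h

theorem b1_orth_Dh (J : ℕ) : Orthonormal ℂ (fun a : ℤ => (D ^ J).symm (h a)) := by
  rw [orthonormal_iff_ite]
  intro a b
  rw [LinearIsometryEquiv.inner_map_map]
  exact b1_inner_h a b

theorem b1_D_h (a : ℤ) : D (h a) = ((Real.sqrt (1/2) : ℝ) : ℂ) • (h (2 * a) + h (2 * a + 1)) := by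
  ext1
  have h1 : (fun x => h a (x / 2)) =ᵐ[volume] fun x => ind (Ico (a : ℝ) (a + 1)) (x / 2) := by
    have := (qmp_mul (c := 1/2) (by norm_num)).ae_eq (h_ae a)
    filter_upwards [this] with x hx
    simp only [Function.comp_apply] at hx
    have e : x / 2 = 1 / 2 * x := by ring
    rw [e]; exact hx
  filter_upwards [D_ae (h a), Lp.coeFn_smul ((Real.sqrt (1/2) : ℝ) : ℂ) (h (2 * a) + h (2 * a + 1)),
    Lp.coeFn_add (h (2 * a)) (h (2 * a + 1)), h_ae (2 * a), h_ae (2 * a + 1), h1]
    with x e1 e2 e3 e4 e5 e6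
  rw [e1, e2, Pi.smul_apply, e3, Pi.add_apply, e4, e5, e6, smul_eq_mul]
  congr 1
  unfold ind
  simp only [Set.indicator, mem_Ico]
  push_cast
  by_cases c1 : x < 2 * (a : ℝ)
  · rw [if_neg (by rintro ⟨h, _⟩; linarith), if_neg (by rintro ⟨h, _⟩; linarith),
      if_neg (by rintro ⟨h, _⟩; linarith)]; simp
  · by_cases c2 : x < 2 * (a : ℝ) + 1
    · rw [if_pos (by constructor <;> linarith), if_pos (by constructor <;> linarith),
        if_neg (by rintro ⟨h, _⟩; linarith)]; simp
    · by_cases c3 : x < 2 * (a : ℝ) + 1 + 1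
      · rw [if_pos (by constructor <;> linarith), if_neg (by rintro ⟨_, h⟩; linarith),
          if_pos (by constructor <;> linarith)]; simp
      · rw [if_neg (by rintro ⟨_, h⟩; linarith), if_neg (by rintro ⟨_, h⟩; linarith),
          if_neg (by rintro ⟨_, h⟩; linarith)]; simp

/-- step functions of level `J` -/
def b1V (J : ℕ) : Submodule ℂ H :=
  (Submodule.span ℂ (Set.range fun a : ℤ => (D ^ J).symm (h a))).topologicalClosure

instance (J : ℕ) : (b1V J).HasOrthogonalProjection := by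
  have : CompleteSpace (b1V J) := (Submodule.isClosed_topologicalClosure _).completeSpace_coe
  infer_instance

theorem b1V_mono : Monotone b1V := by
  refine monotone_nat_of_le_succ fun J => ?_
  unfold b1V
  refine Submodule.topologicalClosure_mono (Submodule.span_le.2 ?_)
  rintro _ ⟨a, rfl⟩
  have e : (D ^ J).symm (h a) = (D ^ (J + 1)).symm (D (h a)) := by
    rw [LinearIsometryEquiv.eq_symm_apply, pow_succ']
    change D ((D ^ J) ((D ^ J).symm (h a))) = _
    rw [LinearIsometryEquiv.apply_symm_apply]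
  have e2 : (D ^ (J + 1)).symm (D (h a)) =
      ((Real.sqrt (1/2) : ℝ) : ℂ) • ((D ^ (J + 1)).symm (h (2 * a)) +
        (D ^ (J + 1)).symm (h (2 * a + 1))) := by
    rw [b1_D_h, map_smul, map_add]
  simp only [SetLike.mem_coe]
  rw [e, e2]
  exact Submodule.smul_mem _ _ (Submodule.add_mem _ (Submodule.subset_span ⟨_, rfl⟩)
    (Submodule.subset_span ⟨_, rfl⟩))


/-- the dyadic interval as a level set of the floor function -/
def b1A (J : ℕ) (a : ℤ) : Set ℝ := {x : ℝ | ⌊(2 : ℝ) ^ J * x⌋ = a}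

theorem b1A_meas (J : ℕ) (a : ℤ) : MeasurableSet (b1A J a) := by
  have : Measurable (fun x : ℝ => ⌊(2 : ℝ) ^ J * x⌋) :=
    Int.measurable_floor.comp (measurable_const_mul _)
  exact this (measurableSet_singleton a)

theorem b1_inner_Dh (J : ℕ) (a : ℤ) (g : H) :
    ⟪(D ^ J).symm (h a), g⟫_ℂ = ((Real.sqrt (2 ^ J) : ℝ) : ℂ) * ∫ x in b1A J a, g x := by
  rw [L2.inner_def, ← integral_indicator (b1A_meas J a), ← integral_const_mul]
  refine integral_congr_ae ?_
  have h1 := (qmp_mul (c := 2 ^ J) (by positivity)).ae_eq (h_ae a)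
  filter_upwards [Dpow_symm_ae J (h a), h1] with x e1 e2
  simp only [Function.comp_apply] at e2
  rw [e1, e2]
  by_cases hx : x ∈ b1A J a
  · have hx' : (2 : ℝ) ^ J * x ∈ Ico (a : ℝ) (a + 1) := by
      have := hx
      simp only [b1A, Set.mem_ofPred_eq, Int.floor_eq_iff] at this
      exact this
    rw [ind_of_mem hx', Set.indicator_of_mem hx]
    simp only [mul_one, RCLike.inner_apply, Complex.conj_ofReal]
    ring
  · have hx' : (2 : ℝ) ^ J * x ∉ Ico (a : ℝ) (a + 1) := by
      intro hc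
      apply hx
      simp only [b1A, Set.mem_ofPred_eq, Int.floor_eq_iff]
      exact hc
    rw [ind_of_notMem hx', Set.indicator_of_notMem hx]
    simp

theorem b1_zero_of_dyadic (g : H) (hg : ∀ (J : ℕ) (a : ℤ), ∫ x in b1A J a, g x = 0) : g = 0 := by
  have hloc : LocallyIntegrable (fun x => g x) volume := (Lp.memLp g).locallyIntegrable one_le_two
  have key : ∀ᵐ x, g x = 0 := by
    refine ae_eq_zero_of_integral_contDiff_smul_eq_zero hloc fun φ hφ hφc => ?_
    have hcont : Continuous φ := hφ.continuous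
    obtain ⟨C, hC⟩ := hφc.exists_bound_of_continuous hcont
    obtain ⟨R, hR⟩ : ∃ R : ℝ, ∀ x, φ x ≠ 0 → |x| ≤ R := by
      obtain ⟨R, hR⟩ := hφc.isCompact.isBounded.exists_norm_le
      exact ⟨R, fun x hx => hR x (subset_tsupport _ hx)⟩
    let s : ℕ → ℝ → ℝ := fun J x => φ ((⌊(2 : ℝ) ^ J * x⌋ : ℝ) / 2 ^ J)
    have hs_meas : ∀ J, Measurable (s J) := fun J => by
      refine hcont.measurable.comp (Measurable.div_const ?_ _)
      exact (measurable_from_top (f := fun n : ℤ => (n : ℝ))).comp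
        (Int.measurable_floor.comp (measurable_const_mul _))
    have hdist : ∀ (J : ℕ) (x : ℝ), |(⌊(2 : ℝ) ^ J * x⌋ : ℝ) / 2 ^ J - x| ≤ (1/2) ^ J := by
      intro J x
      have h2 : (0 : ℝ) < 2 ^ J := by positivity
      have h3 := Int.floor_le ((2 : ℝ) ^ J * x)
      have h4 := Int.lt_floor_add_one ((2 : ℝ) ^ J * x)
      have e : (⌊(2 : ℝ) ^ J * x⌋ : ℝ) / 2 ^ J - x = ((⌊(2 : ℝ) ^ J * x⌋ : ℝ) - 2 ^ J * x) / 2 ^ J := by
        field_simp
      rw [e, abs_div, abs_of_pos h2, one_div, inv_pow, ← one_div]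
      gcongr
      rw [abs_le]
      constructor <;> linarith
    have hsupp : ∀ (J : ℕ) (x : ℝ), x ∉ Icc (-(R + 1)) (R + 1) → s J x = 0 := by
      intro J x hx
      by_contra hne
      have h1 := hR _ hne
      have h2 := hdist J x
      have h3 : ((1 : ℝ)/2) ^ J ≤ 1 := pow_le_one₀ (by norm_num) (by norm_num)
      apply hx
      rw [abs_le] at h1 h2
      constructor <;> linarith [h1.1, h1.2, h2.1, h2.2]
    let bound : ℝ → ℝ := (Icc (-(R + 1)) (R + 1)).indicator (fun x => C * ‖g x‖)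
    have hb_int : Integrable bound := by
      rw [integrable_indicator_iff measurableSet_Icc]
      exact ((hloc.integrableOn_isCompact isCompact_Icc).norm).const_mul C
    have hgm : AEStronglyMeasurable (fun x => g x) volume := Lp.aestronglyMeasurable g
    have hmeasJ : ∀ J, AEStronglyMeasurable (fun x => s J x • g x) volume := fun J =>
      (hs_meas J).aestronglyMeasurable.smul hgm
    have hbd : ∀ J, ∀ x, ‖s J x • g x‖ ≤ bound x := by
      intro J x
      by_cases hx : x ∈ Icc (-(R + 1)) (R + 1)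
      · simp only [bound, Set.indicator_of_mem hx]
        rw [norm_smul]
        exact mul_le_mul_of_nonneg_right (hC _) (norm_nonneg _)
      · simp only [bound, Set.indicator_of_notMem hx]
        rw [hsupp J x hx, zero_smul, norm_zero]
    have hint : ∀ J, Integrable (fun x => s J x • g x) := fun J =>
      hb_int.mono' (hmeasJ J) (ae_of_all _ (hbd J))
    have hzero : ∀ J, ∫ x, s J x • g x = 0 := by
      intro J
      have hU : (⋃ a : ℤ, b1A J a) = univ := by
        ext x; simp [b1A]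
      have hd : Pairwise (Function.onFun Disjoint (b1A J)) := by
        intro a b hab
        rw [Function.onFun, Set.disjoint_left]
        intro x hx hx'
        exact hab (hx.symm.trans hx')
      rw [← setIntegral_univ, ← hU, integral_iUnion (b1A_meas J) hd (hint J).integrableOn]
      have : ∀ a : ℤ, ∫ x in b1A J a, s J x • g x = 0 := by
        intro a
        have e : ∫ x in b1A J a, s J x • g x = ∫ x in b1A J a, φ ((a : ℝ) / 2 ^ J) • g x := by
          refine setIntegral_congr_fun (b1A_meas J a) fun x hx => ?_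
          have : ⌊(2 : ℝ) ^ J * x⌋ = a := hx
          simp only [s, this]
        rw [e, integral_smul, hg J a, smul_zero]
      exact (tsum_congr this).trans tsum_zero
    have hlim : Tendsto (fun J => ∫ x, s J x • g x) atTop (𝓝 (∫ x, φ x • g x)) := by
      refine tendsto_integral_of_dominated_convergence bound hmeasJ hb_int
        (fun J => ae_of_all _ (hbd J)) (ae_of_all _ fun x => ?_)
      refine Tendsto.smul_const ?_ _
      refine (hcont.tendsto x).comp ?_
      rw [tendsto_iff_norm_sub_tendsto_zero]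
      refine squeeze_zero (fun _ => norm_nonneg _) (fun J => hdist J x) ?_
      exact tendsto_pow_atTop_nhds_zero_of_lt_one (by norm_num) (by norm_num)
    simp only [hzero] at hlim
    exact (tendsto_nhds_unique hlim tendsto_const_nhds)
  ext1
  filter_upwards [key, Lp.coeFn_zero ℂ 2 (volume : Measure ℝ)] with x hx h0
  rw [hx, h0, Pi.zero_apply]

theorem b1_dense : ⊤ ≤ (⨆ J, b1V J).topologicalClosure := by
  have : (⨆ J, b1V J).topologicalClosure = ⊤ := by
    rw [Submodule.topologicalClosure_eq_top_iff, Submodule.eq_bot_iff]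
    intro g hg
    refine b1_zero_of_dyadic g fun J a => ?_
    have h1 : (D ^ J).symm (h a) ∈ ⨆ J, b1V J := by
      refine (le_iSup b1V J) ?_
      exact Submodule.le_topologicalClosure _ (Submodule.subset_span ⟨a, rfl⟩)
    have h2 := (Submodule.mem_orthogonal _ _).1 hg _ h1
    rw [b1_inner_Dh, mul_eq_zero] at h2
    rcases h2 with h2 | h2
    · exfalso
      have : Real.sqrt (2 ^ J) ≠ 0 := by positivity
      exact this (by exact_mod_cast h2)
    · exact h2
  rw [this]

/-- dyadic step functions are dense -/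
theorem dyadic_dense (y : H) :
    Tendsto (fun J : ℕ => ∑' a : ℤ, ‖⟪(D ^ J).symm (h a), y⟫_ℂ‖ ^ 2) atTop (𝓝 (‖y‖ ^ 2)) := by
  have h1 : ∀ J : ℕ, ∑' a : ℤ, ‖⟪(D ^ J).symm (h a), y⟫_ℂ‖ ^ 2 = ‖(b1V J).starProjection y‖ ^ 2 :=
    fun J => (b1_parseval (b1_orth_Dh J) y (b1V J) rfl).tsum_eq
  simp only [h1]
  exact ((Submodule.starProjection_tendsto_self b1V b1V_mono y b1_dense).norm).pow 2

theorem b1_hasSum (J : ℕ) (y : H) :
    HasSum (fun a : ℤ => ‖⟪(D ^ J).symm (h a), y⟫_ℂ‖ ^ 2) (‖(b1V J).starProjection y‖ ^ 2) :=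
  b1_parseval (b1_orth_Dh J) y (b1V J) rfl

theorem no_eigenvector {g : H} {c : ℂ} (hg : D g = c • g) : g = 0 := by
  by_contra hne
  have hgn : 0 < ‖g‖ := norm_pos_iff.2 hne
  have hc : ‖c‖ = 1 := by
    have h1 : ‖D g‖ = ‖g‖ := D.norm_map g
    rw [hg, norm_smul] at h1
    have : ‖c‖ * ‖g‖ = 1 * ‖g‖ := by rw [h1, one_mul]
    exact mul_right_cancel₀ hgn.ne' this
  -- powers
  have hpow : ∀ n : ℕ, (D ^ n) g = c ^ n • g := by
    intro n
    induction n with
    | zero => simp
    | succ n ih =>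
      rw [pow_succ]
      change (D ^ n) (D g) = _
      rw [hg, map_smul, ih, smul_smul, pow_succ]
      ring_nf
  let B : ℝ → Set ℝ := fun r => {x | |x| < r}
  have hB : ∀ r, MeasurableSet (B r) := fun r => measurableSet_lt measurable_norm measurable_const
  have hnorm : ∀ (r : ℝ) (n : ℕ), ‖Q (B r) g‖ = ‖Q (B (r * 2 ^ n)) g‖ := by
    intro r n
    have h1 : (D ^ n) (Q (B r) g) = Q ((fun x => x / 2 ^ n) ⁻¹' B r) ((D ^ n) g) :=
      Dpow_Q n (hB r) g
    have h2 : (fun x : ℝ => x / 2 ^ n) ⁻¹' B r = B (r * 2 ^ n) := by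
      ext x
      simp only [B, mem_preimage, Set.mem_ofPred_eq, abs_div]
      rw [abs_of_pos (by positivity : (0 : ℝ) < 2 ^ n), div_lt_iff₀ (by positivity)]
    rw [h2, hpow, map_smul] at h1
    have h3 := congrArg norm h1
    rw [norm_smul, norm_pow, hc, one_pow, one_mul, LinearIsometryEquiv.norm_map] at h3
    exact h3
  have hfull : ∀ r : ℝ, 0 < r → ‖Q (B r) g‖ = ‖g‖ := by
    intro r hr
    have hlim : Tendsto (fun n : ℕ => Q (B (r * 2 ^ n)) g) atTop (𝓝 g) := by
      refine Q_tendsto_of_absorb (fun n => hB _) ?_ ?_ g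
      · intro m n hmn x hx
        simp only [B, Set.mem_ofPred_eq] at hx ⊢
        have : r * 2 ^ m ≤ r * 2 ^ n := by gcongr; norm_num
        linarith
      · refine ae_of_all _ fun x => ?_
        obtain ⟨n, hn⟩ := pow_unbounded_of_one_lt (|x| / r) (by norm_num : (1 : ℝ) < 2)
        refine ⟨n, ?_⟩
        simp only [B, Set.mem_ofPred_eq]
        rw [div_lt_iff₀ hr] at hn
        linarith
    have h2 := hlim.norm
    have h3 : (fun n : ℕ => ‖Q (B (r * 2 ^ n)) g‖) = fun _ => ‖Q (B r) g‖ := by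
      ext n; exact (hnorm r n).symm
    rw [h3] at h2
    exact tendsto_nhds_unique tendsto_const_nhds h2
  have hfix : ∀ r : ℝ, 0 < r → Q (B r) g = g := fun r hr =>
    (proj_Q (hB r)).eq_of_norm (hfull r hr)
  -- complement
  have hlim : Tendsto (fun n : ℕ => Q ((B ((1/2) ^ n))ᶜ) g) atTop (𝓝 g) := by
    refine Q_tendsto_of_absorb (fun n => (hB _).compl) ?_ ?_ g
    · intro m n hmn x hx
      simp only [B, mem_compl_iff, Set.mem_ofPred_eq, not_lt] at hx ⊢
      refine le_trans ?_ hx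
      exact pow_le_pow_of_le_one (by norm_num) (by norm_num) hmn
    · have : ∀ᵐ x : ℝ, x ≠ 0 := by
        rw [ae_iff]; simp
      filter_upwards [this] with x hx
      obtain ⟨n, hn⟩ := exists_pow_lt_of_lt_one (abs_pos.2 hx) (by norm_num : (1 : ℝ)/2 < 1)
      refine ⟨n, ?_⟩
      simp only [B, mem_compl_iff, Set.mem_ofPred_eq, not_lt]
      exact hn.le
  have hz : ∀ n : ℕ, Q ((B ((1/2) ^ n))ᶜ) g = 0 := by
    intro n
    have h1 : Q (B ((1/2) ^ n)) g = g := hfix _ (by positivity)
    rw [← h1, Q_Q (hB _).compl (hB _), Set.compl_inter_self, Q_empty]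
  simp only [hz] at hlim
  exact hne (tendsto_nhds_unique hlim tendsto_const_nhds)

theorem no_ghost {P : H →L[ℂ] H} (hP : Proj P) (ht : HasSum (fun a : ℤ => ‖P (h a)‖ ^ 2) 1)
    {g : H} (hg : ∀ m : ℕ, P ((D ^ m) g) = (D ^ m) g) : g = 0 := by
  by_contra hne
  have hgn : 0 < ‖g‖ := norm_pos_iff.2 hne
  let y1 : H := ((‖g‖⁻¹ : ℝ) : ℂ) • g
  have hy1 : ‖y1‖ = 1 := by
    simp only [y1]
    rw [norm_smul, Complex.norm_real, norm_inv, norm_norm, inv_mul_cancel₀ hgn.ne']
  let c : ℂ := ⟪y1, D g⟫_ℂ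
  let w : H := D g - c • y1
  have hw0 : w ≠ 0 := by
    intro hw
    have h1 : D g = (c * ((‖g‖⁻¹ : ℝ) : ℂ)) • g := by
      have : D g = c • y1 := sub_eq_zero.1 hw
      rw [this, smul_smul]
    exact hne (no_eigenvector h1)
  have hwn : 0 < ‖w‖ := norm_pos_iff.2 hw0
  let y2 : H := ((‖w‖⁻¹ : ℝ) : ℂ) • w
  have hy2 : ‖y2‖ = 1 := by
    simp only [y2]
    rw [norm_smul, Complex.norm_real, norm_inv, norm_norm, inv_mul_cancel₀ hwn.ne']
  have hyw : ⟪y1, w⟫_ℂ = 0 := by
    simp only [w]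
    rw [inner_sub_right, inner_smul_right, inner_self_eq_norm_sq_to_K, hy1]
    simp [c]
  have hy12 : ⟪y1, y2⟫_ℂ = 0 := by
    simp only [y2]
    rw [inner_smul_right, hyw, mul_zero]
  have hfix1 : ∀ m : ℕ, P ((D ^ m) y1) = (D ^ m) y1 := by
    intro m
    simp only [y1]
    rw [map_smul, map_smul, hg m]
  have hfixw : ∀ m : ℕ, P ((D ^ m) w) = (D ^ m) w := by
    intro m
    have e : (D ^ m) (D g) = (D ^ (m + 1)) g := by rw [pow_succ]; rfl
    simp only [w]
    rw [map_sub, map_smul, map_sub, map_smul, hfix1 m, e, hg (m + 1)]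
  have hfix2 : ∀ m : ℕ, P ((D ^ m) y2) = (D ^ m) y2 := by
    intro m
    simp only [y2]
    rw [map_smul, map_smul, hfixw m]
  have hinner : ∀ (y : H), (∀ m : ℕ, P ((D ^ m) y) = (D ^ m) y) → ∀ (J : ℕ) (a : ℤ),
      ‖⟪(D ^ J).symm (h a), y⟫_ℂ‖ ^ 2 = ‖⟪(D ^ J) y, P (h a)⟫_ℂ‖ ^ 2 := by
    intro y hy J a
    have e1 : ⟪(D ^ J).symm (h a), y⟫_ℂ = ⟪h a, (D ^ J) y⟫_ℂ := by
      have := (D ^ J).inner_map_map ((D ^ J).symm (h a)) y
      rw [LinearIsometryEquiv.apply_symm_apply] at this
      exact this.symm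
    rw [e1, ← hy J, ← hP.symm, hy J, ← inner_conj_symm, Complex.norm_conj]
  have hbes : ∀ (J : ℕ) (a : ℤ), ‖⟪(D ^ J).symm (h a), y1⟫_ℂ‖ ^ 2 +
      ‖⟪(D ^ J).symm (h a), y2⟫_ℂ‖ ^ 2 ≤ ‖P (h a)‖ ^ 2 := by
    intro J a
    rw [hinner y1 hfix1, hinner y2 hfix2]
    have ho : Orthonormal ℂ ![(D ^ J) y1, (D ^ J) y2] := by
      rw [orthonormal_iff_ite]
      intro i j
      fin_cases i <;> fin_cases j
      · simp [inner_self_eq_norm_sq_to_K, hy1]
      · simp [LinearIsometryEquiv.inner_map_map, hy12]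
      · simp only [Fin.mk_one, Fin.isValue, Fin.zero_eta, Matrix.cons_val_one,
          Matrix.cons_val_zero, LinearIsometryEquiv.inner_map_map]
        rw [← inner_conj_symm, hy12]
        simp
      · simp [inner_self_eq_norm_sq_to_K, hy2]
    have := ho.sum_inner_products_le (P (h a)) (s := Finset.univ)
    rw [Fin.sum_univ_two] at this
    simpa using this
  have hle : ∀ J : ℕ, (∑' a : ℤ, ‖⟪(D ^ J).symm (h a), y1⟫_ℂ‖ ^ 2) +
      (∑' a : ℤ, ‖⟪(D ^ J).symm (h a), y2⟫_ℂ‖ ^ 2) ≤ 1 := by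
    intro J
    rw [← (b1_hasSum J y1).summable.tsum_add (b1_hasSum J y2).summable, ← ht.tsum_eq]
    exact ((b1_hasSum J y1).summable.add (b1_hasSum J y2).summable).tsum_le_tsum (hbes J) ht.summable
  have hlim := (dyadic_dense y1).add (dyadic_dense y2)
  have := le_of_tendsto hlim (Eventually.of_forall hle)
  rw [hy1, hy2] at this
  norm_num at this

theorem IsGM.isWav {P : H →L[ℂ] H} {ψ : H} (hG : IsGM P ψ) : IsWav ψ := by
  have hPT : ∀ k : ℤ, P (T k ψ) = 0 := by
    intro k
    rw [hG.comm.comm_T, hG.Ppsi, map_zero]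
  -- `D⁻ⁿ T^k ψ` lies in the range of `P` for `n ≥ 1`
  have hsymm : ∀ (n : ℕ) (f : H), (D ^ (n + 1)).symm f = D.symm ((D ^ n).symm f) := by
    intro n f
    rw [LinearIsometryEquiv.symm_apply_eq, pow_succ]
    change f = (D ^ n) (D (D.symm ((D ^ n).symm f)))
    rw [LinearIsometryEquiv.apply_symm_apply, LinearIsometryEquiv.apply_symm_apply]
  have hsymm' : ∀ (n : ℕ) (f : H), (D ^ (n + 1)).symm f = (D ^ n).symm (D.symm f) := by
    intro n f
    rw [LinearIsometryEquiv.symm_apply_eq, pow_succ']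
    change f = D ((D ^ n) ((D ^ n).symm (D.symm f)))
    rw [LinearIsometryEquiv.apply_symm_apply, LinearIsometryEquiv.apply_symm_apply]
  have hstep1 : ∀ k : ℤ, P (D.symm (T k ψ)) = D.symm (T k ψ) := by
    intro k
    have h1 := hG.twoscale (T k ψ)
    rw [hPT, PW_self, zero_add] at h1
    apply D.injective
    rw [h1, LinearIsometryEquiv.apply_symm_apply]
  have hstep : ∀ (n : ℕ) (k : ℤ), P ((D ^ (n + 1)).symm (T k ψ)) = (D ^ (n + 1)).symm (T k ψ) := by
    intro n k
    induction n with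
    | zero =>
      rw [hsymm]
      simp only [pow_zero]
      exact hstep1 k
    | succ n ih =>
      rw [hsymm, ← ih, hG.P_Dsymm]
  have hlt : ∀ (j j' k k' : ℤ), j < j' → ⟪(D ^ j) (T k ψ), (D ^ j') (T k' ψ)⟫_ℂ = 0 := by
    intro j j' k k' hjj
    obtain ⟨n, hn⟩ : ∃ n : ℕ, j' = j + ((n + 1 : ℕ) : ℤ) := by
      refine ⟨(j' - j - 1).toNat, ?_⟩
      push_cast
      rw [Int.toNat_of_nonneg (by omega)]
      ring
    have e : (D ^ j') (T k' ψ) = (D ^ j) ((D ^ (n + 1)) (T k' ψ)) := by
      rw [hn, zpow_add, zpow_natCast]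
      rfl
    rw [e, LinearIsometryEquiv.inner_map_map]
    have e1 : ⟪T k ψ, (D ^ (n + 1)) (T k' ψ)⟫_ℂ = ⟪(D ^ (n + 1)).symm (T k ψ), T k' ψ⟫_ℂ := by
      have := (D ^ (n + 1)).inner_map_map ((D ^ (n + 1)).symm (T k ψ)) (T k' ψ)
      rw [LinearIsometryEquiv.apply_symm_apply] at this
      exact this
    rw [e1, ← hstep n k, hG.proj.symm, hPT, inner_zero_right]
  refine ⟨?_, ?_⟩
  · rw [orthonormal_iff_ite]
    rintro ⟨j, k⟩ ⟨j', k'⟩
    simp only
    rcases lt_trichotomy j j' with hjj | hjj | hjj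
    · rw [hlt j j' k k' hjj, if_neg]
      intro h; exact hjj.ne (Prod.ext_iff.1 h).1
    · subst hjj
      rw [LinearIsometryEquiv.inner_map_map]
      have := (orthonormal_iff_ite.1 hG.orth) k k'
      rw [this]
      simp
    · rw [← inner_conj_symm, hlt j' j k' k hjj, if_neg, map_zero]
      intro h; exact hjj.ne (Prod.ext_iff.1 h).1.symm
  · rw [Submodule.topologicalClosure_eq_top_iff, Submodule.eq_bot_iff]
    intro g hg
    have hg' : ∀ (j k : ℤ), ⟪(D ^ j) (T k ψ), g⟫_ℂ = 0 := fun j k =>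
      (Submodule.mem_orthogonal _ _).1 hg _ (Submodule.subset_span ⟨(j, k), rfl⟩)
    have hPW : ∀ m : ℤ, PW ψ ((D ^ m) g) = 0 := by
      intro m
      unfold PW
      rw [Submodule.starProjection_apply_eq_zero_iff]
      have hcl : (W ψ)ᗮ = (Submodule.span ℂ (Set.range fun k : ℤ => T k ψ))ᗮ :=
        Submodule.orthogonal_closure _
      rw [hcl, Submodule.mem_orthogonal]
      intro u hu
      induction hu using Submodule.span_induction with
      | mem x hx =>
        obtain ⟨k, rfl⟩ := hx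
        simp only
        have e1 := (D ^ (-m)).inner_map_map (T k ψ) ((D ^ m) g)
        have e2 : (D ^ (-m)) ((D ^ m) g) = g := by
          have : (D ^ (-m) * D ^ m) g = g := by rw [← zpow_add, neg_add_cancel, zpow_zero]; rfl
          exact this
        rw [e2] at e1
        rw [← e1]
        exact hg' _ _
      | zero => exact inner_zero_left _
      | add x y _ _ hx hy => rw [inner_add_left, hx, hy, add_zero]
      | smul a x _ hx => rw [inner_smul_left, hx, mul_zero]
    have hsub : ∀ (n : ℕ) (m : ℤ), (D ^ n).symm ((D ^ m) g) = (D ^ (m - n)) g := by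
      intro n m
      rw [LinearIsometryEquiv.symm_apply_eq]
      have : (D ^ n * D ^ (m - n)) g = (D ^ m) g := by
        rw [← zpow_natCast, ← zpow_add]
        congr 2
        ring
      exact this.symm
    have hconst : ∀ (m : ℤ) (n : ℕ), (D ^ n) (P ((D ^ n).symm ((D ^ m) g))) = P ((D ^ m) g) := by
      intro m n
      induction n with
      | zero => rfl
      | succ n ih =>
        rw [hsymm]
        have e : (D ^ (n + 1)) (P (D.symm ((D ^ n).symm ((D ^ m) g)))) =
            (D ^ n) (D (P (D.symm ((D ^ n).symm ((D ^ m) g))))) := by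
          rw [pow_succ]; rfl
        rw [e, hG.twoscale, hsub n m, hPW, add_zero, ← hsub n m, ih]
    have hfix : ∀ m : ℤ, P ((D ^ m) g) = (D ^ m) g := by
      intro m
      have h1 := hG.dense ((D ^ m) g)
      simp only [hconst] at h1
      exact tendsto_nhds_unique tendsto_const_nhds h1
    refine no_ghost hG.proj hG.trace (g := g) fun m => ?_
    have := hfix (m : ℤ)
    rw [zpow_natCast] at this
    exact this

end Pool.Agent.Wav
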