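import Pool.Agent.Lib.MP_0a5c67_an.A3

/-! Task B2: every wavelet has a `GM` pair. -/

set_option autoImplicit false

open MeasureTheory Filter Topology Set
open scoped ENNReal InnerProductSpace ComplexConjugate

noncomputable section

namespace Pool.Agent.Wav

namespace WG

/-- the wavelet basis -/
def ee (ψ : H) (jk : ℤ × ℤ) : H := (D ^ jk.1) (T jk.2 ψ)

variable {ψ : H}

lemma ee_zero (ψ : H) (k : ℤ) : ee ψ (0, k) = T k ψ := by
  simp [ee]

lemma D_ee (ψ : H) (j k : ℤ) : D (ee ψ (j, k)) = ee ψ (j + 1, k) := by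
  unfold ee
  rw [add_comm j 1, zpow_one_add]
  rfl

lemma Dsymm_ee (ψ : H) (j k : ℤ) : D.symm (ee ψ (j, k)) = ee ψ (j - 1, k) := by
  have := D_ee ψ (j - 1) k
  rw [sub_add_cancel] at this
  rw [← this, LinearIsometryEquiv.symm_apply_apply]

lemma dense_ee (hψ : IsWav ψ) :
    Dense ((Submodule.span ℂ (Set.range (ee ψ)) : Submodule ℂ H) : Set H) := by
  rw [Submodule.dense_iff_topologicalClosure_eq_top]
  exact hψ.total

lemma clm_ext (hψ : IsWav ψ) {A B : H →L[ℂ] H} (h : ∀ jk, A (ee ψ jk) = B (ee ψ jk)) : A = B := by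
  refine ContinuousLinearMap.ext_on (dense_ee hψ) ?_
  rintro _ ⟨jk, rfl⟩
  exact h jk

lemma pars (hψ : IsWav ψ) (g : H) :
    HasSum (fun jk : ℤ × ℤ => ‖⟪ee ψ jk, g⟫_ℂ‖ ^ 2) (‖g‖ ^ 2) := by
  have hsp : ⊤ ≤ (Submodule.span ℂ (Set.range (ee ψ))).topologicalClosure := by
    exact hψ.total.ge
  have ho : Orthonormal ℂ (ee ψ) := hψ.orth
  set b := HilbertBasis.mk ho hsp with hb
  have hbv : ∀ i, b i = ee ψ i := fun i => by
    rw [hb, HilbertBasis.coe_mk]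
  have h1 := b.hasSum_inner_mul_inner g g
  have h2 := h1.mapL Complex.reCLM
  have h3 : Complex.reCLM ⟪g, g⟫_ℂ = ‖g‖ ^ 2 := by
    have := @inner_self_eq_norm_sq ℂ H _ _ _ g
    simpa using this
  rw [h3] at h2
  have h4 : (fun i => Complex.reCLM (⟪g, b i⟫_ℂ * ⟪b i, g⟫_ℂ)) =
      fun jk : ℤ × ℤ => ‖⟪ee ψ jk, g⟫_ℂ‖ ^ 2 := by
    funext i
    rw [hbv, ← inner_conj_symm g (ee ψ i), Complex.reCLM_apply, Complex.conj_mul']
    norm_cast
  rw [h4] at h2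
  exact h2

lemma ext_inner_ee (hψ : IsWav ψ) {x y : H} (h : ∀ jk, ⟪ee ψ jk, x⟫_ℂ = ⟪ee ψ jk, y⟫_ℂ) : x = y := by
  have h1 := pars hψ (x - y)
  have h2 : (fun jk : ℤ × ℤ => ‖⟪ee ψ jk, x - y⟫_ℂ‖ ^ 2) = fun _ => 0 := by
    funext jk
    rw [inner_sub_right, h jk, sub_self]
    simp
  rw [h2] at h1
  have h3 := h1.unique hasSum_zero
  have h4 : ‖x - y‖ = 0 := by
    exact pow_eq_zero_iff (two_ne_zero) |>.1 h3
  exact sub_eq_zero.1 (norm_eq_zero.1 h4)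

/-- the space `V₀` -/
def VV (ψ : H) : Submodule ℂ H :=
  (Submodule.span ℂ (Set.range fun jk : {jk : ℤ × ℤ // jk.1 < 0} => ee ψ jk)).topologicalClosure

instance (ψ : H) : (VV ψ).HasOrthogonalProjection := by
  have : CompleteSpace (VV ψ) :=
    (Submodule.isClosed_topologicalClosure _).completeSpace_coe
  infer_instance

/-- the projection onto `V₀` -/
def PV (ψ : H) : H →L[ℂ] H := (VV ψ).starProjection

lemma PV_proj (ψ : H) : Proj (PV ψ) where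
  idem f := by
    unfold PV
    rw [Submodule.starProjection_eq_self_iff]
    exact Submodule.starProjection_apply_mem _ _
  symm f g := Submodule.inner_starProjection_left_eq_right _ f g

lemma ee_mem (ψ : H) {jk : ℤ × ℤ} (h : jk.1 < 0) : ee ψ jk ∈ VV ψ :=
  Submodule.le_topologicalClosure _ (Submodule.subset_span ⟨⟨jk, h⟩, rfl⟩)

lemma PV_neg (ψ : H) {jk : ℤ × ℤ} (h : jk.1 < 0) : PV ψ (ee ψ jk) = ee ψ jk :=
  (Submodule.starProjection_eq_self_iff).2 (ee_mem ψ h)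

lemma mem_orth_closure_span {ι : Type*} (v : ι → H) {x : H} (h : ∀ i, ⟪v i, x⟫_ℂ = 0) :
    x ∈ ((Submodule.span ℂ (Set.range v)).topologicalClosure)ᗮ := by
  rw [Submodule.orthogonal_closure, Submodule.mem_orthogonal]
  intro u hu
  induction hu using Submodule.span_induction with
  | mem y hy =>
    obtain ⟨i, rfl⟩ := hy
    exact h i
  | zero => exact inner_zero_left _
  | add a b _ _ ha hb => rw [inner_add_left, ha, hb, add_zero]
  | smul c a _ ha => rw [inner_smul_left, ha, mul_zero]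

lemma PV_nonneg (hψ : IsWav ψ) {jk : ℤ × ℤ} (h : 0 ≤ jk.1) : PV ψ (ee ψ jk) = 0 := by
  refine (Submodule.starProjection_apply_eq_zero_iff _).2 ?_
  refine mem_orth_closure_span _ fun i => ?_
  refine hψ.orth.2 ?_
  intro hc
  have := i.2
  rw [hc] at this
  exact absurd this (not_lt.2 h)

lemma W_ext {A : H →L[ℂ] H} (h : ∀ k, A (T k ψ) = 0) {w : H} (hw : w ∈ W ψ) : A w = 0 := by
  have h1 : W ψ ≤ LinearMap.ker (A : H →ₗ[ℂ] H) := by
    refine Submodule.topologicalClosure_minimal _ ?_ A.isClosed_ker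
    rw [Submodule.span_le]
    rintro _ ⟨k, rfl⟩
    exact h k
  exact h1 hw

/-- the `n`-th power of `D` as a continuous linear map -/
def Dc (j : ℤ) : H →L[ℂ] H := ((D ^ j).toContinuousLinearEquiv : H →L[ℂ] H)

lemma Dc_apply (j : ℤ) (f : H) : Dc j f = (D ^ j) f := rfl

lemma PV_D_W (hψ : IsWav ψ) {j : ℤ} (hj : 0 ≤ j) {w : H} (hw : w ∈ W ψ) :
    PV ψ ((D ^ j) w) = 0 := by
  have := W_ext (A := PV ψ ∘L Dc j) (fun k => ?_) hw
  · exact this
  · exact PV_nonneg (jk := (j, k)) hψ hj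

lemma PW_ee (hψ : IsWav ψ) {jk : ℤ × ℤ} (h : jk.1 ≠ 0) : PW ψ (ee ψ jk) = 0 := by
  refine (Submodule.starProjection_apply_eq_zero_iff _).2 ?_
  refine mem_orth_closure_span _ fun i => ?_
  have := hψ.orth.2 (i := (0, i)) (j := jk) (by
    intro hc
    rw [← hc] at h
    exact h rfl)
  simpa [ee] using this

lemma orthT (hψ : IsWav ψ) : Orthonormal ℂ (fun k : ℤ => T k ψ) := by
  have := hψ.orth.comp (fun k : ℤ => ((0 : ℤ), k)) (fun a b h => (Prod.mk.inj h).2)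
  simpa [Function.comp_def] using this

/-- natural powers -/
lemma Per.comp_pow {m : ℝ → ℂ} (hm : Per m) (n : ℕ) : Per (fun x => m (2 ^ n * x)) := by
  refine ⟨hm.toBM.comp_mul _, fun x => ?_⟩
  have h1 : ∀ (k : ℕ) (y : ℝ), m (y + k) = m y := by
    intro k
    induction k with
    | zero => intro y; simp
    | succ k ih =>
      intro y
      have : y + ((k + 1 : ℕ) : ℝ) = (y + k) + 1 := by push_cast; ring
      rw [this, hm.per, ih]
  have h2 : (2 : ℝ) ^ n * (x + 1) = 2 ^ n * x + ((2 ^ n : ℕ) : ℝ) := by push_cast; ring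
  rw [h2, h1]

lemma Per.star {m : ℝ → ℂ} (hm : Per m) : Per (fun x => conj (m x)) :=
  ⟨hm.toBM.star, fun x => by rw [hm.per]⟩

lemma M_Dpow (n : ℕ) {m : ℝ → ℂ} (hm : BM m) (f : H) :
    M m ((D ^ n) f) = (D ^ n) (M (fun x => m (2 ^ n * x)) f) := by
  rw [Dpow_M n (hm.comp_mul _)]
  congr 2
  ext x
  congr 1
  field_simp

lemma PV_M_nonneg (hψ : IsWav ψ) {m : ℝ → ℂ} (hm : Per m) {jk : ℤ × ℤ} (h : 0 ≤ jk.1) :
    PV ψ (M m (ee ψ jk)) = 0 := by
  obtain ⟨j, k⟩ := jk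
  obtain ⟨n, rfl⟩ := Int.eq_ofNat_of_zero_le h
  unfold ee
  simp only [zpow_natCast]
  rw [M_Dpow n hm.toBM]
  have := PV_D_W hψ (j := (n : ℤ)) (by positivity)
    (W_M (orthT hψ) (Per.comp_pow hm n) (T_mem_W ψ k))
  simpa using this

lemma PV_M_neg (hψ : IsWav ψ) {m : ℝ → ℂ} (hm : Per m) {jk : ℤ × ℤ} (h : jk.1 < 0) :
    PV ψ (M m (ee ψ jk)) = M m (ee ψ jk) := by
  refine ext_inner_ee hψ fun i => ?_
  rcases lt_or_ge i.1 0 with hi | hi
  · rw [← (PV_proj ψ).symm, PV_neg ψ hi]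
  · rw [← (PV_proj ψ).symm, PV_nonneg hψ hi, inner_zero_left, ← PV_neg ψ h]
    have h1 : ⟪ee ψ i, M m (PV ψ (ee ψ jk))⟫_ℂ =
        ⟪M (fun x => conj (m x)) (ee ψ i), PV ψ (ee ψ jk)⟫_ℂ := by
      rw [inner_M_left hm.toBM.star]
      simp
    rw [h1, ← (PV_proj ψ).symm, PV_M_nonneg hψ (Per.star hm) hi, inner_zero_left]

lemma PV_comm (hψ : IsWav ψ) : PComm (PV ψ) := by
  intro m hm f
  have : (PV ψ) ∘L (M m) = (M m) ∘L (PV ψ) := by
    refine clm_ext hψ fun jk => ?_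
    simp only [ContinuousLinearMap.comp_apply]
    rcases lt_or_ge jk.1 0 with hi | hi
    · rw [PV_M_neg hψ hm hi, PV_neg ψ hi]
    · rw [PV_M_nonneg hψ hm hi, PV_nonneg hψ hi, map_zero]
  exact DFunLike.congr_fun this f

lemma PV_twoscale (hψ : IsWav ψ) : cD (PV ψ) = PV ψ + PW ψ := by
  refine clm_ext hψ fun jk => ?_
  obtain ⟨j, k⟩ := jk
  rw [cD_apply, Dsymm_ee, _root_.add_apply]
  rcases lt_trichotomy j 0 with hj | hj | hj
  · rw [PV_neg ψ (jk := (j - 1, k)) (by show j - 1 < 0; omega), D_ee, sub_add_cancel,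
      PV_neg ψ (jk := (j, k)) hj, PW_ee hψ (jk := (j, k)) hj.ne, add_zero]
  · subst hj
    rw [PV_neg ψ (jk := (0 - 1, k)) (by norm_num), D_ee, sub_add_cancel,
      PV_nonneg hψ (jk := (0, k)) le_rfl, ee_zero, PW_self, zero_add]
  · rw [PV_nonneg hψ (jk := (j - 1, k)) (by show 0 ≤ j - 1; omega), map_zero,
      PV_nonneg hψ (jk := (j, k)) hj.le, PW_ee hψ (jk := (j, k)) hj.ne', add_zero]

lemma PV_inner (hψ : IsWav ψ) (jk : ℤ × ℤ) (f : H) :
    ⟪ee ψ jk, PV ψ f⟫_ℂ = if jk.1 < 0 then ⟪ee ψ jk, f⟫_ℂ else 0 := by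
  rw [← (PV_proj ψ).symm]
  split_ifs with h
  · rw [PV_neg ψ h]
  · rw [PV_nonneg hψ (not_lt.1 h), inner_zero_left]

lemma D_symm_pow_ee (ψ : H) (n : ℕ) (j k : ℤ) : (D ^ n).symm (ee ψ (j, k)) = ee ψ (j - n, k) := by
  rw [LinearIsometryEquiv.symm_apply_eq]
  unfold ee
  simp only
  have h1 : (D ^ j : H ≃ₗᵢ[ℂ] H) = D ^ n * D ^ (j - n) := by
    rw [← zpow_natCast, ← zpow_add]
    congr 1
    ring
  rw [h1]
  rfl

lemma PV_dense (hψ : IsWav ψ) (f : H) :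
    Tendsto (fun n : ℕ => (D ^ n) (PV ψ ((D ^ n).symm f))) atTop (𝓝 f) := by
  rw [tendsto_iff_norm_sub_tendsto_zero]
  have h1 : ∀ n : ℕ, ‖(D ^ n) (PV ψ ((D ^ n).symm f)) - f‖ ^ 2 =
      ∑' jk : ℤ × ℤ, (if jk.1 < n then 0 else ‖⟪ee ψ jk, f⟫_ℂ‖ ^ 2) := by
    intro n
    rw [← (pars hψ _).tsum_eq]
    refine tsum_congr fun jk => ?_
    obtain ⟨j, k⟩ := jk
    have h2 : ⟪ee ψ (j, k), (D ^ n) (PV ψ ((D ^ n).symm f))⟫_ℂ =
        if j < n then ⟪ee ψ (j, k), f⟫_ℂ else 0 := by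
      have h3 : ⟪ee ψ (j, k), (D ^ n) (PV ψ ((D ^ n).symm f))⟫_ℂ =
          ⟪(D ^ n).symm (ee ψ (j, k)), PV ψ ((D ^ n).symm f)⟫_ℂ := by
        rw [← LinearIsometryEquiv.inner_map_map (D ^ n) ((D ^ n).symm (ee ψ (j, k))),
          LinearIsometryEquiv.apply_symm_apply]
      rw [h3, D_symm_pow_ee, PV_inner hψ]
      simp only [sub_neg]
      split_ifs with h4
      · rw [← D_symm_pow_ee, LinearIsometryEquiv.inner_map_map]
      · rfl
    rw [inner_sub_right, h2]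
    simp only
    split_ifs with h4
    · simp
    · simp
  have h2 : Tendsto (fun n : ℕ => ∑' jk : ℤ × ℤ, (if jk.1 < (n : ℤ) then (0 : ℝ) else
      ‖⟪ee ψ jk, f⟫_ℂ‖ ^ 2)) atTop (𝓝 (∑' jk : ℤ × ℤ, (0 : ℝ))) := by
    refine tendsto_tsum_of_dominated_convergence (pars hψ f).summable ?_ ?_
    · intro jk
      refine tendsto_const_nhds.congr' ?_
      filter_upwards [eventually_gt_atTop jk.1.toNat] with n hn
      rw [if_pos]
      omega
    · refine Eventually.of_forall fun n jk => ?_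
      split_ifs
      · simp
      · simp
  rw [tsum_zero] at h2
  have h3 : Tendsto (fun n : ℕ => ‖(D ^ n) (PV ψ ((D ^ n).symm f)) - f‖ ^ 2) atTop (𝓝 0) :=
    h2.congr fun n => (h1 n).symm
  have h4 := h3.sqrt
  simpa [Real.sqrt_sq] using h4


/-! ### the density -/

lemma integrable_norm_sq (f : H) : Integrable (fun x => ‖f x‖ ^ 2) := by
  have := (Lp.memLp f).integrable_norm_pow (p := 2) (by norm_num)
  simpa using this

lemma measurable_fn (f : H) : Measurable (f : ℝ → ℂ) := (Lp.stronglyMeasurable f).measurable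

lemma lint_norm_sq (f : H) (A : Set ℝ) :
    ∫⁻ x in A, ‖f x‖ₑ ^ 2 = ENNReal.ofReal (∫ x in A, ‖f x‖ ^ 2) := by
  rw [ofReal_integral_eq_lintegral_ofReal (integrable_norm_sq f).integrableOn
    (ae_of_all _ fun x => by positivity)]
  refine lintegral_congr fun x => ?_
  rw [ENNReal.ofReal_pow (norm_nonneg _), ofReal_norm]

lemma PV_PW (hψ : IsWav ψ) (f : H) : PV ψ (PW ψ f) = 0 := by
  have h : PW ψ f ∈ W ψ := Submodule.starProjection_apply_mem _ _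
  have := PV_D_W hψ (j := 0) le_rfl h
  simpa using this

lemma norm_cD_sq (hψ : IsWav ψ) (f : H) :
    ‖cD (PV ψ) f‖ ^ 2 = ‖PV ψ f‖ ^ 2 + ‖PW ψ f‖ ^ 2 := by
  rw [PV_twoscale hψ, _root_.add_apply, @norm_add_sq ℂ H _ _ _]
  have : ⟪PV ψ f, PW ψ f⟫_ℂ = 0 := by
    rw [(PV_proj ψ).symm, PV_PW hψ, inner_zero_right]
  rw [this]
  simp

/-- the function `1_A` -/
lemma ind_fn {A : Set ℝ} (hA : MeasurableSet A) (hf : volume A ≠ ∞) :
    ∃ f : H, (f : ℝ → ℂ) =ᵐ[volume] ind A :=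
  ⟨indicatorConstLp 2 hA hf (1 : ℂ), indicatorConstLp_coeFn⟩

lemma Q_ind {A B : Set ℝ} (hB : MeasurableSet B) (hAB : A ⊆ B) {f : H}
    (hf : (f : ℝ → ℂ) =ᵐ[volume] ind A) : Q B f = f := by
  ext1
  refine (Q_ae hB f).trans ?_
  filter_upwards [hf] with x hx
  rw [hx]
  by_cases h : x ∈ A
  · rw [ind_of_mem h, ind_of_mem (hAB h), one_mul]
  · rw [ind_of_notMem h, mul_zero]

lemma int_ind {A : Set ℝ} (hA : MeasurableSet A) {f : H}
    (hf : (f : ℝ → ℂ) =ᵐ[volume] ind A) (g : ℝ → ℝ) :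
    ∫ x, g x * ‖f x‖ ^ 2 = ∫ x in A, g x := by
  rw [← integral_indicator hA]
  refine integral_congr_ae ?_
  filter_upwards [hf] with x hx
  rw [hx]
  by_cases h : x ∈ A
  · rw [ind_of_mem h, indicator_of_mem h]
    simp
  · rw [ind_of_notMem h, indicator_of_notMem h]
    simp

lemma dens_half' (hψ : IsWav ψ) {p : ℝ → ℝ} (hp : IsDens (PV ψ) p) :
    ∀ᵐ x, p (x / 2) = p x + ‖ψ x‖ ^ 2 := by
  have key : ∀ a : ℤ, ∀ᵐ x, x ∈ Ico (a : ℝ) (a + 1) → p (x / 2) = p x + ‖ψ x‖ ^ 2 := by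
    intro a
    have hI : MeasurableSet (Ico (a : ℝ) (a + 1)) := measurableSet_Ico
    rw [← ae_restrict_iff' hI]
    have hm2 : Measurable fun x : ℝ => p (x / 2) := hp.meas.comp (measurable_id.div_const 2)
    have hb1 : ∀ (f : ℝ → ℝ), Measurable f → (∀ x, 0 ≤ f x) → (∀ x, f x ≤ 1) →
        ∀ s : Set ℝ, volume s ≠ ∞ → IntegrableOn f s := by
      intro f hf h0 h1 s hs
      refine Measure.integrableOn_of_bounded (M := 1) hs hf.aestronglyMeasurable ?_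
      refine ae_of_all _ fun x => ?_
      rw [Real.norm_eq_abs, abs_of_nonneg (h0 x)]
      exact h1 x
    have hIfin : ∀ s : Set ℝ, volume (s ∩ Ico (a : ℝ) (a + 1)) ≠ ∞ := by
      intro s
      refine ne_of_lt (lt_of_le_of_lt (measure_mono inter_subset_right) ?_)
      simp
    refine ae_eq_of_forall_setIntegral_eq_of_sigmaFinite ?_ ?_ ?_
    · intro s hs _
      rw [IntegrableOn, Measure.restrict_restrict hs]
      exact hb1 _ hm2 (fun x => hp.nonneg _) (fun x => hp.le_one _) _ (hIfin s)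
    · intro s hs _
      rw [IntegrableOn, Measure.restrict_restrict hs]
      exact (hb1 _ hp.meas (fun x => hp.nonneg _) (fun x => hp.le_one _) _ (hIfin s)).add
        (integrable_norm_sq ψ).integrableOn
    · intro s hs _
      rw [Measure.restrict_restrict hs]
      have hsI : MeasurableSet (s ∩ Ico (a : ℝ) (a + 1)) := hs.inter hI
      obtain ⟨f, hf⟩ := ind_fn hsI (hIfin s)
      have hQ := Q_ind hI inter_subset_right hf
      have h1 := (hp.conjD (PV_proj ψ) (PV_comm hψ)).norm_sq (proj_cD (PV_proj ψ)) a f hQ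
      have h2 := hp.norm_sq (PV_proj ψ) a f hQ
      have h3 := PW_norm_sq_unit (orthT hψ) a f hQ
      have h4 := norm_cD_sq hψ f
      rw [h1, h2, h3, int_ind hsI hf, int_ind hsI hf, int_ind hsI hf] at h4
      rw [h4, integral_add]
      · exact hb1 _ hp.meas (fun x => hp.nonneg _) (fun x => hp.le_one _) _ (hIfin s)
      · exact (integrable_norm_sq ψ).integrableOn
  filter_upwards [ae_all_iff.2 key] with x hx
  exact hx ⌊x⌋ ⟨Int.floor_le x, Int.lt_floor_add_one x⟩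

lemma norm_psi (hψ : IsWav ψ) : ‖ψ‖ = 1 := by
  have := (orthT hψ).1 0
  simp only [T_zero] at this
  exact this

lemma lint_psi (hψ : IsWav ψ) : ∫⁻ x, ‖ψ x‖ₑ ^ 2 = 1 := by
  have h1 := lint_norm_sq ψ univ
  rw [Measure.restrict_univ, ← norm_sq_eq, norm_psi hψ] at h1
  simpa using h1

lemma T_h_norm (k q : ℤ) (ψ : H) : ‖⟪T k ψ, h q⟫_ℂ‖ = ‖⟪T (-k) (h q), ψ⟫_ℂ‖ := by
  rw [inner_T, ← inner_conj_symm, RCLike.norm_conj]

lemma sum_T_h (q : ℤ) (ψ : H) : ∑' k : ℤ, ENNReal.ofReal (‖⟪T k ψ, h q⟫_ℂ‖ ^ 2) =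
    ∫⁻ x in Ico (q : ℝ) (q + 1), ‖ψ x‖ₑ ^ 2 := by
  have h1 := parseval_unit q ψ
  rw [lint_norm_sq, ← h1.tsum_eq, ENNReal.ofReal_tsum_of_nonneg (fun _ => by positivity) h1.summable]
  rw [← (Equiv.neg ℤ).tsum_eq]
  refine tsum_congr fun k => ?_
  rw [Equiv.neg_apply, T_h_norm, neg_neg]

lemma Dpow_h (N : ℕ) (a : ℤ) : (D ^ N) (h a) =
    ((Real.sqrt ((1 / 2) ^ N) : ℝ) : ℂ) • ∑ i ∈ Finset.range (2 ^ N), h (2 ^ N * a + i) := by
  ext1
  refine (Dpow_ae N (h a)).trans ?_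
  refine EventuallyEq.trans ?_ (Lp.coeFn_smul _ _).symm
  have hs : ∀ s : Finset ℕ, (⇑(∑ i ∈ s, h (2 ^ N * a + i)) : ℝ → ℂ) =ᵐ[volume]
      fun x => ∑ i ∈ s, ind (Ico ((2 ^ N * a + i : ℤ) : ℝ) ((2 ^ N * a + i : ℤ) + 1)) x := by
    intro s
    induction s using Finset.induction_on with
    | empty =>
      simp only [Finset.sum_empty]
      exact Lp.coeFn_zero _ _ _
    | insert i s hi ih =>
      rw [Finset.sum_insert hi]
      refine (Lp.coeFn_add _ _).trans ?_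
      filter_upwards [ih, h_ae (2 ^ N * a + i)] with x h1 h2
      rw [Pi.add_apply, h1, h2, Finset.sum_insert hi]
  have hh : ∀ᵐ x : ℝ, h a (x / 2 ^ N) = ind (Ico (a : ℝ) (a + 1)) (x / 2 ^ N) := by
    have hc : (0 : ℝ) < (1 / 2) ^ N := by positivity
    have h1 := (qmp_mul hc).ae_eq (h_ae a)
    filter_upwards [h1] with x hx
    simp only [Function.comp_apply] at hx
    have e : (1 / 2 : ℝ) ^ N * x = x / 2 ^ N := by
      rw [one_div, inv_pow]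
      ring
    rwa [e] at hx
  filter_upwards [hs (Finset.range (2 ^ N)), hh] with x h1 h2
  rw [Pi.smul_apply, h1, h2, smul_eq_mul]
  congr 1
  have hpos : (0 : ℝ) < 2 ^ N := by positivity
  by_cases hx : x / 2 ^ N ∈ Ico (a : ℝ) (a + 1)
  · rw [ind_of_mem hx]
    obtain ⟨hx1, hx2⟩ := hx
    rw [le_div_iff₀ hpos] at hx1
    rw [div_lt_iff₀ hpos] at hx2
    have hfl1 : (2 ^ N * a : ℤ) ≤ ⌊x⌋ := by
      rw [Int.le_floor]
      push_cast
      linarith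
    have hfl2 : ⌊x⌋ < (2 ^ N * a : ℤ) + 2 ^ N := by
      rw [Int.floor_lt]
      push_cast
      linarith
    have hi0 : ((⌊x⌋ - 2 ^ N * a).toNat : ℤ) = ⌊x⌋ - 2 ^ N * a := Int.toNat_of_nonneg (by linarith)
    rw [Finset.sum_eq_single (⌊x⌋ - 2 ^ N * a).toNat]
    · rw [ind_of_mem]
      rw [hi0]
      have e : (2 ^ N * a + (⌊x⌋ - 2 ^ N * a) : ℤ) = ⌊x⌋ := by ring
      rw [e]
      exact ⟨Int.floor_le x, Int.lt_floor_add_one x⟩
    · intro i _ hne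
      rw [ind_of_notMem]
      rintro ⟨h3, h4⟩
      apply hne
      have h5 : ⌊x⌋ = 2 ^ N * a + i := by
        rw [Int.floor_eq_iff]
        exact ⟨h3, h4⟩
      have h6 : ((⌊x⌋ - 2 ^ N * a).toNat : ℤ) = i := by
        rw [hi0, h5]
        ring
      exact_mod_cast h6.symm
    · intro hni
      exfalso
      apply hni
      rw [Finset.mem_range]
      zify
      rw [hi0]
      linarith
  · rw [ind_of_notMem hx]
    symm
    refine Finset.sum_eq_zero fun i hi => ?_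
    rw [ind_of_notMem]
    rintro ⟨h3, h4⟩
    apply hx
    have hi' : (i : ℝ) + 1 ≤ 2 ^ N := by
      have := Finset.mem_range.1 hi
      have h7 : i + 1 ≤ 2 ^ N := this
      exact_mod_cast h7
    push_cast at h3 h4
    have hi0 : (0 : ℝ) ≤ i := by positivity
    constructor
    · rw [le_div_iff₀ hpos]
      linarith
    · rw [div_lt_iff₀ hpos]
      linarith

lemma K1 (N : ℕ) (a : ℤ) (ψ : H) :
    ∑' k : ℤ, ENNReal.ofReal (‖⟪T k ψ, (D ^ N) (h a)⟫_ℂ‖ ^ 2) ≤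
      ∑ i ∈ Finset.range (2 ^ N), ∫⁻ x in Ico ((2 ^ N * a + i : ℤ) : ℝ) ((2 ^ N * a + i : ℤ) + 1),
        ‖ψ x‖ₑ ^ 2 := by
  have h1 : ∀ k : ℤ, ENNReal.ofReal (‖⟪T k ψ, (D ^ N) (h a)⟫_ℂ‖ ^ 2) ≤
      ∑ i ∈ Finset.range (2 ^ N), ENNReal.ofReal (‖⟪T k ψ, h (2 ^ N * a + i)⟫_ℂ‖ ^ 2) := by
    intro k
    rw [← ENNReal.ofReal_sum_of_nonneg (fun _ _ => by positivity)]
    refine ENNReal.ofReal_le_ofReal ?_
    rw [Dpow_h, inner_smul_right, inner_sum, norm_mul, mul_pow, Complex.norm_real,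
      Real.norm_eq_abs, sq_abs, Real.sq_sqrt (by positivity)]
    have h2 : ‖∑ i ∈ Finset.range (2 ^ N), ⟪T k ψ, h (2 ^ N * a + i)⟫_ℂ‖ ^ 2 ≤
        (∑ i ∈ Finset.range (2 ^ N), ‖⟪T k ψ, h (2 ^ N * a + i)⟫_ℂ‖) ^ 2 :=
      pow_le_pow_left₀ (norm_nonneg _) (norm_sum_le _ _) 2
    have h3 := sq_sum_le_card_mul_sum_sq (s := Finset.range (2 ^ N))
      (f := fun i : ℕ => ‖⟪T k ψ, h (2 ^ N * a + i)⟫_ℂ‖)
    rw [Finset.card_range] at h3
    push_cast at h3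
    calc (1 / 2 : ℝ) ^ N * ‖∑ i ∈ Finset.range (2 ^ N), ⟪T k ψ, h (2 ^ N * a + i)⟫_ℂ‖ ^ 2
        ≤ (1 / 2 : ℝ) ^ N * (2 ^ N *
            ∑ i ∈ Finset.range (2 ^ N), ‖⟪T k ψ, h (2 ^ N * a + i)⟫_ℂ‖ ^ 2) :=
          mul_le_mul_of_nonneg_left (h2.trans h3) (by positivity)
      _ = _ := by
          rw [← mul_assoc, ← mul_pow]
          norm_num
  refine (ENNReal.tsum_le_tsum h1).trans ?_
  rw [Summable.tsum_finsetSum (fun _ _ => ENNReal.summable)]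
  refine Finset.sum_le_sum fun i _ => ?_
  rw [sum_T_h]


/-- splitting an interval with integer endpoints into unit intervals -/
lemma lint_Ico_split (g : ℝ → ℝ≥0∞) (b : ℤ) (m : ℕ) :
    ∫⁻ x in Ico (b : ℝ) (b + m), g x =
      ∑ i ∈ Finset.range m, ∫⁻ x in Ico ((b + i : ℤ) : ℝ) ((b + i : ℤ) + 1), g x := by
  induction m with
  | zero => simp
  | succ m ih =>
    rw [Finset.sum_range_succ, ← ih]
    have e : Ico (b : ℝ) (b + ((m + 1 : ℕ) : ℝ)) =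
        Ico (b : ℝ) (b + m) ∪ Ico ((b + m : ℤ) : ℝ) ((b + m : ℤ) + 1) := by
      rw [Int.cast_add, Int.cast_natCast, Ico_union_Ico_eq_Ico (by
        have : (0 : ℝ) ≤ m := by positivity
        linarith) (by linarith)]
      push_cast
      ring_nf
    rw [e, lintegral_union measurableSet_Ico]
    refine Set.disjoint_left.2 fun x h1 h2 => ?_
    have h3 := h1.2
    have h4 := h2.1
    push_cast at h4
    linarith

lemma K2 (hψ : IsWav ψ) (a : ℤ) : ENNReal.ofReal (‖PV ψ (h a)‖ ^ 2) ≤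
    ∑' n : ℕ, ∫⁻ x in Ico ((2 ^ (n + 1) * a : ℤ) : ℝ) ((2 ^ (n + 1) * a : ℤ) + ((2 ^ (n + 1) : ℕ) : ℝ)),
      ‖ψ x‖ₑ ^ 2 := by
  have h1 := pars hψ (PV ψ (h a))
  rw [← h1.tsum_eq, ENNReal.ofReal_tsum_of_nonneg (fun _ => by positivity) h1.summable,
    ENNReal.tsum_prod']
  have h2 : ∀ j : ℤ, 0 ≤ j →
      ∑' k : ℤ, ENNReal.ofReal (‖⟪ee ψ (j, k), PV ψ (h a)⟫_ℂ‖ ^ 2) = 0 := by
    intro j hj
    rw [ENNReal.tsum_eq_zero]
    intro k
    rw [PV_inner hψ, if_neg (not_lt.2 hj)]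
    simp
  have h3 : ∑' j : ℤ, ∑' k : ℤ, ENNReal.ofReal (‖⟪ee ψ (j, k), PV ψ (h a)⟫_ℂ‖ ^ 2) =
      ∑' n : ℕ, ∑' k : ℤ, ENNReal.ofReal (‖⟪ee ψ (Int.negSucc n, k), PV ψ (h a)⟫_ℂ‖ ^ 2) := by
    have hinj : Function.Injective Int.negSucc := fun x y h => Int.negSucc.inj h
    refine (hinj.tsum_eq (f := fun j : ℤ => ∑' k : ℤ,
      ENNReal.ofReal (‖⟪ee ψ (j, k), PV ψ (h a)⟫_ℂ‖ ^ 2)) ?_).symm
    intro j hj
    rw [Function.mem_support] at hj
    rcases j with n | n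
    · exact absurd (h2 n (by positivity)) hj
    · exact ⟨n, rfl⟩
  rw [h3]
  refine ENNReal.tsum_le_tsum fun n => ?_
  rw [lint_Ico_split]
  refine le_trans (le_of_eq ?_) (K1 (n + 1) a ψ)
  refine tsum_congr fun k => ?_
  rw [PV_inner hψ, if_pos (Int.negSucc_lt_zero n)]
  congr 3
  unfold ee
  simp only
  rw [zpow_negSucc, ← LinearIsometryEquiv.inner_map_map (D ^ (n + 1))]
  congr 1
  exact LinearIsometryEquiv.apply_symm_apply (D ^ (n + 1)) _

lemma lint_scale {c : ℝ} (hc : 0 < c) {g : ℝ → ℝ≥0∞} (hg : Measurable g) :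
    ∫⁻ x, g (c * x) = ENNReal.ofReal c⁻¹ * ∫⁻ x, g x := by
  have h1 := lintegral_map (μ := volume) hg (measurable_const_mul c)
  rw [Real.map_volume_mul_left hc.ne', lintegral_smul_measure, abs_of_pos (inv_pos.2 hc)] at h1
  rw [← h1]
  rfl

lemma lint_p_unit {p : ℝ → ℝ} (hp : IsDens (PV ψ) p) (a : ℤ) :
    ∫⁻ x in Ico (a : ℝ) (a + 1), ENNReal.ofReal (p x) = ENNReal.ofReal (‖PV ψ (h a)‖ ^ 2) := by
  have hI : MeasurableSet (Ico (a : ℝ) (a + 1)) := measurableSet_Ico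
  have h1 := hp.norm_sq (PV_proj ψ) a (h a) (Q_ind hI subset_rfl (h_ae a))
  rw [int_ind hI (h_ae a)] at h1
  rw [h1, ofReal_integral_eq_lintegral_ofReal]
  · refine Measure.integrableOn_of_bounded (M := 1) (by simp) hp.meas.aestronglyMeasurable ?_
    refine ae_of_all _ fun x => ?_
    rw [Real.norm_eq_abs, abs_of_nonneg (hp.nonneg x)]
    exact hp.le_one x
  · exact ae_of_all _ fun x => hp.nonneg x

/-- the integral of the density over an interval with integer endpoints -/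
lemma K3 (hψ : IsWav ψ) {p : ℝ → ℝ} (hp : IsDens (PV ψ) p) (b : ℤ) (m : ℕ) :
    ∫⁻ x in Ico (b : ℝ) (b + m), ENNReal.ofReal (p x) ≤
      ∑' n : ℕ, ∫⁻ x in Ico (2 ^ (n + 1) * (b : ℝ)) (2 ^ (n + 1) * ((b : ℝ) + m)), ‖ψ x‖ₑ ^ 2 := by
  have h1 : ∀ n : ℕ, ∫⁻ x in Ico (2 ^ (n + 1) * (b : ℝ)) (2 ^ (n + 1) * ((b : ℝ) + m)), ‖ψ x‖ₑ ^ 2 =
      ∑ i ∈ Finset.range m, ∫⁻ x in Ico ((2 ^ (n + 1) * (b + i) : ℤ) : ℝ)
        ((2 ^ (n + 1) * (b + i) : ℤ) + ((2 ^ (n + 1) : ℕ) : ℝ)), ‖ψ x‖ₑ ^ 2 := by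
    intro n
    induction m with
    | zero => simp
    | succ m ih =>
      rw [Finset.sum_range_succ, ← ih]
      have hpos : (0 : ℝ) < 2 ^ (n + 1) := by positivity
      have e : Ico (2 ^ (n + 1) * (b : ℝ)) (2 ^ (n + 1) * ((b : ℝ) + ((m + 1 : ℕ) : ℝ))) =
          Ico (2 ^ (n + 1) * (b : ℝ)) (2 ^ (n + 1) * ((b : ℝ) + m)) ∪
          Ico ((2 ^ (n + 1) * (b + m) : ℤ) : ℝ)
            ((2 ^ (n + 1) * (b + m) : ℤ) + ((2 ^ (n + 1) : ℕ) : ℝ)) := by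
        have hm : (0 : ℝ) ≤ m := by positivity
        have e1 : ((2 ^ (n + 1) * (b + m) : ℤ) : ℝ) = 2 ^ (n + 1) * ((b : ℝ) + m) := by push_cast; ring
        have e2 : ((2 ^ (n + 1) * (b + m) : ℤ) : ℝ) + ((2 ^ (n + 1) : ℕ) : ℝ) =
            2 ^ (n + 1) * ((b : ℝ) + ((m + 1 : ℕ) : ℝ)) := by push_cast; ring
        rw [e2, e1, Ico_union_Ico_eq_Ico]
        · nlinarith
        · push_cast
          nlinarith
      rw [e, lintegral_union measurableSet_Ico]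
      refine Set.disjoint_left.2 fun x h1 h2 => ?_
      have h3 := h1.2
      have h4 := h2.1
      push_cast at h4
      linarith
  simp only [h1]
  rw [lint_Ico_split, Summable.tsum_finsetSum (fun _ _ => ENNReal.summable)]
  refine Finset.sum_le_sum fun i _ => ?_
  rw [lint_p_unit hp]
  exact K2 hψ (b + i)

/-- dyadic blocks: `b = 2^N` or `b = -2^(N+1)` -/
lemma K4 (hψ : IsWav ψ) {p : ℝ → ℝ} (hp : IsDens (PV ψ) p) (c : ℝ) (hc : c = 1 ∨ c = -2) (N : ℕ) :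
    ∫⁻ x in Ico (2 ^ N * c) (2 ^ N * (c + 1)), ENNReal.ofReal (p x) ≤ 1 := by
  obtain ⟨b, hb⟩ : ∃ b : ℤ, (b : ℝ) = 2 ^ N * c := by
    rcases hc with rfl | rfl
    · exact ⟨2 ^ N, by push_cast; ring⟩
    · exact ⟨2 ^ N * (-2), by push_cast; ring⟩
  have h1 := K3 hψ hp b (2 ^ N)
  have e : (b : ℝ) + ((2 ^ N : ℕ) : ℝ) = 2 ^ N * (c + 1) := by
    rw [hb]
    push_cast
    ring
  rw [e, hb] at h1
  refine h1.trans ?_
  have hd : Pairwise (Function.onFun Disjoint fun n : ℕ =>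
      Ico (2 ^ (n + 1) * (2 ^ N * c)) (2 ^ (n + 1) * (2 ^ N * (c + 1)))) := by
    have hlt : ∀ m n : ℕ, m < n → Disjoint
        (Ico (2 ^ (m + 1) * (2 ^ N * c)) (2 ^ (m + 1) * (2 ^ N * (c + 1))))
        (Ico (2 ^ (n + 1) * (2 ^ N * c)) (2 ^ (n + 1) * (2 ^ N * (c + 1)))) := by
      intro m n hmn
      refine Set.disjoint_left.2 fun x hx1 hx2 => ?_
      obtain ⟨h3, h4⟩ := hx1
      obtain ⟨h5, h6⟩ := hx2
      have hN : (0 : ℝ) < 2 ^ N := by positivity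
      have hp1 : (0 : ℝ) < 2 ^ (m + 1) := by positivity
      have hp2 : (2 : ℝ) ^ (m + 1) * 2 ≤ 2 ^ (n + 1) := by
        rw [← pow_succ]
        exact pow_le_pow_right₀ (by norm_num) (by omega)
      rcases hc with rfl | rfl
      · nlinarith [mul_le_mul_of_nonneg_right hp2 hN.le]
      · nlinarith [mul_le_mul_of_nonneg_right hp2 hN.le]
    intro m n hmn
    rcases lt_or_gt_of_ne hmn with hlt' | hlt'
    · exact hlt m n hlt'
    · exact (hlt n m hlt').symm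
  rw [← lintegral_iUnion (fun _ => measurableSet_Ico) hd]
  refine (setLIntegral_le_lintegral _ _).trans ?_
  rw [lint_psi hψ]

lemma K5 (hψ : IsWav ψ) {p : ℝ → ℝ} (hp : IsDens (PV ψ) p) (c : ℝ) (hc : c = 1 ∨ c = -2) :
    ∀ᵐ x, x ∈ Ico c (c + 1) → Tendsto (fun N : ℕ => p (2 ^ N * x)) atTop (𝓝 0) := by
  have hI : MeasurableSet (Ico c (c + 1)) := measurableSet_Ico
  rw [← ae_restrict_iff' hI]
  have hm : ∀ N : ℕ, Measurable fun x : ℝ => ENNReal.ofReal (p (2 ^ N * x)) := fun N =>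
    (hp.meas.comp (measurable_const_mul _)).ennreal_ofReal
  have h1 : ∀ N : ℕ, ∫⁻ x in Ico c (c + 1), ENNReal.ofReal (p (2 ^ N * x)) ≤ (1 / 2) ^ N := by
    intro N
    have hpos : (0 : ℝ) < 2 ^ N := by positivity
    have h2 := K4 hψ hp c hc N
    rw [← lintegral_indicator measurableSet_Ico] at h2
    rw [← lintegral_indicator hI]
    have h3 := lint_scale hpos (g := (Ico (2 ^ N * c) (2 ^ N * (c + 1))).indicator
      fun x => ENNReal.ofReal (p x)) (hp.meas.ennreal_ofReal.indicator measurableSet_Ico)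
    have h4 : (fun x : ℝ => (Ico (2 ^ N * c) (2 ^ N * (c + 1))).indicator
        (fun x => ENNReal.ofReal (p x)) (2 ^ N * x)) =
        (Ico c (c + 1)).indicator fun x => ENNReal.ofReal (p (2 ^ N * x)) := by
      funext x
      by_cases hx : x ∈ Ico c (c + 1)
      · rw [indicator_of_mem hx, indicator_of_mem]
        exact ⟨mul_le_mul_of_nonneg_left hx.1 hpos.le, mul_lt_mul_of_pos_left hx.2 hpos⟩
      · rw [indicator_of_notMem hx, indicator_of_notMem]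
        intro hx'
        exact hx ⟨le_of_mul_le_mul_left hx'.1 hpos, lt_of_mul_lt_mul_left hx'.2 hpos.le⟩
    rw [h4] at h3
    rw [h3]
    have h5 : ENNReal.ofReal ((2 : ℝ) ^ N)⁻¹ = (1 / 2) ^ N := by
      rw [ENNReal.ofReal_inv_of_pos hpos, ENNReal.ofReal_pow (by norm_num)]
      rw [one_div, ENNReal.inv_pow]
      norm_num
    rw [h5]
    calc (1 / 2 : ℝ≥0∞) ^ N * _ ≤ (1 / 2 : ℝ≥0∞) ^ N * 1 := by gcongr
      _ = _ := mul_one _
  have h2 : ∫⁻ x in Ico c (c + 1), ∑' N : ℕ, ENNReal.ofReal (p (2 ^ N * x)) ≠ ∞ := by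
    rw [lintegral_tsum fun N => (hm N).aemeasurable]
    refine ne_of_lt (lt_of_le_of_lt (ENNReal.tsum_le_tsum h1) ?_)
    rw [ENNReal.tsum_geometric]
    rw [one_div, ENNReal.one_sub_inv_two, inv_inv]
    exact ENNReal.ofNat_lt_top
  have h3 := ae_lt_top (Measurable.tsum hm) h2
  filter_upwards [h3] with x hx
  have h4 := ENNReal.tendsto_atTop_zero_of_tsum_ne_top hx.ne
  have h5 := (ENNReal.tendsto_toReal (by simp : (0 : ℝ≥0∞) ≠ ∞)).comp h4
  simp only [Function.comp_def, ENNReal.toReal_zero] at h5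
  refine h5.congr fun N => ?_
  exact ENNReal.toReal_ofReal (hp.nonneg _)

lemma shift_iff (p : ℝ → ℝ) (m : ℕ) (x : ℝ) :
    Tendsto (fun N : ℕ => p (2 ^ N * (2 ^ m * x))) atTop (𝓝 0) ↔
      Tendsto (fun N : ℕ => p (2 ^ N * x)) atTop (𝓝 0) := by
  rw [← tendsto_add_atTop_iff_nat (f := fun N : ℕ => p (2 ^ N * x)) m]
  have : (fun N : ℕ => p (2 ^ N * (2 ^ m * x))) = fun N : ℕ => p (2 ^ (N + m) * x) := by
    funext N
    rw [← mul_assoc, ← pow_add]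
  rw [this]

lemma shift_iff_zpow (p : ℝ → ℝ) (j : ℤ) (x : ℝ) :
    Tendsto (fun N : ℕ => p (2 ^ N * (2 ^ j * x))) atTop (𝓝 0) ↔
      Tendsto (fun N : ℕ => p (2 ^ N * x)) atTop (𝓝 0) := by
  obtain ⟨m, rfl | rfl⟩ := j.eq_nat_or_neg
  · rw [zpow_natCast]
    exact shift_iff p m x
  · rw [← shift_iff p m ((2 : ℝ) ^ (-(m : ℤ)) * x), ← mul_assoc ((2 : ℝ) ^ m), ← zpow_natCast,
      ← zpow_add₀ (by norm_num : (2 : ℝ) ≠ 0)]
    simp

lemma K6 (hψ : IsWav ψ) {p : ℝ → ℝ} (hp : IsDens (PV ψ) p) :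
    ∀ᵐ x, Tendsto (fun N : ℕ => p (2 ^ N * x)) atTop (𝓝 0) := by
  have h1 := K5 hψ hp 1 (Or.inl rfl)
  have h2 := K5 hψ hp (-2) (Or.inr rfl)
  have h3 : ∀ᵐ x : ℝ, ∀ j : ℤ, ((2 : ℝ) ^ j * x ∈ Ico (1 : ℝ) (1 + 1) →
      Tendsto (fun N : ℕ => p (2 ^ N * (2 ^ j * x))) atTop (𝓝 0)) ∧
      ((2 : ℝ) ^ j * x ∈ Ico (-2 : ℝ) (-2 + 1) →
      Tendsto (fun N : ℕ => p (2 ^ N * (2 ^ j * x))) atTop (𝓝 0)) := by
    rw [ae_all_iff]
    intro j
    have hc : (0 : ℝ) < 2 ^ j := by positivity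
    filter_upwards [(qmp_mul hc).ae h1, (qmp_mul hc).ae h2] with x hx1 hx2
    exact ⟨hx1, hx2⟩
  have h0 : ∀ᵐ x : ℝ, x ≠ 0 := by
    have : volume ({0} : Set ℝ) = 0 := by simp
    exact compl_mem_ae_iff.2 this
  have h00 : ∀ᵐ x : ℝ, ∀ j : ℤ, (2 : ℝ) ^ j * x ≠ -1 := by
    rw [ae_all_iff]
    intro j
    have hc : (0 : ℝ) < 2 ^ j := by positivity
    have h4 : ∀ᵐ x : ℝ, x ≠ -1 := by
      have : volume ({-1} : Set ℝ) = 0 := by simp
      exact compl_mem_ae_iff.2 this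
    exact (qmp_mul hc).ae h4
  filter_upwards [h3, h0, h00] with x hx hx0 hx00
  have hax : 0 < |x| := abs_pos.2 hx0
  obtain ⟨n, hn1, hn2⟩ := exists_mem_Ico_zpow hax (by norm_num : (1 : ℝ) < 2)
  rw [← shift_iff_zpow p (-n) x]
  have hpos : (0 : ℝ) < 2 ^ (-n) := by positivity
  have e1 : (2 : ℝ) ^ (-n) * 2 ^ n = 1 := by
    rw [← zpow_add₀ (by norm_num : (2 : ℝ) ≠ 0)]
    simp
  have e2 : (2 : ℝ) ^ (-n) * 2 ^ (n + 1) = 2 := by
    rw [← zpow_add₀ (by norm_num : (2 : ℝ) ≠ 0)]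
    simp
  have a1 := mul_le_mul_of_nonneg_left hn1 hpos.le
  have a2 := mul_lt_mul_of_pos_left hn2 hpos
  rw [e1] at a1
  rw [e2] at a2
  rcases lt_or_gt_of_ne hx0 with hneg | hposx
  · rw [abs_of_neg hneg] at a1 a2
    refine (hx (-n)).2 ⟨by linarith, ?_⟩
    have a3 : (2 : ℝ) ^ (-n) * x ≤ -1 := by linarith
    have a4 := lt_of_le_of_ne a3 (hx00 (-n))
    linarith
  · rw [abs_of_pos hposx] at a1 a2
    exact (hx (-n)).1 ⟨a1, by linarith⟩

lemma K7 (hψ : IsWav ψ) {p : ℝ → ℝ} (hp : IsDens (PV ψ) p) :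
    ∀ᵐ x, HasSum (fun j : ℕ => ‖ψ (2 ^ (j + 1) * x)‖ ^ 2) (p x) := by
  have h1 := dens_half' hψ hp
  have h2 : ∀ᵐ x : ℝ, ∀ j : ℕ, p (2 ^ (j + 1) * x / 2) =
      p (2 ^ (j + 1) * x) + ‖ψ (2 ^ (j + 1) * x)‖ ^ 2 := by
    rw [ae_all_iff]
    intro j
    have hc : (0 : ℝ) < 2 ^ (j + 1) := by positivity
    exact (qmp_mul hc).ae h1
  filter_upwards [h2, K6 hψ hp] with x hx hlim
  rw [hasSum_iff_tendsto_nat_of_nonneg (fun _ => by positivity)]
  have h3 : ∀ n : ℕ, ∑ j ∈ Finset.range n, ‖ψ (2 ^ (j + 1) * x)‖ ^ 2 = p x - p (2 ^ n * x) := by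
    intro n
    induction n with
    | zero => simp
    | succ n ih =>
      rw [Finset.sum_range_succ, ih]
      have h4 := hx n
      have e : (2 : ℝ) ^ (n + 1) * x / 2 = 2 ^ n * x := by
        rw [pow_succ]
        ring
      rw [e] at h4
      linarith
  simp only [h3]
  have := tendsto_const_nhds (x := p x).sub hlim
  simpa using this

lemma K8 (hψ : IsWav ψ) {p : ℝ → ℝ} (hp : IsDens (PV ψ) p) :
    ∫⁻ x, ENNReal.ofReal (p x) = 1 := by
  have h1 : ∫⁻ x, ENNReal.ofReal (p x) =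
      ∫⁻ x, ∑' j : ℕ, (fun y : ℝ => ‖ψ y‖ₑ ^ 2) (2 ^ (j + 1) * x) := by
    refine lintegral_congr_ae ?_
    filter_upwards [K7 hψ hp] with x hx
    rw [← hx.tsum_eq, ENNReal.ofReal_tsum_of_nonneg (fun _ => by positivity) hx.summable]
    refine tsum_congr fun j => ?_
    rw [ENNReal.ofReal_pow (norm_nonneg _), ofReal_norm]
  have hm : Measurable fun y : ℝ => ‖ψ y‖ₑ ^ 2 := (measurable_fn ψ).enorm.pow_const 2
  rw [h1, lintegral_tsum]
  · have h2 : ∀ j : ℕ, ∫⁻ x : ℝ, (fun y : ℝ => ‖ψ y‖ₑ ^ 2) (2 ^ (j + 1) * x) =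
        (1 / 2) ^ (j + 1) := by
      intro j
      have hpos : (0 : ℝ) < 2 ^ (j + 1) := by positivity
      rw [lint_scale hpos hm, lint_psi hψ, mul_one, ENNReal.ofReal_inv_of_pos hpos,
        ENNReal.ofReal_pow (by norm_num), one_div, ENNReal.inv_pow]
      norm_num
    simp only [h2]
    simp only [pow_succ]
    rw [ENNReal.tsum_mul_right, ENNReal.tsum_geometric, one_div, ENNReal.one_sub_inv_two, inv_inv]
    exact ENNReal.mul_inv_cancel (by norm_num) (by norm_num)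
  · intro j
    exact (hm.comp (measurable_const_mul _)).aemeasurable

lemma PV_trace (hψ : IsWav ψ) : TR (PV ψ) 1 := by
  obtain ⟨p, hp⟩ := exists_dens (PV_proj ψ) (PV_comm hψ)
  rw [tr_iff_dens hp (PV_proj ψ)]
  have h1 := K8 hψ hp
  constructor
  · refine ⟨hp.meas.aestronglyMeasurable, ?_⟩
    rw [hasFiniteIntegral_iff_ofReal (ae_of_all _ fun x => hp.nonneg x), h1]
    exact ENNReal.one_lt_top
  · rw [integral_eq_lintegral_of_nonneg_ae (ae_of_all _ fun x => hp.nonneg x)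
      hp.meas.aestronglyMeasurable, h1]
    simp

end WG

theorem IsWav.exists_isGM {ψ : H} (hψ : IsWav ψ) : ∃ P : H →L[ℂ] H, IsGM P ψ := by
  refine ⟨WG.PV ψ, WG.PV_proj ψ, WG.PV_comm hψ, WG.orthT hψ, fun f => ?_, WG.PV_trace hψ,
    WG.PV_dense hψ⟩
  have := DFunLike.congr_fun (WG.PV_twoscale hψ) f
  simpa [cD_apply] using this

end Pool.Agent.Wav
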