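import Pool.Agent.Lib.MP_0a5c67_an.A3

/-! Definitions for the absorption move. -/

set_option autoImplicit false

open MeasureTheory Filter Topology Set
open scoped ENNReal InnerProductSpace ComplexConjugate

noncomputable section

namespace Pool.Agent.Wav

/-- Data of an absorption move. -/
structure MData (P : H →L[ℂ] H) (ψ : H) (p : ℝ → ℝ) (L G : Set ℝ) (δ : ℝ) : Prop where
  gm : IsGM P ψ
  dens : IsDens P p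
  measL : MeasurableSet L
  measG : MeasurableSet G
  sub : G ⊆ L
  half : ∀ x ∈ L, x / 2 ∈ L
  absb : ∀ᵐ x : ℝ, ∃ n : ℕ, x / 2 ^ n ∈ L
  pos : 0 < δ
  lower : ∀ x ∈ L, δ ≤ p x
  one : ∀ x ∈ L, x ∉ G → p x = 1
  mono : ∀ x, p x ≤ p (x / 2)
  inj : ∀ x ∈ G, ∀ y ∈ G, ∀ k : ℤ, x = y + k → k = 0

/-- the weight `w = p^{-1/2} 1_L` -/
def wt (p : ℝ → ℝ) (L : Set ℝ) (x : ℝ) : ℂ :=
  L.indicator (fun x => (((Real.sqrt (p x))⁻¹ : ℝ) : ℂ)) x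

/-- `u = P M_w` -/
def uu (P : H →L[ℂ] H) (p : ℝ → ℝ) (L : Set ℝ) : H →L[ℂ] H := P ∘L M (wt p L)

/-- `u* = M_w P` -/
def us (P : H →L[ℂ] H) (p : ℝ → ℝ) (L : Set ℝ) : H →L[ℂ] H := M (wt p L) ∘L P

/-- `N = P - u u*` -/
def Nn (P : H →L[ℂ] H) (p : ℝ → ℝ) (L : Set ℝ) : H →L[ℂ] H := P - uu P p L ∘L us P p L

/-- `D⁻¹ N` -/
def DN (P : H →L[ℂ] H) (p : ℝ → ℝ) (L : Set ℝ) : H →L[ℂ] H :=
  (D.symm.toContinuousLinearEquiv : H →L[ℂ] H) ∘L Nn P p L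

/-- `C_n = D^n u* (D⁻¹N)^n` -/
def Cn (P : H →L[ℂ] H) (p : ℝ → ℝ) (L : Set ℝ) (n : ℕ) : H →L[ℂ] H :=
  ((D ^ n).toContinuousLinearEquiv : H →L[ℂ] H) ∘L us P p L ∘L (DN P p L) ^ n

/-- `Φ = Σ_n C_n` (strongly convergent for `MData`) -/
def Phi (P : H →L[ℂ] H) (p : ℝ → ℝ) (L : Set ℝ) : H →L[ℂ] H := by
  classical
  exact if hex : ∃ F : H →L[ℂ] H, ∀ f, HasSum (fun n => Cn P p L n f) (F f) then hex.choose else 0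

/-- first entry weight: `r(x) = w(x/2^n)` for the least `n` with `x/2^n ∈ L` (and `1` if none) -/
def rr (p : ℝ → ℝ) (L : Set ℝ) (x : ℝ) : ℂ := by
  classical
  exact if hx : ∃ n : ℕ, x / 2 ^ n ∈ L then wt p L (x / 2 ^ (Nat.find hx)) else 1

/-- the periodic symbol `α` -/
def al (p : ℝ → ℝ) (G : Set ℝ) (x : ℝ) : ℂ :=
  ((1 - (∑' k : ℤ, ENNReal.ofReal
    (G.indicator (fun y => 1 - Real.sqrt (p y / p (y / 2))) (x + k))).toReal : ℝ) : ℂ)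

/-- `w₁ = 1_G p(x/2)^{-1/2}` -/
def w1 (p : ℝ → ℝ) (G : Set ℝ) (x : ℝ) : ℂ :=
  G.indicator (fun x => (((Real.sqrt (p (x / 2)))⁻¹ : ℝ) : ℂ)) x

/-- `ψ~ = M_α ψ - u M_{w₁} ψ` -/
def psiT (P : H →L[ℂ] H) (ψ : H) (p : ℝ → ℝ) (L G : Set ℝ) : H :=
  M (al p G) ψ - uu P p L (M (w1 p G) ψ)

/-- the new wavelet `ψ' = D Φ D⁻¹ ψ~` -/
def psiN (P : H →L[ℂ] H) (ψ : H) (p : ℝ → ℝ) (L G : Set ℝ) : H :=
  D (Phi P p L (D.symm (psiT P ψ p L G)))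

/-- the new projection `P' = Φ Φ*` -/
def PN (P : H →L[ℂ] H) (p : ℝ → ℝ) (L : Set ℝ) : H →L[ℂ] H :=
  Phi P p L ∘L ContinuousLinearMap.adjoint (Phi P p L)

end Pool.Agent.Wav
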