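import Pool.Agent.Lib.MP_0a5c67_an.C0

/-! Task C1: construction of `Φ`, the identity `P M_r Φ = P`, and completeness `‖Φ f‖ = ‖P f‖`. -/

set_option autoImplicit false

open MeasureTheory Filter Topology Set
open scoped ENNReal InnerProductSpace ComplexConjugate

noncomputable section

namespace Pool.Agent.Wav

variable {P : H →L[ℂ] H} {ψ : H} {p : ℝ → ℝ} {L G : Set ℝ} {δ : ℝ}

/-! ### the weight -/

theorem MData.sqrt_pos (d : MData P ψ p L G δ) {x : ℝ} (hx : x ∈ L) : 0 < Real.sqrt (p x) :=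
  Real.sqrt_pos.2 (d.pos.trans_le (d.lower x hx))

theorem wt_of_mem {x : ℝ} (hx : x ∈ L) : wt p L x = (((Real.sqrt (p x))⁻¹ : ℝ) : ℂ) := by
  simp [wt, hx]

theorem wt_of_notMem {x : ℝ} (hx : x ∉ L) : wt p L x = 0 := by
  simp [wt, hx]

theorem conj_wt (x : ℝ) : conj (wt p L x) = wt p L x := by
  by_cases hx : x ∈ L
  · rw [wt_of_mem hx, Complex.conj_ofReal]
  · rw [wt_of_notMem hx, map_zero]

theorem MData.norm_wt_le (d : MData P ψ p L G δ) (x : ℝ) : ‖wt p L x‖ ≤ (Real.sqrt δ)⁻¹ := by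
  by_cases hx : x ∈ L
  · rw [wt_of_mem hx, Complex.norm_real, Real.norm_eq_abs,
      abs_of_nonneg (inv_nonneg.2 (Real.sqrt_nonneg _))]
    exact inv_anti₀ (Real.sqrt_pos.2 d.pos) (Real.sqrt_le_sqrt (d.lower x hx))
  · rw [wt_of_notMem hx, norm_zero]
    exact inv_nonneg.2 (Real.sqrt_nonneg _)

theorem MData.bm_wt (d : MData P ψ p L G δ) : BM (wt p L) := by
  refine ⟨?_, (Real.sqrt δ)⁻¹, d.norm_wt_le⟩
  have h1 : Measurable (fun x => (((Real.sqrt (p x))⁻¹ : ℝ) : ℂ)) :=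
    Complex.measurable_ofReal.comp ((Real.continuous_sqrt.measurable.comp d.dens.meas).inv)
  exact h1.indicator d.measL

theorem bm_dens {Q' : H →L[ℂ] H} (hp : IsDens Q' p) : BM (fun x => (p x : ℂ)) :=
  ⟨Complex.measurable_ofReal.comp hp.meas, 1, fun x => by
    rw [Complex.norm_real, Real.norm_eq_abs, abs_of_nonneg (hp.nonneg x)]
    exact hp.le_one x⟩

theorem M_wt_Q (d : MData P ψ p L G δ) (f : H) : M (wt p L) (Q L f) = M (wt p L) f := by
  unfold Q
  rw [M_M d.bm_wt (BM.ind d.measL)]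
  refine M_congr (d.bm_wt.mul (BM.ind d.measL)) d.bm_wt (ae_of_all _ fun x => ?_) f
  by_cases hx : x ∈ L
  · simp only [ind_of_mem hx, mul_one]
  · simp only [ind_of_notMem hx, mul_zero, wt_of_notMem hx]

theorem Q_M_wt (d : MData P ψ p L G δ) (f : H) : Q L (M (wt p L) f) = M (wt p L) f := by
  unfold Q
  rw [M_comm (BM.ind d.measL) d.bm_wt]
  exact M_wt_Q d f

/-- a family of closed conditions: an operator vanishing on all `L²[a,a+1)` is zero -/
theorem eq_zero_of_unit (E : H →L[ℂ] H)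
    (hE : ∀ (a : ℤ) (f : H), E (Q (Ico (a : ℝ) (a + 1)) f) = 0) (f : H) : E f = 0 := by
  have h1 : ∀ n : ℕ, E (Q (Ico (-(n : ℝ)) n) f) = 0 := by
    intro n
    induction n with
    | zero =>
      simp only [Nat.cast_zero, neg_zero, Ico_self]
      rw [Q_empty, map_zero]
    | succ n ih =>
      have hset : Ico (-((n + 1 : ℕ) : ℝ)) ((n + 1 : ℕ) : ℝ)
          = (Ico (((-(n + 1 : ℤ) : ℤ) : ℝ)) (((-(n + 1 : ℤ) : ℤ) : ℝ) + 1) ∪ Ico (-(n : ℝ)) n)
            ∪ Ico (((n : ℤ) : ℝ)) (((n : ℤ) : ℝ) + 1) := by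
        have e1 : (((-(n + 1 : ℤ) : ℤ) : ℝ)) + 1 = -(n : ℝ) := by push_cast; ring
        have e2 : (((n : ℤ) : ℝ)) = (n : ℝ) := by push_cast; rfl
        have e3 : (((-(n + 1 : ℤ) : ℤ) : ℝ)) = -((n + 1 : ℕ) : ℝ) := by push_cast; ring
        rw [e1, e2, e3]
        have hn : (0 : ℝ) ≤ n := Nat.cast_nonneg n
        rw [Ico_union_Ico_eq_Ico (by push_cast; linarith) (by linarith),
          Ico_union_Ico_eq_Ico (by push_cast; linarith) (by linarith)]
        push_cast
        rfl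
      rw [hset, Q_union (measurableSet_Ico.union measurableSet_Ico) measurableSet_Ico,
        Q_union measurableSet_Ico measurableSet_Ico, map_add, map_add, hE, hE, ih, add_zero,
        add_zero]
      · rw [Set.disjoint_left]
        rintro x hx hx'
        have h1 := hx.2
        have h2 := hx'.1
        push_cast at h1
        linarith
      · rw [Set.disjoint_left]
        rintro x hx hx'
        have h2 := hx'.1
        push_cast at h2
        rcases hx with hx | hx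
        · have h1 := hx.2
          have hn : (0 : ℝ) ≤ n := Nat.cast_nonneg n
          push_cast at h1
          linarith
        · have h1 := hx.2
          linarith
  have h2 : Tendsto (fun n : ℕ => Q (Ico (-(n : ℝ)) n) f) atTop (𝓝 f) := by
    refine Q_tendsto_of_absorb (A := fun n : ℕ => Ico (-(n : ℝ)) n) (fun n => measurableSet_Ico)
      ?_ (ae_of_all _ fun x => ?_) f
    · intro m n hmn
      have hmn' : (m : ℝ) ≤ n := Nat.cast_le.2 hmn
      exact Ico_subset_Ico (by linarith) hmn'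
    · obtain ⟨n, hn⟩ := exists_nat_gt |x|
      exact ⟨n, (abs_lt.1 hn).1.le, (abs_lt.1 hn).2⟩
  have h3 := (E.continuous.tendsto f).comp h2
  refine tendsto_nhds_unique h3 ?_
  refine tendsto_const_nhds.congr fun n => ?_
  simp only [Function.comp_apply, h1]

/-- `P` is the identity on `L²(L \ G)` -/
theorem MData.P_fix (d : MData P ψ p L G δ) (f : H) : P (Q (L \ G) f) = Q (L \ G) f :=
  d.dens.fix d.gm.proj (d.measL.diff d.measG)
    (ae_of_all _ fun x hx => d.one x hx.1 hx.2) f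

/-- the periodisation of a set -/
def perSet (A : Set ℝ) : Set ℝ := ⋃ k : ℤ, (fun x : ℝ => x + k) ⁻¹' A

theorem measurable_perSet {A : Set ℝ} (hA : MeasurableSet A) : MeasurableSet (perSet A) :=
  MeasurableSet.iUnion fun k => (measurable_add_const (k : ℝ)) hA

theorem mem_perSet {A : Set ℝ} {x : ℝ} : x ∈ perSet A ↔ ∃ k : ℤ, x + k ∈ A := by
  simp [perSet]

theorem per_ind_perSet {A : Set ℝ} (hA : MeasurableSet A) : Per (ind (perSet A)) where
  toBM := BM.ind (measurable_perSet hA)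
  per := fun x => by
    by_cases hx : x ∈ perSet A
    · have hx' : x + 1 ∈ perSet A := by
        obtain ⟨k, hk⟩ := mem_perSet.1 hx
        refine mem_perSet.2 ⟨k - 1, ?_⟩
        push_cast
        convert hk using 1
        ring
      rw [ind_of_mem hx, ind_of_mem hx']
    · have hx' : x + 1 ∉ perSet A := by
        intro h'
        obtain ⟨k, hk⟩ := mem_perSet.1 h'
        refine hx (mem_perSet.2 ⟨k + 1, ?_⟩)
        push_cast
        convert hk using 1
        ring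
      rw [ind_of_notMem hx, ind_of_notMem hx']

/-- `Q_L P Q_L = M_p Q_L` -/
theorem MData.QPQ (d : MData P ψ p L G δ) (f : H) :
    Q L (P (Q L f)) = M (fun x => (p x : ℂ)) (Q L f) := by
  have hbp : BM (fun x => (p x : ℂ)) := bm_dens d.dens
  -- the two parts
  have hGL : L ∩ G = G := inter_eq_right.2 d.sub
  have key1 : ∀ g : H, Q L (P (Q (L \ G) g)) = M (fun x => (p x : ℂ)) (Q (L \ G) g) := by
    intro g
    rw [d.P_fix, Q_Q d.measL (d.measL.diff d.measG), inter_eq_right.2 sdiff_subset]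
    unfold Q
    rw [M_M hbp (BM.ind (d.measL.diff d.measG))]
    refine M_congr (BM.ind (d.measL.diff d.measG)) (hbp.mul (BM.ind (d.measL.diff d.measG)))
      (ae_of_all _ fun x => ?_) g
    by_cases hx : x ∈ L \ G
    · simp only [ind_of_mem hx, d.one x hx.1 hx.2, Complex.ofReal_one, mul_one]
    · simp only [ind_of_notMem hx, mul_zero]
  have key2 : ∀ g : H, Q L (P (Q G g)) = M (fun x => (p x : ℂ)) (Q G g) := by
    intro g
    let E : H →L[ℂ] H := (Q L ∘L P ∘L Q G) - (M (fun x => (p x : ℂ)) ∘L Q G)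
    have hE : ∀ (a : ℤ) (f : H), E (Q (Ico (a : ℝ) (a + 1)) f) = 0 := by
      intro a g
      change Q L (P (Q G (Q (Ico (a : ℝ) (a + 1)) g)))
        - M (fun x => (p x : ℂ)) (Q G (Q (Ico (a : ℝ) (a + 1)) g)) = 0
      rw [Q_Q d.measG measurableSet_Ico]
      set Ga := G ∩ Ico (a : ℝ) (a + 1) with hGa
      have mGa : MeasurableSet Ga := d.measG.inter measurableSet_Ico
      set g' := Q Ga g with hg'
      have hg1 : Q (Ico (a : ℝ) (a + 1)) g' = g' := by
        rw [hg', Q_Q measurableSet_Ico mGa, inter_eq_right.2 inter_subset_right]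
      have hg2 : Q Ga g' = g' := by
        rw [hg', Q_Q mGa mGa, inter_self]
      have hg3 : M (ind (perSet Ga)) g' = g' := by
        rw [hg']
        unfold Q
        rw [M_M (per_ind_perSet mGa).toBM (BM.ind mGa)]
        refine M_congr ((per_ind_perSet mGa).toBM.mul (BM.ind mGa)) (BM.ind mGa)
          (ae_of_all _ fun x => ?_) g
        by_cases hx : x ∈ Ga
        · have : x ∈ perSet Ga := mem_perSet.2 ⟨0, by simpa using hx⟩
          simp only [ind_of_mem this, one_mul]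
        · simp only [ind_of_notMem hx, mul_zero]
      -- decompose `Q L = Q (L \ G) + Q G`
      have hd : Q L (P g') = Q (L \ G) (P g') + Q G (P g') := by
        rw [← Q_union (d.measL.diff d.measG) d.measG disjoint_sdiff_left, sdiff_union_of_subset d.sub]
      have h0 : Q (L \ G) (P g') = 0 := by
        have : ∀ v : H, ⟪Q (L \ G) (P g'), v⟫_ℂ = 0 := by
          intro v
          rw [(proj_Q (d.measL.diff d.measG)).symm, d.gm.proj.symm, d.P_fix, ← hg2,
            (proj_Q mGa).symm, Q_Q mGa (d.measL.diff d.measG)]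
          have : Ga ∩ (L \ G) = ∅ := by
            ext x
            simp only [hGa, mem_inter_iff, Set.mem_sdiff, mem_empty_iff_false, iff_false]
            tauto
          rw [this, Q_empty, inner_zero_right]
        exact (inner_self_eq_zero (𝕜 := ℂ)).1 (this _)
      have h1 : Q G (P g') = Q Ga (P g') := by
        conv_lhs => rw [← hg3, d.gm.comm _ (per_ind_perSet mGa)]
        unfold Q
        rw [M_M (BM.ind d.measG) (per_ind_perSet mGa).toBM]
        refine M_congr ((BM.ind d.measG).mul (per_ind_perSet mGa).toBM) (BM.ind mGa)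
          (ae_of_all _ fun x => ?_) _
        by_cases hx : x ∈ G
        · by_cases hx' : x ∈ perSet Ga
          · obtain ⟨k, hk⟩ := mem_perSet.1 hx'
            have hk0 : k = 0 := d.inj (x + k) hk.1 x hx k rfl
            have hxa : x ∈ Ga := by simpa [hk0] using hk
            simp only [ind_of_mem hx, ind_of_mem hx', ind_of_mem hxa, mul_one]
          · have hxa : x ∉ Ga := fun h' => hx' (mem_perSet.2 ⟨0, by simpa using h'⟩)
            simp only [ind_of_notMem hx', mul_zero, ind_of_notMem hxa]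
        · have hxa : x ∉ Ga := fun h' => hx h'.1
          simp only [ind_of_notMem hx, zero_mul, ind_of_notMem hxa]
      have h2 : Q Ga (P g') = M (fun x => (p x : ℂ)) g' := by
        have e1 : Q Ga (P g') = Q Ga (Q (Ico (a : ℝ) (a + 1)) (P g')) := by
          rw [Q_Q mGa measurableSet_Ico, inter_eq_left.2 inter_subset_right]
        rw [e1, d.dens.spec a g' hg1]
        unfold Q
        rw [M_comm (BM.ind mGa) hbp]
        congr 1
      rw [hd, h0, h1, h2, zero_add, sub_self]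
    have := eq_zero_of_unit E hE g
    exact sub_eq_zero.1 this
  have hs : Q L f = Q (L \ G) f + Q G f := by
    rw [← Q_union (d.measL.diff d.measG) d.measG disjoint_sdiff_left, sdiff_union_of_subset d.sub]
  rw [hs, map_add, map_add, key1, key2, map_add]

theorem us_apply (f : H) : us P p L f = M (wt p L) (P f) := rfl
theorem uu_apply (f : H) : uu P p L f = P (M (wt p L) f) := rfl
theorem Nn_apply (f : H) : Nn P p L f = P f - uu P p L (us P p L f) := rfl
theorem DN_apply (f : H) : DN P p L f = D.symm (Nn P p L f) := rfl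
theorem Cn_apply (n : ℕ) (f : H) : Cn P p L n f = (D ^ n) (us P p L ((DN P p L ^ n) f)) := rfl

/-- `u* u = Q_L` -/
theorem MData.us_uu (d : MData P ψ p L G δ) (f : H) : us P p L (uu P p L f) = Q L f := by
  have hbp : BM (fun x => (p x : ℂ)) := bm_dens d.dens
  have e1 : us P p L (uu P p L f) = M (wt p L) (Q L (P (Q L (M (wt p L) f)))) := by
    rw [us_apply, uu_apply, d.gm.proj.idem, Q_M_wt d, M_wt_Q d]
  rw [e1, d.QPQ, Q_M_wt d, M_M hbp d.bm_wt, M_M d.bm_wt (hbp.mul d.bm_wt)]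
  unfold Q
  refine M_congr (d.bm_wt.mul (hbp.mul d.bm_wt)) (BM.ind d.measL) (ae_of_all _ fun x => ?_) f
  change wt p L x * ((p x : ℂ) * wt p L x) = ind L x
  by_cases hx : x ∈ L
  · have h1 := d.sqrt_pos hx
    have h2 : Real.sqrt (p x) * Real.sqrt (p x) = p x := Real.mul_self_sqrt (d.dens.nonneg x)
    have h3 : (Real.sqrt (p x))⁻¹ * (p x * (Real.sqrt (p x))⁻¹) = 1 := by
      nth_rewrite 2 [← h2]
      field_simp
    rw [wt_of_mem hx, ind_of_mem hx, ← Complex.ofReal_mul, ← Complex.ofReal_mul, h3,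
      Complex.ofReal_one]
  · rw [wt_of_notMem hx, ind_of_notMem hx, zero_mul]

theorem MData.uu_inner (d : MData P ψ p L G δ) (f g : H) :
    ⟪uu P p L f, g⟫_ℂ = ⟪f, us P p L g⟫_ℂ := by
  rw [uu_apply, us_apply, d.gm.proj.symm, inner_M_left d.bm_wt]
  simp only [conj_wt]

theorem MData.us_inner (d : MData P ψ p L G δ) (f g : H) :
    ⟪us P p L f, g⟫_ℂ = ⟪f, uu P p L g⟫_ℂ := by
  rw [← inner_conj_symm, ← d.uu_inner, inner_conj_symm]

theorem MData.P_uu (d : MData P ψ p L G δ) (f : H) : P (uu P p L f) = uu P p L f := by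
  rw [uu_apply, d.gm.proj.idem]

theorem MData.us_P (d : MData P ψ p L G δ) (f : H) : us P p L (P f) = us P p L f := by
  rw [us_apply, us_apply, d.gm.proj.idem]

theorem MData.uu_Q (d : MData P ψ p L G δ) (f : H) : uu P p L (Q L f) = uu P p L f := by
  rw [uu_apply, uu_apply, M_wt_Q d]

theorem MData.Q_us (d : MData P ψ p L G δ) (f : H) : Q L (us P p L f) = us P p L f := by
  rw [us_apply, Q_M_wt d]

/-- `u f = f` for `f ∈ L²(L \ G)` -/
theorem MData.uu_fix (d : MData P ψ p L G δ) (f : H) : uu P p L (Q (L \ G) f) = Q (L \ G) f := by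
  have h1 : M (wt p L) (Q (L \ G) f) = Q (L \ G) f := by
    unfold Q
    rw [M_M d.bm_wt (BM.ind (d.measL.diff d.measG))]
    refine M_congr (d.bm_wt.mul (BM.ind (d.measL.diff d.measG))) (BM.ind (d.measL.diff d.measG))
      (ae_of_all _ fun x => ?_) f
    change wt p L x * ind (L \ G) x = ind (L \ G) x
    by_cases hx : x ∈ L \ G
    · rw [ind_of_mem hx, wt_of_mem hx.1, d.one x hx.1 hx.2]
      simp
    · simp only [ind_of_notMem hx, mul_zero]
  rw [uu_apply, h1, d.P_fix]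

theorem MData.uuus_proj (d : MData P ψ p L G δ) : Proj (uu P p L ∘L us P p L) where
  idem := fun f => by
    simp only [ContinuousLinearMap.comp_apply]
    rw [d.us_uu, d.uu_Q]
  symm := fun f g => by
    simp only [ContinuousLinearMap.comp_apply]
    rw [d.uu_inner, d.us_inner]

theorem MData.P_uuus (d : MData P ψ p L G δ) (f : H) :
    P ((uu P p L ∘L us P p L) f) = (uu P p L ∘L us P p L) f := by
  simp only [ContinuousLinearMap.comp_apply]
  rw [d.P_uu]

theorem MData.N_proj (d : MData P ψ p L G δ) : Proj (Nn P p L) :=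
  Proj.sub d.gm.proj d.uuus_proj d.P_uuus

theorem MData.N_uu (d : MData P ψ p L G δ) (f : H) : Nn P p L (uu P p L f) = 0 := by
  rw [Nn_apply, d.P_uu, d.us_uu, d.uu_Q, sub_self]

theorem MData.us_N (d : MData P ψ p L G δ) (f : H) : us P p L (Nn P p L f) = 0 := by
  rw [Nn_apply, map_sub, d.us_P, d.us_uu, d.Q_us, sub_self]

theorem MData.P_N (d : MData P ψ p L G δ) (f : H) : P (Nn P p L f) = Nn P p L f := by
  rw [Nn_apply, map_sub, d.gm.proj.idem, d.P_uu]

theorem MData.N_P (d : MData P ψ p L G δ) (f : H) : Nn P p L (P f) = Nn P p L f := by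
  rw [Nn_apply, Nn_apply, d.gm.proj.idem, d.us_P]

/-- `M_w g = 0` implies `Q_L g = 0` -/
theorem MData.Q_of_wt (d : MData P ψ p L G δ) {g : H} (hg : M (wt p L) g = 0) : Q L g = 0 := by
  have hv : BM (fun x => ((Real.sqrt (p x) : ℝ) : ℂ)) := by
    refine ⟨Complex.measurable_ofReal.comp (Real.continuous_sqrt.measurable.comp d.dens.meas), 1,
      fun x => ?_⟩
    rw [Complex.norm_real, Real.norm_eq_abs, abs_of_nonneg (Real.sqrt_nonneg _)]
    exact Real.sqrt_le_one.2 (d.dens.le_one x)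
  have h1 : M (fun x => ((Real.sqrt (p x) : ℝ) : ℂ)) (M (wt p L) g) = Q L g := by
    rw [M_M hv d.bm_wt]
    unfold Q
    refine M_congr (hv.mul d.bm_wt) (BM.ind d.measL) (ae_of_all _ fun x => ?_) g
    change ((Real.sqrt (p x) : ℝ) : ℂ) * wt p L x = ind L x
    by_cases hx : x ∈ L
    · rw [wt_of_mem hx, ind_of_mem hx, ← Complex.ofReal_mul, mul_inv_cancel₀ (d.sqrt_pos hx).ne']
      simp
    · rw [wt_of_notMem hx, ind_of_notMem hx, mul_zero]
  rw [← h1, hg, map_zero]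

theorem MData.Q_N (d : MData P ψ p L G δ) (f : H) : Q L (Nn P p L f) = 0 := by
  refine d.Q_of_wt ?_
  have := d.us_N f
  rwa [us_apply, d.P_N] at this

theorem MData.wt_of_Q (d : MData P ψ p L G δ) {g : H} (hg : Q L g = 0) : M (wt p L) g = 0 := by
  rw [← M_wt_Q d, hg, map_zero]

/-- `N g = g` iff `g ∈ V` vanishes on `L` -/
theorem MData.N_eq_self (d : MData P ψ p L G δ) {g : H} (hg : P g = g) (h0 : Q L g = 0) :
    Nn P p L g = g := by
  rw [Nn_apply, us_apply, hg, d.wt_of_Q h0, map_zero, sub_zero]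

theorem MData.norm_uuus (d : MData P ψ p L G δ) (f : H) :
    ‖uu P p L (us P p L f)‖ ^ 2 = ‖us P p L f‖ ^ 2 := by
  rw [← inner_self_eq_norm_sq (𝕜 := ℂ), ← inner_self_eq_norm_sq (𝕜 := ℂ), d.uu_inner,
      d.us_uu, d.Q_us]

theorem MData.norm_split (d : MData P ψ p L G δ) (f : H) :
    ‖P f‖ ^ 2 = ‖us P p L f‖ ^ 2 + ‖Nn P p L f‖ ^ 2 := by
  have h1 := Proj.sub_norm_sq d.gm.proj d.uuus_proj d.P_uuus f
  have h2 : (P - uu P p L ∘L us P p L) f = Nn P p L f := rfl
  rw [h2, ContinuousLinearMap.comp_apply, d.norm_uuus] at h1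
  linarith

/-! ### the orbit `x_n = (D⁻¹N)^n f` -/

/-- `x_n = (D⁻¹N)^n f` -/
def orb (P : H →L[ℂ] H) (p : ℝ → ℝ) (L : Set ℝ) (f : H) (n : ℕ) : H := (DN P p L ^ n) f

theorem orb_zero (f : H) : orb P p L f 0 = f := rfl

theorem orb_succ (f : H) (n : ℕ) : orb P p L f (n + 1) = D.symm (Nn P p L (orb P p L f n)) := by
  unfold orb
  rw [pow_succ']
  rfl

theorem orb_succ' (f : H) (n : ℕ) : orb P p L f (n + 1) = orb P p L (D.symm (Nn P p L f)) n := by
  unfold orb
  rw [pow_succ]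
  rfl

theorem Cn_orb (n : ℕ) (f : H) : Cn P p L n f = (D ^ n) (us P p L (orb P p L f n)) := rfl

theorem MData.P_orb (d : MData P ψ p L G δ) (f : H) (n : ℕ) :
    P (orb P p L f (n + 1)) = orb P p L f (n + 1) := by
  rw [orb_succ, ← d.P_N, d.gm.P_Dsymm]

theorem MData.orb_norm (_d : MData P ψ p L G δ) (f : H) (n : ℕ) :
    ‖orb P p L f (n + 1)‖ = ‖Nn P p L (orb P p L f n)‖ := by
  rw [orb_succ, LinearIsometryEquiv.norm_map]

/-- `Σ_{n ≤ m} ‖C_n f‖² + ‖x_{m+1}‖² = ‖P f‖²` -/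
theorem MData.orb_sum (d : MData P ψ p L G δ) (f : H) (m : ℕ) :
    ∑ n ∈ Finset.range (m + 1), ‖Cn P p L n f‖ ^ 2 + ‖orb P p L f (m + 1)‖ ^ 2 = ‖P f‖ ^ 2 := by
  induction m with
  | zero =>
    rw [Finset.sum_range_one, d.orb_norm, Cn_orb, LinearIsometryEquiv.norm_map, orb_zero,
      d.norm_split]
  | succ m ih =>
    rw [Finset.sum_range_succ, d.orb_norm, Cn_orb, LinearIsometryEquiv.norm_map, add_assoc,
      ← d.norm_split, d.P_orb, ih]

theorem MData.orb_norm_le (d : MData P ψ p L G δ) (f : H) (m : ℕ) :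
    ‖orb P p L f (m + 1)‖ ≤ ‖P f‖ := by
  have h1 := d.orb_sum f m
  have h2 : 0 ≤ ∑ n ∈ Finset.range (m + 1), ‖Cn P p L n f‖ ^ 2 :=
    Finset.sum_nonneg fun _ _ => sq_nonneg _
  have h3 : ‖orb P p L f (m + 1)‖ ^ 2 ≤ ‖P f‖ ^ 2 := by linarith
  exact (sq_le_sq₀ (norm_nonneg _) (norm_nonneg _)).1 h3

/-- `x_{n+1}` vanishes on `L/2` -/
theorem MData.Q_half_orb (d : MData P ψ p L G δ) (f : H) (n : ℕ) :
    Q ((fun x => 2 * x) ⁻¹' L) (orb P p L f (n + 1)) = 0 := by
  rw [orb_succ, ← Dsymm_Q d.measL, d.Q_N, map_zero]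

/-! ### supports -/

/-- points entering `L` exactly at time `n` -/
def Zs (L : Set ℝ) (n : ℕ) : Set ℝ := {x | x / 2 ^ n ∈ L ∧ ∀ m < n, x / 2 ^ m ∉ L}

theorem meas_div (n : ℕ) (hL : MeasurableSet L) : MeasurableSet {x : ℝ | x / 2 ^ n ∈ L} :=
  (measurable_id.div_const _) hL

theorem meas_Zs (hL : MeasurableSet L) (n : ℕ) : MeasurableSet (Zs L n) := by
  have : Zs L n = {x : ℝ | x / 2 ^ n ∈ L} ∩ ⋂ m : ℕ, ⋂ _ : m < n, {x : ℝ | x / 2 ^ m ∈ L}ᶜ := by
    ext x
    simp [Zs]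
  rw [this]
  exact (meas_div n hL).inter (MeasurableSet.iInter fun m => MeasurableSet.iInter fun _ =>
    (meas_div m hL).compl)

theorem Zs_disjoint {m n : ℕ} (hmn : m ≠ n) : Zs L m ∩ Zs L n = ∅ := by
  ext x
  simp only [Zs, mem_inter_iff, Set.mem_ofPred_eq, mem_empty_iff_false, iff_false]
  rintro ⟨⟨h1, h2⟩, h3, h4⟩
  rcases lt_or_gt_of_ne hmn with h | h
  · exact h4 m h h1
  · exact h2 n h h3

theorem MData.half_pow (d : MData P ψ p L G δ) {x : ℝ} {m n : ℕ} (hmn : m ≤ n)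
    (hx : x / 2 ^ m ∈ L) : x / 2 ^ n ∈ L := by
  induction n, hmn using Nat.le_induction with
  | base => exact hx
  | succ n _ ih =>
    have := d.half _ ih
    rwa [div_div, ← pow_succ] at this

theorem MData.Q_us_orb (d : MData P ψ p L G δ) (f : H) (n : ℕ) :
    Q (L \ ((fun x => 2 * x) ⁻¹' L)) (us P p L (orb P p L f (n + 1)))
      = us P p L (orb P p L f (n + 1)) := by
  have m2 : MeasurableSet ((fun x : ℝ => 2 * x) ⁻¹' L) := (measurable_const_mul 2) d.measL
  rw [us_apply, d.P_orb]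
  have h1 : Q ((fun x => 2 * x) ⁻¹' L) (M (wt p L) (orb P p L f (n + 1))) = 0 := by
    have h2 := d.Q_half_orb f n
    unfold Q at h2 ⊢
    rw [M_comm (BM.ind m2) d.bm_wt, h2, map_zero]
  have h2 : Q L (M (wt p L) (orb P p L f (n + 1))) = M (wt p L) (orb P p L f (n + 1)) := Q_M_wt d _
  rw [Q_eq_self_iff (d.measL.diff m2)]
  rw [Q_eq_zero_iff m2] at h1
  rw [Q_eq_self_iff d.measL] at h2
  filter_upwards [h1, h2] with x h3 h4 h5
  by_cases hx : x ∈ L
  · exact h3 (by by_contra h6; exact h5 ⟨hx, h6⟩)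
  · exact h4 hx

/-- `C_n f` is supported in `Z_n` -/
theorem MData.Q_Cn (d : MData P ψ p L G δ) (n : ℕ) (f : H) :
    Q (Zs L n) (Cn P p L n f) = Cn P p L n f := by
  cases n with
  | zero =>
    have hZ : Zs L 0 = L := by
      ext x
      simp [Zs]
    rw [Cn_orb, hZ]
    exact d.Q_us _
  | succ n =>
    have m2 : MeasurableSet ((fun x : ℝ => 2 * x) ⁻¹' L) := (measurable_const_mul 2) d.measL
    have hZ : Zs L (n + 1) = (fun x => x / 2 ^ (n + 1)) ⁻¹' (L \ ((fun x => 2 * x) ⁻¹' L)) := by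
      ext x
      have e1 : 2 * (x / 2 ^ (n + 1)) = x / 2 ^ n := by
        rw [pow_succ]
        field_simp
      simp only [Zs, Set.mem_ofPred_eq, mem_preimage, Set.mem_sdiff, e1]
      constructor
      · rintro ⟨h1, h2⟩
        exact ⟨h1, h2 n (Nat.lt_succ_self n)⟩
      · rintro ⟨h1, h2⟩
        exact ⟨h1, fun m hm h3 => h2 (d.half_pow (Nat.lt_succ_iff.1 hm) h3)⟩
    rw [Cn_orb, hZ, ← Dpow_Q (n + 1) (d.measL.diff m2), d.Q_us_orb]

theorem MData.Cn_orth (d : MData P ψ p L G δ) {m n : ℕ} (hmn : m ≠ n) (f g : H) :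
    ⟪Cn P p L m f, Cn P p L n g⟫_ℂ = 0 := by
  rw [← d.Q_Cn m f, ← d.Q_Cn n g, (proj_Q (meas_Zs d.measL m)).symm,
    Q_Q (meas_Zs d.measL m) (meas_Zs d.measL n), Zs_disjoint hmn, Q_empty, inner_zero_right]

/-! ### summability and `Φ` -/

/-- the ranges of the `C_n`, as submodules -/
def Vn (L : Set ℝ) (n : ℕ) : Submodule ℂ H where
  carrier := {f | Q (Zs L n) f = f}
  add_mem' := fun {f g} hf hg => by
    change Q (Zs L n) (f + g) = f + g
    rw [map_add]
    exact congrArg₂ _ hf hg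
  zero_mem' := map_zero _
  smul_mem' := fun c f hf => by
    change Q (Zs L n) (c • f) = c • f
    rw [map_smul]
    exact congrArg _ hf

theorem Vn_orth (hL : MeasurableSet L) :
    OrthogonalFamily ℂ (fun n => Vn L n) (fun n => (Vn L n).subtypeₗᵢ) := by
  intro m n hmn f g
  have hf : Q (Zs L m) (f : H) = f := f.2
  have hg : Q (Zs L n) (g : H) = g := g.2
  change ⟪(f : H), (g : H)⟫_ℂ = 0
  rw [← hf, ← hg, (proj_Q (meas_Zs hL m)).symm,
    Q_Q (meas_Zs hL m) (meas_Zs hL n), Zs_disjoint hmn, Q_empty, inner_zero_right]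

theorem MData.summable_norm_sq (d : MData P ψ p L G δ) (f : H) :
    Summable (fun n => ‖Cn P p L n f‖ ^ 2) := by
  refine summable_of_sum_range_le (c := ‖P f‖ ^ 2) (fun n => sq_nonneg _) fun n => ?_
  have h1 := d.orb_sum f n
  have h2 : ∑ i ∈ Finset.range n, ‖Cn P p L i f‖ ^ 2
      ≤ ∑ i ∈ Finset.range (n + 1), ‖Cn P p L i f‖ ^ 2 := by
    rw [Finset.sum_range_succ]
    linarith [sq_nonneg ‖Cn P p L n f‖]
  linarith [sq_nonneg ‖orb P p L f (n + 1)‖]

theorem MData.summable_Cn (d : MData P ψ p L G δ) (f : H) :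
    Summable (fun n => Cn P p L n f) := by
  have h := (Vn_orth d.measL).summable_iff_norm_sq_summable
    (fun n => (⟨Cn P p L n f, d.Q_Cn n f⟩ : Vn L n))
  exact h.2 (d.summable_norm_sq f)

theorem MData.norm_sum_Cn (d : MData P ψ p L G δ) (f : H) (m : ℕ) :
    ‖∑ n ∈ Finset.range m, Cn P p L n f‖ ^ 2 = ∑ n ∈ Finset.range m, ‖Cn P p L n f‖ ^ 2 := by
  exact (Vn_orth d.measL).norm_sum
    (fun n => (⟨Cn P p L n f, d.Q_Cn n f⟩ : Vn L n)) (Finset.range m)

theorem MData.norm_sum_Cn_le (d : MData P ψ p L G δ) (f : H) (m : ℕ) :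
    ‖∑ n ∈ Finset.range m, Cn P p L n f‖ ≤ ‖f‖ := by
  have h0 : ‖∑ n ∈ Finset.range m, Cn P p L n f‖ ^ 2 ≤ ‖P f‖ ^ 2 := by
    rw [d.norm_sum_Cn]
    have h1 := d.orb_sum f m
    have h2 : ∑ i ∈ Finset.range m, ‖Cn P p L i f‖ ^ 2
        ≤ ∑ i ∈ Finset.range (m + 1), ‖Cn P p L i f‖ ^ 2 := by
      rw [Finset.sum_range_succ]
      linarith [sq_nonneg ‖Cn P p L m f‖]
    linarith [sq_nonneg ‖orb P p L f (m + 1)‖]
  exact ((sq_le_sq₀ (norm_nonneg _) (norm_nonneg _)).1 h0).trans (d.gm.proj.norm_le f)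

theorem MData.exists_phi (d : MData P ψ p L G δ) :
    ∃ F : H →L[ℂ] H, ∀ f, HasSum (fun n => Cn P p L n f) (F f) := by
  refine ⟨LinearMap.mkContinuous
    { toFun := fun f => ∑' n, Cn P p L n f
      map_add' := fun f g => by
        rw [← (d.summable_Cn f).tsum_add (d.summable_Cn g)]
        exact tsum_congr fun n => map_add _ _ _
      map_smul' := fun c f => by
        rw [RingHom.id_apply, ← (d.summable_Cn f).tsum_const_smul c]
        exact tsum_congr fun n => map_smul _ _ _ } 1 fun f => ?_, fun f => ?_⟩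
  · have h1 := ((d.summable_Cn f).hasSum.tendsto_sum_nat).norm
    rw [one_mul]
    exact le_of_tendsto h1 (Eventually.of_forall fun m => d.norm_sum_Cn_le f m)
  · exact (d.summable_Cn f).hasSum

theorem MData.phi_hasSum (d : MData P ψ p L G δ) (f : H) :
    HasSum (fun n => Cn P p L n f) (Phi P p L f) := by
  unfold Phi
  rw [dif_pos d.exists_phi]
  exact d.exists_phi.choose_spec f

theorem MData.phi_P (d : MData P ψ p L G δ) (f : H) : Phi P p L (P f) = Phi P p L f := by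
  refine (d.phi_hasSum (P f)).unique ?_
  have : (fun n => Cn P p L n (P f)) = fun n => Cn P p L n f := by
    funext n
    rw [Cn_orb, Cn_orb]
    cases n with
    | zero => rw [orb_zero, orb_zero, d.us_P]
    | succ n => rw [orb_succ', orb_succ', d.N_P]
  rw [this]
  exact d.phi_hasSum f

/-- inner product of a finite sum and remainder vanish -/
theorem MData.phi_inner_sum (d : MData P ψ p L G δ) (f : H) (m : ℕ) :
    ⟪∑ n ∈ Finset.range m, Cn P p L n f,
      Phi P p L f - ∑ n ∈ Finset.range m, Cn P p L n f⟫_ℂ = 0 := by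
  have h1 : HasSum (fun n => Cn P p L (n + m) f)
      (Phi P p L f - ∑ n ∈ Finset.range m, Cn P p L n f) :=
    (hasSum_nat_add_iff' m).2 (d.phi_hasSum f)
  have h2 : HasSum (fun n => ⟪∑ i ∈ Finset.range m, Cn P p L i f, Cn P p L (n + m) f⟫_ℂ)
      ⟪∑ n ∈ Finset.range m, Cn P p L n f,
      Phi P p L f - ∑ n ∈ Finset.range m, Cn P p L n f⟫_ℂ := by
    exact h1.mapL (innerSL ℂ (∑ i ∈ Finset.range m, Cn P p L i f))
  have h3 : (fun n => ⟪∑ i ∈ Finset.range m, Cn P p L i f, Cn P p L (n + m) f⟫_ℂ)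
      = fun _ => 0 := by
    funext n
    rw [sum_inner]
    refine Finset.sum_eq_zero fun i hi => ?_
    exact d.Cn_orth (by have := Finset.mem_range.1 hi; omega) f f
  rw [h3] at h2
  exact h2.unique hasSum_zero

theorem MData.phi_tail' (d : MData P ψ p L G δ) (f : H) (m : ℕ) :
    ‖Phi P p L f - ∑ n ∈ Finset.range m, Cn P p L n f‖ ^ 2
      = ‖Phi P p L f‖ ^ 2 - ‖∑ n ∈ Finset.range m, Cn P p L n f‖ ^ 2 := by
  have h1 := d.phi_inner_sum f m
  have h2 := norm_add_sq_eq_norm_sq_add_norm_sq_of_inner_eq_zero (𝕜 := ℂ)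
    (∑ n ∈ Finset.range m, Cn P p L n f)
    (Phi P p L f - ∑ n ∈ Finset.range m, Cn P p L n f) h1
  rw [add_sub_cancel] at h2
  nlinarith [h2]

/-! ### the first entry weight -/

theorem rr_of_mem {x : ℝ} {n : ℕ} (hx : x ∈ Zs L n) : rr p L x = wt p L (x / 2 ^ n) := by
  classical
  have hex : ∃ n : ℕ, x / 2 ^ n ∈ L := ⟨n, hx.1⟩
  unfold rr
  rw [dif_pos hex]
  have : Nat.find hex = n := (Nat.find_eq_iff hex).2 ⟨hx.1, hx.2⟩
  rw [this]

theorem MData.nonempty (d : MData P ψ p L G δ) : L.Nonempty := by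
  by_contra hne
  rw [not_nonempty_iff_eq_empty] at hne
  have h1 := d.absb
  rw [hne] at h1
  simp only [mem_empty_iff_false, exists_const] at h1
  have h3 := ae_iff.1 h1
  simp at h3

theorem MData.delta_le_one (d : MData P ψ p L G δ) : δ ≤ 1 := by
  obtain ⟨x, hx⟩ := d.nonempty
  exact (d.lower x hx).trans (d.dens.le_one x)

theorem MData.rr_bound (d : MData P ψ p L G δ) (x : ℝ) : ‖rr p L x‖ ≤ (Real.sqrt δ)⁻¹ := by
  classical
  unfold rr
  split_ifs with h
  · exact d.norm_wt_le _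
  · rw [norm_one]
    rw [one_le_inv₀ (Real.sqrt_pos.2 d.pos)]
    exact Real.sqrt_le_one.2 d.delta_le_one

theorem MData.rr_bm (d : MData P ψ p L G δ) : BM (rr p L) := by
  refine ⟨?_, (Real.sqrt δ)⁻¹, d.rr_bound⟩
  -- measurable on the countable partition `Zs L n`
  have h1 : ∀ n : ℕ, Measurable (fun x : ℝ => wt p L (x / 2 ^ n)) := fun n =>
    d.bm_wt.meas.comp (measurable_id.div_const _)
  intro t ht
  have hset : rr p L ⁻¹' t = (⋃ n : ℕ, Zs L n ∩ (fun x : ℝ => wt p L (x / 2 ^ n)) ⁻¹' t)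
      ∪ ((⋃ n : ℕ, Zs L n)ᶜ ∩ (fun _ : ℝ => (1 : ℂ)) ⁻¹' t) := by
    ext x
    classical
    by_cases hex : ∃ n : ℕ, x / 2 ^ n ∈ L
    · have hx : x ∈ Zs L (Nat.find hex) := ⟨Nat.find_spec hex, fun m hm => Nat.find_min hex hm⟩
      constructor
      · intro h2
        refine Or.inl (mem_iUnion.2 ⟨Nat.find hex, hx, ?_⟩)
        rw [mem_preimage, rr_of_mem hx] at h2
        exact h2
      · rintro (h2 | h2)
        · obtain ⟨n, hn, hn'⟩ := mem_iUnion.1 h2
          rw [mem_preimage, rr_of_mem hn]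
          exact hn'
        · exact absurd (mem_iUnion.2 ⟨_, hx⟩) h2.1
    · have hx : x ∉ ⋃ n : ℕ, Zs L n := by
        intro h2
        obtain ⟨n, hn⟩ := mem_iUnion.1 h2
        exact hex ⟨n, hn.1⟩
      have hr : rr p L x = 1 := by
        unfold rr
        rw [dif_neg hex]
      constructor
      · intro h2
        refine Or.inr ⟨hx, ?_⟩
        rw [mem_preimage, hr] at h2
        exact h2
      · rintro (h2 | h2)
        · obtain ⟨n, hn, -⟩ := mem_iUnion.1 h2
          exact absurd ⟨n, hn.1⟩ hex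
        · rw [mem_preimage, hr]
          exact h2.2
  rw [hset]
  refine (MeasurableSet.iUnion fun n => (meas_Zs d.measL n).inter (h1 n ht)).union ?_
  exact (MeasurableSet.iUnion fun n => meas_Zs d.measL n).compl.inter (measurable_const ht)

theorem conj_rr (x : ℝ) : conj (rr p L x) = rr p L x := by
  classical
  unfold rr
  split_ifs
  · exact conj_wt _
  · exact map_one _

/-! ### the key identity -/

theorem D_inner (f g : H) : ⟪D f, g⟫_ℂ = ⟪f, D.symm g⟫_ℂ := by
  rw [← D.inner_map_map f (D.symm g), LinearIsometryEquiv.apply_symm_apply]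

theorem Dpow_inner (n : ℕ) (f g : H) : ⟪(D ^ n) f, g⟫_ℂ = ⟪f, (D ^ n).symm g⟫_ℂ := by
  rw [← (D ^ n).inner_map_map f ((D ^ n).symm g), LinearIsometryEquiv.apply_symm_apply]

theorem Dpow_succ_symm (n : ℕ) (g : H) : (D ^ (n + 1)).symm g = D.symm ((D ^ n).symm g) := by
  rw [LinearIsometryEquiv.symm_apply_eq, pow_succ]
  change g = (D ^ n) (D (D.symm ((D ^ n).symm g)))
  rw [LinearIsometryEquiv.apply_symm_apply, LinearIsometryEquiv.apply_symm_apply]

theorem MData.P_Dpow_symm (d : MData P ψ p L G δ) (n : ℕ) {g : H} (hg : P g = g) :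
    P ((D ^ n).symm g) = (D ^ n).symm g := by
  induction n with
  | zero => exact hg
  | succ n ih => rw [Dpow_succ_symm, ← ih, d.gm.P_Dsymm]

/-- one term of the series in the key identity -/
theorem MData.star_term (d : MData P ψ p L G δ) (n : ℕ) (f : H) {g : H} (hg : P g = g) :
    ⟪Cn P p L n f, M (rr p L) g⟫_ℂ = ⟪uu P p L (us P p L (orb P p L f n)), (D ^ n).symm g⟫_ℂ := by
  have hw : BM (fun x : ℝ => wt p L (x / 2 ^ n)) := d.bm_wt.comp_div _
  have h1 : Q (Zs L n) (M (rr p L) g) = Q (Zs L n) (M (fun x : ℝ => wt p L (x / 2 ^ n)) g) := by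
    unfold Q
    rw [M_M (BM.ind (meas_Zs d.measL n)) d.rr_bm, M_M (BM.ind (meas_Zs d.measL n)) hw]
    refine M_congr ((BM.ind (meas_Zs d.measL n)).mul d.rr_bm)
      ((BM.ind (meas_Zs d.measL n)).mul hw) (ae_of_all _ fun x => ?_) g
    change ind (Zs L n) x * rr p L x = ind (Zs L n) x * wt p L (x / 2 ^ n)
    by_cases hx : x ∈ Zs L n
    · rw [rr_of_mem hx]
    · rw [ind_of_notMem hx, zero_mul, zero_mul]
  have h2 : ∀ g' : H, ⟪Cn P p L n f, g'⟫_ℂ = ⟪Cn P p L n f, Q (Zs L n) g'⟫_ℂ := by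
    intro g'
    conv_lhs => rw [← d.Q_Cn n f]
    rw [(proj_Q (meas_Zs d.measL n)).symm]
  rw [h2, h1, ← h2, Cn_orb, Dpow_inner, Dpow_symm_M n hw]
  have h3 : (fun x : ℝ => wt p L (2 ^ n * x / 2 ^ n)) = wt p L := by
    funext x
    congr 1
    field_simp
  have h4 : us P p L ((D ^ n).symm g) = M (wt p L) ((D ^ n).symm g) := by
    rw [us_apply, d.P_Dpow_symm n hg]
  rw [h3, d.uu_inner, h4]

theorem MData.star_sum (d : MData P ψ p L G δ) (f : H) {g : H} (hg : P g = g) (m : ℕ) :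
    ∑ n ∈ Finset.range (m + 1), ⟪Cn P p L n f, M (rr p L) g⟫_ℂ
      + ⟪orb P p L f (m + 1), (D ^ (m + 1)).symm g⟫_ℂ = ⟪f, g⟫_ℂ := by
  have key : ∀ n : ℕ, ⟪P (orb P p L f n), (D ^ n).symm g⟫_ℂ
      = ⟪uu P p L (us P p L (orb P p L f n)), (D ^ n).symm g⟫_ℂ
        + ⟪orb P p L f (n + 1), (D ^ (n + 1)).symm g⟫_ℂ := by
    intro n
    have h1 : P (orb P p L f n) = uu P p L (us P p L (orb P p L f n)) + Nn P p L (orb P p L f n) := by
      rw [Nn_apply]
      abel
    rw [h1, inner_add_left, orb_succ, Dpow_succ_symm, LinearIsometryEquiv.inner_map_map]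
  induction m with
  | zero =>
    have h0 := key 0
    rw [Finset.sum_range_one, d.star_term 0 f hg, ← h0, orb_zero]
    change ⟪P f, g⟫_ℂ = ⟪f, g⟫_ℂ
    rw [d.gm.proj.symm, hg]
  | succ m ih =>
    have h1 := key (m + 1)
    rw [d.P_orb] at h1
    rw [Finset.sum_range_succ, d.star_term (m + 1) f hg, add_assoc, ← h1, ih]

/-- the sets `{x : 2x/2^m ∈ L}` exhaust the line -/
theorem MData.Q_absorb (d : MData P ψ p L G δ) (g : H) :
    Tendsto (fun m : ℕ => Q ((fun x => x / 2 ^ m) ⁻¹' L) g) atTop (𝓝 g) := by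
  refine Q_tendsto_of_absorb (fun m => meas_div m d.measL) ?_ ?_ g
  · intro m n hmn x hx
    exact d.half_pow hmn hx
  · exact d.absb

theorem MData.remainder (d : MData P ψ p L G δ) (f g : H) :
    Tendsto (fun m : ℕ => ⟪orb P p L f (m + 1), (D ^ (m + 1)).symm g⟫_ℂ) atTop (𝓝 0) := by
  have m2 : MeasurableSet ((fun x : ℝ => 2 * x) ⁻¹' L) := (measurable_const_mul 2) d.measL
  have h1 : ∀ m : ℕ, ‖⟪orb P p L f (m + 1), (D ^ (m + 1)).symm g⟫_ℂ‖
      ≤ ‖P f‖ * ‖g - Q ((fun x => x / 2 ^ m) ⁻¹' L) g‖ := by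
    intro m
    set g' := (D ^ (m + 1)).symm g with hg'
    have e1 : ⟪orb P p L f (m + 1), g'⟫_ℂ
        = ⟪orb P p L f (m + 1), g' - Q ((fun x => 2 * x) ⁻¹' L) g'⟫_ℂ := by
      rw [inner_sub_right, ← (proj_Q m2).symm, d.Q_half_orb, inner_zero_left, sub_zero]
    have hset : (fun x : ℝ => x / 2 ^ (m + 1)) ⁻¹' ((fun x => 2 * x) ⁻¹' L)
        = (fun x : ℝ => x / 2 ^ m) ⁻¹' L := by
      ext x
      have : 2 * (x / 2 ^ (m + 1)) = x / 2 ^ m := by
        rw [pow_succ]
        field_simp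
      rw [mem_preimage, mem_preimage, mem_preimage, this]
    have e2 : ‖g' - Q ((fun x => 2 * x) ⁻¹' L) g'‖ = ‖g - Q ((fun x => x / 2 ^ m) ⁻¹' L) g‖ := by
      rw [← (D ^ (m + 1)).norm_map, map_sub, Dpow_Q (m + 1) m2, hg',
        LinearIsometryEquiv.apply_symm_apply, hset]
    rw [e1]
    refine (norm_inner_le_norm _ _).trans ?_
    rw [e2]
    exact mul_le_mul_of_nonneg_right (d.orb_norm_le f m) (norm_nonneg _)
  have h2 : Tendsto (fun m : ℕ => ‖P f‖ * ‖g - Q ((fun x => x / 2 ^ m) ⁻¹' L) g‖) atTop (𝓝 0) := by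
    have h3 := ((tendsto_const_nhds (x := g)).sub (d.Q_absorb g)).norm.const_mul ‖P f‖
    simpa using h3
  exact squeeze_zero_norm h1 h2

/-- the key identity (*) -/
theorem MData.star (d : MData P ψ p L G δ) (f : H) : P (M (rr p L) (Phi P p L f)) = P f := by
  have key : ∀ g : H, P g = g → ⟪Phi P p L f, M (rr p L) g⟫_ℂ = ⟪f, g⟫_ℂ := by
    intro g hg
    have h1 : Tendsto (fun m : ℕ => ∑ n ∈ Finset.range (m + 1), ⟪Cn P p L n f, M (rr p L) g⟫_ℂ)
        atTop (𝓝 ⟪f, g⟫_ℂ) := by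
      have h2 : Tendsto (fun m : ℕ => ⟪f, g⟫_ℂ - ⟪orb P p L f (m + 1), (D ^ (m + 1)).symm g⟫_ℂ)
          atTop (𝓝 (⟪f, g⟫_ℂ - 0)) := tendsto_const_nhds.sub (d.remainder f g)
      rw [sub_zero] at h2
      refine h2.congr fun m => ?_
      rw [← d.star_sum f hg m]
      ring
    have h2 : Tendsto (fun m : ℕ => ∑ n ∈ Finset.range (m + 1), ⟪Cn P p L n f, M (rr p L) g⟫_ℂ)
        atTop (𝓝 ⟪Phi P p L f, M (rr p L) g⟫_ℂ) := by
      have h3 : Tendsto (fun m : ℕ => ⟪∑ n ∈ Finset.range m, Cn P p L n f, M (rr p L) g⟫_ℂ)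
          atTop (𝓝 ⟪Phi P p L f, M (rr p L) g⟫_ℂ) :=
        ((d.phi_hasSum f).tendsto_sum_nat).inner tendsto_const_nhds
      refine (h3.comp (tendsto_add_atTop_nat 1)).congr fun m => ?_
      simp only [Function.comp_apply]
      rw [sum_inner]
    exact tendsto_nhds_unique h2 h1
  refine ext_inner_right ℂ fun g => ?_
  rw [d.gm.proj.symm, d.gm.proj.symm, inner_M_left d.rr_bm]
  simp only [conj_rr]
  exact key (P g) (d.gm.proj.idem g)

/-! ### completeness -/

theorem MData.phi_norm_ge (d : MData P ψ p L G δ) (f : H) :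
    δ * ‖P f‖ ^ 2 ≤ ‖Phi P p L f‖ ^ 2 := by
  have h1 : ‖P f‖ ≤ (Real.sqrt δ)⁻¹ * ‖Phi P p L f‖ := by
    rw [← d.star f]
    exact (d.gm.proj.norm_le _).trans (norm_M_le d.rr_bm d.rr_bound _)
  have h2 : Real.sqrt δ * ‖P f‖ ≤ ‖Phi P p L f‖ := by
    have h3 := mul_le_mul_of_nonneg_left h1 (Real.sqrt_nonneg δ)
    rwa [← mul_assoc, mul_inv_cancel₀ (Real.sqrt_pos.2 d.pos).ne', one_mul] at h3
  have h4 := pow_le_pow_left₀ (mul_nonneg (Real.sqrt_nonneg δ) (norm_nonneg _)) h2 2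
  rwa [mul_pow, Real.sq_sqrt d.pos.le] at h4

theorem MData.phi_norm_lim (d : MData P ψ p L G δ) (f : H) :
    Tendsto (fun m : ℕ => ‖orb P p L f (m + 1)‖ ^ 2) atTop (𝓝 (‖P f‖ ^ 2 - ‖Phi P p L f‖ ^ 2)) := by
  have h1 : Tendsto (fun m : ℕ => ‖∑ n ∈ Finset.range m, Cn P p L n f‖ ^ 2) atTop
      (𝓝 (‖Phi P p L f‖ ^ 2)) := ((d.phi_hasSum f).tendsto_sum_nat).norm.pow 2
  have h2 := (tendsto_const_nhds (x := ‖P f‖ ^ 2)).sub (h1.comp (tendsto_add_atTop_nat 1))
  refine h2.congr fun m => ?_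
  simp only [Function.comp_apply]
  rw [d.norm_sum_Cn, ← d.orb_sum f m]
  ring

/-- completeness -/
theorem MData.phi_norm (d : MData P ψ p L G δ) (f : H) : ‖Phi P p L f‖ = ‖P f‖ := by
  -- the limit `c²` of the squared norms of the orbit
  set c2 : ℝ := ‖P f‖ ^ 2 - ‖Phi P p L f‖ ^ 2 with hc2
  have hlim := d.phi_norm_lim f
  rw [← hc2] at hlim
  -- for `f_k = N x_k` the limit is the same
  have horb : ∀ k m : ℕ, orb P p L (Nn P p L (orb P p L f k)) (m + 1) = orb P p L f (k + m + 1) := by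
    intro k m
    induction m with
    | zero =>
      rw [orb_succ, orb_zero, d.N_proj.idem, add_zero, ← orb_succ]
    | succ m ih =>
      rw [orb_succ, ih, ← orb_succ]
      rfl
  have h1 : ∀ k : ℕ, ‖P (Nn P p L (orb P p L f k))‖ ^ 2
      - ‖Phi P p L (Nn P p L (orb P p L f k))‖ ^ 2 = c2 := by
    intro k
    have h2 := d.phi_norm_lim (Nn P p L (orb P p L f k))
    have h3 : Tendsto (fun m : ℕ => ‖orb P p L (Nn P p L (orb P p L f k)) (m + 1)‖ ^ 2) atTop
        (𝓝 c2) := by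
      have h4 := hlim.comp (tendsto_add_atTop_nat k)
      refine h4.congr fun m => ?_
      simp only [Function.comp_apply]
      rw [horb, add_comm k m]
    exact tendsto_nhds_unique h2 h3
  have h2 : ∀ k : ℕ, δ * ‖orb P p L f (k + 1)‖ ^ 2 ≤ ‖orb P p L f (k + 1)‖ ^ 2 - c2 := by
    intro k
    have h3 := d.phi_norm_ge (Nn P p L (orb P p L f k))
    have h4 := h1 k
    rw [d.P_N, ← d.orb_norm] at h3 h4
    linarith
  have h3 : δ * c2 ≤ c2 - c2 :=
    le_of_tendsto_of_tendsto' (hlim.const_mul δ) (hlim.sub_const c2) h2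
  have h4 : 0 ≤ c2 := ge_of_tendsto' hlim fun m => sq_nonneg _
  have h5 : c2 = 0 := by
    have : δ * c2 ≤ 0 := by linarith
    nlinarith [d.pos]
  have h6 : ‖Phi P p L f‖ ^ 2 = ‖P f‖ ^ 2 := by linarith
  exact (sq_eq_sq₀ (norm_nonneg _) (norm_nonneg _)).1 h6

/-- norm of the tails: `‖Φ f - Σ_{n<m} C_n f‖² = ‖P f‖² - ‖Σ_{n<m} C_n f‖²` -/
theorem MData.phi_tail (d : MData P ψ p L G δ) (f : H) (m : ℕ) :
    ‖Phi P p L f - ∑ n ∈ Finset.range m, Cn P p L n f‖ ^ 2
      = ‖P f‖ ^ 2 - ‖∑ n ∈ Finset.range m, Cn P p L n f‖ ^ 2 := by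
  rw [d.phi_tail', d.phi_norm]

theorem MData.phi_inner (d : MData P ψ p L G δ) (f g : H) :
    ⟪Phi P p L f, Phi P p L g⟫_ℂ = ⟪P f, g⟫_ℂ := by
  have h1 : ∀ v : H, ⟪Phi P p L v, Phi P p L v⟫_ℂ = ⟪P v, v⟫_ℂ := by
    intro v
    rw [← d.gm.proj.norm_sq, ← d.phi_norm]
    exact inner_self_eq_norm_sq_to_K (𝕜 := ℂ) _ |>.trans (by norm_cast)
  have h2 := inner_eq_sum_norm_sq_div_four (𝕜 := ℂ) (Phi P p L f) (Phi P p L g)
  have h3 := inner_eq_sum_norm_sq_div_four (𝕜 := ℂ) (P f) (P g)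
  rw [← map_add, ← map_sub, ← map_smul, ← map_sub, ← map_add] at h2
  rw [← map_add, ← map_sub, ← map_smul, ← map_sub, ← map_add] at h3
  rw [d.phi_norm, d.phi_norm, d.phi_norm, d.phi_norm, ← h3] at h2
  rw [h2, d.gm.proj.symm, d.gm.proj.idem, ← d.gm.proj.symm]

theorem MData.adj_phi (d : MData P ψ p L G δ) (f : H) :
    ContinuousLinearMap.adjoint (Phi P p L) (Phi P p L f) = P f := by
  refine ext_inner_right ℂ fun g => ?_
  rw [ContinuousLinearMap.adjoint_inner_left, d.phi_inner]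

theorem MData.N_pcomm (d : MData P ψ p L G δ) : PComm (Nn P p L) := by
  intro m hm f
  rw [Nn_apply, Nn_apply, us_apply, us_apply, uu_apply, uu_apply, d.gm.comm m hm,
    M_comm d.bm_wt hm.toBM, M_comm d.bm_wt hm.toBM, d.gm.comm m hm, map_sub]

/-- `m(2^n ·)` is periodic -/
theorem Per.comp_pow {m : ℝ → ℂ} (hm : Per m) (n : ℕ) : Per (fun x => m (2 ^ n * x)) where
  toBM := hm.toBM.comp_mul _
  per := fun x => by
    have h1 : ∀ (k : ℕ) (y : ℝ), m (y + k) = m y := by
      intro k y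
      induction k with
      | zero => simp
      | succ k ih =>
        rw [← ih]
        push_cast
        rw [← add_assoc]
        exact hm.per _
    have h2 := h1 (2 ^ n) (2 ^ n * x)
    push_cast at h2
    rw [mul_add, mul_one]
    exact h2

theorem MData.orb_M (d : MData P ψ p L G δ) {m : ℝ → ℂ} (hm : Per m) (f : H) (n : ℕ) :
    orb P p L (M m f) n = M (fun x => m (2 ^ n * x)) (orb P p L f n) := by
  induction n with
  | zero =>
    rw [orb_zero, orb_zero]
    congr 2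
    funext x
    simp
  | succ n ih =>
    rw [orb_succ, ih, d.N_pcomm _ (hm.comp_pow n), Dsymm_M (hm.comp_pow n).toBM, ← orb_succ]
    congr 2
    funext x
    rw [pow_succ]
    ring_nf

theorem MData.Cn_M (d : MData P ψ p L G δ) {m : ℝ → ℂ} (hm : Per m) (f : H) (n : ℕ) :
    Cn P p L n (M m f) = M m (Cn P p L n f) := by
  rw [Cn_orb, Cn_orb, d.orb_M hm, us_apply, us_apply, d.gm.comm _ (hm.comp_pow n),
    M_comm d.bm_wt (hm.comp_pow n).toBM, Dpow_M n (hm.comp_pow n).toBM]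
  congr 2
  funext x
  congr 1
  field_simp

theorem MData.phi_pcomm (d : MData P ψ p L G δ) : PComm (Phi P p L) := by
  intro m hm f
  refine (d.phi_hasSum (M m f)).unique ?_
  have h1 := (d.phi_hasSum f).mapL (M m)
  refine h1.congr_fun ?_
  intro n
  exact d.Cn_M hm f n

theorem MData.phi_uu (d : MData P ψ p L G δ) (f : H) : Phi P p L (uu P p L f) = Q L f := by
  refine (d.phi_hasSum _).unique ?_
  have h0 : Cn P p L 0 (uu P p L f) = Q L f := by
    rw [Cn_orb, orb_zero]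
    exact d.us_uu f
  have h1 : ∀ n, n ≠ 0 → Cn P p L n (uu P p L f) = 0 := by
    intro n hn
    obtain ⟨k, rfl⟩ := Nat.exists_eq_succ_of_ne_zero hn
    have : orb P p L (uu P p L f) (k + 1) = 0 := by
      rw [orb_succ', d.N_uu, map_zero]
      unfold orb
      exact map_zero _
    rw [Nat.succ_eq_add_one, Cn_orb, this, map_zero, map_zero]
  rw [← h0]
  exact hasSum_single 0 h1

theorem MData.Q_phi (d : MData P ψ p L G δ) (f : H) : Q L (Phi P p L f) = us P p L f := by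
  have h1 := (d.phi_hasSum f).mapL (Q L)
  refine h1.unique ?_
  have h0 : Q L (Cn P p L 0 f) = us P p L f := by
    rw [Cn_orb, orb_zero]
    exact d.Q_us f
  have h2 : ∀ n, n ≠ 0 → Q L (Cn P p L n f) = 0 := by
    intro n hn
    rw [← d.Q_Cn n f, Q_Q d.measL (meas_Zs d.measL n)]
    have : L ∩ Zs L n = ∅ := by
      ext x
      simp only [Zs, mem_inter_iff, Set.mem_ofPred_eq, mem_empty_iff_false, iff_false]
      rintro ⟨h3, -, h4⟩
      exact h4 0 (Nat.pos_of_ne_zero hn) (by simpa using h3)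
    rw [this, Q_empty]
  rw [← h0]
  exact hasSum_single 0 h2

/-- `D⁻¹ Φ = Φ (D⁻¹ N + u D⁻¹ u*)` -/
theorem MData.intertwine (d : MData P ψ p L G δ) (f : H) :
    D.symm (Phi P p L f)
      = Phi P p L (D.symm (Nn P p L f)) + Phi P p L (uu P p L (D.symm (us P p L f))) := by
  have h1 : Phi P p L (uu P p L (D.symm (us P p L f))) = D.symm (us P p L f) := by
    rw [d.phi_uu]
    have h2 : Q L (D.symm (us P p L f)) = D.symm (us P p L f) := by
      conv_lhs => rw [← d.Q_us f, Dsymm_Q d.measL]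
      have m2 : MeasurableSet ((fun x : ℝ => 2 * x) ⁻¹' L) := (measurable_const_mul 2) d.measL
      rw [Q_Q d.measL m2]
      have : L ∩ (fun x => 2 * x) ⁻¹' L = (fun x => 2 * x) ⁻¹' L := by
        refine inter_eq_right.2 fun x hx => ?_
        have := d.half _ hx
        simpa using this
      rw [this, ← Dsymm_Q d.measL, d.Q_us]
    exact h2
  rw [h1]
  have h2 : HasSum (fun n => D.symm (Cn P p L n f)) (D.symm (Phi P p L f)) :=
    (d.phi_hasSum f).mapL (D.symm.toContinuousLinearEquiv : H →L[ℂ] H)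
  have h3 : HasSum (fun n => D.symm (Cn P p L (n + 1) f))
      (D.symm (Phi P p L f) - ∑ n ∈ Finset.range 1, D.symm (Cn P p L n f)) :=
    (hasSum_nat_add_iff' 1).2 h2
  have h4 : (fun n => D.symm (Cn P p L (n + 1) f)) = fun n => Cn P p L n (D.symm (Nn P p L f)) := by
    funext n
    rw [Cn_orb, Cn_orb, orb_succ', pow_succ', LinearIsometryEquiv.symm_apply_eq]
    rfl
  rw [h4, Finset.sum_range_one] at h3
  have h5 := (d.phi_hasSum (D.symm (Nn P p L f))).unique h3
  rw [h5]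
  have h6 : Cn P p L 0 f = us P p L f := rfl
  rw [h6]
  abel

theorem MData.phi_fix (d : MData P ψ p L G δ) (f : H) :
    Phi P p L (Q (L \ G) f) = Q (L \ G) f := by
  rw [← d.uu_fix, d.phi_uu, d.uu_fix, Q_Q d.measL (d.measL.diff d.measG),
    inter_eq_right.2 sdiff_subset]

/-- for `g ∈ V` vanishing on `L`: `Φ D⁻¹ g = D⁻¹ Φ g` -/
theorem MData.phi_Dsymm (d : MData P ψ p L G δ) {g : H} (hg : P g = g) (h0 : Q L g = 0) :
    Phi P p L (D.symm g) = D.symm (Phi P p L g) := by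
  rw [d.intertwine, d.N_eq_self hg h0, us_apply, hg, d.wt_of_Q h0, map_zero, map_zero, map_zero,
    add_zero]

/-- for `g ∈ V`: `Φ g` vanishes on `L` iff `g` does -/
theorem MData.phi_vanish (d : MData P ψ p L G δ) {g : H} (hg : P g = g) :
    Q L (Phi P p L g) = 0 ↔ Q L g = 0 := by
  rw [d.Q_phi, us_apply, hg]
  exact ⟨d.Q_of_wt, d.wt_of_Q⟩

end Pool.Agent.Wav
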