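import Pool.Agent.Lib.MP_0a5c67_an.C1

/-! Task C2: the new pair is again a `GM` pair. -/

set_option autoImplicit false

open MeasureTheory Filter Topology Set
open scoped ENNReal InnerProductSpace ComplexConjugate

noncomputable section

namespace Pool.Agent.Wav

variable {P : H →L[ℂ] H} {ψ : H} {p : ℝ → ℝ} {L G : Set ℝ} {δ : ℝ}

/-! ### the symbol `α` -/

theorem MData.half_pos (d : MData P ψ p L G δ) {x : ℝ} (hx : x ∈ L) : 0 < p (x / 2) :=
  lt_of_lt_of_le d.pos (d.lower _ (d.half x hx))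

theorem MData.p_pos (d : MData P ψ p L G δ) {x : ℝ} (hx : x ∈ L) : 0 < p x :=
  lt_of_lt_of_le d.pos (d.lower _ hx)

theorem MData.sqrt_le_one (d : MData P ψ p L G δ) (x : ℝ) :
    Real.sqrt (p x / p (x / 2)) ≤ 1 := by
  rw [Real.sqrt_le_one]
  exact div_le_one_of_le₀ (d.mono x) (d.dens.nonneg _)

theorem al_add_int (p : ℝ → ℝ) (G : Set ℝ) (x : ℝ) (k : ℤ) : al p G (x + k) = al p G x := by
  unfold al
  rw [← (Equiv.addLeft k).tsum_eq (fun j : ℤ => ENNReal.ofReal
    (G.indicator (fun y => 1 - Real.sqrt (p y / p (y / 2))) (x + j)))]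
  congr 4
  funext j
  simp only [Equiv.coe_addLeft, Int.cast_add, add_assoc]

/-- `α = √(p(x)/p(x/2))` on `G` -/
theorem MData.al_mem (d : MData P ψ p L G δ) {x : ℝ} (hx : x ∈ G) :
    al p G x = ((Real.sqrt (p x / p (x / 2)) : ℝ) : ℂ) := by
  unfold al
  rw [tsum_eq_single 0]
  · rw [Int.cast_zero, add_zero, Set.indicator_of_mem hx, ENNReal.toReal_ofReal]
    · norm_num
    · have := d.sqrt_le_one x
      linarith
  · intro k hk
    rw [Set.indicator_of_notMem, ENNReal.ofReal_zero]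
    intro h
    exact hk (d.inj (x + k) h x hx k rfl)

/-- `α = 1` off `G + ℤ` -/
theorem MData.al_one (d : MData P ψ p L G δ) {x : ℝ} (hx : ∀ k : ℤ, x + k ∉ G) :
    al p G x = 1 := by
  unfold al
  have h : ∀ k : ℤ, ENNReal.ofReal
      (G.indicator (fun y => 1 - Real.sqrt (p y / p (y / 2))) (x + k)) = 0 := by
    intro k
    rw [Set.indicator_of_notMem (hx k), ENNReal.ofReal_zero]
  simp only [h, tsum_zero]
  norm_num

theorem MData.al_bound (d : MData P ψ p L G δ) (x : ℝ) : ‖al p G x‖ ≤ 1 := by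
  by_cases hx : ∃ k : ℤ, x + k ∈ G
  · obtain ⟨k, hk⟩ := hx
    rw [← al_add_int p G x k, d.al_mem hk, Complex.norm_real, Real.norm_eq_abs,
      abs_of_nonneg (Real.sqrt_nonneg _)]
    exact d.sqrt_le_one _
  · push Not at hx
    rw [d.al_one hx]
    simp

theorem MData.per_al (d : MData P ψ p L G δ) : Per (al p G) where
  meas := by
    unfold al
    have hp := d.dens.meas
    have h1 : Measurable (fun y => 1 - Real.sqrt (p y / p (y / 2))) :=
      measurable_const.sub (Measurable.sqrt (hp.div (hp.comp (measurable_id.div_const 2))))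
    refine Complex.measurable_ofReal.comp (measurable_const.sub (Measurable.ennreal_toReal ?_))
    refine Measurable.tsum fun k => ENNReal.measurable_ofReal.comp ?_
    exact (h1.indicator d.measG).comp (measurable_id.add_const _)
  bdd := ⟨1, d.al_bound⟩
  per x := by
    have := al_add_int p G x 1
    rwa [Int.cast_one] at this

theorem MData.bm_w1 (d : MData P ψ p L G δ) : BM (w1 p G) where
  meas := by
    unfold w1
    have hp := d.dens.meas
    refine Measurable.indicator ?_ d.measG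
    exact Complex.measurable_ofReal.comp (Measurable.sqrt (hp.comp (measurable_id.div_const 2))).inv
  bdd := by
    refine ⟨(Real.sqrt δ)⁻¹, fun x => ?_⟩
    unfold w1
    by_cases hx : x ∈ G
    · rw [Set.indicator_of_mem hx, Complex.norm_real, Real.norm_eq_abs,
        abs_of_nonneg (inv_nonneg.2 (Real.sqrt_nonneg _))]
      exact inv_anti₀ (Real.sqrt_pos.2 d.pos) (Real.sqrt_le_sqrt (d.lower _ (d.half x (d.sub hx))))
    · rw [Set.indicator_of_notMem hx, norm_zero]
      positivity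

/-! ### commutation -/

theorem MData.uu_comm (d : MData P ψ p L G δ) {m : ℝ → ℂ} (hm : Per m) (f : H) :
    uu P p L (M m f) = M m (uu P p L f) := by
  change P (M (wt p L) (M m f)) = M m (P (M (wt p L) f))
  rw [M_comm d.bm_wt hm.toBM, d.gm.comm m hm]

theorem M_eq_zero {m : ℝ → ℂ} (h : ∀ x, m x = 0) (f : H) : M m f = 0 := by
  have : m = fun _ => 0 := funext h
  rw [this, M_zero]

/-- `M_χ ψ~ = M_χ ψ` for periodic `χ` vanishing on `G` -/
theorem MData.psiT_off (d : MData P ψ p L G δ) {χ : ℝ → ℂ} (hχ : Per χ) (h0 : ∀ x ∈ G, χ x = 0) :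
    M χ (psiT P ψ p L G) = M χ ψ := by
  have hper : ∀ (x : ℝ) (k : ℤ), χ (x + k) = χ x := by
    intro x k
    have : Function.Periodic χ 1 := hχ.per
    have := this.int_mul k x
    rwa [mul_one] at this
  unfold psiT
  rw [map_sub, ← d.uu_comm hχ, M_M hχ.toBM d.bm_w1, M_M hχ.toBM d.per_al.toBM]
  have h1 : ∀ x, χ x * w1 p G x = 0 := by
    intro x
    by_cases hx : x ∈ G
    · rw [h0 x hx, zero_mul]
    · unfold w1
      rw [Set.indicator_of_notMem hx, mul_zero]
  rw [M_eq_zero h1, map_zero, sub_zero]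
  congr 2
  funext x
  by_cases hx : ∃ k : ℤ, x + k ∈ G
  · obtain ⟨k, hk⟩ := hx
    rw [← hper x k, h0 _ hk, zero_mul]
  · push Not at hx
    rw [d.al_one hx, mul_one]

theorem MData.Q_w1 (d : MData P ψ p L G δ) (f : H) : Q L (M (w1 p G) f) = M (w1 p G) f := by
  unfold Q
  rw [M_M (BM.ind d.measL) d.bm_w1]
  congr 2
  funext x
  by_cases hx : x ∈ G
  · rw [ind_of_mem (d.sub hx), one_mul]
  · unfold w1
    rw [Set.indicator_of_notMem hx, mul_zero]

/-- `‖ψ~ - M_α ψ‖`: the second term has norm `‖M_{w₁} ψ‖` -/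
theorem MData.norm_uu_w1 (d : MData P ψ p L G δ) (f : H) :
    ‖uu P p L (M (w1 p G) f)‖ = ‖M (w1 p G) f‖ := by
  have h1 : ⟪uu P p L (M (w1 p G) f), uu P p L (M (w1 p G) f)⟫_ℂ =
      ⟪M (w1 p G) f, M (w1 p G) f⟫_ℂ := by
    rw [d.uu_inner, d.us_uu, d.Q_w1]
  rw [inner_self_eq_norm_sq_to_K, inner_self_eq_norm_sq_to_K] at h1
  have h2 : ‖uu P p L (M (w1 p G) f)‖ ^ 2 = ‖M (w1 p G) f‖ ^ 2 := by exact_mod_cast h1
  exact (sq_eq_sq₀ (norm_nonneg _) (norm_nonneg _)).1 h2

/-! ### unfolding -/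

section unfold

/-- the part of `G` in `[k, k+1)` -/
def Ak (G : Set ℝ) (k : ℤ) : Set ℝ := G ∩ Ico (k : ℝ) (k + 1)

/-- its translate to `[0,1)` -/
def Bk (G : Set ℝ) (k : ℤ) : Set ℝ := (fun x : ℝ => x + k) ⁻¹' Ak G k

theorem Ak_meas (hG : MeasurableSet G) (k : ℤ) : MeasurableSet (Ak G k) := hG.inter measurableSet_Ico

theorem Bk_meas (hG : MeasurableSet G) (k : ℤ) : MeasurableSet (Bk G k) :=
  (measurable_id.add_const _) (Ak_meas hG k)

theorem Ak_disj (G : Set ℝ) : Pairwise (Function.onFun Disjoint (Ak G)) := by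
  intro i j hij
  rw [Function.onFun, Set.disjoint_left]
  rintro x ⟨-, hx1, hx2⟩ ⟨-, hx3, hx4⟩
  apply hij
  have h1 : (i : ℝ) < j + 1 := by linarith
  have h2 : (j : ℝ) < i + 1 := by linarith
  have h3 : i < j + 1 := by exact_mod_cast h1
  have h4 : j < i + 1 := by exact_mod_cast h2
  omega

theorem Ak_union (G : Set ℝ) : ⋃ k, Ak G k = G := by
  ext x
  simp only [Ak, Set.mem_iUnion, Set.mem_inter_iff, Set.mem_Ico]
  constructor
  · rintro ⟨k, h, -⟩
    exact h
  · intro h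
    exact ⟨⌊x⌋, h, Int.floor_le x, Int.lt_floor_add_one x⟩

theorem Bk_disj (inj : ∀ x ∈ G, ∀ y ∈ G, ∀ k : ℤ, x = y + k → k = 0) :
    Pairwise (Function.onFun Disjoint (Bk G)) := by
  intro i j hij
  rw [Function.onFun, Set.disjoint_left]
  rintro x ⟨hx, -⟩ ⟨hy, -⟩
  apply hij
  have := inj _ hx _ hy (i - j) (by push_cast; ring)
  omega

theorem Bk_union (G : Set ℝ) : ⋃ k, Bk G k = {x : ℝ | x ∈ Ico (0 : ℝ) 1 ∧ ∃ k : ℤ, x + k ∈ G} := by
  ext x
  simp only [Bk, Ak, Set.mem_iUnion, Set.mem_preimage, Set.mem_inter_iff, Set.mem_Ico,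
    Set.mem_ofPred_eq]
  constructor
  · rintro ⟨k, h, h1, h2⟩
    exact ⟨⟨by linarith, by linarith⟩, k, h⟩
  · rintro ⟨⟨h1, h2⟩, k, h⟩
    exact ⟨k, h, by linarith, by linarith⟩

theorem volume_Bk (hG : MeasurableSet G) (k : ℤ) : volume (Bk G k) = volume (Ak G k) :=
  (measurePreserving_add_right volume (k : ℝ)).measure_preimage (Ak_meas hG k).nullMeasurableSet

theorem volume_inj_le (hG : MeasurableSet G)
    (inj : ∀ x ∈ G, ∀ y ∈ G, ∀ k : ℤ, x = y + k → k = 0) : volume G ≤ 1 := by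
  have h1 : volume G = ∑' k, volume (Ak G k) := by
    conv_lhs => rw [← Ak_union G]
    exact measure_iUnion (Ak_disj G) (Ak_meas hG)
  have h2 : volume (⋃ k, Bk G k) = ∑' k, volume (Bk G k) :=
    measure_iUnion (Bk_disj inj) (Bk_meas hG)
  rw [h1]
  calc ∑' k, volume (Ak G k) = ∑' k, volume (Bk G k) := by
        congr 1
        funext k
        rw [volume_Bk hG]
    _ = volume (⋃ k, Bk G k) := h2.symm
    _ ≤ volume (Ico (0 : ℝ) 1) := by
        apply measure_mono
        rw [Bk_union]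
        exact fun x hx => hx.1
    _ = 1 := by simp

theorem Per.add_int {n : ℝ → ℂ} (hn : Per n) (x : ℝ) (k : ℤ) : n (x + k) = n x := by
  have : Function.Periodic n 1 := hn.per
  have := this.int_mul k x
  rwa [mul_one] at this

theorem BM.integrableOn {n : ℝ → ℂ} (hn : BM n) {A : Set ℝ} (hfin : volume A < ∞) :
    IntegrableOn n A := by
  obtain ⟨C, hC⟩ := hn.bdd
  exact IntegrableOn.of_bound hfin hn.meas.aestronglyMeasurable C (ae_of_all _ hC)

theorem integral_inj (hG : MeasurableSet G)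
    (inj : ∀ x ∈ G, ∀ y ∈ G, ∀ k : ℤ, x = y + k → k = 0) {n : ℝ → ℂ} (hn : Per n)
    (hsupp : ∀ x : ℝ, (∀ k : ℤ, x + k ∉ G) → n x = 0) :
    ∫ x in G, n x = ∫ x in Ico (0 : ℝ) 1, n x := by
  have hGfin : volume G < ∞ := (volume_inj_le hG inj).trans_lt ENNReal.one_lt_top
  have hI : volume (Ico (0 : ℝ) 1) < ∞ := by simp
  have h1 := hasSum_integral_iUnion (Ak_meas hG) (Ak_disj G) (f := n) (μ := volume)
    (by rw [Ak_union]; exact hn.toBM.integrableOn hGfin)
  rw [Ak_union] at h1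
  have hsub : (⋃ k, Bk G k) ⊆ Ico (0 : ℝ) 1 := by
    rw [Bk_union]
    exact fun x hx => hx.1
  have h2 := hasSum_integral_iUnion (Bk_meas hG) (Bk_disj inj) (f := n) (μ := volume)
    ((hn.toBM.integrableOn hI).mono_set hsub)
  have h3 : ∀ k, ∫ x in Bk G k, n x = ∫ x in Ak G k, n x := by
    intro k
    rw [← (measurePreserving_add_right volume (k : ℝ)).setIntegral_preimage_emb
      (measurableEmbedding_addRight (k : ℝ)) n (Ak G k)]
    refine setIntegral_congr_fun (Bk_meas hG k) fun x _ => ?_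
    exact (hn.add_int x k).symm
  simp only [h3] at h2
  rw [h1.unique h2]
  refine (setIntegral_eq_of_subset_of_forall_sdiff_eq_zero measurableSet_Ico hsub ?_).symm
  intro x hx
  apply hsupp
  intro k hk
  apply hx.2
  rw [Bk_union]
  exact ⟨hx.1, k, hk⟩

end unfold


/-! ### a.e. identities -/

theorem MData.psi_sq (d : MData P ψ p L G δ) : ∀ᵐ x, p (x / 2) = p x + ‖ψ x‖ ^ 2 :=
  d.gm.dens_half d.dens

theorem MData.psi_zero (d : MData P ψ p L G δ) : ∀ᵐ x, x ∈ L → x ∉ G → ψ x = 0 := by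
  filter_upwards [d.psi_sq] with x hx hL hG
  have h1 := d.one x hL hG
  have h2 := d.dens.le_one (x / 2)
  have h3 : ‖ψ x‖ ^ 2 ≤ 0 := by linarith
  have h4 : ‖ψ x‖ = 0 := by
    have := sq_nonneg ‖ψ x‖
    exact pow_eq_zero_iff (two_ne_zero) |>.1 (le_antisymm h3 this)
  exact norm_eq_zero.1 h4

/-- `|w₁|² |ψ|² = 1_G (1 - |α|²)` -/
theorem MData.w1_psi (d : MData P ψ p L G δ) :
    ∀ᵐ x, conj (w1 p G x * ψ x) * (w1 p G x * ψ x) =
      G.indicator (fun x => 1 - conj (al p G x) * al p G x) x := by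
  filter_upwards [d.psi_sq] with x hx
  by_cases hG : x ∈ G
  · rw [Set.indicator_of_mem hG, d.al_mem hG]
    unfold w1
    rw [Set.indicator_of_mem hG]
    have hp := d.half_pos (d.sub hG)
    have h0 := d.dens.nonneg x
    have e1 : conj ((((Real.sqrt (p (x / 2)))⁻¹ : ℝ) : ℂ) * ψ x) *
        ((((Real.sqrt (p (x / 2)))⁻¹ : ℝ) : ℂ) * ψ x) =
        (((Real.sqrt (p (x / 2)))⁻¹ ^ 2 * ‖ψ x‖ ^ 2 : ℝ) : ℂ) := by
      rw [← Complex.normSq_eq_conj_mul_self, Complex.normSq_mul, Complex.normSq_ofReal,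
        Complex.normSq_eq_norm_sq, pow_two (Real.sqrt (p (x / 2)))⁻¹]
    have e2 : conj ((Real.sqrt (p x / p (x / 2)) : ℝ) : ℂ) * ((Real.sqrt (p x / p (x / 2)) : ℝ) : ℂ) =
        ((p x / p (x / 2) : ℝ) : ℂ) := by
      rw [Complex.conj_ofReal, ← Complex.ofReal_mul, Real.mul_self_sqrt (div_nonneg h0 hp.le)]
    rw [e1, e2, inv_pow, Real.sq_sqrt hp.le]
    rw [← Complex.ofReal_one, ← Complex.ofReal_sub]
    congr 1
    rw [hx] at hp ⊢
    field_simp
    ring
  · rw [Set.indicator_of_notMem hG]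
    unfold w1
    rw [Set.indicator_of_notMem hG]
    simp

/-- the inner products of the modulations of `ψ~` -/
theorem MData.inner_psiT (d : MData P ψ p L G δ) {m : ℝ → ℂ} (hm : Per m) :
    ⟪psiT P ψ p L G, M m (psiT P ψ p L G)⟫_ℂ = ∫ x in Ico (0 : ℝ) 1, m x := by
  have hα := d.per_al
  have hPψ := d.gm.Ppsi
  have hP := d.gm.proj
  have hmα : Per (fun x => m x * al p G x) := ⟨hm.toBM.mul hα.toBM, fun x => by
    rw [hm.per, hα.per]⟩
  set a : H := M (al p G) ψ with ha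
  set b : H := uu P p L (M (w1 p G) ψ) with hb
  have hψT : psiT P ψ p L G = a - b := rfl
  have hPa : P a = 0 := by rw [ha, d.gm.comm _ hα, hPψ, map_zero]
  have hPb : P b = b := by rw [hb, d.P_uu]
  have hPMa : P (M m a) = 0 := by rw [d.gm.comm _ hm, hPa, map_zero]
  have hPMb : P (M m b) = M m b := by rw [d.gm.comm _ hm, hPb]
  have c1 : ⟪a, M m b⟫_ℂ = 0 := by
    rw [← hPMb, ← hP.symm, hPa, inner_zero_left]
  have c2 : ⟪b, M m a⟫_ℂ = 0 := by
    rw [← hPb, hP.symm, hPMa, inner_zero_right]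
  have c3 : ⟪a, M m a⟫_ℂ = ∫ x in Ico (0 : ℝ) 1, m x * (conj (al p G x) * al p G x) := by
    rw [ha, M_M hm.toBM hα.toBM, J_inner d.gm.orth hα hmα]
    refine integral_congr_ae (ae_of_all _ fun x => ?_)
    simp only
    ring
  set n : ℝ → ℂ := fun x => m x * (1 - conj (al p G x) * al p G x) with hn
  have hnPer : Per n := ⟨hm.toBM.mul ((BM.const 1).sub (hα.toBM.star.mul hα.toBM)), fun x => by
    simp only [hn, hm.per, hα.per]⟩
  have c4 : ⟪b, M m b⟫_ℂ = ∫ x in Ico (0 : ℝ) 1, n x := by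
    rw [← integral_inj d.measG d.inj hnPer]
    · rw [hb, ← d.uu_comm hm, d.uu_inner, d.us_uu, M_comm hm.toBM d.bm_w1, d.Q_w1, L2.inner_def,
        ← integral_indicator d.measG]
      refine integral_congr_ae ?_
      filter_upwards [d.w1_psi, M_ae d.bm_w1 ψ, M_ae d.bm_w1 (M m ψ), M_ae hm.toBM ψ]
        with x h1 h2 h3 h4
      rw [h2, h3, h4]
      simp only [RCLike.inner_apply]
      have e1 : w1 p G x * (m x * ψ x) * conj (w1 p G x * ψ x) =
          m x * (conj (w1 p G x * ψ x) * (w1 p G x * ψ x)) := by ring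
      rw [e1, h1]
      by_cases hx : x ∈ G
      · rw [Set.indicator_of_mem hx, Set.indicator_of_mem hx]
      · rw [Set.indicator_of_notMem hx, Set.indicator_of_notMem hx, mul_zero]
    · intro x hx
      simp only [hn]
      rw [d.al_one hx]
      simp
  rw [hψT, map_sub, inner_sub_left, inner_sub_right, inner_sub_right, c1, c2, c3, c4, hn]
  have hI : volume (Ico (0 : ℝ) 1) < ∞ := by simp
  have i1 : IntegrableOn (fun x => m x * (conj (al p G x) * al p G x)) (Ico (0 : ℝ) 1) :=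
    (hm.toBM.mul (hα.toBM.star.mul hα.toBM)).integrableOn hI
  have i2 : IntegrableOn n (Ico (0 : ℝ) 1) := hnPer.toBM.integrableOn hI
  rw [sub_zero, zero_sub, sub_neg_eq_add, ← integral_add i1 i2]
  refine integral_congr_ae (ae_of_all _ fun x => ?_)
  simp only [hn]
  ring


/-! ### the vector `D⁻¹ψ~` -/

theorem M_D {m : ℝ → ℂ} (hm : BM m) (f : H) : M m (D f) = D (M (fun x => m (2 * x)) f) := by
  have h := Dsymm_M hm (D f)
  rw [LinearIsometryEquiv.symm_apply_apply] at h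
  rw [← h, LinearIsometryEquiv.apply_symm_apply]

theorem Per.two {m : ℝ → ℂ} (hm : Per m) : Per (fun x => m (2 * x)) where
  meas := (hm.toBM.comp_mul 2).meas
  bdd := (hm.toBM.comp_mul 2).bdd
  per x := by
    have h1 := hm.add_int (2 * x) 2
    push_cast at h1
    rw [← h1]
    congr 1
    ring

theorem inner_D (f g : H) : ⟪D f, D g⟫_ℂ = ⟪f, g⟫_ℂ := LinearIsometryEquiv.inner_map_map D f g

theorem inner_Dsymm (f g : H) : ⟪D.symm f, D.symm g⟫_ℂ = ⟪f, g⟫_ℂ :=
  LinearIsometryEquiv.inner_map_map D.symm f g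

theorem inner_D_left (f g : H) : ⟪D f, g⟫_ℂ = ⟪f, D.symm g⟫_ℂ := by
  rw [← inner_Dsymm, LinearIsometryEquiv.symm_apply_apply]

theorem inner_Dsymm_left (f g : H) : ⟪D.symm f, g⟫_ℂ = ⟪f, D g⟫_ℂ := by
  rw [← inner_D, LinearIsometryEquiv.apply_symm_apply]

theorem MData.P_psiT (d : MData P ψ p L G δ) :
    P (D.symm (psiT P ψ p L G)) = D.symm (psiT P ψ p L G) := by
  unfold psiT
  rw [map_sub, map_sub]
  congr 1
  · rw [Dsymm_M d.per_al.toBM, d.gm.comm _ d.per_al.two, d.gm.P_Dsymm_psi]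
  · have h1 := d.gm.P_Dsymm (uu P p L (M (w1 p G) ψ))
    rwa [d.P_uu] at h1

theorem MData.inner_phi (d : MData P ψ p L G δ) (f g : H) :
    ⟪Phi P p L f, Phi P p L g⟫_ℂ = ⟪P f, g⟫_ℂ := by
  rw [← ContinuousLinearMap.adjoint_inner_left, d.adj_phi]

theorem MData.M_psiN (d : MData P ψ p L G δ) {m : ℝ → ℂ} (hm : Per m) :
    M m (psiN P ψ p L G) = D (Phi P p L (D.symm (M m (psiT P ψ p L G)))) := by
  unfold psiN
  rw [M_D hm.toBM, ← d.phi_pcomm _ hm.two, Dsymm_M hm.toBM]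

theorem MData.inner_psiN (d : MData P ψ p L G δ) {m : ℝ → ℂ} (hm : Per m) :
    ⟪psiN P ψ p L G, M m (psiN P ψ p L G)⟫_ℂ = ∫ x in Ico (0 : ℝ) 1, m x := by
  rw [d.M_psiN hm]
  unfold psiN
  rw [inner_D, d.inner_phi, d.P_psiT, inner_Dsymm, d.inner_psiT hm]

theorem MData.orth_psiN (d : MData P ψ p L G δ) :
    Orthonormal ℂ (fun k : ℤ => T k (psiN P ψ p L G)) := by
  apply orth_of_inner
  intro k
  have h1 : ⟪psiN P ψ p L G, T k (psiN P ψ p L G)⟫_ℂ = _ := d.inner_psiN (Per.exp k)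
  rw [h1]
  have hone : Per (fun _ => (1 : ℂ)) := ⟨BM.const 1, fun _ => rfl⟩
  have h2 := J_inner d.gm.orth hone (Per.exp k)
  simp only [map_one, one_mul] at h2
  rw [← h2, M_one]
  have h3 := (orthonormal_iff_ite.1 d.gm.orth) 0 k
  simp only [T_zero] at h3
  refine Eq.trans h3 ?_
  by_cases hk : k = 0
  · rw [if_pos hk, if_pos hk.symm]
  · rw [if_neg hk, if_neg (Ne.symm hk)]

/-! ### orthogonality -/

theorem MData.psiT_N (d : MData P ψ p L G δ) (f : H) : ⟪psiT P ψ p L G, Nn P p L f⟫_ℂ = 0 := by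
  unfold psiT
  rw [inner_sub_left]
  have h1 : ⟪M (al p G) ψ, Nn P p L f⟫_ℂ = 0 := by
    rw [← d.P_N, ← d.gm.proj.symm, d.gm.comm _ d.per_al, d.gm.Ppsi, map_zero, inner_zero_left]
  have h2 : ⟪uu P p L (M (w1 p G) ψ), Nn P p L f⟫_ℂ = 0 := by
    rw [← d.N_proj.symm, d.N_uu, inner_zero_left]
  rw [h1, h2, sub_zero]

theorem MData.bm_wt2 (d : MData P ψ p L G δ) : BM (fun x => wt p L (x / 2)) :=
  d.bm_wt.comp_div 2

theorem MData.bm_p (d : MData P ψ p L G δ) : BM (fun x => (p x : ℂ)) where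
  meas := Complex.measurable_ofReal.comp d.dens.meas
  bdd := ⟨1, fun x => by
    rw [Complex.norm_real, Real.norm_eq_abs, abs_of_nonneg (d.dens.nonneg x)]
    exact d.dens.le_one x⟩

theorem MData.psiT_us (d : MData P ψ p L G δ) (v : H) (hv : Q L v = v) :
    ⟪psiT P ψ p L G, D (uu P p L (D.symm v))⟫_ℂ = 0 := by
  have hQL : BM (ind L) := BM.ind d.measL
  have h1 : ⟪psiT P ψ p L G, D (uu P p L (D.symm v))⟫_ℂ =
      ⟪psiT P ψ p L G, M (fun x => wt p L (x / 2)) v⟫_ℂ := by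
    rw [← inner_Dsymm_left]
    change ⟪D.symm (psiT P ψ p L G), P (M (wt p L) (D.symm v))⟫_ℂ = _
    rw [← d.gm.proj.symm, d.P_psiT, inner_Dsymm_left, D_M d.bm_wt,
      LinearIsometryEquiv.apply_symm_apply]
  rw [h1]
  set g : H := M (fun x => wt p L (x / 2)) v with hg
  have hQg : Q L g = g := by
    rw [hg]
    unfold Q at hv ⊢
    rw [M_comm hQL d.bm_wt2, hv]
  have h2 : ⟪uu P p L (M (w1 p G) ψ), g⟫_ℂ =
      ⟪M (w1 p G) ψ, M (wt p L) (M (fun x => (p x : ℂ)) g)⟫_ℂ := by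
    rw [d.uu_inner]
    have h3 : ⟪M (w1 p G) ψ, us P p L g⟫_ℂ = ⟪Q L (M (w1 p G) ψ), us P p L g⟫_ℂ := by
      rw [d.Q_w1]
    rw [h3, (proj_Q d.measL).symm]
    congr 1
    change Q L (M (wt p L) (P g)) = _
    have h4 : Q L (M (wt p L) (P g)) = M (wt p L) (Q L (P g)) := M_comm hQL d.bm_wt _
    rw [h4]
    have h5 := d.QPQ g
    rw [hQg] at h5
    rw [h5]
  unfold psiT
  rw [inner_sub_left, h2, sub_eq_zero, L2.inner_def, L2.inner_def]
  refine integral_congr_ae ?_
  have hg0 := (Q_eq_self_iff d.measL g).1 hQg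
  filter_upwards [M_ae d.per_al.toBM ψ, M_ae d.bm_w1 ψ, M_ae d.bm_wt (M (fun x => (p x : ℂ)) g),
    M_ae d.bm_p g, hg0, d.psi_zero] with x e1 e2 e3 e4 e5 e6
  rw [e1, e2, e3, e4]
  simp only [RCLike.inner_apply, map_mul]
  by_cases hL : x ∈ L
  · by_cases hG : x ∈ G
    · rw [d.al_mem hG]
      unfold w1 wt
      rw [Set.indicator_of_mem hG, Set.indicator_of_mem hL, Complex.conj_ofReal, Complex.conj_ofReal]
      have hp := d.p_pos hL
      have hp2 := d.half_pos hL
      have e7 : Real.sqrt (p x / p (x / 2)) = (Real.sqrt (p (x / 2)))⁻¹ * ((Real.sqrt (p x))⁻¹ * p x) := by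
        rw [Real.sqrt_div hp.le]
        have h8 : Real.sqrt (p x) ≠ 0 := (Real.sqrt_pos.2 hp).ne'
        have h9 : Real.sqrt (p (x / 2)) ≠ 0 := (Real.sqrt_pos.2 hp2).ne'
        have h10 : p x = Real.sqrt (p x) * Real.sqrt (p x) := (Real.mul_self_sqrt hp.le).symm
        field_simp
        rw [pow_two, ← h10]
      rw [e7]
      push_cast
      ring
    · rw [e6 hL hG]
      simp
  · rw [e5 hL]
    simp

theorem MData.adj_psiN (d : MData P ψ p L G δ) :
    ContinuousLinearMap.adjoint (Phi P p L) (psiN P ψ p L G) = 0 := by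
  apply ext_inner_right ℂ
  intro f
  rw [ContinuousLinearMap.adjoint_inner_left, inner_zero_left]
  unfold psiN
  rw [inner_D_left, d.intertwine, inner_add_right, d.inner_phi, d.inner_phi, d.P_psiT,
    inner_Dsymm, d.psiT_N, zero_add, inner_Dsymm_left]
  exact d.psiT_us _ (d.Q_us f)

/-! ### the projection `P'` -/

theorem MData.adj_P (d : MData P ψ p L G δ) (f : H) :
    P (ContinuousLinearMap.adjoint (Phi P p L) f) = ContinuousLinearMap.adjoint (Phi P p L) f := by
  apply ext_inner_right ℂ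
  intro g
  rw [d.gm.proj.symm, ContinuousLinearMap.adjoint_inner_left, ContinuousLinearMap.adjoint_inner_left,
    d.phi_P]

theorem PN_apply (P : H →L[ℂ] H) (p : ℝ → ℝ) (L : Set ℝ) (f : H) :
    PN P p L f = Phi P p L (ContinuousLinearMap.adjoint (Phi P p L) f) := rfl

theorem MData.PN_phi (d : MData P ψ p L G δ) (f : H) : PN P p L (Phi P p L f) = Phi P p L f := by
  rw [PN_apply, d.adj_phi, d.phi_P]

theorem MData.PN_proj (d : MData P ψ p L G δ) : Proj (PN P p L) where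
  idem f := by
    rw [PN_apply P p L f, d.PN_phi]
  symm f g := by
    rw [PN_apply, PN_apply, ← ContinuousLinearMap.adjoint_inner_right,
      ContinuousLinearMap.adjoint_inner_left]

theorem MData.adj_comm (d : MData P ψ p L G δ) : PComm (ContinuousLinearMap.adjoint (Phi P p L)) := by
  intro m hm f
  apply ext_inner_right ℂ
  intro g
  have hs : Per (fun x => conj (m x)) := ⟨hm.toBM.star, fun x => by rw [hm.per]⟩
  rw [ContinuousLinearMap.adjoint_inner_left, inner_M_left hm.toBM, inner_M_left hm.toBM,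
    ContinuousLinearMap.adjoint_inner_left, d.phi_pcomm _ hs]

theorem MData.PN_comm (d : MData P ψ p L G δ) : PComm (PN P p L) := by
  intro m hm f
  rw [PN_apply, PN_apply, d.adj_comm _ hm, d.phi_pcomm _ hm]

theorem MData.PN_Q (d : MData P ψ p L G δ) (f : H) : PN P p L (Q L f) = Q L f := by
  rw [← d.phi_uu, d.PN_phi]

theorem MData.PN_norm (d : MData P ψ p L G δ) (f : H) :
    ‖PN P p L f‖ = ‖ContinuousLinearMap.adjoint (Phi P p L) f‖ := by
  rw [PN_apply, d.phi_norm, d.adj_P]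

theorem MData.PN_trace (d : MData P ψ p L G δ) : TR (PN P p L) 1 := by
  have h1 : TR (Phi P p L) 1 := by
    have := d.gm.trace
    unfold TR
    simpa only [d.phi_norm] using this
  have h2 := tr_adjoint (F := Phi P p L) (fun k f => d.phi_pcomm.comm_T k f) h1
  unfold TR at h2 ⊢
  simpa only [d.PN_norm] using h2

theorem MData.PN_Dsymm (d : MData P ψ p L G δ) (f : H) :
    PN P p L (D.symm (PN P p L f)) = D.symm (PN P p L f) := by
  rw [PN_apply P p L f, d.intertwine, map_add, d.PN_phi, d.PN_phi]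

theorem MData.twoscaleN (d : MData P ψ p L G δ) (f : H) :
    D (PN P p L (D.symm f)) = PN P p L f + PW (psiN P ψ p L G) f := by
  have hP := d.PN_proj
  have hc := d.PN_comm
  have hD := proj_cD hP
  have hDc := pcomm_cD hc
  have hle : ∀ f, cD (PN P p L) (PN P p L f) = PN P p L f := by
    intro f
    rw [cD_apply, d.PN_Dsymm, LinearIsometryEquiv.apply_symm_apply]
  have hR := hD.sub hP hle
  have hRc := hDc.sub hc
  have ht := tr_sub hD hP hle (tr_cD hP hc d.PN_trace) d.PN_trace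
  have ht' : TR (cD (PN P p L) - PN P p L) 1 := by
    have e : (2 : ℝ) * 1 - 1 = 1 := by norm_num
    rwa [e] at ht
  have hψ : (cD (PN P p L) - PN P p L) (psiN P ψ p L G) = psiN P ψ p L G := by
    rw [_root_.sub_apply, PN_apply, d.adj_psiN, map_zero, sub_zero, cD_apply]
    unfold psiN
    rw [LinearIsometryEquiv.symm_apply_apply, d.PN_phi]
  have h := PW_eq_of_tr d.orth_psiN hR hRc hψ ht' f
  rw [_root_.sub_apply, cD_apply] at h
  rw [← h]
  abel

theorem Dpow_norm (n : ℕ) (f : H) : ‖(D ^ n) f‖ = ‖f‖ := LinearIsometryEquiv.norm_map (D ^ n) f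

theorem MData.denseN (d : MData P ψ p L G δ) (f : H) :
    Tendsto (fun n : ℕ => (D ^ n) (PN P p L ((D ^ n).symm f))) atTop (𝓝 f) := by
  set A : ℕ → Set ℝ := fun n => (fun x => x / 2 ^ n) ⁻¹' L with hA
  have hAm : ∀ n, MeasurableSet (A n) := fun n => (measurable_id.div_const _) d.measL
  have hmono : Monotone A := by
    apply monotone_nat_of_le_succ
    intro n x hx
    have := d.half _ hx
    change x / 2 ^ (n + 1) ∈ L
    rw [pow_succ, ← div_div]
    exact this
  have hlim := Q_tendsto_of_absorb hAm hmono d.absb f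
  have hQn : ∀ n, (D ^ n) (PN P p L ((D ^ n).symm (Q (A n) f))) = Q (A n) f := by
    intro n
    have h1 : Q (A n) f = (D ^ n) (Q L ((D ^ n).symm f)) := by
      rw [Dpow_Q n d.measL, LinearIsometryEquiv.apply_symm_apply]
    rw [h1, LinearIsometryEquiv.symm_apply_apply, d.PN_Q]
  rw [tendsto_iff_norm_sub_tendsto_zero] at hlim ⊢
  have hb : ∀ n, ‖(D ^ n) (PN P p L ((D ^ n).symm f)) - f‖ ≤ 2 * ‖Q (A n) f - f‖ := by
    intro n
    have h1 : (D ^ n) (PN P p L ((D ^ n).symm f)) - f =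
        (Q (A n) f - f) - (D ^ n) (PN P p L ((D ^ n).symm (Q (A n) f - f))) := by
      rw [map_sub (D ^ n).symm, map_sub (PN P p L), map_sub (D ^ n), hQn]
      abel
    rw [h1]
    refine (norm_sub_le _ _).trans ?_
    rw [Dpow_norm]
    have h2 := d.PN_proj.norm_le ((D ^ n).symm (Q (A n) f - f))
    have h3 : ‖(D ^ n).symm (Q (A n) f - f)‖ = ‖Q (A n) f - f‖ := LinearIsometryEquiv.norm_map _ _
    linarith
  refine squeeze_zero (fun n => norm_nonneg _) hb ?_
  have := hlim.const_mul 2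
  rwa [mul_zero] at this

/-- THM 3 -/
theorem MData.isGM (d : MData P ψ p L G δ) : IsGM (PN P p L) (psiN P ψ p L G) where
  proj := d.PN_proj
  comm := d.PN_comm
  orth := d.orth_psiN
  twoscale := d.twoscaleN
  trace := d.PN_trace
  dense := d.denseN

/-- off `G + ℤ` the new wavelet is `D Φ D⁻¹` of the old one -/
theorem MData.psiN_off (d : MData P ψ p L G δ) {χ : ℝ → ℂ} (hχ : Per χ) (h0 : ∀ x ∈ G, χ x = 0) :
    M χ (psiN P ψ p L G) = D (Phi P p L (D.symm (M χ ψ))) := by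
  rw [d.M_psiN hχ, d.psiT_off hχ h0]

end Pool.Agent.Wav
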