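import Pool.Agent.Lib.MP_0a5c67_an.C2

/-! Task C3: continuity of the new wavelet in the data of the move. -/

set_option autoImplicit false

open MeasureTheory Filter Topology Set
open scoped ENNReal InnerProductSpace ComplexConjugate

noncomputable section

namespace Pool.Agent.Wav

variable {P : H →L[ℂ] H} {ψ : H} {p : ℝ → ℝ} {δ : ℝ}

namespace C3

/-- uniformly bounded and strongly convergent families of operators -/
structure Str {ι : Type*} (l : Filter ι) (A : ι → H →L[ℂ] H) (A0 : H →L[ℂ] H) : Prop where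
  bdd : ∃ C : ℝ, 0 ≤ C ∧ ∀ i f, ‖A i f‖ ≤ C * ‖f‖
  lim : ∀ f, Tendsto (fun i => A i f) l (𝓝 (A0 f))

section Str

variable {ι : Type*} {l : Filter ι} {A B : ι → H →L[ℂ] H} {A0 B0 : H →L[ℂ] H}

lemma Str.app (h : Str l A A0) {v : ι → H} {v0 : H} (hv : Tendsto v l (𝓝 v0)) :
    Tendsto (fun i => A i (v i)) l (𝓝 (A0 v0)) := by
  obtain ⟨C, _, hC⟩ := h.bdd
  have h1 : Tendsto (fun i => A i (v i - v0)) l (𝓝 0) := by
    rw [tendsto_zero_iff_norm_tendsto_zero]
    have h2 : Tendsto (fun i => C * ‖v i - v0‖) l (𝓝 0) := by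
      have := (tendsto_iff_norm_sub_tendsto_zero.1 hv).const_mul C
      simpa using this
    exact squeeze_zero (fun _ => norm_nonneg _) (fun i => hC i _) h2
  have h3 := h1.add (h.lim v0)
  rw [zero_add] at h3
  refine h3.congr (fun i => ?_)
  rw [← map_add, sub_add_cancel]

lemma Str.comp (hA : Str l A A0) (hB : Str l B B0) : Str l (fun i => A i ∘L B i) (A0 ∘L B0) := by
  obtain ⟨C, hC0, hC⟩ := hA.bdd
  obtain ⟨C', hC0', hC'⟩ := hB.bdd
  refine ⟨⟨C * C', mul_nonneg hC0 hC0', fun i f => ?_⟩, fun f => ?_⟩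
  · refine (hC i _).trans ?_
    rw [mul_assoc]
    exact mul_le_mul_of_nonneg_left (hC' i f) hC0
  · exact hA.app (hB.lim f)

lemma Str.const (A : H →L[ℂ] H) : Str l (fun _ => A) A :=
  ⟨⟨‖A‖, norm_nonneg _, fun _ f => A.le_opNorm f⟩, fun _ => tendsto_const_nhds⟩

lemma Str.sub (hA : Str l A A0) (hB : Str l B B0) : Str l (fun i => A i - B i) (A0 - B0) := by
  obtain ⟨C, hC0, hC⟩ := hA.bdd
  obtain ⟨C', hC0', hC'⟩ := hB.bdd
  refine ⟨⟨C + C', add_nonneg hC0 hC0', fun i f => ?_⟩, fun f => ?_⟩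
  · refine (norm_sub_le _ _).trans ?_
    rw [add_mul]
    exact add_le_add (hC i f) (hC' i f)
  · exact (hA.lim f).sub (hB.lim f)

lemma Str.pow (hA : Str l A A0) (n : ℕ) : Str l (fun i => (A i) ^ n) (A0 ^ n) := by
  induction n with
  | zero => simpa using Str.const (l := l) (1 : H →L[ℂ] H)
  | succ n ih =>
    have := ih.comp hA
    simp_rw [pow_succ]
    exact this

end Str

lemma wt_bound {L G : Set ℝ} (d : MData P ψ p L G δ) (x : ℝ) : ‖wt p L x‖ ≤ (Real.sqrt δ)⁻¹ := by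
  unfold wt
  by_cases hx : x ∈ L
  · rw [indicator_of_mem hx, Complex.norm_real, Real.norm_eq_abs,
      abs_of_nonneg (inv_nonneg.2 (Real.sqrt_nonneg _))]
    exact inv_anti₀ (Real.sqrt_pos.2 d.pos) (Real.sqrt_le_sqrt (d.lower x hx))
  · rw [indicator_of_notMem hx, norm_zero]
    exact inv_nonneg.2 (Real.sqrt_nonneg _)

lemma w1_bound {L G : Set ℝ} (d : MData P ψ p L G δ) (x : ℝ) : ‖w1 p G x‖ ≤ (Real.sqrt δ)⁻¹ := by
  unfold w1
  by_cases hx : x ∈ G
  · rw [indicator_of_mem hx, Complex.norm_real, Real.norm_eq_abs,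
      abs_of_nonneg (inv_nonneg.2 (Real.sqrt_nonneg _))]
    exact inv_anti₀ (Real.sqrt_pos.2 d.pos)
      (Real.sqrt_le_sqrt (d.lower _ (d.half x (d.sub hx))))
  · rw [indicator_of_notMem hx, norm_zero]
    exact inv_nonneg.2 (Real.sqrt_nonneg _)

section cont

variable {ι : Type*} {l : Filter ι} [l.IsCountablyGenerated] {L G : ι → Set ℝ} {L0 G0 : Set ℝ}

lemma str_wt (d : ∀ i, MData P ψ p (L i) (G i) δ) (d0 : MData P ψ p L0 G0 δ)
    (hL : ∀ᵐ x, ∀ᶠ i in l, (x ∈ L i ↔ x ∈ L0)) :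
    Str l (fun i => M (wt p (L i))) (M (wt p L0)) := by
  refine ⟨⟨(Real.sqrt δ)⁻¹, inv_nonneg.2 (Real.sqrt_nonneg _), fun i f =>
    norm_M_le (d i).bm_wt (wt_bound (d i)) f⟩, fun f => ?_⟩
  refine M_tendsto (fun i => (d i).bm_wt) d0.bm_wt (fun i x => wt_bound (d i) x) ?_ f
  filter_upwards [hL] with x hx
  refine Tendsto.congr' (f₁ := fun _ => wt p L0 x) ?_ tendsto_const_nhds
  filter_upwards [hx] with i hi
  unfold wt
  by_cases h : x ∈ L0
  · rw [indicator_of_mem h, indicator_of_mem (hi.2 h)]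
  · rw [indicator_of_notMem h, indicator_of_notMem (fun h' => h (hi.1 h'))]

lemma str_uu (d : ∀ i, MData P ψ p (L i) (G i) δ) (d0 : MData P ψ p L0 G0 δ)
    (hL : ∀ᵐ x, ∀ᶠ i in l, (x ∈ L i ↔ x ∈ L0)) :
    Str l (fun i => uu P p (L i)) (uu P p L0) :=
  (Str.const P).comp (str_wt d d0 hL)

lemma str_us (d : ∀ i, MData P ψ p (L i) (G i) δ) (d0 : MData P ψ p L0 G0 δ)
    (hL : ∀ᵐ x, ∀ᶠ i in l, (x ∈ L i ↔ x ∈ L0)) :
    Str l (fun i => us P p (L i)) (us P p L0) :=
  (str_wt d d0 hL).comp (Str.const P)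

lemma str_Nn (d : ∀ i, MData P ψ p (L i) (G i) δ) (d0 : MData P ψ p L0 G0 δ)
    (hL : ∀ᵐ x, ∀ᶠ i in l, (x ∈ L i ↔ x ∈ L0)) :
    Str l (fun i => Nn P p (L i)) (Nn P p L0) :=
  (Str.const P).sub ((str_uu d d0 hL).comp (str_us d d0 hL))

lemma str_DN (d : ∀ i, MData P ψ p (L i) (G i) δ) (d0 : MData P ψ p L0 G0 δ)
    (hL : ∀ᵐ x, ∀ᶠ i in l, (x ∈ L i ↔ x ∈ L0)) :
    Str l (fun i => DN P p (L i)) (DN P p L0) :=
  (Str.const _).comp (str_Nn d d0 hL)

lemma str_Cn (d : ∀ i, MData P ψ p (L i) (G i) δ) (d0 : MData P ψ p L0 G0 δ)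
    (hL : ∀ᵐ x, ∀ᶠ i in l, (x ∈ L i ↔ x ∈ L0)) (n : ℕ) :
    Str l (fun i => Cn P p (L i) n) (Cn P p L0 n) :=
  (Str.const _).comp ((str_us d d0 hL).comp ((str_DN d d0 hL).pow n))

lemma str_Phi (d : ∀ i, MData P ψ p (L i) (G i) δ) (d0 : MData P ψ p L0 G0 δ)
    (hL : ∀ᵐ x, ∀ᶠ i in l, (x ∈ L i ↔ x ∈ L0)) :
    Str l (fun i => Phi P p (L i)) (Phi P p L0) := by
  refine ⟨⟨1, zero_le_one, fun i f => ?_⟩, fun f => ?_⟩
  · rw [(d i).phi_norm, one_mul]
    exact d0.gm.proj.norm_le f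
  · rw [Metric.tendsto_nhds]
    intro ε hε
    have h1 := (d0.phi_hasSum f).tendsto_sum_nat
    rw [Metric.tendsto_atTop] at h1
    obtain ⟨m, hm⟩ := h1 (ε / 4) (by positivity)
    have hm := hm m le_rfl
    rw [dist_comm, dist_eq_norm] at hm
    have hS : Tendsto (fun i => ∑ n ∈ Finset.range m, Cn P p (L i) n f) l
        (𝓝 (∑ n ∈ Finset.range m, Cn P p L0 n f)) :=
      tendsto_finsetSum _ (fun n _ => (str_Cn d d0 hL n).lim f)
    have hT : Tendsto (fun i => ‖Phi P p (L i) f - ∑ n ∈ Finset.range m, Cn P p (L i) n f‖ ^ 2) l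
        (𝓝 (‖Phi P p L0 f - ∑ n ∈ Finset.range m, Cn P p L0 n f‖ ^ 2)) := by
      rw [d0.phi_tail f m]
      simp_rw [fun i => (d i).phi_tail f m]
      exact tendsto_const_nhds.sub (hS.norm.pow 2)
    have hlt : ‖Phi P p L0 f - ∑ n ∈ Finset.range m, Cn P p L0 n f‖ ^ 2 < (ε / 4) ^ 2 :=
      pow_lt_pow_left₀ hm (norm_nonneg _) two_ne_zero
    have h2 := hT.eventually_lt_const hlt
    have h3 := (Metric.tendsto_nhds.1 hS) (ε / 4) (by positivity)
    filter_upwards [h2, h3] with i hi2 hi3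
    have hi2' : ‖Phi P p (L i) f - ∑ n ∈ Finset.range m, Cn P p (L i) n f‖ < ε / 4 :=
      lt_of_pow_lt_pow_left₀ 2 (by positivity) hi2
    rw [dist_eq_norm] at hi3 ⊢
    have e : Phi P p (L i) f - Phi P p L0 f
        = (Phi P p (L i) f - ∑ n ∈ Finset.range m, Cn P p (L i) n f)
          + ((∑ n ∈ Finset.range m, Cn P p (L i) n f) - ∑ n ∈ Finset.range m, Cn P p L0 n f)
          - (Phi P p L0 f - ∑ n ∈ Finset.range m, Cn P p L0 n f) := by abel
    rw [e]
    refine (norm_sub_le _ _).trans_lt ?_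
    have := norm_add_le (Phi P p (L i) f - ∑ n ∈ Finset.range m, Cn P p (L i) n f)
      ((∑ n ∈ Finset.range m, Cn P p (L i) n f) - ∑ n ∈ Finset.range m, Cn P p L0 n f)
    linarith

lemma tendsto_al (d : ∀ i, MData P ψ p (L i) (G i) δ) (d0 : MData P ψ p L0 G0 δ)
    (hG : ∀ᵐ x : ℝ, ∀ᶠ i in l, ∀ k : ℤ, (x + k ∈ G i ↔ x + k ∈ G0)) :
    Tendsto (fun i => M (al p (G i)) ψ) l (𝓝 (M (al p G0) ψ)) := by
  refine M_tendsto (fun i => (d i).per_al.toBM) d0.per_al.toBM (fun i x => (d i).al_bound x) ?_ ψ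
  filter_upwards [hG] with x hx
  refine Tendsto.congr' (f₁ := fun _ => al p G0 x) ?_ tendsto_const_nhds
  filter_upwards [hx] with i hi
  unfold al
  congr 5
  funext k
  by_cases h : x + k ∈ G0
  · rw [indicator_of_mem h, indicator_of_mem ((hi k).2 h)]
  · rw [indicator_of_notMem h, indicator_of_notMem (fun h' => h ((hi k).1 h'))]

lemma tendsto_w1 (d : ∀ i, MData P ψ p (L i) (G i) δ) (d0 : MData P ψ p L0 G0 δ)
    (hG : ∀ᵐ x : ℝ, ∀ᶠ i in l, ∀ k : ℤ, (x + k ∈ G i ↔ x + k ∈ G0)) :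
    Tendsto (fun i => M (w1 p (G i)) ψ) l (𝓝 (M (w1 p G0) ψ)) := by
  refine M_tendsto (fun i => (d i).bm_w1) d0.bm_w1 (fun i x => w1_bound (d i) x) ?_ ψ
  filter_upwards [hG] with x hx
  refine Tendsto.congr' (f₁ := fun _ => w1 p G0 x) ?_ tendsto_const_nhds
  filter_upwards [hx] with i hi
  have hi0 := hi 0
  rw [Int.cast_zero, add_zero] at hi0
  unfold w1
  by_cases h : x ∈ G0
  · rw [indicator_of_mem h, indicator_of_mem (hi0.2 h)]
  · rw [indicator_of_notMem h, indicator_of_notMem (fun h' => h (hi0.1 h'))]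

lemma core_cont (d : ∀ i, MData P ψ p (L i) (G i) δ) (d0 : MData P ψ p L0 G0 δ)
    (hL : ∀ᵐ x, ∀ᶠ i in l, (x ∈ L i ↔ x ∈ L0))
    (hG : ∀ᵐ x : ℝ, ∀ᶠ i in l, ∀ k : ℤ, (x + k ∈ G i ↔ x + k ∈ G0)) :
    Tendsto (fun i => psiN P ψ p (L i) (G i)) l (𝓝 (psiN P ψ p L0 G0)) := by
  have h1 : Tendsto (fun i => psiT P ψ p (L i) (G i)) l (𝓝 (psiT P ψ p L0 G0)) :=
    (tendsto_al d d0 hG).sub ((str_uu d d0 hL).app (tendsto_w1 d d0 hG))
  exact (D.continuous.tendsto _).comp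
    ((str_Phi d d0 hL).app ((D.symm.continuous.tendsto _).comp h1))

end cont

/-- Borel-Cantelli for periodised sets -/
lemma ae_eventually_per {A : ℕ → Set ℝ} (hA : ∀ n, MeasurableSet (A n))
    (hsum : ∑' n, volume (A n) ≠ ∞) :
    ∀ᵐ x : ℝ, ∀ᶠ n in atTop, ∀ k : ℤ, x + k ∉ A n := by
  have hmeas : ∀ (j : ℤ) (n : ℕ),
      (volume.restrict (Ico (j : ℝ) (j + 1))) {x | ∃ k : ℤ, x + k ∈ A n} ≤ volume (A n) := by
    intro j n
    have h1 : {x : ℝ | ∃ k : ℤ, x + k ∈ A n} = ⋃ k : ℤ, (fun x : ℝ => x + k) ⁻¹' (A n) := by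
      ext x
      simp
    rw [h1]
    refine (measure_iUnion_le _).trans ?_
    have h2 : ∀ k : ℤ, (volume.restrict (Ico (j : ℝ) (j + 1))) ((fun x : ℝ => x + k) ⁻¹' (A n))
        = volume (A n ∩ Ico ((j + k : ℤ) : ℝ) ((j + k : ℤ) + 1)) := by
      intro k
      rw [Measure.restrict_apply ((hA n).preimage (measurable_add_const (k : ℝ)))]
      rw [← measure_preimage_add_right volume (k : ℝ) (A n ∩ Ico ((j + k : ℤ) : ℝ) ((j + k : ℤ) + 1))]
      congr 1
      ext x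
      simp only [mem_inter_iff, mem_preimage, mem_Ico, Int.cast_add]
      constructor
      · rintro ⟨a, b, c⟩
        exact ⟨a, by linarith, by linarith⟩
      · rintro ⟨a, b, c⟩
        exact ⟨a, by linarith, by linarith⟩
    simp_rw [h2]
    have h3 := (Equiv.addLeft j).tsum_eq (fun k : ℤ => volume (A n ∩ Ico (k : ℝ) (k + 1)))
    simp only [Equiv.coe_addLeft] at h3
    rw [h3]
    rw [← measure_iUnion]
    · rw [← inter_iUnion, iUnion_Ico_intCast, inter_univ]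
    · intro a b hab
      exact ((pairwise_disjoint_Ico_intCast ℝ) hab).mono inter_subset_right inter_subset_right
    · intro k
      exact (hA n).inter measurableSet_Ico
  have hj : ∀ j : ℤ, ∀ᵐ x, x ∈ Ico (j : ℝ) (j + 1) →
      ∀ᶠ n in atTop, x ∉ {x : ℝ | ∃ k : ℤ, x + k ∈ A n} := by
    intro j
    rw [← ae_restrict_iff' measurableSet_Ico]
    apply ae_eventually_notMem
    exact ne_top_of_le_ne_top hsum (ENNReal.tsum_le_tsum (hmeas j))
  have hj' := ae_all_iff.2 hj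
  filter_upwards [hj'] with x hx
  have := hx ⌊x⌋ ⟨Int.floor_le x, Int.lt_floor_add_one x⟩
  filter_upwards [this] with n hn k hk
  exact hn ⟨k, hk⟩

/-- extraction of a fast subsequence -/
lemma exists_fast {ι : Type*} {l : Filter ι} {a : ι → ℝ≥0∞} (ha : Tendsto a l (𝓝 0)) (ns : ℕ → ι)
    (hns : Tendsto ns atTop l) :
    ∃ ms : ℕ → ℕ, Tendsto ms atTop atTop ∧ ∑' n, a (ns (ms n)) ≠ ∞ := by
  have h1 : Tendsto (fun n => a (ns n)) atTop (𝓝 0) := ha.comp hns
  have h2 : ∀ n : ℕ, ∃ m ≥ n, a (ns m) ≤ (1 / 2 : ℝ≥0∞) ^ n := by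
    intro n
    have h3 : ∀ᶠ m in atTop, a (ns m) < (1 / 2 : ℝ≥0∞) ^ n :=
      h1.eventually_lt_const (by
        apply ENNReal.pow_pos
        norm_num)
    obtain ⟨m, hm1, hm2⟩ := (h3.and (eventually_ge_atTop n)).exists
    exact ⟨m, hm2, hm1.le⟩
  choose ms hms1 hms2 using h2
  refine ⟨ms, tendsto_atTop_mono hms1 tendsto_id, ?_⟩
  refine ne_top_of_le_ne_top ?_ (ENNReal.tsum_le_tsum hms2)
  rw [ENNReal.tsum_geometric]
  norm_num

end C3

open C3

/-- CONT -/
theorem cont_move {ι : Type*} {l : Filter ι} [l.IsCountablyGenerated] {L G : ι → Set ℝ}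
    {L0 G0 : Set ℝ} (d : ∀ i, MData P ψ p (L i) (G i) δ) (d0 : MData P ψ p L0 G0 δ)
    (hLG : ∀ i, symmDiff (L i) L0 ⊆ symmDiff (G i) G0)
    (hlim : Tendsto (fun i => volume (symmDiff (G i) G0)) l (𝓝 0)) :
    Tendsto (fun i => psiN P ψ p (L i) (G i)) l (𝓝 (psiN P ψ p L0 G0)) := by
  apply tendsto_of_subseq_tendsto
  intro ns hns
  obtain ⟨ms, -, hsum⟩ := exists_fast hlim ns hns
  refine ⟨ms, ?_⟩
  have h1 := ae_eventually_per (A := fun n => symmDiff (G (ns (ms n))) G0)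
    (fun n => (d _).measG.symmDiff d0.measG) hsum
  have key : ∀ {S S0 : Set ℝ} {x : ℝ}, x ∉ symmDiff S S0 → (x ∈ S ↔ x ∈ S0) := by
    intro S S0 x hx
    rw [mem_symmDiff] at hx
    tauto
  refine core_cont (fun n => d (ns (ms n))) d0 ?_ ?_
  · filter_upwards [h1] with x hx
    filter_upwards [hx] with n hn
    have h0 := hn 0
    rw [Int.cast_zero, add_zero] at h0
    exact key (fun h => h0 (hLG _ h))
  · filter_upwards [h1] with x hx
    filter_upwards [hx] with n hn k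
    exact key (hn k)

/-- LIM0 -/
theorem lim0_move {ι : Type*} {l : Filter ι} [l.IsCountablyGenerated] {L G : ι → Set ℝ}
    (d : ∀ i, MData P ψ p (L i) (G i) δ)
    (hr : ∀ᵐ x, Tendsto (fun i => rr p (L i) x) l (𝓝 1))
    (hlim : Tendsto (fun i => volume (G i)) l (𝓝 0)) :
    Tendsto (fun i => psiN P ψ p (L i) (G i)) l (𝓝 ψ) := by
  apply tendsto_of_subseq_tendsto
  intro ns hns
  obtain ⟨ms, hms, hsum⟩ := exists_fast hlim ns hns
  refine ⟨ms, ?_⟩
  have h1 := ae_eventually_per (A := fun n => G (ns (ms n))) (fun n => (d _).measG) hsum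
  set i : ℕ → ι := fun n => ns (ms n) with hi
  have hil : Tendsto i atTop l := hns.comp hms
  -- the periodic symbol tends to one
  have hal : Tendsto (fun n => M (al p (G (i n))) ψ) atTop (𝓝 ψ) := by
    have h2 := M_tendsto (fun n => (d (i n)).per_al.toBM) (BM.const 1)
      (fun n x => (d (i n)).al_bound x) (l := atTop) (by
        filter_upwards [h1] with x hx
        refine Tendsto.congr' (f₁ := fun _ => (1 : ℂ)) ?_ tendsto_const_nhds
        filter_upwards [hx] with n hn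
        exact ((d (i n)).al_one hn).symm) ψ
    rwa [M_one] at h2
  have hw1 : Tendsto (fun n => M (w1 p (G (i n))) ψ) atTop (𝓝 0) := by
    have h2 := M_tendsto (fun n => (d (i n)).bm_w1) (BM.const 0)
      (fun n x => w1_bound (d (i n)) x) (l := atTop) (by
        filter_upwards [h1] with x hx
        refine Tendsto.congr' (f₁ := fun _ => (0 : ℂ)) ?_ tendsto_const_nhds
        filter_upwards [hx] with n hn
        have h0 := hn 0
        rw [Int.cast_zero, add_zero] at h0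
        unfold w1
        rw [indicator_of_notMem h0]) ψ
    rwa [M_zero] at h2
  have hpT : Tendsto (fun n => psiT P ψ p (L (i n)) (G (i n))) atTop (𝓝 ψ) := by
    have h3 : Tendsto (fun n => uu P p (L (i n)) (M (w1 p (G (i n))) ψ)) atTop (𝓝 0) := by
      rw [tendsto_zero_iff_norm_tendsto_zero]
      simp_rw [fun n => (d (i n)).norm_uu_w1 ψ]
      exact tendsto_zero_iff_norm_tendsto_zero.1 hw1
    have h4 := hal.sub h3
    rwa [sub_zero] at h4
  -- Phi tends to the identity on the range of P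
  have hPhi : ∀ v, P v = v → Tendsto (fun n => Phi P p (L (i n)) v) atTop (𝓝 v) := by
    intro v hv
    have hgm := (d (i 0)).gm
    have hnorm : ∀ n, ‖Phi P p (L (i n)) v‖ = ‖v‖ := fun n => by rw [(d (i n)).phi_norm, hv]
    have hrv : Tendsto (fun n => M (fun x => conj (rr p (L (i n)) x)) v) atTop (𝓝 v) := by
      have h2 := M_tendsto (fun n => (d (i n)).rr_bm.star) (BM.const 1)
        (fun n x => by
          rw [RCLike.norm_conj]
          exact (d (i n)).rr_bound x) (l := atTop) (by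
          filter_upwards [hr] with x hx
          have h5 := (Complex.continuous_conj.tendsto 1).comp (hx.comp hil)
          rw [map_one] at h5
          exact h5) v
      rwa [M_one] at h2
    have hin : ∀ n, ⟪Phi P p (L (i n)) v, M (fun x => conj (rr p (L (i n)) x)) v⟫_ℂ
        = ⟪v, v⟫_ℂ := by
      intro n
      rw [← inner_M_left (d (i n)).rr_bm]
      conv_lhs => rw [← hv]
      rw [← hgm.proj.symm, hv, (d (i n)).star, hv]
    have hlim2 : Tendsto (fun n => ⟪Phi P p (L (i n)) v,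
        M (fun x => conj (rr p (L (i n)) x)) v - v⟫_ℂ) atTop (𝓝 0) := by
      rw [tendsto_zero_iff_norm_tendsto_zero]
      have h6 : Tendsto (fun n => ‖v‖ * ‖M (fun x => conj (rr p (L (i n)) x)) v - v‖) atTop
          (𝓝 0) := by
        have := (tendsto_iff_norm_sub_tendsto_zero.1 hrv).const_mul ‖v‖
        simpa using this
      refine squeeze_zero (fun _ => norm_nonneg _) (fun n => ?_) h6
      rw [← hnorm n]
      exact norm_inner_le_norm _ _
    have hlim3 : Tendsto (fun n => RCLike.re ⟪Phi P p (L (i n)) v, v⟫_ℂ) atTop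
        (𝓝 (‖v‖ ^ 2)) := by
      have h7 : ∀ n, RCLike.re ⟪Phi P p (L (i n)) v, v⟫_ℂ = ‖v‖ ^ 2 -
          RCLike.re ⟪Phi P p (L (i n)) v, M (fun x => conj (rr p (L (i n)) x)) v - v⟫_ℂ := by
        intro n
        rw [inner_sub_right, hin n, map_sub, ← @inner_self_eq_norm_sq ℂ]
        ring
      simp_rw [h7]
      have h8 := (RCLike.continuous_re (K := ℂ)).tendsto 0 |>.comp hlim2
      have h9 := (tendsto_const_nhds (x := ‖v‖ ^ 2)).sub h8
      simpa using h9
    rw [tendsto_iff_norm_sub_tendsto_zero]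
    have h10 : Tendsto (fun n => ‖Phi P p (L (i n)) v - v‖ ^ 2) atTop (𝓝 0) := by
      have h11 : ∀ n, ‖Phi P p (L (i n)) v - v‖ ^ 2
          = ‖v‖ ^ 2 - 2 * RCLike.re ⟪Phi P p (L (i n)) v, v⟫_ℂ + ‖v‖ ^ 2 := by
        intro n
        rw [@norm_sub_sq ℂ, hnorm n]
      simp_rw [h11]
      have h12 := ((tendsto_const_nhds (x := ‖v‖ ^ 2)).sub (hlim3.const_mul 2)).add
        (tendsto_const_nhds (x := ‖v‖ ^ 2))
      have h13 : ‖v‖ ^ 2 - 2 * ‖v‖ ^ 2 + ‖v‖ ^ 2 = 0 := by ring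
      rw [h13] at h12
      exact h12
    have h14 := h10.sqrt
    simp_rw [Real.sqrt_sq (norm_nonneg _)] at h14
    rwa [Real.sqrt_zero] at h14
  -- conclusion
  have hgm := (d (i 0)).gm
  have hv := hgm.P_Dsymm_psi
  have h15 : Tendsto (fun n => Phi P p (L (i n)) (D.symm (psiT P ψ p (L (i n)) (G (i n)))))
      atTop (𝓝 (D.symm ψ)) := by
    have h16 : Tendsto (fun n => Phi P p (L (i n))
        (D.symm (psiT P ψ p (L (i n)) (G (i n))) - D.symm ψ)) atTop (𝓝 0) := by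
      rw [tendsto_zero_iff_norm_tendsto_zero]
      have h17 : Tendsto (fun n => ‖D.symm (psiT P ψ p (L (i n)) (G (i n))) - D.symm ψ‖) atTop
          (𝓝 0) :=
        tendsto_iff_norm_sub_tendsto_zero.1 ((D.symm.continuous.tendsto _).comp hpT)
      refine squeeze_zero (fun _ => norm_nonneg _) (fun n => ?_) h17
      rw [(d (i n)).phi_norm]
      exact hgm.proj.norm_le _
    have h18 := h16.add (hPhi _ hv)
    rw [zero_add] at h18
    refine h18.congr (fun n => ?_)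
    rw [← map_add, sub_add_cancel]
  have h19 := (D.continuous.tendsto _).comp h15
  rw [LinearIsometryEquiv.apply_symm_apply] at h19
  exact h19

end Pool.Agent.Wav
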