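import Mathlib

/-! Task E1: infinite concatenation of paths. -/

set_option autoImplicit false

open Filter Topology Set

namespace Pool.Agent.Wav

/-- a path given by a function on `ℝ` continuous on `[0,1]` -/
theorem joinedIn_of_continuousOn {X : Type*} [TopologicalSpace X] {S : Set X} {x y : X}
    (γ : ℝ → X) (h0 : γ 0 = x) (h1 : γ 1 = y) (hc : ContinuousOn γ (Icc 0 1))
    (hS : ∀ s ∈ Icc (0 : ℝ) 1, γ s ∈ S) : JoinedIn S x y := by
  refine JoinedIn.ofLine hc h0 h1 ?_
  rintro _ ⟨s, hs, rfl⟩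
  exact hS s hs

/-- concatenation of countably many paths, on the half line -/
noncomputable def catPath {X : Type*} (γ : ℕ → ℝ → X) (t : ℝ) : X := γ ⌊t⌋₊ (t - ⌊t⌋₊)

lemma catPath_eq {X : Type*} {x : ℕ → X} (γ : ℕ → ℝ → X) (h0 : ∀ i, γ i 0 = x i)
    (h1 : ∀ i, γ i 1 = x (i + 1)) (n : ℕ) {t : ℝ} (ht : t ∈ Icc (n : ℝ) (n + 1)) :
    catPath γ t = γ n (t - n) := by
  rcases eq_or_lt_of_le ht.2 with h | h
  · have hf : ⌊t⌋₊ = n + 1 := by
      rw [h, show ((n : ℝ) + 1) = ((n + 1 : ℕ) : ℝ) by push_cast; ring, Nat.floor_natCast]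
    unfold catPath
    rw [hf, h]
    push_cast
    rw [sub_self, h0, add_sub_cancel_left, h1]
  · have hf : ⌊t⌋₊ = n := by
      rw [Nat.floor_eq_iff ((Nat.cast_nonneg n).trans ht.1)]
      exact ⟨ht.1, h⟩
    unfold catPath
    rw [hf]

lemma catPath_contOn {X : Type*} [TopologicalSpace X] {x : ℕ → X} (γ : ℕ → ℝ → X)
    (h0 : ∀ i, γ i 0 = x i) (h1 : ∀ i, γ i 1 = x (i + 1))
    (hc : ∀ i, ContinuousOn (γ i) (Icc 0 1)) : ContinuousOn (catPath γ) (Ici 0) := by
  have hpiece : ∀ n : ℕ, ContinuousOn (catPath γ) (Icc (n : ℝ) (n + 1)) := by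
    intro n
    have h2 : ContinuousOn (fun t : ℝ => γ n (t - n)) (Icc (n : ℝ) (n + 1)) := by
      refine (hc n).comp (by fun_prop) ?_
      intro t ht
      exact ⟨by linarith [ht.1], by linarith [ht.2]⟩
    exact h2.congr (fun t ht => catPath_eq γ h0 h1 n ht)
  intro t ht
  have ht0 : (0 : ℝ) ≤ t := ht
  have hfl := Nat.floor_le ht0
  have hfl' := Nat.lt_floor_add_one t
  set n := ⌊t⌋₊ with hn
  -- right side
  have hR : ContinuousWithinAt (catPath γ) (Ici t) t := by
    have := (hpiece n t ⟨hfl, hfl'.le⟩)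
    refine (this.mono_of_mem_nhdsWithin ?_)
    have h3 : Ico t (n + 1 : ℝ) ∈ 𝓝[≥] t := Ico_mem_nhdsGE hfl'
    refine mem_of_superset h3 ?_
    intro s hs
    exact ⟨hfl.trans hs.1, hs.2.le⟩
  -- left side
  have hL : ContinuousWithinAt (catPath γ) (Icc 0 t) t := by
    by_cases h : (n : ℝ) < t
    · have := (hpiece n t ⟨hfl, hfl'.le⟩)
      refine (this.mono_of_mem_nhdsWithin ?_)
      have h3 : Ioc (n : ℝ) t ∈ 𝓝[≤] t := Ioc_mem_nhdsLE h
      have h4 : Ioc (n : ℝ) t ∈ 𝓝[Icc 0 t] t := nhdsWithin_mono _ (fun s hs => hs.2) h3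
      refine mem_of_superset h4 ?_
      intro s hs
      exact ⟨hs.1.le, hs.2.trans hfl'.le⟩
    · have hnt : (n : ℝ) = t := le_antisymm hfl (not_lt.1 h)
      rcases Nat.eq_zero_or_pos n with h5 | h5
      · have : t = 0 := by rw [← hnt, h5]; simp
        rw [this, Icc_self]
        exact continuousWithinAt_singleton
      · obtain ⟨m, hm⟩ : ∃ m, n = m + 1 := ⟨n - 1, by omega⟩
        have hmt : (m : ℝ) + 1 = t := by
          rw [← hnt, hm]; push_cast; ring
        have := hpiece m t ⟨by linarith, hmt.ge⟩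
        refine (this.mono_of_mem_nhdsWithin ?_)
        have h3 : Ioc (m : ℝ) t ∈ 𝓝[≤] t := Ioc_mem_nhdsLE (by linarith)
        have h4 : Ioc (m : ℝ) t ∈ 𝓝[Icc 0 t] t := nhdsWithin_mono _ (fun s hs => hs.2) h3
        refine mem_of_superset h4 ?_
        intro s hs
        exact ⟨hs.1.le, hs.2.trans hmt.ge⟩
  refine (hL.union hR).mono ?_
  intro s hs
  rcases le_total s t with h | h
  · exact Or.inl ⟨hs, h⟩
  · exact Or.inr h

/-- Infinite concatenation: paths `γ i` from `x i` to `x (i+1)` inside `S`, converging uniformly to a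
point `y ∈ S`, give `JoinedIn S (x 0) y`. -/
theorem joinedIn_of_seq {X : Type*} [PseudoMetricSpace X] {S : Set X} {x : ℕ → X} {y : X}
    (γ : ℕ → ℝ → X) (h0 : ∀ i, γ i 0 = x i) (h1 : ∀ i, γ i 1 = x (i + 1))
    (hc : ∀ i, ContinuousOn (γ i) (Icc 0 1)) (hS : ∀ i, ∀ s ∈ Icc (0 : ℝ) 1, γ i s ∈ S)
    (hy : y ∈ S)
    (hlim : ∀ ε > 0, ∃ N : ℕ, ∀ i ≥ N, ∀ s ∈ Icc (0 : ℝ) 1, dist (γ i s) y < ε) :
    JoinedIn S (x 0) y := by
  classical
  have hfrac : ∀ t : ℝ, 0 ≤ t → t - ⌊t⌋₊ ∈ Icc (0 : ℝ) 1 := by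
    intro t ht
    exact ⟨by linarith [Nat.floor_le ht], by linarith [Nat.lt_floor_add_one t]⟩
  have hlimit : Tendsto (catPath γ) atTop (𝓝 y) := by
    rw [Metric.tendsto_atTop]
    intro ε hε
    obtain ⟨N, hN⟩ := hlim ε hε
    refine ⟨N, fun t ht => ?_⟩
    have ht0 : (0 : ℝ) ≤ t := (Nat.cast_nonneg N).trans ht
    exact hN _ (Nat.le_floor ht) _ (hfrac t ht0)
  have hcat := catPath_contOn γ h0 h1 hc
  let p : ℝ → X := fun t => if t < 1 then catPath γ (t / (1 - t)) else y
  refine joinedIn_of_continuousOn p ?_ ?_ ?_ ?_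
  · simp only [p, zero_lt_one, if_true]
    unfold catPath
    simp [h0]
  · simp [p]
  · intro t ht
    rcases lt_or_eq_of_le ht.2 with h | h
    · have h2 : ContinuousWithinAt (fun t : ℝ => catPath γ (t / (1 - t))) (Icc 0 1 ∩ Iio 1) t := by
        have h3 : ContinuousWithinAt (fun t : ℝ => t / (1 - t)) (Icc 0 1 ∩ Iio 1) t := by
          apply ContinuousAt.continuousWithinAt
          apply ContinuousAt.div continuousAt_id (by fun_prop)
          linarith
        refine ContinuousWithinAt.comp (f := fun t : ℝ => t / (1 - t)) (t := Ici 0)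
          (hcat (t / (1 - t)) ?_) h3 ?_
        · exact div_nonneg ht.1 (by linarith)
        · intro s hs
          exact div_nonneg hs.1.1 (by linarith [mem_Iio.1 hs.2])
      have h3 : ContinuousWithinAt p (Icc 0 1 ∩ Iio 1) t := by
        refine h2.congr ?_ ?_
        · intro s hs
          simp only [p]
          rw [if_pos (mem_Iio.1 hs.2)]
        · simp only [p]
          rw [if_pos h]
      exact (continuousWithinAt_inter (Iio_mem_nhds h)).1 h3
    · subst h
      rw [Metric.continuousWithinAt_iff]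
      intro ε hε
      rw [Metric.tendsto_atTop] at hlimit
      obtain ⟨R, hR⟩ := hlimit ε hε
      refine ⟨1 / (|R| + 2), by positivity, ?_⟩
      intro s hs hd
      have hp1 : p 1 = y := by simp [p]
      rw [hp1]
      by_cases hs1 : s < 1
      · simp only [p]
        rw [if_pos hs1]
        apply hR
        rw [Real.dist_eq, abs_sub_comm, abs_of_pos (by linarith)] at hd
        have h4 : 0 < 1 - s := by linarith
        have h5 : (|R| + 2) * (1 - s) < 1 := by
          rw [lt_div_iff₀ (by positivity)] at hd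
          linarith
        change R ≤ s / (1 - s)
        rw [le_div_iff₀ h4]
        have h6 : R ≤ |R| := le_abs_self R
        nlinarith
      · simp only [p]
        rw [if_neg hs1, dist_self]
        exact hε
  · intro s hs
    simp only [p]
    split_ifs with h
    · exact hS _ _ (hfrac _ (div_nonneg hs.1 (by linarith)))
    · exact hy

end Pool.Agent.Wav
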