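import Pool.Agent.Lib.MP_0a5c67_an.C3
import Pool.Agent.Lib.MP_0a5c67_an.B1
import Pool.Agent.Lib.MP_0a5c67_an.E1

/-! Task D1: the initial move and the general step, as paths of wavelets. -/

set_option autoImplicit false

open MeasureTheory Filter Topology Set
open scoped ENNReal InnerProductSpace ComplexConjugate

noncomputable section

namespace Pool.Agent.Wav

/-- a `GM` pair with an absorbing set `Ω` on which the projection is the identity -/
structure St (P : H →L[ℂ] H) (ψ : H) (Ω : Set ℝ) : Prop where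
  gm : IsGM P ψ
  meas : MeasurableSet Ω
  half : ∀ x ∈ Ω, x / 2 ∈ Ω
  absb : ∀ᵐ x : ℝ, ∃ n : ℕ, x / 2 ^ n ∈ Ω
  fix : ∀ f, P (Q Ω f) = Q Ω f

lemma qmp_div_pow (n : ℕ) :
    Measure.QuasiMeasurePreserving (fun x : ℝ => x / 2 ^ n) volume volume := by
  have h := qmp_mul (c := (2 ^ n : ℝ)⁻¹) (by positivity)
  have h2 : (fun x : ℝ => (2 ^ n : ℝ)⁻¹ * x) = fun x : ℝ => x / 2 ^ n := by
    funext x
    rw [div_eq_mul_inv, mul_comm]
  rwa [h2] at h

/-- good representative of the density -/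
theorem exists_good_dens {P : H →L[ℂ] H} {ψ : H} (hG : IsGM P ψ) {Ω : Set ℝ}
    (hm : MeasurableSet Ω) (hh : ∀ x ∈ Ω, x / 2 ∈ Ω) (hf : ∀ f, P (Q Ω f) = Q Ω f) :
    ∃ p : ℝ → ℝ, IsDens P p ∧ (∀ x, p x ≤ p (x / 2)) ∧ ∀ x ∈ Ω, p x = 1 := by
  classical
  obtain ⟨p0, hp0⟩ := exists_dens hG.proj hG.comm
  -- the infimum
  let p1 : ℝ → ℝ := fun x => ⨅ n : ℕ, p0 (x / 2 ^ n)
  have hbdd : ∀ x, BddBelow (Set.range fun n : ℕ => p0 (x / 2 ^ n)) := fun x =>
    ⟨0, by rintro _ ⟨n, rfl⟩; exact hp0.nonneg _⟩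
  have hm1 : Measurable p1 := Measurable.iInf fun n => hp0.meas.comp (measurable_id.div_const _)
  have h10 : ∀ x, 0 ≤ p1 x := fun x => le_ciInf fun n => hp0.nonneg _
  have h11 : ∀ x, p1 x ≤ 1 := fun x => (ciInf_le (hbdd x) 0).trans (hp0.le_one _)
  have hhalf : ∀ x, p1 x ≤ p1 (x / 2) := by
    intro x
    refine le_ciInf fun n => ?_
    refine (ciInf_le (hbdd x) (n + 1)).trans (le_of_eq ?_)
    congr 1
    rw [pow_succ]
    field_simp
  have hae : p0 =ᵐ[volume] p1 := by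
    have h1 : ∀ᵐ x : ℝ, ∀ n : ℕ, p0 (x / 2 ^ n) ≤ p0 (x / 2 ^ (n + 1)) := by
      rw [ae_all_iff]
      intro n
      have h2 := (qmp_div_pow n).ae (hG.dens_half hp0)
      filter_upwards [h2] with x hx
      have h3 : x / 2 ^ (n + 1) = x / 2 ^ n / 2 := by
        rw [pow_succ]
        field_simp
      rw [h3, hx]
      have := sq_nonneg ‖ψ (x / 2 ^ n)‖
      linarith
    filter_upwards [h1] with x hx
    apply le_antisymm
    · refine le_ciInf fun n => ?_
      have h4 : Monotone fun n : ℕ => p0 (x / 2 ^ n) := monotone_nat_of_le_succ hx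
      have := h4 (Nat.zero_le n)
      simpa using this
    · have := ciInf_le (hbdd x) 0
      simpa [p1] using this
  have hp1 : IsDens P p1 := hp0.congr hm1 h10 h11 hae
  have hone : ∀ᵐ x, x ∈ Ω → p1 x = 1 := hp1.one_of_fix hG.proj hm hf
  let p : ℝ → ℝ := fun x => if x ∈ Ω then 1 else p1 x
  have hpm : Measurable p := Measurable.ite hm measurable_const hm1
  refine ⟨p, hp1.congr hpm ?_ ?_ ?_, ?_, ?_⟩
  · intro x
    by_cases hx : x ∈ Ω
    · simp [p, hx]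
    · simp [p, hx, h10]
  · intro x
    by_cases hx : x ∈ Ω
    · simp [p, hx]
    · simp [p, hx, h11]
  · filter_upwards [hone] with x hx
    by_cases hxΩ : x ∈ Ω
    · simp [p, hxΩ, hx hxΩ]
    · simp [p, hxΩ]
  · intro x
    by_cases hx : x ∈ Ω
    · simp [p, hx, hh x hx]
    · by_cases hx2 : x / 2 ∈ Ω
      · simp [p, hx, hx2, h11]
      · simp [p, hx, hx2, hhalf]
  · intro x hx
    simp [p, hx]

/-! ### the initial move -/

/-- the sets of the initial move -/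
def L0 (p : ℝ → ℝ) (s : ℝ) : Set ℝ := {x : ℝ | |x| < s ∧ 1 / 2 ≤ p x}

lemma L0_meas {p : ℝ → ℝ} (hp : Measurable p) (s : ℝ) : MeasurableSet (L0 p s) :=
  (measurableSet_lt measurable_norm measurable_const).inter
    (measurableSet_le measurable_const hp)

lemma mdata_initial {P : H →L[ℂ] H} {ψ : H} (hG : IsGM P ψ) {p : ℝ → ℝ} (hp : IsDens P p)
    (hmono : ∀ x, p x ≤ p (x / 2)) {s : ℝ} (h0 : 0 < s) (h1 : s ≤ 1 / 2) :
    MData P ψ p (L0 p s) (L0 p s) (1 / 2) where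
  gm := hG
  dens := hp
  measL := L0_meas hp.meas s
  measG := L0_meas hp.meas s
  sub := Subset.rfl
  half := by
    rintro x ⟨hx, hx'⟩
    refine ⟨?_, hx'.trans (hmono x)⟩
    rw [abs_div, abs_of_pos (by norm_num : (0:ℝ) < 2)]
    have := abs_nonneg x
    linarith
  absb := by
    filter_upwards [hG.dens_tendsto hp] with x hx
    have h2 : ∀ᶠ n : ℕ in atTop, 1 / 2 < p (x / 2 ^ n) := hx (lt_mem_nhds (by norm_num))
    have h3 : Tendsto (fun n : ℕ => |x / 2 ^ n|) atTop (𝓝 0) := by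
      have : Tendsto (fun n : ℕ => x / (2:ℝ) ^ n) atTop (𝓝 0) :=
        tendsto_const_nhds.div_atTop (tendsto_pow_atTop_atTop_of_one_lt (by norm_num))
      simpa using this.abs
    have h4 : ∀ᶠ n : ℕ in atTop, |x / 2 ^ n| < s := h3 (gt_mem_nhds h0)
    obtain ⟨n, hn, hn'⟩ := (h2.and h4).exists
    exact ⟨n, hn', hn.le⟩
  pos := by norm_num
  lower := fun x hx => hx.2
  one := fun x hx hx' => absurd hx hx'
  mono := hmono
  inj := by
    rintro x ⟨hx, -⟩ y ⟨hy, -⟩ k hk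
    have h2 : |(k : ℝ)| < 1 := by
      have : (k : ℝ) = x - y := by linarith
      rw [this]
      calc |x - y| ≤ |x| + |y| := abs_sub _ _
        _ < 1 := by linarith
    have h3 : |k| < 1 := by exact_mod_cast h2
    exact Int.abs_lt_one_iff.1 h3

lemma L0_symmDiff {p : ℝ → ℝ} (s t : ℝ) :
    symmDiff (L0 p s) (L0 p t) ⊆ Icc (min s t) (max s t) ∪ Icc (-max s t) (-min s t) := by
  rintro x (⟨⟨h1, h2⟩, h3⟩ | ⟨⟨h1, h2⟩, h3⟩)
  · have h4 : t ≤ |x| := by
      by_contra h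
      exact h3 ⟨not_le.1 h, h2⟩
    have h5 : min s t ≤ |x| := (min_le_right _ _).trans h4
    have h6 : |x| ≤ max s t := h1.le.trans (le_max_left _ _)
    rcases abs_cases x with ⟨h7, -⟩ | ⟨h7, -⟩
    · left; rw [h7] at h5 h6; exact ⟨h5, h6⟩
    · right; rw [h7] at h5 h6; exact ⟨by linarith, by linarith⟩
  · have h4 : s ≤ |x| := by
      by_contra h
      exact h3 ⟨not_le.1 h, h2⟩
    have h5 : min s t ≤ |x| := (min_le_left _ _).trans h4
    have h6 : |x| ≤ max s t := h1.le.trans (le_max_right _ _)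
    rcases abs_cases x with ⟨h7, -⟩ | ⟨h7, -⟩
    · left; rw [h7] at h5 h6; exact ⟨h5, h6⟩
    · right; rw [h7] at h5 h6; exact ⟨by linarith, by linarith⟩

lemma L0_vol_symmDiff {p : ℝ → ℝ} (s t : ℝ) :
    volume (symmDiff (L0 p s) (L0 p t)) ≤ ENNReal.ofReal (2 * |s - t|) := by
  refine (measure_mono (L0_symmDiff s t)).trans ((measure_union_le _ _).trans ?_)
  rw [Real.volume_Icc, Real.volume_Icc, ← ENNReal.ofReal_add]
  · refine ENNReal.ofReal_le_ofReal (le_of_eq ?_)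
    have : max s t - min s t = |s - t| := by
      rw [max_sub_min_eq_abs, abs_sub_comm]
    linarith
  · have := min_le_max (a := s) (b := t); linarith
  · have := min_le_max (a := s) (b := t); linarith

lemma L0_vol {p : ℝ → ℝ} (s : ℝ) :
    volume (L0 p s) ≤ ENNReal.ofReal (2 * |s|) := by
  have h : L0 p s ⊆ Ioo (-s) s := fun x hx => abs_lt.1 hx.1
  refine (measure_mono h).trans ?_
  rw [Real.volume_Ioo]
  refine ENNReal.ofReal_le_ofReal ?_
  have := le_abs_self s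
  linarith

/-- the path of the initial move -/
def γ0 (P : H →L[ℂ] H) (ψ : H) (p : ℝ → ℝ) (s : ℝ) : H := by
  classical
  exact if s = 0 then ψ else psiN P ψ p (L0 p (s / 2)) (L0 p (s / 2))

lemma tendsto_nhdsWithin_iff_comap {X Y : Type*} [TopologicalSpace X] {s : Set X} {a : X}
    {f : X → Y} {l : Filter Y} :
    Tendsto f (𝓝[s] a) l ↔ Tendsto (fun x : s => f x) (comap ((↑) : s → X) (𝓝 a)) l := by
  rw [nhdsWithin, ← map_comap_setCoe_val, tendsto_map'_iff]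
  rfl

/-- the initial move -/
theorem initial_move {P : H →L[ℂ] H} {ψ : H} (hG : IsGM P ψ) :
    ∃ (P' : H →L[ℂ] H) (ψ' : H) (Ω : Set ℝ), St P' ψ' Ω ∧ JoinedIn {φ : H | IsWav φ} ψ ψ' := by
  classical
  obtain ⟨p, hp, hmono, -⟩ := exists_good_dens hG (Ω := ∅) MeasurableSet.empty
    (fun x hx => absurd hx (notMem_empty x)) (fun f => by rw [Q_empty, map_zero])
  have hd : ∀ s : ℝ, 0 < s → s ≤ 1 → MData P ψ p (L0 p (s / 2)) (L0 p (s / 2)) (1 / 2) :=
    fun s h0 h1 => mdata_initial hG hp hmono (by linarith) (by linarith)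
  have d1 := hd 1 one_pos le_rfl
  refine ⟨PN P p (L0 p (1 / 2)), psiN P ψ p (L0 p (1 / 2)) (L0 p (1 / 2)), L0 p (1 / 2),
    ⟨d1.isGM, d1.measL, d1.half, d1.absb, d1.PN_Q⟩, ?_⟩
  refine joinedIn_of_continuousOn (γ0 P ψ p) (if_pos rfl) (if_neg one_ne_zero) ?_ ?_
  · intro s0 hs0
    rcases eq_or_lt_of_le hs0.1 with h | h
    · -- at zero
      subst h
      have h1 : Icc (0 : ℝ) 1 = insert 0 (Ioc 0 1) := by
        rw [Ioc_insert_left zero_le_one]
      rw [h1, continuousWithinAt_insert_self, ContinuousWithinAt, tendsto_nhdsWithin_iff_comap]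
      have h2 : γ0 P ψ p 0 = ψ := if_pos rfl
      rw [h2]
      have h3 : (fun x : Ioc (0:ℝ) 1 => γ0 P ψ p x)
          = fun x : Ioc (0:ℝ) 1 => psiN P ψ p (L0 p ((x : ℝ) / 2)) (L0 p ((x : ℝ) / 2)) := by
        funext x
        exact if_neg x.2.1.ne'
      rw [h3]
      have hlim0 : Tendsto (fun x : Ioc (0:ℝ) 1 => (x : ℝ)) (comap ((↑) : Ioc (0:ℝ) 1 → ℝ) (𝓝 0))
          (𝓝 0) := tendsto_comap
      refine lim0_move (δ := 1 / 2) (fun i => hd i i.2.1 i.2.2) ?_ ?_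
      · filter_upwards [hG.dens_tendsto hp, compl_mem_ae_iff.2 (measure_singleton (0:ℝ)),
          d1.absb] with x hx hx0 _
        have hx0 : x ≠ 0 := hx0
        -- the weights along the orbit tend to one
        have hw : Tendsto (fun n : ℕ => (((Real.sqrt (p (x / 2 ^ n)))⁻¹ : ℝ) : ℂ)) atTop (𝓝 1) := by
          have h4 : Tendsto (fun n : ℕ => (Real.sqrt (p (x / 2 ^ n)))⁻¹) atTop (𝓝 1) := by
            have h5 := (Real.continuous_sqrt.tendsto 1).comp hx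
            have h6 := h5.inv₀ (by rw [Real.sqrt_one]; exact one_ne_zero)
            simpa using h6
          have h7 := (Complex.continuous_ofReal.tendsto 1).comp h4
          rw [Complex.ofReal_one] at h7
          exact h7
        rw [Metric.tendsto_nhds]
        intro ε hε
        have h8 := (Metric.tendsto_atTop.1 hw) ε hε
        obtain ⟨N, hN⟩ := h8
        have h9 : ∀ᶠ i : Ioc (0:ℝ) 1 in comap ((↑) : Ioc (0:ℝ) 1 → ℝ) (𝓝 0),
            (i : ℝ) < |x| / 2 ^ N := hlim0 (gt_mem_nhds (by positivity))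
        filter_upwards [h9] with i hi
        unfold rr
        by_cases hex : ∃ n : ℕ, x / 2 ^ n ∈ L0 p ((i : ℝ) / 2)
        · rw [dif_pos hex]
          have hmem := Nat.find_spec hex
          have hge : N ≤ Nat.find hex := by
            by_contra hlt
            rw [not_le] at hlt
            have h10 := hmem.1
            rw [abs_div, abs_of_pos (by positivity : (0:ℝ) < 2 ^ Nat.find hex)] at h10
            have h11 : |x| / 2 ^ N ≤ |x| / 2 ^ Nat.find hex :=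
              div_le_div_of_nonneg_left (abs_nonneg x) (by positivity)
                (pow_le_pow_right₀ (by norm_num) hlt.le)
            have h12 : (0:ℝ) < i := i.2.1
            linarith
          have h13 := hN _ hge
          unfold wt
          rw [indicator_of_mem hmem]
          exact h13
        · rw [dif_neg hex, dist_self]
          exact hε
      · have h4 : Tendsto (fun x : Ioc (0:ℝ) 1 => ENNReal.ofReal (2 * |(x : ℝ) / 2|))
            (comap ((↑) : Ioc (0:ℝ) 1 → ℝ) (𝓝 0)) (𝓝 0) := by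
          have h5 : Tendsto (fun x : Ioc (0:ℝ) 1 => 2 * |(x : ℝ) / 2|)
              (comap ((↑) : Ioc (0:ℝ) 1 → ℝ) (𝓝 0)) (𝓝 (2 * |(0:ℝ) / 2|)) :=
            ((hlim0.div_const 2).abs).const_mul 2
          have h6 := ENNReal.tendsto_ofReal h5
          simpa using h6
        exact tendsto_of_tendsto_of_tendsto_of_le_of_le tendsto_const_nhds h4
          (fun _ => bot_le) (fun i => L0_vol _)
    · -- at positive s0
      have h1 : 𝓝[Icc (0:ℝ) 1] s0 = 𝓝[Ioc (0:ℝ) 1] s0 := by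
        have h2 : Ioc (0:ℝ) 1 = Ioi 0 ∩ Icc (0:ℝ) 1 := by
          ext y
          constructor
          · rintro ⟨ha, hb⟩; exact ⟨ha, ha.le, hb⟩
          · rintro ⟨ha, -, hb⟩; exact ⟨ha, hb⟩
        rw [h2, nhdsWithin_inter_of_mem (mem_nhdsWithin_of_mem_nhds (Ioi_mem_nhds h))]
      rw [ContinuousWithinAt, h1, tendsto_nhdsWithin_iff_comap]
      have h2 : γ0 P ψ p s0 = psiN P ψ p (L0 p (s0 / 2)) (L0 p (s0 / 2)) := if_neg h.ne'
      rw [h2]
      have h3 : (fun x : Ioc (0:ℝ) 1 => γ0 P ψ p x)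
          = fun x : Ioc (0:ℝ) 1 => psiN P ψ p (L0 p ((x : ℝ) / 2)) (L0 p ((x : ℝ) / 2)) := by
        funext x
        exact if_neg x.2.1.ne'
      rw [h3]
      have hlim0 : Tendsto (fun x : Ioc (0:ℝ) 1 => (x : ℝ)) (comap ((↑) : Ioc (0:ℝ) 1 → ℝ) (𝓝 s0))
          (𝓝 s0) := tendsto_comap
      refine cont_move (δ := 1 / 2) (fun i => hd i i.2.1 i.2.2) (hd s0 h hs0.2)
        (fun i => Subset.rfl) ?_
      have h4 : Tendsto (fun x : Ioc (0:ℝ) 1 => ENNReal.ofReal (2 * |(x : ℝ) / 2 - s0 / 2|))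
          (comap ((↑) : Ioc (0:ℝ) 1 → ℝ) (𝓝 s0)) (𝓝 0) := by
        have h5 : Tendsto (fun x : Ioc (0:ℝ) 1 => 2 * |(x : ℝ) / 2 - s0 / 2|)
            (comap ((↑) : Ioc (0:ℝ) 1 → ℝ) (𝓝 s0)) (𝓝 (2 * |s0 / 2 - s0 / 2|)) :=
          (((hlim0.div_const 2).sub_const _).abs).const_mul 2
        have h6 := ENNReal.tendsto_ofReal h5
        simpa using h6
      exact tendsto_of_tendsto_of_tendsto_of_le_of_le tendsto_const_nhds h4
        (fun _ => bot_le) (fun i => L0_vol_symmDiff _ _)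
  · intro s hs
    rcases eq_or_lt_of_le hs.1 with h | h
    · have h2 : γ0 P ψ p s = ψ := if_pos h.symm
      rw [h2]
      exact hG.isWav
    · have h2 : γ0 P ψ p s = psiN P ψ p (L0 p (s / 2)) (L0 p (s / 2)) := if_neg h.ne'
      rw [h2]
      exact (hd s h hs.2).isGM.isWav

/-- everything we need to know about a step of the construction -/
structure Step (P : H →L[ℂ] H) (ψ : H) (Ω : Set ℝ) (a : ℤ) (δ : ℝ)
    (G : Set ℝ) (F : H →L[ℂ] H) (P' : H →L[ℂ] H) (ψ' : H) (γ : ℝ → H) : Prop where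
  measG : MeasurableSet G
  disj : Disjoint Ω G
  sub : G ⊆ Ico (a : ℝ) (a + 1)
  /-- what is not absorbed has small density -/
  small : ∀ A : Set ℝ, MeasurableSet A → A ⊆ Ico (a : ℝ) (a + 1) → (∀ x ∈ A, x / 2 ∈ Ω) →
    Disjoint A (Ω ∪ G) → ∀ f, ‖Q A (P f)‖ ^ 2 ≤ δ * ‖f‖ ^ 2
  st : St P' ψ' (Ω ∪ G)
  adj1 : ∀ f, ContinuousLinearMap.adjoint F (F f) = P f
  adj2 : ∀ f, F (ContinuousLinearMap.adjoint F f) = P' f
  comm : PComm F
  fix : ∀ f, F (Q Ω f) = Q Ω f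
  vanish : ∀ g, P g = g → (Q (Ω ∪ G) (F g) = 0 ↔ Q (Ω ∪ G) g = 0)
  inter : ∀ g, P g = g → Q (Ω ∪ G) g = 0 → F (D.symm g) = D.symm (F g)
  off : ∀ χ : ℝ → ℂ, Per χ → (∀ x ∈ G, χ x = 0) → M χ ψ' = D (F (D.symm (M χ ψ)))
  γ0 : γ 0 = ψ
  γ1 : γ 1 = ψ'
  cont : ContinuousOn γ (Icc 0 1)
  wav : ∀ s ∈ Icc (0 : ℝ) 1, IsWav (γ s)
  ctrl : ∀ s ∈ Icc (0 : ℝ) 1, ∃ Fs : H →L[ℂ] H, (∀ f, ‖Fs f‖ ≤ ‖f‖) ∧
    (∀ f, Fs (Q Ω f) = Q Ω f) ∧
    ∀ χ : ℝ → ℂ, Per χ → (∀ x ∈ G, χ x = 0) → M χ (γ s) = D (Fs (D.symm (M χ ψ)))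

/-- the absorbed set of a step -/
def stG (p : ℝ → ℝ) (Ω : Set ℝ) (a : ℤ) (δ : ℝ) (s : ℝ) : Set ℝ :=
  {x : ℝ | x ∈ Ico (a : ℝ) (a + s) ∧ x ∉ Ω ∧ x / 2 ∈ Ω ∧ δ ≤ p x}

lemma stG_meas {p : ℝ → ℝ} (hp : Measurable p) {Ω : Set ℝ} (hΩ : MeasurableSet Ω) (a : ℤ) (δ : ℝ)
    (s : ℝ) : MeasurableSet (stG p Ω a δ s) := by
  have h1 : MeasurableSet {x : ℝ | x / 2 ∈ Ω} := (measurable_id.div_const (2:ℝ)) hΩ
  exact measurableSet_Ico.inter (hΩ.compl.inter (h1.inter (measurableSet_le measurable_const hp)))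

lemma stG_mono {p : ℝ → ℝ} {Ω : Set ℝ} {a : ℤ} {δ : ℝ} {s t : ℝ} (h : s ≤ t) :
    stG p Ω a δ s ⊆ stG p Ω a δ t := fun _ hx =>
  ⟨⟨hx.1.1, hx.1.2.trans_le (by linarith)⟩, hx.2⟩

lemma mdata_step {P : H →L[ℂ] H} {ψ : H} {Ω : Set ℝ} (hs : St P ψ Ω) {p : ℝ → ℝ} (hp : IsDens P p)
    (hmono : ∀ x, p x ≤ p (x / 2)) (hone : ∀ x ∈ Ω, p x = 1) (a : ℤ) {δ : ℝ} (hδ : 0 < δ)
    (hδ1 : δ ≤ 1) {s : ℝ} (h1 : s ≤ 1) :
    MData P ψ p (Ω ∪ stG p Ω a δ s) (stG p Ω a δ s) δ where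
  gm := hs.gm
  dens := hp
  measL := hs.meas.union (stG_meas hp.meas hs.meas a δ s)
  measG := stG_meas hp.meas hs.meas a δ s
  sub := subset_union_right
  half := by
    rintro x (hx | hx)
    · exact Or.inl (hs.half x hx)
    · exact Or.inl hx.2.2.1
  absb := by
    filter_upwards [hs.absb] with x ⟨n, hn⟩
    exact ⟨n, Or.inl hn⟩
  pos := hδ
  lower := by
    rintro x (hx | hx)
    · rw [hone x hx]; exact hδ1
    · exact hx.2.2.2
  one := by
    rintro x (hx | hx) hx'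
    · exact hone x hx
    · exact absurd hx hx'
  mono := hmono
  inj := by
    intro x hx y hy k hk
    have hx1 := hx.1.1
    have hx2 := hx.1.2
    have hy1 := hy.1.1
    have hy2 := hy.1.2
    have h2 : |(k : ℝ)| < 1 := by
      rw [abs_lt]
      constructor <;> linarith
    have h3 : |k| < 1 := by exact_mod_cast h2
    exact Int.abs_lt_one_iff.1 h3

lemma stG_symmDiff {p : ℝ → ℝ} {Ω : Set ℝ} {a : ℤ} {δ : ℝ} (s t : ℝ) :
    symmDiff (stG p Ω a δ s) (stG p Ω a δ t) ⊆ Icc (a + min s t) (a + max s t) := by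
  rintro x (⟨h1, h3⟩ | ⟨h1, h3⟩)
  · have h4 : a + t ≤ x := by
      by_contra h
      exact h3 ⟨⟨h1.1.1, not_le.1 h⟩, h1.2⟩
    have h5 := h1.1.2
    exact ⟨le_trans (by linarith [min_le_right s t]) h4, h5.le.trans (by linarith [le_max_left s t])⟩
  · have h4 : a + s ≤ x := by
      by_contra h
      exact h3 ⟨⟨h1.1.1, not_le.1 h⟩, h1.2⟩
    have h5 := h1.1.2
    exact ⟨le_trans (by linarith [min_le_left s t]) h4, h5.le.trans (by linarith [le_max_right s t])⟩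

lemma stG_vol_symmDiff {p : ℝ → ℝ} {Ω : Set ℝ} {a : ℤ} {δ : ℝ} (s t : ℝ) :
    volume (symmDiff (stG p Ω a δ s) (stG p Ω a δ t)) ≤ ENNReal.ofReal |s - t| := by
  refine (measure_mono (stG_symmDiff s t)).trans ?_
  rw [Real.volume_Icc]
  refine ENNReal.ofReal_le_ofReal (le_of_eq ?_)
  have : max s t - min s t = |s - t| := by
    rw [max_sub_min_eq_abs, abs_sub_comm]
  linarith

theorem exists_step {P : H →L[ℂ] H} {ψ : H} {Ω : Set ℝ} (hs : St P ψ Ω) (a : ℤ) {δ : ℝ}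
    (hδ : 0 < δ) : ∃ (G : Set ℝ) (F P' : H →L[ℂ] H) (ψ' : H) (γ : ℝ → H),
      Step P ψ Ω a δ G F P' ψ' γ := by
  classical
  obtain ⟨p, hp, hmono, hone⟩ := exists_good_dens hs.gm hs.meas hs.half hs.fix
  set δ' : ℝ := min δ 1 with hδ'
  have hδ'0 : 0 < δ' := lt_min hδ one_pos
  have hδ'1 : δ' ≤ 1 := min_le_right _ _
  have hd : ∀ s : ℝ, s ≤ 1 → MData P ψ p (Ω ∪ stG p Ω a δ' s) (stG p Ω a δ' s) δ' :=
    fun s h1 => mdata_step hs hp hmono hone a hδ'0 hδ'1 h1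
  have d1 := hd 1 le_rfl
  have hdisj : ∀ s, Disjoint Ω (stG p Ω a δ' s) := fun s => by
    rw [Set.disjoint_left]
    intro x hx hx'
    exact hx'.2.1 hx
  have hsd : ∀ s, (Ω ∪ stG p Ω a δ' s) \ stG p Ω a δ' s = Ω := fun s =>
    union_sdiff_cancel_right (Set.disjoint_iff.1 (hdisj s))
  have hfix : ∀ s, s ≤ 1 → ∀ f, Phi P p (Ω ∪ stG p Ω a δ' s) (Q Ω f) = Q Ω f := by
    intro s hs1 f
    have := (hd s hs1).phi_fix f
    rwa [hsd s] at this
  refine ⟨stG p Ω a δ' 1, Phi P p (Ω ∪ stG p Ω a δ' 1), PN P p (Ω ∪ stG p Ω a δ' 1),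
    psiN P ψ p (Ω ∪ stG p Ω a δ' 1) (stG p Ω a δ' 1),
    fun s => psiN P ψ p (Ω ∪ stG p Ω a δ' (min s 1)) (stG p Ω a δ' (min s 1)), ?_⟩
  refine
    { measG := d1.measG
      disj := hdisj 1
      sub := fun x hx => hx.1
      small := ?_
      st := ⟨d1.isGM, d1.measL, d1.half, d1.absb, d1.PN_Q⟩
      adj1 := d1.adj_phi
      adj2 := fun f => rfl
      comm := d1.phi_pcomm
      fix := hfix 1 le_rfl
      vanish := fun g hg => d1.phi_vanish hg
      inter := fun g hg h0 => d1.phi_Dsymm hg h0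
      off := fun χ hχ h0 => d1.psiN_off hχ h0
      γ0 := ?_
      γ1 := ?_
      cont := ?_
      wav := fun s _ => (hd _ (min_le_right s 1)).isGM.isWav
      ctrl := ?_ }
  · intro A hA hAa hA2 hAd f
    have h1 := hp.norm_Q_le hs.gm.proj a hA hAa (δ := δ') hδ'0.le (ae_of_all _ fun x hx => by
      by_contra hlt
      rw [not_le] at hlt
      have hx1 : x ∉ Ω ∪ stG p Ω a δ' 1 := fun h => (Set.disjoint_left.1 hAd hx) h
      exact hx1 (Or.inr ⟨hAa hx, fun h => hx1 (Or.inl h), hA2 x hx, hlt.le⟩)) f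
    exact h1.trans (mul_le_mul_of_nonneg_right (min_le_left _ _) (sq_nonneg _))
  · -- at s = 0
    have h0 : (min (0:ℝ) 1) = 0 := min_eq_left zero_le_one
    simp only [h0]
    have he : stG p Ω a δ' 0 = ∅ := by
      rw [Set.eq_empty_iff_forall_notMem]
      rintro x ⟨⟨hx1, hx2⟩, -⟩
      linarith
    have d0 := hd 0 zero_le_one
    rw [he, union_empty] at d0 ⊢
    have hper : Per (fun _ : ℝ => (1:ℂ)) :=
      { meas := measurable_const
        bdd := ⟨‖(1:ℂ)‖, fun _ => le_rfl⟩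
        per := fun _ => rfl }
    have h1 := d0.psiN_off hper (fun x hx => absurd hx (notMem_empty x))
    rw [M_one, M_one] at h1
    rw [h1]
    -- `Φ = P`
    have hr : ∀ᵐ x : ℝ, rr p Ω x = 1 := by
      refine ae_of_all _ fun x => ?_
      unfold rr
      by_cases hex : ∃ n : ℕ, x / 2 ^ n ∈ Ω
      · rw [dif_pos hex]
        have hmem := Nat.find_spec hex
        unfold wt
        rw [indicator_of_mem hmem, hone _ hmem, Real.sqrt_one, inv_one, Complex.ofReal_one]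
      · rw [dif_neg hex]
    have hPhi : ∀ f, Phi P p Ω f = P f := by
      intro f
      have h2 := d0.star f
      rw [M_congr d0.rr_bm (BM.const 1) hr, M_one] at h2
      have h3 : ‖P (Phi P p Ω f)‖ = ‖Phi P p Ω f‖ := by rw [h2, d0.phi_norm]
      rw [← hs.gm.proj.eq_of_norm h3, h2]
    rw [hPhi, hs.gm.P_Dsymm_psi, LinearIsometryEquiv.apply_symm_apply]
  · simp only [min_self]
  · intro s0 hs0
    refine (Tendsto.mono_left ?_ nhdsWithin_le_nhds)
    refine cont_move (δ := δ') (fun s => hd _ (min_le_right s 1)) (hd _ (min_le_right s0 1)) ?_ ?_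
    · intro s x hx
      rcases hx with ⟨h1 | h1, h2⟩ | ⟨h1 | h1, h2⟩
      · exact absurd (Or.inl h1) h2
      · exact Or.inl ⟨h1, fun h => h2 (Or.inr h)⟩
      · exact absurd (Or.inl h1) h2
      · exact Or.inr ⟨h1, fun h => h2 (Or.inr h)⟩
    · have h4 : Tendsto (fun x : ℝ => ENNReal.ofReal |min x 1 - min s0 1|) (𝓝 s0) (𝓝 0) := by
        have h5 : Tendsto (fun x : ℝ => |min x 1 - min s0 1|) (𝓝 s0) (𝓝 |min s0 1 - min s0 1|) :=
          (Continuous.tendsto (by fun_prop) s0)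
        have h6 := ENNReal.tendsto_ofReal h5
        simpa using h6
      exact tendsto_of_tendsto_of_tendsto_of_le_of_le tendsto_const_nhds h4
        (fun _ => bot_le) (fun i => stG_vol_symmDiff _ _)
  · intro s _
    have d := hd _ (min_le_right s 1)
    refine ⟨Phi P p (Ω ∪ stG p Ω a δ' (min s 1)), fun f => ?_, hfix _ (min_le_right s 1),
      fun χ hχ h0 => d.psiN_off hχ fun x hx => h0 x (stG_mono (min_le_right s 1) hx)⟩
    rw [d.phi_norm]
    exact hs.gm.proj.norm_le f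

end Pool.Agent.Wav
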