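import Pool.Agent.Lib.MP_0a5c67_an.D1
import Pool.Agent.Lib.MP_0a5c67_an.B2
import Pool.Agent.Lib.MP_0a5c67_an.E1

/-! Task D2: iteration of the step; every wavelet is joined to an MSF wavelet. -/

set_option autoImplicit false

open MeasureTheory Filter Topology Set
open scoped ENNReal InnerProductSpace ComplexConjugate

noncomputable section

namespace Pool.Agent.Wav

/-- a run of the construction -/
structure Run (P : ℕ → H →L[ℂ] H) (ψ : ℕ → H) (Ω : ℕ → Set ℝ) (a : ℕ → ℤ) (δ : ℕ → ℝ)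
    (G : ℕ → Set ℝ) (F : ℕ → H →L[ℂ] H) (γ : ℕ → ℝ → H) : Prop where
  step : ∀ i, Step (P i) (ψ i) (Ω i) (a i) (δ i) (G i) (F i) (P (i + 1)) (ψ (i + 1)) (γ i)
  succ : ∀ i, Ω (i + 1) = Ω i ∪ G i
  st : St (P 0) (ψ 0) (Ω 0)
  often : ∀ b : ℤ, ∃ᶠ i in atTop, a i = b
  δlim : Tendsto δ atTop (𝓝 0)

/-- states of the construction -/
structure RunState where
  P : H →L[ℂ] H
  ψ : H
  Ω : Set ℝ
  st : St P ψ Ω

theorem exists_run {P : H →L[ℂ] H} {ψ : H} {Ω : Set ℝ} (hs : St P ψ Ω) :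
    ∃ P' ψ' Ω' a δ G F γ, Run P' ψ' Ω' a δ G F γ ∧ P' 0 = P ∧ ψ' 0 = ψ ∧ Ω' 0 = Ω := by
  classical
  let a : ℕ → ℤ := fun i => Denumerable.ofNat ℤ (Nat.unpair i).1
  let δ : ℕ → ℝ := fun i => 1 / ((i : ℝ) + 1)
  have hδ : ∀ i, 0 < δ i := fun i => by positivity
  have step : ∀ (i : ℕ) (s : RunState), ∃ (G : Set ℝ) (F : H →L[ℂ] H) (γ : ℝ → H)
      (s' : RunState), Step s.P s.ψ s.Ω (a i) (δ i) G F s'.P s'.ψ γ ∧ s'.Ω = s.Ω ∪ G := by
    intro i s
    obtain ⟨G, F, P', ψ', γ, hstep⟩ := exists_step s.st (a i) (hδ i)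
    exact ⟨G, F, γ, ⟨P', ψ', s.Ω ∪ G, hstep.st⟩, hstep, rfl⟩
  choose Gf Ff γf nx h1 h2 using step
  let S : ℕ → RunState := fun n => Nat.rec ⟨P, ψ, Ω, hs⟩ (fun i s => nx i s) n
  have hS : ∀ i, S (i + 1) = nx i (S i) := fun i => rfl
  refine ⟨fun i => (S i).P, fun i => (S i).ψ, fun i => (S i).Ω, a, δ, fun i => Gf i (S i),
    fun i => Ff i (S i), fun i => γf i (S i), ⟨?_, ?_, hs, ?_, ?_⟩, rfl, rfl, rfl⟩
  · intro i
    exact h1 i (S i)
  · intro i
    exact h2 i (S i)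
  · intro b
    rw [frequently_atTop]
    intro N
    refine ⟨Nat.pair (Encodable.encode b) N, Nat.right_le_pair _ _, ?_⟩
    change Denumerable.ofNat ℤ (Nat.unpair (Nat.pair (Encodable.encode b) N)).1 = b
    rw [Nat.unpair_pair]
    exact Denumerable.ofNat_encode b
  · exact tendsto_one_div_add_atTop_nhds_zero_nat

variable {P : ℕ → H →L[ℂ] H} {ψ : ℕ → H} {Ω : ℕ → Set ℝ} {a : ℕ → ℤ} {δ : ℕ → ℝ}
    {G : ℕ → Set ℝ} {F : ℕ → H →L[ℂ] H} {γ : ℕ → ℝ → H}

theorem Run.stI (R : Run P ψ Ω a δ G F γ) (i : ℕ) : St (P i) (ψ i) (Ω i) := by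
  cases i with
  | zero => exact R.st
  | succ i =>
    rw [R.succ i]
    exact (R.step i).st

theorem Run.mono (R : Run P ψ Ω a δ G F γ) : Monotone Ω := by
  refine monotone_nat_of_le_succ fun i => ?_
  rw [R.succ i]
  exact subset_union_left

theorem Run.measΩ (R : Run P ψ Ω a δ G F γ) (i : ℕ) : MeasurableSet (Ω i) := (R.stI i).meas

theorem Run.proj (R : Run P ψ Ω a δ G F γ) (i : ℕ) : Proj (P i) := (R.stI i).gm.proj

theorem Run.PQ (R : Run P ψ Ω a δ G F γ) (i : ℕ) (f : H) : P i (Q (Ω i) f) = Q (Ω i) f :=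
  (R.stI i).fix f

theorem Run.QP (R : Run P ψ Ω a δ G F γ) (i : ℕ) (f : H) : Q (Ω i) (P i f) = Q (Ω i) f :=
  (R.proj i).le_symm (proj_Q (R.measΩ i)) (R.PQ i) f

theorem Run.QQ (R : Run P ψ Ω a δ G F γ) {i j : ℕ} (hij : i ≤ j) (f : H) :
    Q (Ω j) (Q (Ω i) f) = Q (Ω i) f := by
  rw [Q_Q (R.measΩ j) (R.measΩ i), inter_eq_self_of_subset_right (R.mono hij)]

theorem Run.QQ' (R : Run P ψ Ω a δ G F γ) {i j : ℕ} (hij : i ≤ j) (f : H) :
    Q (Ω i) (Q (Ω j) f) = Q (Ω i) f := by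
  rw [Q_Q (R.measΩ i) (R.measΩ j), inter_eq_self_of_subset_left (R.mono hij)]

theorem Run.FQ (R : Run P ψ Ω a δ G F γ) {i j : ℕ} (hij : i ≤ j) (f : H) :
    F j (Q (Ω i) f) = Q (Ω i) f := by
  rw [← R.QQ hij, (R.step j).fix]

theorem Run.adjFQ (R : Run P ψ Ω a δ G F γ) {i j : ℕ} (hij : i ≤ j) (f : H) :
    ContinuousLinearMap.adjoint (F j) (Q (Ω i) f) = Q (Ω i) f := by
  have h1 := (R.step j).adj1 (Q (Ω i) f)
  rw [R.FQ hij] at h1
  rw [h1, ← R.QQ hij, R.PQ]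

theorem Run.QF (R : Run P ψ Ω a δ G F γ) {i j : ℕ} (hij : i ≤ j) (f : H) :
    Q (Ω i) (F j f) = Q (Ω i) f := by
  refine ext_inner_right ℂ fun g => ?_
  rw [(proj_Q (R.measΩ i)).symm, (proj_Q (R.measΩ i)).symm,
    ← ContinuousLinearMap.adjoint_inner_right, R.adjFQ hij]

theorem Run.norm_F (R : Run P ψ Ω a δ G F γ) (i : ℕ) (f : H) : ‖F i f‖ = ‖P i f‖ := by
  have h1 : (((‖F i f‖ ^ 2 : ℝ)) : ℂ) = ((‖P i f‖ ^ 2 : ℝ) : ℂ) := by
    rw [(R.proj i).norm_sq, ← (R.step i).adj1 f, ContinuousLinearMap.adjoint_inner_left]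
    rw [inner_self_eq_norm_sq_to_K]
    push_cast
    rfl
  have h2 : ‖F i f‖ ^ 2 = ‖P i f‖ ^ 2 := by exact_mod_cast h1
  exact (sq_eq_sq₀ (norm_nonneg _) (norm_nonneg _)).1 h2

theorem Run.F_le (R : Run P ψ Ω a δ G F γ) (i : ℕ) (f : H) : ‖F i f‖ ≤ ‖f‖ := by
  rw [R.norm_F]
  exact (R.proj i).norm_le f

theorem Run.F_P (R : Run P ψ Ω a δ G F γ) (i : ℕ) (f : H) : F i (P i f) = F i f := by
  have h1 : ‖F i (f - P i f)‖ = 0 := by
    rw [R.norm_F, map_sub, (R.proj i).idem, sub_self, norm_zero]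
  rw [norm_eq_zero, map_sub, sub_eq_zero] at h1
  exact h1.symm

theorem Run.P_F (R : Run P ψ Ω a δ G F γ) (i : ℕ) (f : H) : P (i + 1) (F i f) = F i f := by
  rw [← (R.step i).adj2, (R.step i).adj1, R.F_P]

theorem Run.norm_adjF (R : Run P ψ Ω a δ G F γ) (i : ℕ) (f : H) :
    ‖ContinuousLinearMap.adjoint (F i) f‖ = ‖P (i + 1) f‖ := by
  have h1 : (((‖ContinuousLinearMap.adjoint (F i) f‖ ^ 2 : ℝ)) : ℂ) =
      ((‖P (i + 1) f‖ ^ 2 : ℝ) : ℂ) := by
    rw [(R.proj (i + 1)).norm_sq, ← (R.step i).adj2 f,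
      ← ContinuousLinearMap.adjoint_inner_right, inner_self_eq_norm_sq_to_K]
    push_cast
    rfl
  have h2 : ‖ContinuousLinearMap.adjoint (F i) f‖ ^ 2 = ‖P (i + 1) f‖ ^ 2 := by exact_mod_cast h1
  exact (sq_eq_sq₀ (norm_nonneg _) (norm_nonneg _)).1 h2

theorem Run.P_adjF (R : Run P ψ Ω a δ G F γ) (i : ℕ) (f : H) :
    P i (ContinuousLinearMap.adjoint (F i) f) = ContinuousLinearMap.adjoint (F i) f := by
  refine ext_inner_right ℂ fun g => ?_
  rw [(R.proj i).symm, ContinuousLinearMap.adjoint_inner_left,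
    ContinuousLinearMap.adjoint_inner_left, R.F_P]

/-- the composition of the maps `F` -/
def D2Psi (P0 : H →L[ℂ] H) (F : ℕ → H →L[ℂ] H) : ℕ → H →L[ℂ] H
  | 0 => P0
  | n + 1 => F n ∘L D2Psi P0 F n

theorem d2Psi_succ (P0 : H →L[ℂ] H) (F : ℕ → H →L[ℂ] H) (n : ℕ) (f : H) :
    D2Psi P0 F (n + 1) f = F n (D2Psi P0 F n f) := rfl

theorem Run.P_Psi (R : Run P ψ Ω a δ G F γ) (i : ℕ) (f : H) :
    P i (D2Psi (P 0) F i f) = D2Psi (P 0) F i f := by
  cases i with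
  | zero => exact (R.proj 0).idem f
  | succ i => rw [d2Psi_succ, R.P_F]

theorem Run.norm_Psi (R : Run P ψ Ω a δ G F γ) (i : ℕ) (f : H) :
    ‖D2Psi (P 0) F i f‖ = ‖P 0 f‖ := by
  induction i with
  | zero => rfl
  | succ i ih => rw [d2Psi_succ, R.norm_F, R.P_Psi, ih]

theorem Run.Psi_P (R : Run P ψ Ω a δ G F γ) (i : ℕ) (f : H) :
    D2Psi (P 0) F i (P 0 f) = D2Psi (P 0) F i f := by
  have h1 : ‖D2Psi (P 0) F i (f - P 0 f)‖ = 0 := by
    rw [R.norm_Psi, map_sub, (R.proj 0).idem, sub_self, norm_zero]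
  rw [norm_eq_zero, map_sub, sub_eq_zero] at h1
  exact h1.symm

theorem Run.Psi_pcomm (R : Run P ψ Ω a δ G F γ) (i : ℕ) : PComm (D2Psi (P 0) F i) := by
  induction i with
  | zero => exact (R.stI 0).gm.comm
  | succ i ih =>
    intro m hm f
    rw [d2Psi_succ, ih m hm, (R.step i).comm m hm, d2Psi_succ]

theorem d2adj_Psi_succ (P0 : H →L[ℂ] H) (F : ℕ → H →L[ℂ] H) (n : ℕ) (f : H) :
    ContinuousLinearMap.adjoint (D2Psi P0 F (n + 1)) f =
      ContinuousLinearMap.adjoint (D2Psi P0 F n) (ContinuousLinearMap.adjoint (F n) f) := by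
  refine ext_inner_right ℂ fun g => ?_
  rw [ContinuousLinearMap.adjoint_inner_left, ContinuousLinearMap.adjoint_inner_left,
    ContinuousLinearMap.adjoint_inner_left, d2Psi_succ]

theorem Run.norm_adjPsi (R : Run P ψ Ω a δ G F γ) (i : ℕ) (f : H) :
    ‖ContinuousLinearMap.adjoint (D2Psi (P 0) F i) f‖ = ‖P i f‖ := by
  induction i generalizing f with
  | zero =>
    have : ContinuousLinearMap.adjoint (D2Psi (P 0) F 0) f = P 0 f := by
      refine ext_inner_right ℂ fun g => ?_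
      rw [ContinuousLinearMap.adjoint_inner_left]
      exact ((R.proj 0).symm f g).symm
    rw [this]
  | succ i ih => rw [d2adj_Psi_succ, ih, R.P_adjF, R.norm_adjF]

/-- `Ψ_i Ψ_i* = P_i` -/
theorem Run.Psi_adj (R : Run P ψ Ω a δ G F γ) (i : ℕ) (f : H) :
    D2Psi (P 0) F i (ContinuousLinearMap.adjoint (D2Psi (P 0) F i) f) = P i f := by
  induction i generalizing f with
  | zero =>
    have : ContinuousLinearMap.adjoint (D2Psi (P 0) F 0) f = P 0 f := by
      refine ext_inner_right ℂ fun g => ?_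
      rw [ContinuousLinearMap.adjoint_inner_left]
      exact ((R.proj 0).symm f g).symm
    rw [this]
    exact (R.proj 0).idem f
  | succ i ih => rw [d2adj_Psi_succ, d2Psi_succ, ih, R.P_adjF, (R.step i).adj2]

theorem Run.P_adjPsi (R : Run P ψ Ω a δ G F γ) (i : ℕ) (f : H) :
    P 0 (ContinuousLinearMap.adjoint (D2Psi (P 0) F i) f) =
      ContinuousLinearMap.adjoint (D2Psi (P 0) F i) f := by
  refine ext_inner_right ℂ fun g => ?_
  rw [(R.proj 0).symm, ContinuousLinearMap.adjoint_inner_left,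
    ContinuousLinearMap.adjoint_inner_left, R.Psi_P]

/-- `Ψ_i* Ψ_i = P_0` -/
theorem Run.adj_Psi (R : Run P ψ Ω a δ G F γ) (i : ℕ) (f : H) :
    ContinuousLinearMap.adjoint (D2Psi (P 0) F i) (D2Psi (P 0) F i f) = P 0 f := by
  have h1 : ∀ g, ContinuousLinearMap.adjoint (D2Psi (P 0) F i) (D2Psi (P 0) F i g) = P 0 g := by
    induction i with
    | zero =>
      intro g
      have : ContinuousLinearMap.adjoint (D2Psi (P 0) F 0) (D2Psi (P 0) F 0 g) = P 0 (P 0 g) := by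
        refine ext_inner_right ℂ fun k => ?_
        rw [ContinuousLinearMap.adjoint_inner_left]
        exact ((R.proj 0).symm _ k).symm
      rw [this, (R.proj 0).idem]
    | succ i ih =>
      intro g
      rw [d2adj_Psi_succ, d2Psi_succ, (R.step i).adj1, R.P_Psi, ih]
  exact h1 f

theorem Run.Q_Psi (R : Run P ψ Ω a δ G F γ) {i l : ℕ} (hil : i ≤ l) (f : H) :
    Q (Ω i) (D2Psi (P 0) F l f) = Q (Ω i) (D2Psi (P 0) F i f) := by
  induction l, hil using Nat.le_induction with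
  | base => rfl
  | succ l hl ih => rw [d2Psi_succ, R.QF hl, ih]

/-- vectors never seen by the absorbed sets -/
def D2Ghost (P : ℕ → H →L[ℂ] H) (Ω : ℕ → Set ℝ) (F : ℕ → H →L[ℂ] H) (v : H) : Prop :=
  P 0 v = v ∧ ∀ i, Q (Ω i) (D2Psi (P 0) F i v) = 0

theorem Run.ghost_succ (R : Run P ψ Ω a δ G F γ) {v : H} (hv : D2Ghost P Ω F v) (i : ℕ) :
    Q (Ω (i + 1)) (D2Psi (P 0) F i v) = 0 := by
  have h1 := (R.step i).vanish (D2Psi (P 0) F i v) (R.P_Psi i v)
  rw [← R.succ i] at h1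
  exact h1.1 (hv.2 (i + 1))

theorem Run.ghost_Psi (R : Run P ψ Ω a δ G F γ) {v : H} (hv : D2Ghost P Ω F v) (i : ℕ) :
    D2Psi (P 0) F i (D.symm v) = D.symm (D2Psi (P 0) F i v) := by
  induction i with
  | zero =>
    change P 0 (D.symm v) = D.symm (P 0 v)
    rw [← hv.1, (R.stI 0).gm.P_Dsymm, hv.1, hv.1]
  | succ i ih =>
    have h2 := R.ghost_succ hv i
    rw [R.succ i] at h2
    rw [d2Psi_succ, ih, (R.step i).inter _ (R.P_Psi i v) h2, d2Psi_succ]

/-- multiplication of a set by two -/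
def d2two (A : Set ℝ) : Set ℝ := (fun x => x / 2) ⁻¹' A

theorem d2two_meas {A : Set ℝ} (hA : MeasurableSet A) : MeasurableSet (d2two A) :=
  (measurable_id.div_const 2) hA

theorem Run.ghost_two (R : Run P ψ Ω a δ G F γ) {v : H} (hv : D2Ghost P Ω F v) {i l : ℕ}
    (hil : i ≤ l) : Q (d2two (Ω i)) (D2Psi (P 0) F l v) = Q (d2two (Ω i)) (D2Psi (P 0) F i v) := by
  have h1 := congrArg D (R.Q_Psi hil (D.symm v))
  rw [R.ghost_Psi hv, R.ghost_Psi hv, D_Q (R.measΩ i), D_Q (R.measΩ i)] at h1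
  simpa [d2two] using h1

theorem Run.ghost_zero (R : Run P ψ Ω a δ G F γ) {v : H} (hv : D2Ghost P Ω F v) (i : ℕ) :
    Q (d2two (Ω i)) (D2Psi (P 0) F i v) = 0 := by
  set w := D2Psi (P 0) F i v with hw
  have hm2 := d2two_meas (R.measΩ i)
  -- on the absorbed sets
  have h1 : ∀ l, i ≤ l → ∀ᵐ x, x ∈ d2two (Ω i) → x ∈ Ω l → w x = 0 := by
    intro l hl
    have h3 : Q (d2two (Ω i) ∩ Ω l) w = 0 := by
      rw [inter_comm, ← Q_Q (R.measΩ l) hm2, hw, ← R.ghost_two hv hl, Q_Q (R.measΩ l) hm2,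
        inter_comm, ← Q_Q hm2 (R.measΩ l), hv.2 l, map_zero]
    have h4 := (Q_eq_zero_iff (hm2.inter (R.measΩ l)) w).1 h3
    filter_upwards [h4] with x hx h5 h6
    exact hx ⟨h5, h6⟩
  -- off the absorbed sets
  have h2 : ∀ b : ℤ, ∀ᵐ x, x ∈ (d2two (Ω i) \ ⋃ l, Ω l) ∩ Ico (b : ℝ) (b + 1) → w x = 0 := by
    intro b
    set A := (d2two (Ω i) \ ⋃ l, Ω l) ∩ Ico (b : ℝ) (b + 1) with hA
    have hAm : MeasurableSet A :=
      (hm2.diff (MeasurableSet.iUnion R.measΩ)).inter measurableSet_Ico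
    rw [← Q_eq_zero_iff hAm]
    have hAi : A ⊆ d2two (Ω i) := fun x hx => hx.1.1
    have h3 : ∀ l, i ≤ l → a l = b → ‖Q A w‖ ^ 2 ≤ δ l * ‖v‖ ^ 2 := by
      intro l hl hab
      have h4 : Q A w = Q A (D2Psi (P 0) F l v) := by
        have h5 : Q A (Q (d2two (Ω i)) (D2Psi (P 0) F l v)) = Q A (Q (d2two (Ω i)) w) := by
          rw [R.ghost_two hv hl]
        rw [Q_Q hAm hm2, Q_Q hAm hm2, inter_eq_self_of_subset_left hAi] at h5
        exact h5.symm
      rw [h4, ← R.P_Psi l v]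
      refine ((R.step l).small A hAm ?_ ?_ ?_ _).trans ?_
      · rw [hab]
        exact fun x hx => hx.2
      · intro x hx
        exact R.mono hl (hAi hx)
      · rw [← R.succ l, Set.disjoint_left]
        intro x hx hx2
        exact hx.1.2 (mem_iUnion.2 ⟨_, hx2⟩)
      · rw [R.norm_Psi, hv.1]
    have h6 : ‖Q A w‖ ^ 2 ≤ 0 := by
      by_contra hne
      push Not at hne
      have h7 : Tendsto (fun l => δ l * ‖v‖ ^ 2) atTop (𝓝 (0 * ‖v‖ ^ 2)) :=
        R.δlim.mul_const _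
      rw [zero_mul] at h7
      have h8 : ∀ᶠ l in atTop, δ l * ‖v‖ ^ 2 < ‖Q A w‖ ^ 2 := h7.eventually_lt_const hne
      obtain ⟨l, hl1, hl2, hl3⟩ := ((R.often b).and_eventually
        (h8.and (eventually_ge_atTop i))).exists
      exact absurd (h3 l hl3 hl1) (not_le.2 hl2)
    have h9 : ‖Q A w‖ = 0 := by
      nlinarith [norm_nonneg (Q A w)]
    exact norm_eq_zero.1 h9
  rw [Q_eq_zero_iff hm2]
  have h1' : ∀ᵐ x, ∀ l, i ≤ l → x ∈ d2two (Ω i) → x ∈ Ω l → w x = 0 := by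
    rw [ae_all_iff]
    intro l
    by_cases hl : i ≤ l
    · filter_upwards [h1 l hl] with x hx _ h5 h6
      exact hx h5 h6
    · filter_upwards with x h3
      exact absurd h3 hl
  have h2' : ∀ᵐ x, ∀ b : ℤ, x ∈ (d2two (Ω i) \ ⋃ l, Ω l) ∩ Ico (b : ℝ) (b + 1) → w x = 0 :=
    ae_all_iff.2 h2
  filter_upwards [h1', h2'] with x hx1 hx2 hx
  by_cases hU : x ∈ ⋃ l, Ω l
  · obtain ⟨l, hl⟩ := mem_iUnion.1 hU
    exact hx1 (max i l) (le_max_left _ _) hx (R.mono (le_max_right _ _) hl)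
  · exact hx2 ⌊x⌋ ⟨⟨hx, hU⟩, Int.floor_le x, Int.lt_floor_add_one x⟩

theorem Run.ghost_Dsymm (R : Run P ψ Ω a δ G F γ) {v : H} (hv : D2Ghost P Ω F v) :
    D2Ghost P Ω F (D.symm v) := by
  refine ⟨?_, fun i => ?_⟩
  · rw [← hv.1]
    exact (R.stI 0).gm.P_Dsymm v
  · apply D.injective
    rw [R.ghost_Psi hv, D_Q (R.measΩ i), map_zero]
    simpa [d2two] using R.ghost_zero hv i

theorem Run.ghost_eq_zero (R : Run P ψ Ω a δ G F γ) {v : H} (hv : D2Ghost P Ω F v) : v = 0 := by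
  have h1 : ∀ n : ℕ, D2Ghost P Ω F ((D ^ n).symm v) := by
    intro n
    induction n with
    | zero =>
      rw [pow_zero]
      exact hv
    | succ n ih =>
      have h2 := R.ghost_Dsymm ih
      have h3 : D.symm ((D ^ n).symm v) = (D ^ (n + 1)).symm v := by
        rw [pow_succ]
        rfl
      rwa [h3] at h2
  have h2 : ∀ n : ℕ, ∀ᵐ x, x / 2 ^ n ∈ Ω 0 → v x = 0 := by
    intro n
    have h3 := (h1 n).2 0
    change Q (Ω 0) (P 0 _) = 0 at h3
    rw [(h1 n).1] at h3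
    have h4 := congrArg (D ^ n) h3
    rw [Dpow_Q n (R.measΩ 0), map_zero, LinearIsometryEquiv.apply_symm_apply] at h4
    exact (Q_eq_zero_iff ((measurable_id.div_const _) (R.measΩ 0)) v).1 h4
  have h3 : ∀ᵐ x, v x = 0 := by
    filter_upwards [ae_all_iff.2 h2, (R.stI 0).absb] with x hx1 hx2
    obtain ⟨n, hn⟩ := hx2
    exact hx1 n hn
  ext1
  filter_upwards [h3, Lp.coeFn_zero ℂ 2 (volume : Measure ℝ)] with x hx1 hx2
  rw [hx1, hx2]
  rfl

/-- the part of `V_0` that is absorbed after `n` steps -/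
def D2En (P0 : H →L[ℂ] H) (Ω : ℕ → Set ℝ) (F : ℕ → H →L[ℂ] H) (n : ℕ) : H →L[ℂ] H :=
  ContinuousLinearMap.adjoint (D2Psi P0 F n) ∘L Q (Ω n) ∘L D2Psi P0 F n

theorem d2En_apply (P0 : H →L[ℂ] H) (F : ℕ → H →L[ℂ] H) (n : ℕ) (f : H) :
    D2En P0 Ω F n f = ContinuousLinearMap.adjoint (D2Psi P0 F n) (Q (Ω n) (D2Psi P0 F n f)) := rfl

theorem Run.adjPsi_Q (R : Run P ψ Ω a δ G F γ) {n m : ℕ} (hnm : n ≤ m) (f : H) :
    ContinuousLinearMap.adjoint (D2Psi (P 0) F m) (Q (Ω n) f) =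
      ContinuousLinearMap.adjoint (D2Psi (P 0) F n) (Q (Ω n) f) := by
  induction m, hnm using Nat.le_induction with
  | base => rfl
  | succ m hm ih => rw [d2adj_Psi_succ, R.adjFQ hm, ih]

theorem Run.Psi_adj_Q (R : Run P ψ Ω a δ G F γ) {n m : ℕ} (hnm : n ≤ m) (f : H) :
    D2Psi (P 0) F m (ContinuousLinearMap.adjoint (D2Psi (P 0) F n) (Q (Ω n) f)) = Q (Ω n) f := by
  induction m, hnm using Nat.le_induction with
  | base => rw [R.Psi_adj, R.PQ]
  | succ m hm ih => rw [d2Psi_succ, ih, R.FQ hm]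

theorem Run.En_En (R : Run P ψ Ω a δ G F γ) {n m : ℕ} (hnm : n ≤ m) (f : H) :
    D2En (P 0) Ω F m (D2En (P 0) Ω F n f) = D2En (P 0) Ω F n f := by
  rw [d2En_apply, d2En_apply, R.Psi_adj_Q hnm, R.QQ hnm, R.adjPsi_Q hnm]

theorem Run.En_symm (R : Run P ψ Ω a δ G F γ) (n : ℕ) (f g : H) :
    ⟪D2En (P 0) Ω F n f, g⟫_ℂ = ⟪f, D2En (P 0) Ω F n g⟫_ℂ := by
  rw [d2En_apply, d2En_apply, ContinuousLinearMap.adjoint_inner_left,
    ContinuousLinearMap.adjoint_inner_right, (proj_Q (R.measΩ n)).symm]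

theorem Run.En_proj (R : Run P ψ Ω a δ G F γ) (n : ℕ) : Proj (D2En (P 0) Ω F n) :=
  ⟨fun f => R.En_En le_rfl f, R.En_symm n⟩

theorem Run.norm_En (R : Run P ψ Ω a δ G F γ) (n : ℕ) (f : H) :
    ‖D2En (P 0) Ω F n f‖ = ‖Q (Ω n) (D2Psi (P 0) F n f)‖ := by
  rw [d2En_apply, R.norm_adjPsi, R.PQ]

theorem Run.P_En (R : Run P ψ Ω a δ G F γ) (n : ℕ) (f : H) :
    P 0 (D2En (P 0) Ω F n f) = D2En (P 0) Ω F n f := by
  rw [d2En_apply, R.P_adjPsi]

theorem Run.En_P (R : Run P ψ Ω a δ G F γ) (n : ℕ) (f : H) :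
    D2En (P 0) Ω F n (P 0 f) = D2En (P 0) Ω F n f :=
  (R.proj 0).le_symm (R.En_proj n) (R.P_En n) f

theorem Run.En_sub (R : Run P ψ Ω a δ G F γ) {n m : ℕ} (hnm : n ≤ m) (f : H) :
    ‖D2En (P 0) Ω F m f - D2En (P 0) Ω F n f‖ ^ 2 =
      ‖D2En (P 0) Ω F m f‖ ^ 2 - ‖D2En (P 0) Ω F n f‖ ^ 2 :=
  (R.En_proj m).sub_norm_sq (R.En_proj n) (R.En_En hnm) f

theorem Run.En_tendsto (R : Run P ψ Ω a δ G F γ) (f : H) :
    Tendsto (fun n => D2En (P 0) Ω F n f) atTop (𝓝 (P 0 f)) := by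
  -- the norms converge
  have hmono : Monotone (fun n => ‖D2En (P 0) Ω F n f‖ ^ 2) := by
    intro n m hnm
    have := R.En_sub hnm f
    have h2 := sq_nonneg ‖D2En (P 0) Ω F m f - D2En (P 0) Ω F n f‖
    simp only
    linarith
  have hbdd : BddAbove (range (fun n => ‖D2En (P 0) Ω F n f‖ ^ 2)) := by
    refine ⟨‖f‖ ^ 2, ?_⟩
    rintro _ ⟨n, rfl⟩
    have := (R.En_proj n).norm_le f
    exact pow_le_pow_left₀ (norm_nonneg _) this 2
  have hconv := tendsto_atTop_ciSup hmono hbdd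
  have hcauchy : CauchySeq (fun n => D2En (P 0) Ω F n f) := by
    rw [Metric.cauchySeq_iff']
    intro ε hε
    have h1 := hconv.cauchySeq
    rw [Metric.cauchySeq_iff'] at h1
    obtain ⟨N, hN⟩ := h1 (ε ^ 2) (by positivity)
    refine ⟨N, fun n hn => ?_⟩
    have h2 := hN n hn
    rw [Real.dist_eq] at h2
    have h3 := R.En_sub hn f
    rw [dist_eq_norm]
    have h4 : ‖D2En (P 0) Ω F n f - D2En (P 0) Ω F N f‖ ^ 2 < ε ^ 2 := by
      rw [h3]
      exact (le_abs_self _).trans_lt h2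
    exact lt_of_pow_lt_pow_left₀ 2 hε.le h4
  obtain ⟨e, he⟩ := cauchySeq_tendsto_of_complete hcauchy
  have hg : D2Ghost P Ω F (P 0 f - e) := by
    have h1 : P 0 e = e := by
      have h2 : Tendsto (fun n => P 0 (D2En (P 0) Ω F n f)) atTop (𝓝 (P 0 e)) :=
        ((P 0).continuous.tendsto e).comp he
      simp only [R.P_En] at h2
      exact tendsto_nhds_unique h2 he
    have h3 : ∀ i, D2En (P 0) Ω F i (P 0 f - e) = 0 := by
      intro i
      have h4 : Tendsto (fun n => D2En (P 0) Ω F i (D2En (P 0) Ω F n f)) atTop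
          (𝓝 (D2En (P 0) Ω F i e)) := ((D2En (P 0) Ω F i).continuous.tendsto e).comp he
      have h5 : Tendsto (fun n => D2En (P 0) Ω F i (D2En (P 0) Ω F n f)) atTop
          (𝓝 (D2En (P 0) Ω F i f)) := by
        refine tendsto_const_nhds.congr' ?_
        filter_upwards [eventually_ge_atTop i] with n hn
        exact ((R.En_proj n).le_symm (R.En_proj i) (R.En_En hn) f).symm
      rw [map_sub, R.En_P, tendsto_nhds_unique h5 h4, sub_self]
    refine ⟨?_, fun i => ?_⟩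
    · rw [map_sub, (R.proj 0).idem, h1]
    · have h4 := R.norm_En i (P 0 f - e)
      rw [h3 i, norm_zero] at h4
      exact norm_eq_zero.1 h4.symm
  have h1 := R.ghost_eq_zero hg
  rw [sub_eq_zero] at h1
  rw [h1]
  exact he

theorem Run.exists_vol (R : Run P ψ Ω a δ G F γ) (i : ℕ) :
    volume (Ω i) ≠ ∞ ∧ volume.real (Ω i) ≤ 1 := by
  obtain ⟨t, ht1, ht2⟩ := tr_le (R.proj i) (proj_Q (R.measΩ i)) (R.PQ i) (R.stI i).gm.trace
  have h1 := tr_Q_finite (R.measΩ i) ht2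
  refine ⟨by rw [h1]; exact ENNReal.ofReal_ne_top, ?_⟩
  rw [Measure.real, h1]
  have h2 : 0 ≤ t := ht2.nonneg (fun _ => by positivity)
  rw [ENNReal.toReal_ofReal h2]
  exact ht1

theorem Run.adjPsi_T (R : Run P ψ Ω a δ G F γ) (n : ℕ) (k : ℤ) (f : H) :
    ContinuousLinearMap.adjoint (D2Psi (P 0) F n) (T k f) =
      T k (ContinuousLinearMap.adjoint (D2Psi (P 0) F n) f) := by
  refine ext_inner_right ℂ fun g => ?_
  rw [ContinuousLinearMap.adjoint_inner_left, inner_T, inner_T,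
    ContinuousLinearMap.adjoint_inner_left, (R.Psi_pcomm n).comm_T]

theorem Run.tr_QPsi (R : Run P ψ Ω a δ G F γ) (n : ℕ) :
    HasSum (fun b : ℤ => ‖D2En (P 0) Ω F n (h b)‖ ^ 2) (volume.real (Ω n)) := by
  have h1 : TR (ContinuousLinearMap.adjoint (D2Psi (P 0) F n) ∘L Q (Ω n)) (volume.real (Ω n)) := by
    have h2 := tr_Q (R.measΩ n) (R.exists_vol n).1
    unfold TR at h2 ⊢
    convert h2 using 1
    ext b
    rw [ContinuousLinearMap.comp_apply, R.norm_adjPsi, R.PQ]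
  have h3 := tr_adjoint ?_ h1
  · unfold TR at h3
    convert h3 using 1
    ext b
    rw [R.norm_En]
    congr 2
    refine ext_inner_right ℂ fun g => ?_
    rw [ContinuousLinearMap.adjoint_inner_left, ContinuousLinearMap.comp_apply,
      ContinuousLinearMap.adjoint_inner_right, (proj_Q (R.measΩ n)).symm]
  · intro k f
    rw [ContinuousLinearMap.comp_apply, ContinuousLinearMap.comp_apply,
      (pcomm_Q (R.measΩ n)).comm_T, R.adjPsi_T]

/-- (F1) -/
theorem Run.volume_tendsto (R : Run P ψ Ω a δ G F γ) :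
    Tendsto (fun i => volume.real (Ω i)) atTop (𝓝 1) := by
  have h1 : Tendsto (fun n => ∑' b : ℤ, ‖D2En (P 0) Ω F n (h b)‖ ^ 2) atTop
      (𝓝 (∑' b : ℤ, ‖P 0 (h b)‖ ^ 2)) := by
    refine tendsto_tsum_of_dominated_convergence (bound := fun b => ‖P 0 (h b)‖ ^ 2)
      (R.stI 0).gm.trace.summable ?_ ?_
    · intro b
      exact ((R.En_tendsto (h b)).norm).pow 2
    · refine Eventually.of_forall fun n b => ?_
      rw [Real.norm_of_nonneg (by positivity), ← R.En_P]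
      exact pow_le_pow_left₀ (norm_nonneg _) ((R.En_proj n).norm_le _) 2
  rw [(R.stI 0).gm.trace.tsum_eq] at h1
  refine h1.congr fun n => ?_
  exact (R.tr_QPsi n).tsum_eq

theorem Run.psi_orth (R : Run P ψ Ω a δ G F γ) (i : ℕ) :
    Orthonormal ℂ (fun k : ℤ => T k (ψ i)) := (R.stI i).gm.orth

theorem IsWav.d2_orthT {φ : H} (hφ : IsWav φ) : Orthonormal ℂ (fun k : ℤ => T k φ) := by
  have h1 := hφ.orth.comp (fun k : ℤ => ((0 : ℤ), k)) (fun k l hkl => (Prod.ext_iff.1 hkl).2)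
  convert h1 using 1
  ext1 k
  simp only [Function.comp_apply, zpow_zero]
  rfl

/-- the phases used from time `i` on -/
def D2Bad (G : ℕ → Set ℝ) (i : ℕ) : Set ℝ := {x | ∃ j : ℕ, ∃ k : ℤ, x + k ∈ G (i + j)}

theorem Run.bad_meas (R : Run P ψ Ω a δ G F γ) (i : ℕ) : MeasurableSet (D2Bad G i) := by
  have : D2Bad G i = ⋃ j : ℕ, ⋃ k : ℤ, (fun x : ℝ => x + k) ⁻¹' G (i + j) := by
    ext x
    simp [D2Bad]
  rw [this]
  exact MeasurableSet.iUnion fun j => MeasurableSet.iUnion fun k =>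
    (measurable_id.add_const _) (R.step (i + j)).measG

theorem d2bad_per (G : ℕ → Set ℝ) (i : ℕ) (x : ℝ) : x + 1 ∈ D2Bad G i ↔ x ∈ D2Bad G i := by
  constructor
  · rintro ⟨j, k, hk⟩
    refine ⟨j, k + 1, ?_⟩
    convert hk using 1
    push_cast
    ring
  · rintro ⟨j, k, hk⟩
    refine ⟨j, k - 1, ?_⟩
    convert hk using 1
    push_cast
    ring

theorem Run.bad_vol (R : Run P ψ Ω a δ G F γ) (i : ℕ) :
    volume (D2Bad G i ∩ Ico (0 : ℝ) 1) ≤ ENNReal.ofReal (1 - volume.real (Ω i)) := by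
  have h1 : D2Bad G i ∩ Ico (0 : ℝ) 1 ⊆ ⋃ j : ℕ, (fun x : ℝ => x + a (i + j)) ⁻¹' G (i + j) := by
    rintro x ⟨⟨j, k, hk⟩, hx0, hx1⟩
    refine mem_iUnion.2 ⟨j, ?_⟩
    have h2 := (R.step (i + j)).sub hk
    have h3 : k = a (i + j) := by
      have h4 : ((a (i + j) : ℤ) : ℝ) < k + 1 := by linarith [h2.1]
      have h5 : (k : ℝ) < (a (i + j) : ℤ) + 1 := by linarith [h2.2]
      have h6 : a (i + j) < k + 1 := by exact_mod_cast h4
      have h7 : k < a (i + j) + 1 := by exact_mod_cast h5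
      omega
    rw [mem_preimage, ← h3]
    exact hk
  have h2 : ∀ n : ℕ, volume (Ω i) + ∑ j ∈ Finset.range n, volume (G (i + j)) =
      volume (Ω (i + n)) := by
    intro n
    induction n with
    | zero => simp
    | succ n ih =>
      rw [Finset.sum_range_succ, ← add_assoc, ih, ← add_assoc, R.succ (i + n),
        measure_union (R.step (i + n)).disj (R.step (i + n)).measG]
  have h3 : ∀ n : ℕ, volume (Ω n) ≤ 1 := by
    intro n
    obtain ⟨h4, h5⟩ := R.exists_vol n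
    rw [← ENNReal.ofReal_toReal h4]
    exact ENNReal.ofReal_le_one.2 h5
  have h4 : ∑' j, volume (G (i + j)) ≤ ENNReal.ofReal (1 - volume.real (Ω i)) := by
    rw [ENNReal.tsum_eq_iSup_nat]
    refine iSup_le fun n => ?_
    have h5 := h2 n
    have h6 := h3 (i + n)
    rw [← h5] at h6
    rw [ENNReal.ofReal_sub _ measureReal_nonneg, ENNReal.ofReal_one, Measure.real,
      ENNReal.ofReal_toReal (R.exists_vol i).1]
    refine ENNReal.le_sub_of_add_le_left (R.exists_vol i).1 h6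
  refine (measure_mono h1).trans ((measure_iUnion_le _).trans (le_trans (le_of_eq ?_) h4))
  refine tsum_congr fun j => ?_
  exact measure_preimage_add_right _ _ _

theorem Run.norm_bad (R : Run P ψ Ω a δ G F γ) (i : ℕ) {φ : H}
    (ho : Orthonormal ℂ (fun k : ℤ => T k φ)) :
    ‖Q (D2Bad G i) φ‖ ≤ Real.sqrt (1 - volume.real (Ω i)) := by
  have hper : Per (ind (D2Bad G i)) :=
    { BM.ind (R.bad_meas i) with
      per := fun x => by
        unfold ind
        by_cases hx : x ∈ D2Bad G i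
        · rw [indicator_of_mem hx, indicator_of_mem ((d2bad_per G i x).2 hx)]
        · rw [indicator_of_notMem hx, indicator_of_notMem (fun h => hx ((d2bad_per G i x).1 h))] }
  have h1 := J_norm ho hper
  refine Real.le_sqrt_of_sq_le ?_
  change ‖M (ind (D2Bad G i)) φ‖ ^ 2 ≤ _
  rw [h1]
  have h2 : ∀ x : ℝ, ‖ind (D2Bad G i) x‖ ^ 2 = (D2Bad G i).indicator (fun _ => (1 : ℝ)) x := by
    intro x
    unfold ind
    by_cases hx : x ∈ D2Bad G i <;> simp [hx]
  simp only [h2]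
  rw [setIntegral_indicator (R.bad_meas i), setIntegral_const, smul_eq_mul, mul_one, Measure.real,
    inter_comm]
  refine ENNReal.toReal_le_of_le_ofReal ?_ (R.bad_vol i)
  linarith [(R.exists_vol i).2]

theorem Run.norm_rest (R : Run P ψ Ω a δ G F γ) (i : ℕ) :
    ‖D.symm (ψ i) - Q (Ω i) (D.symm (ψ i))‖ ≤ Real.sqrt (2 * (1 - volume.real (Ω i))) := by
  have hP := R.proj i
  have hQ := proj_Q (R.measΩ i)
  have hZ := hP.sub hQ (R.PQ i)
  have hZc := (R.stI i).gm.comm.sub (pcomm_Q (R.measΩ i))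
  have htr := tr_sub hP hQ (R.PQ i) (R.stI i).gm.trace (tr_Q (R.measΩ i) (R.exists_vol i).1)
  have h1 := norm_sq_le_tr (R.psi_orth i) (proj_cD hZ) (pcomm_cD hZc) (tr_cD hZ hZc htr)
  refine Real.le_sqrt_of_sq_le ?_
  rw [cD_apply, LinearIsometryEquiv.norm_map, sub_apply,
    (R.stI i).gm.P_Dsymm_psi] at h1
  exact h1

theorem Run.exists_comp (R : Run P ψ Ω a δ G F γ) (i : ℕ) {χ : ℝ → ℂ} (hχ : Per χ)
    (h0 : ∀ j, ∀ x ∈ G (i + j), χ x = 0) (n : ℕ) :
    ∃ A : H →L[ℂ] H, (∀ f, ‖A f‖ ≤ ‖f‖) ∧ (∀ f, A (Q (Ω i) f) = Q (Ω i) f) ∧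
      M χ (ψ (i + n)) = D (A (D.symm (M χ (ψ i)))) := by
  induction n with
  | zero => exact ⟨ContinuousLinearMap.id ℂ H, fun f => le_rfl, fun f => rfl, by simp⟩
  | succ n ih =>
    obtain ⟨A, hA1, hA2, hA3⟩ := ih
    refine ⟨F (i + n) ∘L A, fun f => (R.F_le _ _).trans (hA1 f), fun f => ?_, ?_⟩
    · rw [ContinuousLinearMap.comp_apply, hA2, R.FQ (by omega)]
    · rw [← add_assoc, (R.step (i + n)).off χ hχ (h0 n), hA3, LinearIsometryEquiv.symm_apply_apply]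
      rfl

/-- (F2) -/
theorem Run.close (R : Run P ψ Ω a δ G F γ) (i : ℕ) (l : ℕ) (hl : i ≤ l) (s : ℝ)
    (hs : s ∈ Icc (0 : ℝ) 1) :
    ‖γ l s - ψ i‖ ≤ 2 * Real.sqrt (1 - volume.real (Ω i))
      + 2 * Real.sqrt (2 * (1 - volume.real (Ω i))) := by
  obtain ⟨n, rfl⟩ := Nat.exists_eq_add_of_le hl
  set χ : ℝ → ℂ := ind (D2Bad G i)ᶜ with hχd
  have hχ : Per χ :=
    { BM.ind (R.bad_meas i).compl with
      per := fun x => by
        by_cases hx : x ∈ D2Bad G i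
        · rw [hχd, ind_of_notMem (notMem_compl_iff.2 hx),
            ind_of_notMem (notMem_compl_iff.2 ((d2bad_per G i x).2 hx))]
        · rw [hχd, ind_of_mem (mem_compl hx),
            ind_of_mem (mem_compl (fun h => hx ((d2bad_per G i x).1 h)))] }
  have hχ0 : ∀ j, ∀ x ∈ G (i + j), χ x = 0 := by
    intro j x hx
    refine ind_of_notMem (notMem_compl_iff.2 ⟨j, 0, ?_⟩)
    simpa using hx
  obtain ⟨A, hA1, hA2, hA3⟩ := R.exists_comp i hχ hχ0 n
  obtain ⟨Fs, hF1, hF2, hF3⟩ := (R.step (i + n)).ctrl s hs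
  have h1 := hF3 χ hχ (hχ0 n)
  rw [hA3, LinearIsometryEquiv.symm_apply_apply] at h1
  -- the part off the bad set
  have h2 : ‖M χ (γ (i + n) s) - M χ (ψ i)‖ ≤ 2 * Real.sqrt (2 * (1 - volume.real (Ω i))) := by
    set y := D.symm (M χ (ψ i)) with hy
    have h3 : M χ (ψ i) = D y := by rw [hy, LinearIsometryEquiv.apply_symm_apply]
    have h4 : Fs (A (Q (Ω i) y)) = Q (Ω i) y := by
      rw [hA2, ← R.QQ (Nat.le_add_right i n), hF2]
    have h5 : Fs (A y) - y = Fs (A (y - Q (Ω i) y)) - (y - Q (Ω i) y) := by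
      rw [map_sub, map_sub, h4]
      abel
    have h6 : ‖y - Q (Ω i) y‖ ≤ Real.sqrt (2 * (1 - volume.real (Ω i))) := by
      refine le_trans ?_ (R.norm_rest i)
      have h7 : y - Q (Ω i) y =
          M (fun x => χ (2 * x)) (D.symm (ψ i) - Q (Ω i) (D.symm (ψ i))) := by
        rw [map_sub, hy, Dsymm_M hχ.toBM]
        congr 1
        exact M_comm (BM.ind (R.measΩ i)) (hχ.toBM.comp_mul 2) _
      rw [h7]
      refine (norm_M_le (hχ.toBM.comp_mul 2) (C := 1) (fun x => ?_) _).trans (by rw [one_mul])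
      by_cases hx : 2 * x ∈ (D2Bad G i)ᶜ
      · rw [hχd, ind_of_mem hx, norm_one]
      · rw [hχd, ind_of_notMem hx, norm_zero]
        exact zero_le_one
    rw [h1, h3, ← map_sub, LinearIsometryEquiv.norm_map, h5]
    refine (norm_sub_le _ _).trans ?_
    have h8 := (hF1 (A (y - Q (Ω i) y))).trans (hA1 (y - Q (Ω i) y))
    linarith
  have h3 : γ (i + n) s - ψ i = (M χ (γ (i + n) s) - M χ (ψ i)) +
      (Q (D2Bad G i) (γ (i + n) s) - Q (D2Bad G i) (ψ i)) := by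
    have h4 : ∀ f : H, f = M χ f + Q (D2Bad G i) f := by
      intro f
      have h5 := Q_union (R.bad_meas i).compl (R.bad_meas i) disjoint_compl_left f
      rw [compl_union_self, Q_univ] at h5
      exact h5
    conv_lhs => rw [h4 (γ (i + n) s), h4 (ψ i)]
    abel
  rw [h3]
  refine (norm_add_le _ _).trans ?_
  have h4 := norm_sub_le (Q (D2Bad G i) (γ (i + n) s)) (Q (D2Bad G i) (ψ i))
  have h5 := R.norm_bad i ((R.step (i + n)).wav s hs).d2_orthT
  have h6 := R.norm_bad i (R.psi_orth i)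
  linarith

/-- an MSF wavelet, with its set -/
structure IsMSF (ψ : H) (S : Set ℝ) : Prop where
  meas : MeasurableSet S
  half : ∀ x ∈ S, x / 2 ∈ S
  absb : ∀ᵐ x : ℝ, ∃ n : ℕ, x / 2 ^ n ∈ S
  vol : volume S = 1
  gm : IsGM (Q S) ψ
  norm : ∀ᵐ x, ‖ψ x‖ = ({x : ℝ | x / 2 ∈ S} \ S).indicator (fun _ => (1 : ℝ)) x

theorem Run.dist_psi (R : Run P ψ Ω a δ G F γ) {i l : ℕ} (hl : i ≤ l) :
    ‖ψ l - ψ i‖ ≤ 2 * Real.sqrt (1 - volume.real (Ω i))
      + 2 * Real.sqrt (2 * (1 - volume.real (Ω i))) := by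
  have h1 := R.close i l hl 0 ⟨le_rfl, zero_le_one⟩
  rwa [(R.step l).γ0] at h1

theorem Run.bound_tendsto (R : Run P ψ Ω a δ G F γ) :
    Tendsto (fun i => 2 * Real.sqrt (1 - volume.real (Ω i))
      + 2 * Real.sqrt (2 * (1 - volume.real (Ω i)))) atTop (𝓝 0) := by
  have h1 : Tendsto (fun i => 1 - volume.real (Ω i)) atTop (𝓝 (1 - 1)) :=
    tendsto_const_nhds.sub R.volume_tendsto
  rw [sub_self] at h1
  have h2 : Tendsto (fun i => Real.sqrt (1 - volume.real (Ω i))) atTop (𝓝 (Real.sqrt 0)) :=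
    (Real.continuous_sqrt.tendsto 0).comp h1
  have h3 : Tendsto (fun i => Real.sqrt (2 * (1 - volume.real (Ω i)))) atTop
      (𝓝 (Real.sqrt (2 * 0))) := by
    refine (Real.continuous_sqrt.tendsto _).comp (h1.const_mul 2)
  rw [mul_zero, Real.sqrt_zero] at h3
  rw [Real.sqrt_zero] at h2
  simpa using (h2.const_mul 2).add (h3.const_mul 2)

theorem Run.exists_lim (R : Run P ψ Ω a δ G F γ) : ∃ φ : H, Tendsto ψ atTop (𝓝 φ) := by
  apply cauchySeq_tendsto_of_complete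
  rw [Metric.cauchySeq_iff']
  intro ε hε
  obtain ⟨N, hN⟩ := (R.bound_tendsto.eventually_lt_const hε).exists
  refine ⟨N, fun n hn => ?_⟩
  rw [dist_eq_norm]
  exact (R.dist_psi hn).trans_lt hN

theorem d2_orth_lim {ψ : ℕ → H} {φ : H} (ho : ∀ i, Orthonormal ℂ (fun k : ℤ => T k (ψ i)))
    (hφ : Tendsto ψ atTop (𝓝 φ)) : Orthonormal ℂ (fun k : ℤ => T k φ) := by
  apply orth_of_inner
  intro k
  have h1 : Tendsto (fun i => ⟪ψ i, T k (ψ i)⟫_ℂ) atTop (𝓝 ⟪φ, T k φ⟫_ℂ) :=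
    hφ.inner (((T k).continuous.tendsto φ).comp hφ)
  have h2 : ∀ i, ⟪ψ i, T k (ψ i)⟫_ℂ = if k = 0 then 1 else 0 := by
    intro i
    have h3 := (orthonormal_iff_ite.1 (ho i)) 0 k
    rw [T_zero] at h3
    rw [h3]
    congr 1
    exact propext eq_comm
  simp only [h2] at h1
  exact (tendsto_nhds_unique tendsto_const_nhds h1).symm

theorem d2_isDens_Q {S : Set ℝ} (hS : MeasurableSet S) :
    IsDens (Q S) (S.indicator (fun _ => (1 : ℝ))) := by
  refine ⟨measurable_const.indicator hS, fun x => indicator_nonneg (fun _ _ => zero_le_one) x,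
    fun x => indicator_le_self' (fun _ _ => zero_le_one) x |>.trans le_rfl, fun b f hf => ?_⟩
  have h1 : (fun x : ℝ => ((S.indicator (fun _ => (1 : ℝ)) x : ℝ) : ℂ)) = ind S := by
    ext x
    by_cases hx : x ∈ S <;> simp [ind, hx]
  rw [h1, Q_Q measurableSet_Ico hS, inter_comm, ← Q_Q hS measurableSet_Ico, hf]
  rfl

/-- the limit of a run -/
theorem Run.isMSF (R : Run P ψ Ω a δ G F γ) {φ : H} (hφ : Tendsto ψ atTop (𝓝 φ)) :
    IsMSF φ (⋃ i, Ω i) := by
  set S := ⋃ i, Ω i with hSd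
  have hS : MeasurableSet S := MeasurableSet.iUnion R.measΩ
  have hhalf : ∀ x ∈ S, x / 2 ∈ S := by
    intro x hx
    obtain ⟨i, hi⟩ := mem_iUnion.1 hx
    exact mem_iUnion.2 ⟨i, (R.stI i).half x hi⟩
  have habs : ∀ᵐ x : ℝ, ∃ n : ℕ, x / 2 ^ n ∈ S := by
    filter_upwards [(R.stI 0).absb] with x hx
    obtain ⟨n, hn⟩ := hx
    exact ⟨n, mem_iUnion.2 ⟨0, hn⟩⟩
  have hvol : volume S = 1 := by
    have h1 : Tendsto (fun i => volume (Ω i)) atTop (𝓝 (volume S)) :=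
      tendsto_measure_iUnion_atTop R.mono
    have h2 : Tendsto (fun i => ENNReal.ofReal (volume.real (Ω i))) atTop
        (𝓝 (ENNReal.ofReal 1)) := ENNReal.tendsto_ofReal R.volume_tendsto
    rw [ENNReal.ofReal_one] at h2
    refine tendsto_nhds_unique h1 (h2.congr fun i => ?_)
    rw [Measure.real, ENNReal.ofReal_toReal (R.exists_vol i).1]
  have hvolr : volume.real S = 1 := by rw [Measure.real, hvol, ENNReal.toReal_one]
  have ho : Orthonormal ℂ (fun k : ℤ => T k φ) := d2_orth_lim R.psi_orth hφ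
  -- `φ` vanishes on `S`
  have h0 : ∀ j, Q (Ω j) φ = 0 := by
    intro j
    have h1 : Tendsto (fun i => Q (Ω j) (ψ i)) atTop (𝓝 (Q (Ω j) φ)) :=
      ((Q (Ω j)).continuous.tendsto φ).comp hφ
    have h2 : Tendsto (fun i => Q (Ω j) (ψ i)) atTop (𝓝 0) := by
      refine tendsto_const_nhds.congr' ?_
      filter_upwards [eventually_ge_atTop j] with i hi
      rw [← R.QQ' hi, ← R.QP i, (R.stI i).gm.Ppsi, map_zero, map_zero]
    exact tendsto_nhds_unique h1 h2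
  have h0' : ∀ᵐ x, x ∈ S → φ x = 0 := by
    have h1 : ∀ j, ∀ᵐ x, x ∈ Ω j → φ x = 0 := fun j => (Q_eq_zero_iff (R.measΩ j) φ).1 (h0 j)
    filter_upwards [ae_all_iff.2 h1] with x hx hxS
    obtain ⟨j, hj⟩ := mem_iUnion.1 hxS
    exact hx j hj
  -- `φ` is supported in `2 S`
  have h2 : Q S (D.symm φ) = D.symm φ := by
    have h3 : ∀ i, ‖D.symm (ψ i) - Q S (D.symm (ψ i))‖ ≤
        Real.sqrt (2 * (1 - volume.real (Ω i))) := by
      intro i
      refine le_trans ?_ (R.norm_rest i)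
      have h4 : D.symm (ψ i) - Q S (D.symm (ψ i)) =
          Q Sᶜ (D.symm (ψ i) - Q (Ω i) (D.symm (ψ i))) := by
        have h5 := Q_union hS hS.compl disjoint_compl_right (D.symm (ψ i))
        rw [union_compl_self, Q_univ] at h5
        have h6 : Sᶜ ∩ Ω i = ∅ := by
          rw [← disjoint_iff_inter_eq_empty, disjoint_compl_left_iff_subset]
          exact subset_iUnion Ω i
        rw [map_sub, Q_Q hS.compl (R.measΩ i), h6, Q_empty, sub_zero]
        nth_rewrite 1 [h5]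
        abel
      rw [h4]
      exact (proj_Q hS.compl).norm_le _
    have h4 : Tendsto (fun i => ‖D.symm (ψ i) - Q S (D.symm (ψ i))‖) atTop
        (𝓝 ‖D.symm φ - Q S (D.symm φ)‖) := by
      have h5 : Tendsto (fun i => D.symm (ψ i)) atTop (𝓝 (D.symm φ)) :=
        (D.symm.continuous.tendsto φ).comp hφ
      exact (h5.sub (((Q S).continuous.tendsto _).comp h5)).norm
    have h5 : Tendsto (fun i => Real.sqrt (2 * (1 - volume.real (Ω i)))) atTop (𝓝 0) := by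
      have h6 : Tendsto (fun i => 1 - volume.real (Ω i)) atTop (𝓝 (1 - 1)) :=
        tendsto_const_nhds.sub R.volume_tendsto
      rw [sub_self] at h6
      have h7 : Tendsto (fun i => Real.sqrt (2 * (1 - volume.real (Ω i)))) atTop
          (𝓝 (Real.sqrt (2 * 0))) := (Real.continuous_sqrt.tendsto _).comp (h6.const_mul 2)
      rwa [mul_zero, Real.sqrt_zero] at h7
    have h6 := le_of_tendsto_of_tendsto' h4 h5 h3
    have h7 := norm_le_zero_iff.1 h6
    rw [sub_eq_zero] at h7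
    exact h7.symm
  have hm2 := d2two_meas hS
  have h3 : Q (d2two S) φ = φ := by
    have h4 := congrArg D h2
    rw [D_Q hS, LinearIsometryEquiv.apply_symm_apply] at h4
    exact h4
  have hsub : S ⊆ d2two S := fun x hx => hhalf x hx
  -- the measure of `2 S`
  have hv2 : volume (d2two S) = 2 := by
    have h4 : d2two S = (fun x : ℝ => (1 / 2 : ℝ) * x) ⁻¹' S := by
      ext x
      rw [d2two, mem_preimage, mem_preimage, one_div, div_eq_inv_mul]
    rw [h4, Real.volume_preimage_mul_left (by norm_num), hvol, mul_one]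
    norm_num
  set E := d2two S \ S with hE
  have hEm : MeasurableSet E := hm2.diff hS
  have hvE : volume E = 1 := by
    rw [hE, measure_sdiff hsub hS.nullMeasurableSet (by rw [hvol]; exact ENNReal.one_ne_top), hv2,
      hvol, ← one_add_one_eq_two]
    exact ENNReal.add_sub_cancel_right ENNReal.one_ne_top
  have hRφ : Q E φ = φ := by
    rw [Q_eq_self_iff hEm]
    filter_upwards [h0', (Q_eq_self_iff hm2 φ).1 h3] with x hx1 hx2 hx3
    by_cases hx : x ∈ S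
    · exact hx1 hx
    · exact hx2 (fun h => hx3 ⟨h, hx⟩)
  have hPW : ∀ f, Q E f = PW φ f := by
    refine PW_eq_of_tr ho (proj_Q hEm) (pcomm_Q hEm) hRφ ?_
    have h4 := tr_Q hEm (by rw [hvE]; exact ENNReal.one_ne_top)
    rwa [Measure.real, hvE, ENNReal.toReal_one] at h4
  have hgm : IsGM (Q S) φ :=
    { proj := proj_Q hS
      comm := pcomm_Q hS
      orth := ho
      twoscale := by
        intro f
        rw [D_Q hS, LinearIsometryEquiv.apply_symm_apply, ← hPW]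
        have h4 := Q_union hS hEm disjoint_sdiff_right f
        rw [hE, union_sdiff_cancel hsub] at h4
        exact h4
      trace := by
        have h4 := tr_Q hS (by rw [hvol]; exact ENNReal.one_ne_top)
        rwa [hvolr] at h4
      dense := by
        intro f
        have h4 : ∀ n : ℕ, (D ^ n) (Q S ((D ^ n).symm f)) = Q ((fun x => x / 2 ^ n) ⁻¹' S) f := by
          intro n
          rw [Dpow_Q n hS, LinearIsometryEquiv.apply_symm_apply]
        simp only [h4]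
        refine Q_tendsto_of_absorb (fun n => (measurable_id.div_const _) hS) ?_ habs f
        refine monotone_nat_of_le_succ fun n x hx => ?_
        have h5 := hhalf _ hx
        rw [div_div, ← pow_succ] at h5
        exact h5 }
  refine ⟨hS, hhalf, habs, hvol, hgm, ?_⟩
  filter_upwards [hgm.dens_half (d2_isDens_Q hS)] with x hx
  by_cases hxS : x ∈ S
  · have h5 : x / 2 ∈ S := hhalf x hxS
    rw [indicator_of_mem h5, indicator_of_mem hxS] at hx
    rw [indicator_of_notMem (fun h => h.2 hxS)]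
    nlinarith [norm_nonneg (φ x)]
  · rw [indicator_of_notMem hxS] at hx
    by_cases h5 : x / 2 ∈ S
    · rw [indicator_of_mem h5] at hx
      rw [indicator_of_mem (show x ∈ {x : ℝ | x / 2 ∈ S} \ S from ⟨h5, hxS⟩)]
      have h6 : ‖φ x‖ ^ 2 = 1 ^ 2 := by linarith
      exact (sq_eq_sq₀ (norm_nonneg _) zero_le_one).1 h6
    · rw [indicator_of_notMem h5] at hx
      rw [indicator_of_notMem (fun h => h5 h.1)]
      nlinarith [norm_nonneg (φ x)]

/-- Part A of the theorem. -/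
theorem exists_msf {ψ : H} (hψ : IsWav ψ) :
    ∃ (ψ' : H) (S : Set ℝ), IsMSF ψ' S ∧ JoinedIn {φ : H | IsWav φ} ψ ψ' := by
  obtain ⟨P, hP⟩ := hψ.exists_isGM
  obtain ⟨P1, ψ1, Ω1, hst, hj⟩ := initial_move hP
  obtain ⟨P', ψ', Ω', a, δ, G, F, γ, R, h0, h1, h2⟩ := exists_run hst
  obtain ⟨φ, hφ⟩ := R.exists_lim
  have hm := R.isMSF hφ
  refine ⟨φ, _, hm, hj.trans ?_⟩
  rw [← h1]
  refine joinedIn_of_seq γ (fun i => (R.step i).γ0) (fun i => (R.step i).γ1)
    (fun i => (R.step i).cont) (fun i => (R.step i).wav) hm.gm.isWav ?_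
  intro ε hε
  have hb := R.bound_tendsto.eventually_lt_const (half_pos hε)
  have hd : ∀ᶠ i in atTop, dist (ψ' i) φ < ε / 2 :=
    (Metric.tendsto_nhds.1 hφ) (ε / 2) (half_pos hε)
  obtain ⟨N, hN1, hN2⟩ := (hb.and hd).exists
  refine ⟨N, fun i hi s hs => ?_⟩
  have h3 := R.close N i hi s hs
  rw [← dist_eq_norm] at h3
  calc dist (γ i s) φ ≤ dist (γ i s) (ψ' N) + dist (ψ' N) φ := dist_triangle _ _ _
    _ < ε := by linarith

end Pool.Agent.Wav
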