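import Mathlib

/-! Base definitions for the path connectedness of the set of orthonormal wavelets (S03767).
Everything is on the Fourier side: `H = L²(ℝ; ℂ)`. -/

set_option autoImplicit false

open MeasureTheory Filter Topology Set
open scoped ENNReal InnerProductSpace ComplexConjugate

noncomputable section

namespace Pool.Agent.Wav

/-- The Hilbert space. -/
abbrev H : Type := Lp ℂ 2 (volume : Measure ℝ)

/-- bounded measurable symbols -/
structure BM (m : ℝ → ℂ) : Prop where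
  meas : Measurable m
  bdd : ∃ C : ℝ, ∀ x, ‖m x‖ ≤ C

/-- bounded measurable `1`-periodic symbols -/
structure Per (m : ℝ → ℂ) : Prop extends BM m where
  per : ∀ x, m (x + 1) = m x

lemma memLp_mul {m : ℝ → ℂ} (hm : BM m) (f : H) : MemLp (fun x => m x * f x) 2 volume := by
  obtain ⟨C, hC⟩ := hm.bdd
  refine (Lp.memLp f).of_le_mul (c := C)
    (hm.meas.aestronglyMeasurable.mul (Lp.aestronglyMeasurable f)) (ae_of_all _ fun x => ?_)
  rw [norm_mul]
  exact mul_le_mul_of_nonneg_right (hC x) (norm_nonneg _)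

lemma norm_sq_eq (f : H) : ‖f‖ ^ 2 = ∫ x, ‖f x‖ ^ 2 := by
  have h := @inner_self_eq_norm_sq ℂ H _ _ _ f
  rw [← h, L2.inner_def]
  rw [← integral_re (L2.integrable_inner f f)]
  refine integral_congr_ae (ae_of_all _ fun x => ?_)
  simp only [inner_self_eq_norm_sq]

/-- Multiplication operator. -/
def M (m : ℝ → ℂ) : H →L[ℂ] H := by
  classical
  exact if hm : BM m then
    LinearMap.mkContinuousOfExistsBound
      { toFun := fun f => (memLp_mul hm f).toLp _
        map_add' := fun f g => by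
          ext1
          refine (MemLp.coeFn_toLp _).trans ?_
          refine EventuallyEq.trans ?_ (Lp.coeFn_add _ _).symm
          filter_upwards [Lp.coeFn_add f g, (memLp_mul hm f).coeFn_toLp,
            (memLp_mul hm g).coeFn_toLp] with x h1 h2 h3
          rw [h1, Pi.add_apply, Pi.add_apply, h2, h3, mul_add]
        map_smul' := fun c f => by
          ext1
          refine (MemLp.coeFn_toLp _).trans ?_
          refine EventuallyEq.trans ?_ (Lp.coeFn_smul _ _).symm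
          filter_upwards [Lp.coeFn_smul c f, (memLp_mul hm f).coeFn_toLp] with x h1 h2
          rw [h1, Pi.smul_apply, Pi.smul_apply, h2]
          simp only [smul_eq_mul, RingHom.id_apply]
          ring }
      (by
        obtain ⟨C, hC⟩ := hm.bdd
        refine ⟨C, fun f => ?_⟩
        refine Lp.norm_le_mul_norm_of_ae_le_mul ?_
        filter_upwards [(memLp_mul hm f).coeFn_toLp] with x hx
        change ‖((memLp_mul hm f).toLp _ : H) x‖ ≤ _
        rw [hx, norm_mul]
        exact mul_le_mul_of_nonneg_right (hC x) (norm_nonneg _))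
  else 0

lemma M_ae {m : ℝ → ℂ} (hm : BM m) (f : H) : M m f =ᵐ[volume] fun x => m x * f x := by
  have : M m f = (memLp_mul hm f).toLp _ := by
    unfold M
    rw [dif_pos hm]
    rfl
  rw [this]
  exact (memLp_mul hm f).coeFn_toLp

lemma BM.mul {m n : ℝ → ℂ} (hm : BM m) (hn : BM n) : BM (fun x => m x * n x) := by
  obtain ⟨C, hC⟩ := hm.bdd
  obtain ⟨C', hC'⟩ := hn.bdd
  refine ⟨hm.meas.mul hn.meas, C * C', fun x => ?_⟩
  rw [norm_mul]
  exact mul_le_mul (hC x) (hC' x) (norm_nonneg _) ((norm_nonneg _).trans (hC x))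

lemma BM.add {m n : ℝ → ℂ} (hm : BM m) (hn : BM n) : BM (fun x => m x + n x) := by
  obtain ⟨C, hC⟩ := hm.bdd
  obtain ⟨C', hC'⟩ := hn.bdd
  exact ⟨hm.meas.add hn.meas, C + C', fun x => (norm_add_le _ _).trans (add_le_add (hC x) (hC' x))⟩

lemma BM.sub {m n : ℝ → ℂ} (hm : BM m) (hn : BM n) : BM (fun x => m x - n x) := by
  obtain ⟨C, hC⟩ := hm.bdd
  obtain ⟨C', hC'⟩ := hn.bdd
  exact ⟨hm.meas.sub hn.meas, C + C', fun x => (norm_sub_le _ _).trans (add_le_add (hC x) (hC' x))⟩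

lemma BM.const (c : ℂ) : BM (fun _ => c) := ⟨measurable_const, ‖c‖, fun _ => le_rfl⟩

lemma BM.star {m : ℝ → ℂ} (hm : BM m) : BM (fun x => conj (m x)) := by
  obtain ⟨C, hC⟩ := hm.bdd
  exact ⟨Complex.continuous_conj.measurable.comp hm.meas, C, fun x => by simpa using hC x⟩

lemma BM.comp_mul {m : ℝ → ℂ} (hm : BM m) (c : ℝ) : BM (fun x => m (c * x)) := by
  obtain ⟨C, hC⟩ := hm.bdd
  exact ⟨hm.meas.comp (measurable_const_mul c), C, fun x => hC _⟩

lemma BM.comp_div {m : ℝ → ℂ} (hm : BM m) (c : ℝ) : BM (fun x => m (x / c)) := by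
  obtain ⟨C, hC⟩ := hm.bdd
  exact ⟨hm.meas.comp (measurable_id.div_const c), C, fun x => hC _⟩

/-- the symbol of a projection on a set -/
def ind (A : Set ℝ) : ℝ → ℂ := A.indicator (fun _ => (1 : ℂ))

lemma BM.ind {A : Set ℝ} (hA : MeasurableSet A) : BM (ind A) := by
  refine ⟨measurable_const.indicator hA, 1, fun x => ?_⟩
  unfold Wav.ind
  by_cases h : x ∈ A <;> simp [h]

lemma ind_of_mem {A : Set ℝ} {x : ℝ} (h : x ∈ A) : ind A x = 1 := by simp [ind, h]
lemma ind_of_notMem {A : Set ℝ} {x : ℝ} (h : x ∉ A) : ind A x = 0 := by simp [ind, h]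

/-- projection onto `L²(A)` -/
def Q (A : Set ℝ) : H →L[ℂ] H := M (ind A)

lemma Q_ae {A : Set ℝ} (hA : MeasurableSet A) (f : H) : Q A f =ᵐ[volume] fun x => ind A x * f x :=
  M_ae (BM.ind hA) f

lemma M_congr {m n : ℝ → ℂ} (hm : BM m) (hn : BM n) (h : m =ᵐ[volume] n) (f : H) :
    M m f = M n f := by
  ext1
  refine (M_ae hm f).trans (EventuallyEq.trans ?_ (M_ae hn f).symm)
  filter_upwards [h] with x hx
  rw [hx]

lemma M_M {m n : ℝ → ℂ} (hm : BM m) (hn : BM n) (f : H) :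
    M m (M n f) = M (fun x => m x * n x) f := by
  ext1
  refine (M_ae hm _).trans (EventuallyEq.trans ?_ (M_ae (hm.mul hn) f).symm)
  filter_upwards [M_ae hn f] with x hx
  rw [hx, mul_assoc]

lemma M_comm {m n : ℝ → ℂ} (hm : BM m) (hn : BM n) (f : H) : M m (M n f) = M n (M m f) := by
  rw [M_M hm hn, M_M hn hm]
  congr 2
  ext x
  rw [mul_comm]

lemma M_add {m n : ℝ → ℂ} (hm : BM m) (hn : BM n) (f : H) :
    M (fun x => m x + n x) f = M m f + M n f := by
  ext1
  refine (M_ae (hm.add hn) _).trans (EventuallyEq.trans ?_ (Lp.coeFn_add _ _).symm)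
  filter_upwards [M_ae hn f, M_ae hm f] with x hx hx'
  rw [Pi.add_apply, hx, hx', add_mul]

lemma M_sub {m n : ℝ → ℂ} (hm : BM m) (hn : BM n) (f : H) :
    M (fun x => m x - n x) f = M m f - M n f := by
  ext1
  refine (M_ae (hm.sub hn) _).trans (EventuallyEq.trans ?_ (Lp.coeFn_sub _ _).symm)
  filter_upwards [M_ae hn f, M_ae hm f] with x hx hx'
  rw [Pi.sub_apply, hx, hx', sub_mul]

lemma M_one (f : H) : M (fun _ => 1) f = f := by
  ext1
  refine (M_ae (BM.const 1) f).trans ?_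
  filter_upwards with x
  rw [one_mul]

lemma M_zero (f : H) : M (fun _ => 0) f = 0 := by
  ext1
  refine (M_ae (BM.const 0) f).trans ?_
  filter_upwards [Lp.coeFn_zero ℂ 2 (volume : Measure ℝ)] with x hx
  rw [zero_mul, hx, Pi.zero_apply]

lemma inner_M_left {m : ℝ → ℂ} (hm : BM m) (f g : H) :
    ⟪M m f, g⟫_ℂ = ⟪f, M (fun x => conj (m x)) g⟫_ℂ := by
  rw [L2.inner_def, L2.inner_def]
  refine integral_congr_ae ?_
  filter_upwards [M_ae hm f, M_ae hm.star g] with x h1 h2
  rw [h1, h2]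
  simp only [RCLike.inner_apply, map_mul]
  ring

lemma norm_M_sq {m : ℝ → ℂ} (hm : BM m) (f : H) :
    ‖M m f‖ ^ 2 = ∫ x, ‖m x‖ ^ 2 * ‖f x‖ ^ 2 := by
  rw [norm_sq_eq]
  refine integral_congr_ae ?_
  filter_upwards [M_ae hm f] with x hx
  rw [hx, norm_mul, mul_pow]

lemma norm_M_le {m : ℝ → ℂ} (hm : BM m) {C : ℝ} (hC : ∀ x, ‖m x‖ ≤ C) (f : H) :
    ‖M m f‖ ≤ C * ‖f‖ := by
  refine Lp.norm_le_mul_norm_of_ae_le_mul ?_
  filter_upwards [M_ae hm f] with x hx
  rw [hx, norm_mul]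
  exact mul_le_mul_of_nonneg_right (hC x) (norm_nonneg _)

/-! ### dilations -/

lemma qmp_mul {c : ℝ} (hc : 0 < c) :
    Measure.QuasiMeasurePreserving (fun x : ℝ => c * x) volume volume := by
  refine ⟨measurable_const_mul c, ?_⟩
  rw [Real.map_volume_mul_left hc.ne']
  exact Measure.smul_absolutelyContinuous

lemma memLp_dil {c : ℝ} (hc : 0 < c) (f : H) :
    MemLp (fun x => ((Real.sqrt c : ℝ) : ℂ) * f (c * x)) 2 volume := by
  have h1 : MemLp (fun x => f (c * x)) 2 volume := by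
    have hm : Measurable (fun x : ℝ => c * x) := measurable_const_mul c
    have : MemLp f 2 (Measure.map (fun x : ℝ => c * x) volume) := by
      rw [Real.map_volume_mul_left hc.ne']
      exact (Lp.memLp f).smul_measure ENNReal.ofReal_ne_top
    exact this.comp_of_map hm.aemeasurable
  exact h1.const_mul _

lemma norm_dil {c : ℝ} (hc : 0 < c) (f : H) : ‖(memLp_dil hc f).toLp _‖ = ‖f‖ := by
  have h2 : ‖(memLp_dil hc f).toLp _‖ ^ 2 = ‖f‖ ^ 2 := by
    rw [norm_sq_eq, norm_sq_eq]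
    have : ∫ x, ‖((memLp_dil hc f).toLp _ : H) x‖ ^ 2 = ∫ x, c * ‖f (c * x)‖ ^ 2 := by
      refine integral_congr_ae ?_
      filter_upwards [(memLp_dil hc f).coeFn_toLp] with x hx
      rw [hx, norm_mul, mul_pow]
      congr 1
      simp [Complex.norm_real, abs_of_nonneg (Real.sqrt_nonneg c), Real.sq_sqrt hc.le]
    rw [this, integral_const_mul, Measure.integral_comp_mul_left (fun x => ‖f x‖ ^ 2) c]
    rw [abs_of_pos (inv_pos.2 hc), smul_eq_mul, ← mul_assoc, mul_inv_cancel₀ hc.ne', one_mul]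
  exact (sq_eq_sq₀ (norm_nonneg _) (norm_nonneg _)).1 h2

/-- the dilation isometry `f ↦ √c f(c ·)` -/
def dilL (c : ℝ) (hc : 0 < c) : H →ₗᵢ[ℂ] H where
  toFun f := (memLp_dil hc f).toLp _
  map_add' f g := by
    ext1
    refine (MemLp.coeFn_toLp _).trans ?_
    refine EventuallyEq.trans ?_ (Lp.coeFn_add _ _).symm
    filter_upwards [(qmp_mul hc).ae_eq (Lp.coeFn_add f g), (memLp_dil hc f).coeFn_toLp,
      (memLp_dil hc g).coeFn_toLp] with x h1 h2 h3
    simp only [Function.comp_apply, Pi.add_apply] at h1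
    rw [h1, Pi.add_apply, h2, h3, mul_add]
  map_smul' c' f := by
    ext1
    refine (MemLp.coeFn_toLp _).trans ?_
    refine EventuallyEq.trans ?_ (Lp.coeFn_smul _ _).symm
    filter_upwards [(qmp_mul hc).ae_eq (Lp.coeFn_smul c' f), (memLp_dil hc f).coeFn_toLp]
      with x h1 h2
    simp only [Function.comp_apply, Pi.smul_apply, smul_eq_mul] at h1
    rw [h1, Pi.smul_apply, h2]
    simp only [smul_eq_mul, RingHom.id_apply]
    ring
  norm_map' f := norm_dil hc f

lemma dilL_ae {c : ℝ} (hc : 0 < c) (f : H) :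
    dilL c hc f =ᵐ[volume] fun x => ((Real.sqrt c : ℝ) : ℂ) * f (c * x) :=
  (memLp_dil hc f).coeFn_toLp

lemma dilL_dilL {c d : ℝ} (hc : 0 < c) (hd : 0 < d) (f : H) :
    dilL c hc (dilL d hd f) = dilL (c * d) (mul_pos hc hd) f := by
  ext1
  refine (dilL_ae hc _).trans (EventuallyEq.trans ?_ (dilL_ae (mul_pos hc hd) f).symm)
  filter_upwards [(qmp_mul hc).ae_eq (dilL_ae hd f)] with x hx
  simp only [Function.comp_apply] at hx
  rw [hx, ← mul_assoc, ← Complex.ofReal_mul, ← Real.sqrt_mul hc.le]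
  congr 2
  ring

lemma dilL_one (f : H) : dilL 1 one_pos f = f := by
  ext1
  refine (dilL_ae one_pos _).trans ?_
  filter_upwards with x
  simp

/-- the dilation unitary `f ↦ √c f(c ·)` -/
def dil (c : ℝ) (hc : 0 < c) : H ≃ₗᵢ[ℂ] H :=
  { (dilL c hc) with
    invFun := dilL c⁻¹ (inv_pos.2 hc)
    left_inv := fun f => by
      change dilL c⁻¹ (inv_pos.2 hc) (dilL c hc f) = f
      rw [dilL_dilL]
      have : c⁻¹ * c = 1 := inv_mul_cancel₀ hc.ne'
      simp only [this]
      exact dilL_one f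
    right_inv := fun f => by
      change dilL c hc (dilL c⁻¹ (inv_pos.2 hc) f) = f
      rw [dilL_dilL]
      have : c * c⁻¹ = 1 := mul_inv_cancel₀ hc.ne'
      simp only [this]
      exact dilL_one f
    norm_map' := (dilL c hc).norm_map }

lemma dil_ae {c : ℝ} (hc : 0 < c) (f : H) :
    dil c hc f =ᵐ[volume] fun x => ((Real.sqrt c : ℝ) : ℂ) * f (c * x) := dilL_ae hc f

lemma dil_symm {c : ℝ} (hc : 0 < c) : (dil c hc).symm = dil c⁻¹ (inv_pos.2 hc) := by
  ext1 f
  rfl

lemma dil_dil {c d : ℝ} (hc : 0 < c) (hd : 0 < d) (f : H) :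
    dil c hc (dil d hd f) = dil (c * d) (mul_pos hc hd) f := dilL_dilL hc hd f

/-- The Fourier side of the dyadic dilation: `(D f)(x) = 2^{-1/2} f(x/2)`. -/
def D : H ≃ₗᵢ[ℂ] H := dil (1/2) (by norm_num)

lemma D_pow (n : ℕ) : D ^ n = dil ((1/2) ^ n) (by positivity) := by
  induction n with
  | zero =>
    ext1 f
    simp only [pow_zero]
    exact (dilL_one f).symm
  | succ n ih =>
    ext1 f
    rw [pow_succ, ih]
    change dil ((1/2) ^ n) (by positivity) (dil (1/2) (by norm_num) f) = _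
    rw [dil_dil]
    rfl

lemma D_pow_symm (n : ℕ) : (D ^ n).symm = dil (2 ^ n) (by positivity) := by
  rw [D_pow, dil_symm]
  congr 1
  rw [one_div, inv_pow, inv_inv]

lemma D_ae (f : H) : D f =ᵐ[volume] fun x => ((Real.sqrt (1/2) : ℝ) : ℂ) * f (x / 2) := by
  refine (dil_ae _ f).trans ?_
  filter_upwards with x
  congr 2
  ring

lemma Dsymm_ae (f : H) : D.symm f =ᵐ[volume] fun x => ((Real.sqrt 2 : ℝ) : ℂ) * f (2 * x) := by
  unfold D
  rw [dil_symm]
  refine (dil_ae _ f).trans ?_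
  filter_upwards with x
  norm_num

lemma Dpow_ae (n : ℕ) (f : H) :
    (D ^ n) f =ᵐ[volume] fun x => ((Real.sqrt ((1/2) ^ n) : ℝ) : ℂ) * f (x / 2 ^ n) := by
  rw [D_pow]
  refine (dil_ae _ f).trans ?_
  filter_upwards with x
  congr 2
  rw [one_div, inv_pow]
  ring

lemma Dpow_symm_ae (n : ℕ) (f : H) :
    (D ^ n).symm f =ᵐ[volume] fun x => ((Real.sqrt (2 ^ n) : ℝ) : ℂ) * f (2 ^ n * x) := by
  rw [D_pow_symm]
  exact dil_ae _ f

lemma dil_M {c : ℝ} (hc : 0 < c) {m : ℝ → ℂ} (hm : BM m) (f : H) :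
    dil c hc (M m f) = M (fun x => m (c * x)) (dil c hc f) := by
  ext1
  refine (dil_ae hc _).trans (EventuallyEq.trans ?_ (M_ae (hm.comp_mul c) _).symm)
  filter_upwards [(qmp_mul hc).ae_eq (M_ae hm f), dil_ae hc f] with x h1 h2
  simp only [Function.comp_apply] at h1
  rw [h1, h2]
  ring

lemma D_M {m : ℝ → ℂ} (hm : BM m) (f : H) : D (M m f) = M (fun x => m (x / 2)) (D f) := by
  unfold D
  rw [dil_M _ hm]
  congr 2
  ext x
  congr 1
  ring

lemma Dsymm_M {m : ℝ → ℂ} (hm : BM m) (f : H) :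
    D.symm (M m f) = M (fun x => m (2 * x)) (D.symm f) := by
  unfold D
  rw [dil_symm, dil_M _ hm]
  congr 2
  ext x
  congr 1
  norm_num

lemma Dpow_M (n : ℕ) {m : ℝ → ℂ} (hm : BM m) (f : H) :
    (D ^ n) (M m f) = M (fun x => m (x / 2 ^ n)) ((D ^ n) f) := by
  rw [D_pow, dil_M _ hm]
  congr 2
  ext x
  congr 1
  rw [one_div, inv_pow]
  ring

lemma Dpow_symm_M (n : ℕ) {m : ℝ → ℂ} (hm : BM m) (f : H) :
    (D ^ n).symm (M m f) = M (fun x => m (2 ^ n * x)) ((D ^ n).symm f) := by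
  rw [D_pow_symm, dil_M _ hm]

/-- modulations, the Fourier side of integer translations -/
def T (k : ℤ) : H →L[ℂ] H := M (fun x => Complex.exp (-(2 * Real.pi * k * x : ℝ) * Complex.I))

lemma Per.exp (k : ℤ) : Per (fun x => Complex.exp (-(2 * Real.pi * k * x : ℝ) * Complex.I)) where
  meas := by fun_prop
  bdd := ⟨1, fun x => by
    rw [← Complex.ofReal_neg, Complex.norm_exp_ofReal_mul_I]⟩
  per := fun x => by
    have : (-(2 * Real.pi * k * (x + 1) : ℝ) * Complex.I : ℂ)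
        = (-(2 * Real.pi * k * x : ℝ) * Complex.I : ℂ) - k * (2 * Real.pi * Complex.I) := by
      push_cast
      ring
    rw [this, Complex.exp_sub, Complex.exp_int_mul_two_pi_mul_I, div_one]

/-- the indicator function of the unit interval `[a, a+1)` -/
def h (a : ℤ) : H := indicatorConstLp 2 (measurableSet_Ico : MeasurableSet (Ico (a : ℝ) (a + 1)))
  (by simp) (1 : ℂ)

lemma h_ae (a : ℤ) : h a =ᵐ[volume] ind (Ico (a : ℝ) (a + 1)) := indicatorConstLp_coeFn

/-- (orthogonal) projections -/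
structure Proj (P : H →L[ℂ] H) : Prop where
  idem : ∀ f, P (P f) = P f
  symm : ∀ f g, ⟪P f, g⟫_ℂ = ⟪f, P g⟫_ℂ

/-- the operator commutes with all `1`-periodic multipliers -/
def PComm (A : H →L[ℂ] H) : Prop := ∀ m : ℝ → ℂ, Per m → ∀ f, A (M m f) = M m (A f)

/-- closed span of the integer modulations of `ψ` -/
def W (ψ : H) : Submodule ℂ H := (Submodule.span ℂ (Set.range fun k : ℤ => T k ψ)).topologicalClosure

instance (ψ : H) : (W ψ).HasOrthogonalProjection := by
  have : CompleteSpace (W ψ) :=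
    (Submodule.isClosed_topologicalClosure _).completeSpace_coe
  infer_instance

/-- projection onto `W ψ` -/
def PW (ψ : H) : H →L[ℂ] H := (W ψ).starProjection

/-- Fourier side of orthonormal wavelets -/
structure IsWav (ψ : H) : Prop where
  orth : Orthonormal ℂ (fun jk : ℤ × ℤ => (D ^ jk.1) (T jk.2 ψ))
  total : (Submodule.span ℂ (Set.range fun jk : ℤ × ℤ => (D ^ jk.1) (T jk.2 ψ))).topologicalClosure = ⊤

/-- A projection `P` and a vector `ψ` such that `ran P` is the space `V₀` of a multiresolution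
structure and `ψ` generates `D V₀ ⊖ V₀`. -/
structure IsGM (P : H →L[ℂ] H) (ψ : H) : Prop where
  proj : Proj P
  comm : PComm P
  orth : Orthonormal ℂ (fun k : ℤ => T k ψ)
  twoscale : ∀ f, D (P (D.symm f)) = P f + PW ψ f
  trace : HasSum (fun a : ℤ => ‖P (h a)‖ ^ 2) 1
  dense : ∀ f, Tendsto (fun n : ℕ => (D ^ n) (P ((D ^ n).symm f))) atTop (𝓝 f)

/-- conjugation by the dilation: `cD P = D P D⁻¹` -/
def cD (P : H →L[ℂ] H) : H →L[ℂ] H :=
  (D.toContinuousLinearEquiv : H →L[ℂ] H) ∘L P ∘L (D.symm.toContinuousLinearEquiv : H →L[ℂ] H)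

lemma cD_apply (P : H →L[ℂ] H) (f : H) : cD P f = D (P (D.symm f)) := rfl

/-- density of a `PComm` projection -/
structure IsDens (P : H →L[ℂ] H) (p : ℝ → ℝ) : Prop where
  meas : Measurable p
  nonneg : ∀ x, 0 ≤ p x
  le_one : ∀ x, p x ≤ 1
  spec : ∀ (a : ℤ) (f : H), Q (Ico (a : ℝ) (a + 1)) f = f →
    Q (Ico (a : ℝ) (a + 1)) (P f) = M (fun x => (p x : ℂ)) f

end Pool.Agent.Wav
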