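import Pool.Agent.Lib.MP_0a5c67_an.SetFamily

set_option autoImplicit false

open MeasureTheory Filter Topology Set
open scoped Pointwise

namespace Pool.Agent.WaveletPath

lemma WSet.volume_eq {W : Set ℝ} (h : WSet W) : volume W = 1 := by
  have hW : IsAddFundamentalDomain (AddSubgroup.zmultiples (1:ℝ)) W (volume : Measure ℝ) := by
    refine ⟨h.meas.nullMeasurableSet, ?_, ?_⟩
    · filter_upwards [h.tr] with x hx
      obtain ⟨k, hk, _⟩ := hx
      refine ⟨⟨(k:ℝ), ⟨k, by simp⟩⟩, ?_⟩
      show (k:ℝ) + x ∈ W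
      rw [add_comm]; exact hk
    · rintro ⟨a, k, rfl⟩ ⟨b, l, rfl⟩ hab
      show volume (_ ∩ _) = 0
      rw [← compl_mem_ae_iff]
      filter_upwards [h.tr] with x hx
      obtain ⟨m, hm, hm'⟩ := hx
      rintro ⟨⟨y, hy, hy'⟩, ⟨z, hz, hz'⟩⟩
      apply hab
      have e1 : ((fun x1 : ℤ => x1 • (1:ℝ)) k) + y = x := hy'
      have e2 : ((fun x1 : ℤ => x1 • (1:ℝ)) l) + z = x := hz'
      simp only [zsmul_eq_mul, mul_one] at e1 e2
      have h1 : -k = m := hm' (-k) (by push_cast; rw [← e1]; simpa using hy)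
      have h2 : -l = m := hm' (-l) (by push_cast; rw [← e2]; simpa using hz)
      have : k = l := by omega
      subst this
      rfl
  have h1 := isAddFundamentalDomain_Ioc (one_pos) (0:ℝ) (volume : Measure ℝ)
  have := hW.measure_eq h1
  rw [this]
  simp

lemma WSet.congr {W W' : Set ℝ} (h : WSet W) (hW' : MeasurableSet W')
    (hh : ∀ᵐ x ∂(volume : Measure ℝ), (x ∈ W ↔ x ∈ W')) : WSet W' := by
  refine ⟨hW', ?_, ?_⟩
  · filter_upwards [h.tr, ae_tr hh] with x h1 h2
    simpa [h2] using h1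
  · filter_upwards [h.dil, ae_dil hh] with x h1 h2
    simpa [h2] using h1

/-- the parameter clamped to `[0,1/2]` -/
noncomputable def clamp (t : ℝ) : ℝ := max 0 (min t (1 / 2))

lemma clamp_mem (t : ℝ) : clamp t ∈ Icc (0:ℝ) (1 / 2) := by
  constructor
  · exact le_max_left _ _
  · exact max_le (by norm_num) (min_le_right _ _)

lemma continuous_clamp : Continuous clamp := by unfold clamp; fun_prop

lemma clamp_tendsto (t0 : ℝ) : Tendsto clamp (𝓝 t0) (𝓝[Icc (0:ℝ) (1 / 2)] (clamp t0)) := by
  apply tendsto_nhdsWithin_of_tendsto_nhds_of_eventually_within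
  · exact continuous_clamp.continuousAt
  · exact Eventually.of_forall clamp_mem

variable {E M : Set ℝ}

lemma wSet_Wt_clamp (hE : WSet E) (hM : Good M) (hEM : Exact E M) (t : ℝ) :
    WSet (Wt E M (clamp t)) := by
  obtain ⟨h0, h1⟩ := clamp_mem t
  rcases h0.eq_or_lt with h | h
  · rw [← h, Wt_zero]
    apply hE.congr (hE.meas.inter hM.meas)
    filter_upwards [hM.conull] with x hx
    simp [hx]
  · exact wSet_Wt hE.meas hM hEM h h1

lemma tendsto_symmDiff {W : ℝ → Set ℝ} {t0 : ℝ} (hW : ∀ t, WSet (W t))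
    (hst : Stable (𝓝 t0) W (W t0)) :
    Tendsto (fun t => volume (symmDiff (W t) (W t0))) (𝓝 t0) (𝓝 0) := by
  have h1 : Tendsto (fun t => volume (W t0 \ W t)) (𝓝 t0) (𝓝 0) := by
    have := tendsto_measure_of_ae_tendsto_indicator (μ := (volume : Measure ℝ)) (𝓝 t0)
      (A := ∅) (As := fun t => W t0 \ W t) (B := W t0) MeasurableSet.empty
      (fun t => (hW t0).meas.diff (hW t).meas) (hW t0).meas (by rw [(hW t0).volume_eq]; simp)
      (Eventually.of_forall fun t => sdiff_subset) ?_
    · simpa using this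
    · filter_upwards [hst] with x hx
      filter_upwards [hx] with s hs
      constructor
      · rintro ⟨h1, h2⟩
        exact absurd (hs.2 h1) h2
      · intro h; exact absurd h (notMem_empty x)
  have h2 : ∀ t, volume (symmDiff (W t) (W t0)) = 2 * volume (W t0 \ W t) := by
    intro t
    have ha : volume (W t \ W t0) = volume (W t0 \ W t) := by
      have e1 := measure_inter_add_sdiff (μ := (volume : Measure ℝ)) (W t) (hW t0).meas
      have e2 := measure_inter_add_sdiff (μ := (volume : Measure ℝ)) (W t0) (hW t).meas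
      rw [(hW t).volume_eq] at e1
      rw [(hW t0).volume_eq, inter_comm] at e2
      rw [← e2] at e1
      refine (ENNReal.add_right_inj ?_).1 e1
      apply ne_top_of_le_ne_top _ (measure_mono (inter_subset_left : W t ∩ W t0 ⊆ W t))
      rw [(hW t).volume_eq]; simp
    rw [measure_symmDiff_eq (hW t).meas.nullMeasurableSet (hW t0).meas.nullMeasurableSet, ha,
      two_mul]
  simp_rw [h2]
  have := ENNReal.Tendsto.const_mul (a := 2) h1 (Or.inr (by norm_num))
  simpa using this

/-- the set of MSF wavelets (on the Fourier side): unimodular multiples of indicators of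
wavelet sets -/
def MSFset : Set (Lp ℂ 2 (volume : Measure ℝ)) :=
  {f | ∃ W, WSet W ∧ ∀ᵐ x ∂(volume : Measure ℝ), ‖f x‖ = W.indicator (fun _ => (1:ℝ)) x}

lemma indicatorConstLp_mem {W : Set ℝ} (hW : WSet W) (hfin : volume W ≠ ⊤) :
    indicatorConstLp 2 hW.meas hfin (1:ℂ) ∈ MSFset := by
  refine ⟨W, hW, ?_⟩
  filter_upwards [indicatorConstLp_coeFn (p := 2) (hs := hW.meas) (hμs := hfin) (c := (1:ℂ))] with x hx
  rw [hx]
  by_cases h : x ∈ W <;> simp [h]

lemma WSet.ne_top {W : Set ℝ} (h : WSet W) : volume W ≠ ⊤ := by rw [h.volume_eq]; simp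

/-- two wavelet sets are joined -/
lemma joined_sets {E E' : Set ℝ} (hE : WSet E) (hE' : WSet E') :
    JoinedIn MSFset (indicatorConstLp 2 hE.meas hE.ne_top (1:ℂ))
      (indicatorConstLp 2 hE'.meas hE'.ne_top (1:ℂ)) := by
  obtain ⟨M, hM, hMp⟩ := exists_good ((hE.tr.and hE.dil).and (hE'.tr.and hE'.dil))
  have hEM : Exact E M := ⟨fun x hx => (hMp x hx).1.1, fun x hx => (hMp x hx).1.2⟩
  have hEM' : Exact E' M := ⟨fun x hx => (hMp x hx).2.1, fun x hx => (hMp x hx).2.2⟩
  have key : ∀ (F : Set ℝ) (hF : WSet F), Exact F M → ∀ (hW : WSet (Wt F M (1 / 2))),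
      JoinedIn MSFset (indicatorConstLp 2 hF.meas hF.ne_top (1:ℂ))
      (indicatorConstLp 2 hW.meas hW.ne_top (1:ℂ)) := by
    intro F hF hFM hW
    have hWt : ∀ t, WSet (Wt F M (clamp t)) := fun t => wSet_Wt_clamp hF hM hFM t
    have hst : ∀ t0, Stable (𝓝 t0) (fun t => Wt F M (clamp t)) (Wt F M (clamp t0)) := by
      intro t0
      filter_upwards [stable_Wt hFM (clamp_mem t0)] with x hx
      exact (clamp_tendsto t0).eventually hx
    refine JoinedIn.ofLine (f := fun t => indicatorConstLp 2 (hWt t).meas (hWt t).ne_top (1:ℂ))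
      ?_ ?_ ?_ ?_
    · apply Continuous.continuousOn
      rw [continuous_iff_continuousAt]
      intro t0
      exact tendsto_indicatorConstLp_set (by norm_num) (tendsto_symmDiff hWt (hst t0))
    · have h0 : clamp 0 = 0 := by simp [clamp]
      apply Lp.ext
      filter_upwards [indicatorConstLp_coeFn (p := 2) (hs := (hWt 0).meas) (hμs := (hWt 0).ne_top)
        (c := (1:ℂ)), indicatorConstLp_coeFn (p := 2) (hs := hF.meas) (hμs := hF.ne_top)
        (c := (1:ℂ)), hM.conull] with x h1 h2 h3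
      rw [h1, h2, h0, Wt_zero]
      by_cases h : x ∈ F <;> simp [h, h3]
    · have h0 : clamp 1 = 1 / 2 := by norm_num [clamp]
      apply Lp.ext
      filter_upwards [indicatorConstLp_coeFn (p := 2) (hs := (hWt 1).meas) (hμs := (hWt 1).ne_top)
        (c := (1:ℂ)), indicatorConstLp_coeFn (p := 2) (hs := hW.meas) (hμs := hW.ne_top)
        (c := (1:ℂ))] with x h1 h2
      rw [h1, h2, h0]
    · rintro _ ⟨t, _, rfl⟩
      exact indicatorConstLp_mem (hWt t) _
  have hW : WSet (Wt E M (1 / 2)) := wSet_Wt hE.meas hM hEM (by norm_num) le_rfl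
  have hW' : WSet (Wt E' M (1 / 2)) := wSet_Wt hE'.meas hM hEM' (by norm_num) le_rfl
  have k1 := key E hE hEM hW
  have k2 := key E' hE' hEM' hW'
  have k3 : (indicatorConstLp 2 hW.meas hW.ne_top (1:ℂ) : Lp ℂ 2 (volume : Measure ℝ))
      = indicatorConstLp 2 hW'.meas hW'.ne_top (1:ℂ) := by
    congr 1
    exact Wt_half E'
  rw [k3] at k1
  exact k1.trans k2.symm

/-- the phase path -/
noncomputable def phaseFun (f : Lp ℂ 2 (volume : Measure ℝ)) (t : ℝ) (x : ℝ) : ℂ :=
  f x * Complex.exp (-((t * (f x).arg : ℝ) : ℂ) * Complex.I)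

lemma phaseFun_norm (f : Lp ℂ 2 (volume : Measure ℝ)) (t x : ℝ) :
    ‖phaseFun f t x‖ = ‖f x‖ := by
  rw [phaseFun, norm_mul]
  have : ‖Complex.exp (-((t * (f x).arg : ℝ) : ℂ) * Complex.I)‖ = 1 := by
    rw [← Complex.ofReal_neg]
    exact Complex.norm_exp_ofReal_mul_I _
  rw [this, mul_one]

lemma phaseFun_memLp (f : Lp ℂ 2 (volume : Measure ℝ)) (t : ℝ) :
    MemLp (phaseFun f t) 2 (volume : Measure ℝ) := by
  have h1 := Lp.memLp f
  refine h1.of_le (f := phaseFun f t) ?_ (Eventually.of_forall fun x => (phaseFun_norm f t x).le)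
  have hm : Measurable (f : ℝ → ℂ) := (Lp.stronglyMeasurable f).measurable
  apply Measurable.aestronglyMeasurable
  unfold phaseFun
  have harg : Measurable fun x => (f x).arg := Complex.measurable_arg.comp hm
  fun_prop

lemma joined_phase {f : Lp ℂ 2 (volume : Measure ℝ)} {W : Set ℝ} (hW : WSet W)
    (hf : ∀ᵐ x ∂(volume : Measure ℝ), ‖f x‖ = W.indicator (fun _ => (1:ℝ)) x) :
    JoinedIn MSFset f (indicatorConstLp 2 hW.meas hW.ne_top (1:ℂ)) := by
  refine JoinedIn.ofLine (f := fun t => (phaseFun_memLp f t).toLp) ?_ ?_ ?_ ?_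
  · apply Continuous.continuousOn
    have : LipschitzWith (Real.toNNReal (Real.pi * ‖f‖)) (fun t => (phaseFun_memLp f t).toLp) := by
      apply LipschitzWith.of_dist_le_mul
      intro s t
      rw [dist_eq_norm, ← MemLp.toLp_sub, Real.coe_toNNReal _ (by positivity)]
      have : ‖((phaseFun_memLp f s).sub (phaseFun_memLp f t)).toLp‖ ≤ (Real.pi * dist s t) * ‖f‖ := by
        apply Lp.norm_le_mul_norm_of_ae_le_mul
        filter_upwards [((phaseFun_memLp f s).sub (phaseFun_memLp f t)).coeFn_toLp] with x hx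
        rw [hx, Pi.sub_apply, phaseFun, phaseFun, ← mul_sub, norm_mul, mul_comm]
        apply mul_le_mul_of_nonneg_right _ (norm_nonneg _)
        have h1 : Complex.exp (-((s * (f x).arg : ℝ) : ℂ) * Complex.I) -
            Complex.exp (-((t * (f x).arg : ℝ) : ℂ) * Complex.I) =
            Complex.exp (-((t * (f x).arg : ℝ) : ℂ) * Complex.I) *
            (Complex.exp (Complex.I * (((t - s) * (f x).arg : ℝ) : ℂ)) - 1) := by
          rw [mul_sub, mul_one, ← Complex.exp_add]
          congr 2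
          push_cast; ring
        rw [h1, norm_mul]
        have h2 : ‖Complex.exp (-((t * (f x).arg : ℝ) : ℂ) * Complex.I)‖ = 1 := by
          rw [← Complex.ofReal_neg]
          exact Complex.norm_exp_ofReal_mul_I _
        rw [h2, one_mul]
        refine (Real.norm_exp_I_mul_ofReal_sub_one_le).trans ?_
        rw [Real.norm_eq_abs, abs_mul, mul_comm, Real.dist_eq, abs_sub_comm s t]
        apply mul_le_mul_of_nonneg_right _ (abs_nonneg _)
        exact Complex.abs_arg_le_pi _
      calc _ ≤ _ := this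
        _ = _ := by ring
    exact this.continuous
  · apply Lp.ext
    filter_upwards [(phaseFun_memLp f 0).coeFn_toLp] with x hx
    rw [hx]; simp [phaseFun]
  · apply Lp.ext
    filter_upwards [(phaseFun_memLp f 1).coeFn_toLp, hf,
      indicatorConstLp_coeFn (p := 2) (hs := hW.meas) (hμs := hW.ne_top)
        (c := (1:ℂ))] with x hx h2 h3
    rw [hx, h3]
    have h4 : phaseFun f 1 x = ‖f x‖ := by
      rw [phaseFun, one_mul]
      nth_rewrite 1 [← Complex.norm_mul_exp_arg_mul_I (f x)]
      rw [mul_assoc, ← Complex.exp_add]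
      simp
    rw [h4, h2]
    by_cases h : x ∈ W <;> simp [h]
  · rintro _ ⟨t, _, rfl⟩
    refine ⟨W, hW, ?_⟩
    filter_upwards [(phaseFun_memLp f t).coeFn_toLp, hf] with x hx h2
    rw [hx, phaseFun_norm, h2]

/-- there is a wavelet set -/
lemma exists_wSet : ∃ W, WSet W := by
  -- use the fixed set with `K = ∅`
  obtain ⟨M, hM, -⟩ := exists_good (p := fun _ => True) (Eventually.of_forall fun _ => trivial)
  have hKT : TInj (∅ : Set ℝ) := fun x hx => absurd hx (notMem_empty x)
  have hKD : DInj (∅ : Set ℝ) := fun x hx => absurd hx (notMem_empty x)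
  have hhalf : (1:ℝ) / 2 ≤ 1 / 2 := le_rfl
  have hpos : (0:ℝ) < 1 / 2 := by norm_num
  refine ⟨sbW ∅ (Pt M (1 / 2)) (Qt M (1 / 2)), measurableSet_sbW MeasurableSet.empty
    (measurableSet_Pt hM.meas) (measurableSet_Qt hM.meas), ?_, ?_⟩
  · filter_upwards [hM.conull] with x hx
    apply sbW_T hKT tInj_Pt (TInj.mono (Qt_subset_Near hhalf) tInj_near)
    · intro y _
      rw [tsat_empty]; exact notMem_empty y
    · exact mem_tsat_Pt hM hpos hhalf hx
  · filter_upwards [hM.conull] with x hx
    apply sbW_D hKD (DInj.mono Pt_subset_Far dInj_far) dInj_Qt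
    · intro y _
      rw [dsat_empty]; exact notMem_empty y
    · exact mem_dsat_Qt hM hpos hx

/-- **Speegle's theorem** -/
theorem isPathConnected_MSFset : IsPathConnected MSFset := by
  rw [isPathConnected_iff]
  constructor
  · obtain ⟨W, hW⟩ := exists_wSet
    exact ⟨_, indicatorConstLp_mem hW hW.ne_top⟩
  · rintro f ⟨W, hW, hf⟩ g ⟨W', hW', hg⟩
    exact (joined_phase hW hf).trans ((joined_sets hW hW').trans (joined_phase hW' hg).symm)

end Pool.Agent.WaveletPath
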