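import Pool.Agent.Lib.MP_0a5c67_an.B1
import Pool.Agent.Lib.MP_0a5c67_an.E1
import Pool.Agent.Lib.MP_0a5c67_an.SetMSF

/-! Task F1: wavelet sets and MSF wavelets, phases, continuity in measure. -/

set_option autoImplicit false

open MeasureTheory Filter Topology Set
open scoped ENNReal InnerProductSpace ComplexConjugate

noncomputable section

namespace Pool.Agent.Wav

/-- wavelet sets -/
structure IsWSet (E : Set ℝ) : Prop where
  meas : MeasurableSet E
  trans : ∀ᵐ x : ℝ, ∃! k : ℤ, x + k ∈ E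
  dil : ∀ᵐ x : ℝ, ∃! j : ℤ, (2 : ℝ) ^ j * x ∈ E

lemma IsWSet.toW {E : Set ℝ} (h : IsWSet E) : WaveletPath.WSet E := ⟨h.meas, h.trans, h.dil⟩

theorem IsWSet.volume_eq {E : Set ℝ} (hE : IsWSet E) : volume E = 1 := hE.toW.volume_eq

/-- a wavelet set is a fundamental domain for the integer translations -/
lemma IsWSet.fund {E : Set ℝ} (h : IsWSet E) :
    IsAddFundamentalDomain (AddSubgroup.zmultiples (1:ℝ)) E (volume : Measure ℝ) := by
  refine ⟨h.meas.nullMeasurableSet, ?_, ?_⟩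
  · filter_upwards [h.trans] with x hx
    obtain ⟨k, hk, _⟩ := hx
    refine ⟨⟨(k:ℝ), ⟨k, by simp⟩⟩, ?_⟩
    show (k:ℝ) + x ∈ E
    rw [add_comm]; exact hk
  · rintro ⟨a, k, rfl⟩ ⟨b, l, rfl⟩ hab
    show volume (_ ∩ _) = 0
    rw [← compl_mem_ae_iff]
    filter_upwards [h.trans] with x hx
    obtain ⟨m, hm, hm'⟩ := hx
    rintro ⟨⟨y, hy, hy'⟩, ⟨z, hz, hz'⟩⟩
    apply hab
    have e1 : ((fun x1 : ℤ => x1 • (1:ℝ)) k) + y = x := hy'
    have e2 : ((fun x1 : ℤ => x1 • (1:ℝ)) l) + z = x := hz'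
    simp only [zsmul_eq_mul, mul_one] at e1 e2
    have h1 : -k = m := hm' (-k) (by push_cast; rw [← e1]; simpa using hy)
    have h2 : -l = m := hm' (-l) (by push_cast; rw [← e2]; simpa using hz)
    have : k = l := by omega
    subst this
    rfl

lemma per_zadd {m : ℝ → ℂ} (hm : ∀ x, m (x + 1) = m x) (k : ℤ) (x : ℝ) : m ((k:ℝ) + x) = m x := by
  have : Function.Periodic m 1 := hm
  have := this.int_mul k x
  rw [add_comm]; simpa using this

lemma IsWSet.integral_per {E : Set ℝ} (h : IsWSet E) {m : ℝ → ℂ} (hm : ∀ x, m (x + 1) = m x) :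
    ∫ x in E, m x = ∫ x in Ico (0:ℝ) 1, m x := by
  have h1 := isAddFundamentalDomain_Ioc (one_pos) (0:ℝ) (volume : Measure ℝ)
  have h2 := h.fund.setIntegral_eq h1 (f := m) (by
    rintro ⟨a, k, rfl⟩ x
    show m (((fun x1 : ℤ => x1 • (1:ℝ)) k) + x) = m x
    simp only [zsmul_eq_mul, mul_one]
    exact per_zadd hm k x)
  rw [h2, zero_add, integral_Ioc_eq_integral_Ioo, integral_Ico_eq_integral_Ioo]

lemma integral_exp_unit (k : ℤ) :
    ∫ x in Ico (0:ℝ) 1, Complex.exp (-(2 * Real.pi * k * x : ℝ) * Complex.I)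
      = if k = 0 then 1 else 0 := by
  by_cases hk : k = 0
  · subst hk
    simp
  · rw [if_neg hk, integral_Ico_eq_integral_Ioo, ← integral_Ioc_eq_integral_Ioo,
      ← intervalIntegral.integral_of_le zero_le_one]
    have hc : (-(2 * Real.pi * k) * Complex.I : ℂ) ≠ 0 := by
      simp [Real.pi_ne_zero, hk]
    have h1 : ∀ x : ℝ, Complex.exp (-(2 * Real.pi * k * x : ℝ) * Complex.I)
        = Complex.exp ((-(2 * Real.pi * k) * Complex.I : ℂ) * x) := by
      intro x; congr 1; push_cast; ring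
    simp_rw [h1]
    rw [integral_exp_mul_complex hc]
    have h2 : Complex.exp ((-(2 * Real.pi * k) * Complex.I : ℂ) * (1:ℝ)) = 1 := by
      have : ((-(2 * Real.pi * k) * Complex.I : ℂ) * (1:ℝ)) = ((-k : ℤ) : ℂ) * (2 * Real.pi * Complex.I) := by
        push_cast; ring
      rw [this]
      exact Complex.exp_int_mul_two_pi_mul_I _
    rw [h2]
    simp

section isWav

variable {E : Set ℝ} {ψ : H}

/-- the scaling set of a wavelet set -/
def sset (E : Set ℝ) : Set ℝ := {x | ∃ j : ℕ, 1 ≤ j ∧ (2:ℝ) ^ j * x ∈ E}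

lemma sset_meas (hE : MeasurableSet E) : MeasurableSet (sset E) := by
  have : sset E = ⋃ j : ℕ, ⋃ (_ : 1 ≤ j), (fun x : ℝ => (2:ℝ) ^ j * x) ⁻¹' E := by
    ext x; simp [sset]
  rw [this]
  exact MeasurableSet.iUnion fun j => MeasurableSet.iUnion fun _ => (measurable_const_mul _) hE

lemma sset_two : (fun x : ℝ => x / 2) ⁻¹' (sset E) = sset E ∪ E := by
  ext x
  constructor
  · rintro ⟨j, hj, hx⟩
    have e : (2:ℝ) ^ j * (x / 2) = 2 ^ (j - 1) * x := by
      obtain ⟨i, rfl⟩ : ∃ i, j = i + 1 := ⟨j - 1, by omega⟩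
      rw [pow_succ]; simp; ring
    rw [e] at hx
    by_cases h1 : j = 1
    · subst h1; right; simpa using hx
    · left; exact ⟨j - 1, by omega, hx⟩
  · rintro (⟨j, hj, hx⟩ | hx)
    · refine ⟨j + 1, by omega, ?_⟩
      have e : (2:ℝ) ^ (j + 1) * (x / 2) = 2 ^ j * x := by rw [pow_succ]; ring
      rw [e]; exact hx
    · refine ⟨1, le_rfl, ?_⟩
      have e : (2:ℝ) ^ 1 * (x / 2) = x := by ring
      rw [e]; exact hx

lemma sset_half {x : ℝ} (hx : x ∈ sset E) : x / 2 ∈ sset E := by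
  have : x ∈ (fun x : ℝ => x / 2) ⁻¹' (sset E) := by rw [sset_two]; exact Or.inl hx
  exact this

lemma sset_disj (hE : IsWSet E) : ∀ᵐ x : ℝ, ¬ (x ∈ sset E ∧ x ∈ E) := by
  filter_upwards [hE.dil] with x hx
  rintro ⟨⟨j, hj, h1⟩, h2⟩
  obtain ⟨i, _, hi⟩ := hx
  have a := hi (j : ℤ) (by simpa using h1)
  have b := hi 0 (by simpa using h2)
  omega

lemma sset_volume (hE : IsWSet E) : volume (sset E) = 1 := by
  have hfin : volume (sset E) ≠ ∞ := by
    have h1 : volume (sset E) ≤ ∑' j : ℕ, volume ((fun x : ℝ => (2:ℝ) ^ (j + 1) * x) ⁻¹' E) := by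
      refine le_trans (measure_mono ?_) (measure_iUnion_le _)
      rintro x ⟨j, hj, hx⟩
      refine mem_iUnion.2 ⟨j - 1, ?_⟩
      have : j - 1 + 1 = j := by omega
      show (2:ℝ) ^ (j - 1 + 1) * x ∈ E
      rw [this]; exact hx
    have h2 : ∀ j : ℕ, volume ((fun x : ℝ => (2:ℝ) ^ (j + 1) * x) ⁻¹' E) = 2⁻¹ ^ (j + 1) := by
      intro j
      rw [Real.volume_preimage_mul_left (by positivity), hE.volume_eq, mul_one,
        abs_of_pos (by positivity), ← inv_pow, ENNReal.ofReal_pow (by norm_num)]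
      congr 1
      rw [ENNReal.ofReal_inv_of_pos (by norm_num)]
      norm_num
    simp_rw [h2, pow_succ] at h1
    rw [ENNReal.tsum_mul_right, ENNReal.tsum_geometric, ENNReal.one_sub_inv_two, inv_inv] at h1
    exact ne_top_of_le_ne_top (by finiteness) h1
  have h1 : volume (sset E ∪ E) = 2 * volume (sset E) := by
    rw [← sset_two]
    have : (fun x : ℝ => x / 2) = fun x : ℝ => x * 2⁻¹ := by ext x; rw [div_eq_mul_inv]
    rw [this, Real.volume_preimage_mul_right (by norm_num)]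
    congr 1
    rw [inv_inv, abs_of_pos (by norm_num)]
    norm_num
  have h2 : volume (sset E ∪ E) = volume (sset E) + volume E := by
    apply measure_union₀ hE.meas.nullMeasurableSet
    show volume (_ ∩ _) = 0
    have := sset_disj hE
    rw [ae_iff] at this
    simp only [not_not] at this
    exact this
  rw [hE.volume_eq, h1, two_mul] at h2
  exact (ENNReal.add_right_inj hfin).1 h2

lemma inner_T_of_norm (hE : IsWSet E)
    (hψ : ∀ᵐ x, ‖ψ x‖ = E.indicator (fun _ => (1 : ℝ)) x) (k : ℤ) :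
    ⟪ψ, T k ψ⟫_ℂ = if k = 0 then 1 else 0 := by
  rw [L2.inner_def]
  have h1 : (fun x => ⟪ψ x, (T k ψ) x⟫_ℂ) =ᵐ[volume]
      E.indicator (fun x => Complex.exp (-(2 * Real.pi * k * x : ℝ) * Complex.I)) := by
    filter_upwards [M_ae (Per.exp k).toBM ψ, hψ] with x h1 h2
    rw [T, h1]
    have e : ⟪ψ x, Complex.exp (-(2 * Real.pi * k * x : ℝ) * Complex.I) * ψ x⟫_ℂ
        = Complex.exp (-(2 * Real.pi * k * x : ℝ) * Complex.I) * ((‖ψ x‖ ^ 2 : ℝ) : ℂ) := by
      rw [RCLike.inner_apply, mul_assoc, Complex.mul_conj, Complex.normSq_eq_norm_sq]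
    rw [e, h2]
    by_cases h : x ∈ E <;> simp [h]
  rw [integral_congr_ae h1, integral_indicator hE.meas, hE.integral_per (Per.exp k).per,
    integral_exp_unit]

lemma norm_sq_eq_one_of (hE : IsWSet E)
    (hψ : ∀ᵐ x, ‖ψ x‖ = E.indicator (fun _ => (1 : ℝ)) x) : Q E ψ = ψ := by
  rw [Q_eq_self_iff hE.meas]
  filter_upwards [hψ] with x hx h
  have : ‖ψ x‖ = 0 := by rw [hx]; simp [h]
  exact norm_eq_zero.1 this

/-- `(Q S, ψ)` is a GM pair -/
theorem IsWSet.isGM (hE : IsWSet E)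
    (hψ : ∀ᵐ x, ‖ψ x‖ = E.indicator (fun _ => (1 : ℝ)) x) : IsGM (Q (sset E)) ψ := by
  have hS := sset_meas hE.meas
  have ho : Orthonormal ℂ (fun k : ℤ => T k ψ) := orth_of_inner (inner_T_of_norm hE hψ)
  have hEfin : volume E ≠ ∞ := by rw [hE.volume_eq]; simp
  have hSfin : volume (sset E) ≠ ∞ := by rw [sset_volume hE]; simp
  refine ⟨proj_Q hS, pcomm_Q hS, ho, ?_, ?_, ?_⟩
  · intro f
    have hPW : ∀ f, Q E f = PW ψ f := by
      apply PW_eq_of_tr ho (proj_Q hE.meas) (pcomm_Q hE.meas) (norm_sq_eq_one_of hE hψ)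
      have := tr_Q hE.meas hEfin
      rwa [Measure.real, hE.volume_eq, ENNReal.toReal_one] at this
    rw [← hPW, D_Q hS, LinearIsometryEquiv.apply_symm_apply, sset_two]
    ext1
    refine (Q_ae (hS.union hE.meas) f).trans (EventuallyEq.trans ?_ (Lp.coeFn_add _ _).symm)
    filter_upwards [Q_ae hS f, Q_ae hE.meas f, sset_disj hE] with x h1 h2 h3
    rw [Pi.add_apply, h1, h2, ← add_mul]
    congr 1
    by_cases a : x ∈ sset E <;> by_cases b : x ∈ E
    · exact absurd ⟨a, b⟩ h3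
    · simp [ind, a, b]
    · simp [ind, a, b]
    · simp [ind, a, b]
  · have := tr_Q hS hSfin
    rwa [Measure.real, sset_volume hE, ENNReal.toReal_one] at this
  · intro f
    have h1 : ∀ n : ℕ, (D ^ n) (Q (sset E) ((D ^ n).symm f))
        = Q ((fun x => x / 2 ^ n) ⁻¹' (sset E)) f := by
      intro n
      rw [Dpow_Q n hS, LinearIsometryEquiv.apply_symm_apply]
    simp_rw [h1]
    apply Q_tendsto_of_absorb
    · intro n
      exact (measurable_id.div_const _) hS
    · apply monotone_nat_of_le_succ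
      intro n x hx
      have h2 : x / 2 ^ n ∈ sset E := hx
      have h3 := sset_half h2
      show x / 2 ^ (n + 1) ∈ sset E
      rw [pow_succ, ← div_div]; exact h3
    · filter_upwards [hE.dil] with x hx
      obtain ⟨j, hj, _⟩ := hx
      have hj' : (2:ℝ) ^ j * x ∈ E := hj
      set n : ℕ := (1 - j).toNat with hn
      refine ⟨n, (j + n).toNat, by omega, ?_⟩
      have h2 : ((j + n).toNat : ℤ) = j + n := by omega
      have h3 : (2:ℝ) ^ (j + n).toNat = 2 ^ j * 2 ^ n := by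
        rw [← zpow_natCast, h2, zpow_add₀ (by norm_num), zpow_natCast]
      rw [h3]
      have h4 : (2:ℝ) ^ j * 2 ^ n * (x / 2 ^ n) = 2 ^ j * x := by
        field_simp
      rw [h4]; exact hj'

/-- every `ψ` with `|ψ| = 1_E` is a wavelet -/
theorem IsWSet.isWav {E : Set ℝ} (hE : IsWSet E) {ψ : H}
    (hψ : ∀ᵐ x, ‖ψ x‖ = E.indicator (fun _ => (1 : ℝ)) x) : IsWav ψ :=
  (hE.isGM hψ).isWav

end isWav

/-- the function `1_E` in `L²` (junk for sets of infinite measure) -/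
def oneOn (E : Set ℝ) : H := by
  classical
  exact if hE : MeasurableSet E ∧ volume E ≠ ∞ then indicatorConstLp 2 hE.1 hE.2 (1 : ℂ) else 0

lemma oneOn_eq {E : Set ℝ} (hE : MeasurableSet E) (hf : volume E ≠ ∞) :
    oneOn E = indicatorConstLp 2 hE hf (1 : ℂ) := by
  unfold oneOn
  rw [dif_pos ⟨hE, hf⟩]

theorem oneOn_ae {E : Set ℝ} (hE : MeasurableSet E) (hf : volume E ≠ ∞) :
    oneOn E =ᵐ[volume] ind E := by
  rw [oneOn_eq hE hf]
  exact indicatorConstLp_coeFn

lemma IsWSet.ne_top {E : Set ℝ} (hE : IsWSet E) : volume E ≠ ∞ := by rw [hE.volume_eq]; simp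

theorem IsWSet.isWav_one {E : Set ℝ} (hE : IsWSet E) : IsWav (oneOn E) := by
  apply hE.isWav
  filter_upwards [oneOn_ae hE.meas hE.ne_top] with x hx
  rw [hx]
  by_cases h : x ∈ E <;> simp [ind, h]

lemma MSFset_subset : WaveletPath.MSFset ⊆ {φ : H | IsWav φ} := by
  rintro φ ⟨E, hE, hφ⟩
  exact IsWSet.isWav ⟨hE.meas, hE.tr, hE.dil⟩ hφ

/-- removing the phase -/
theorem IsWSet.joined_phase {E : Set ℝ} (hE : IsWSet E) {ψ : H}
    (hψ : ∀ᵐ x, ‖ψ x‖ = E.indicator (fun _ => (1 : ℝ)) x) :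
    JoinedIn {φ : H | IsWav φ} ψ (oneOn E) := by
  rw [oneOn_eq hE.meas hE.ne_top]
  exact (WaveletPath.joined_phase hE.toW hψ).mono MSFset_subset

/-- a path of wavelet sets, continuous in measure, gives a path of wavelets -/
theorem joined_of_sets {E : ℝ → Set ℝ} (hE : ∀ t ∈ Icc (0 : ℝ) 1, IsWSet (E t))
    (hc : ∀ t ∈ Icc (0 : ℝ) 1, Tendsto (fun s => volume (symmDiff (E s) (E t)))
      (𝓝[Icc 0 1] t) (𝓝 0)) :
    JoinedIn {φ : H | IsWav φ} (oneOn (E 0)) (oneOn (E 1)) := by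
  classical
  refine JoinedIn.ofLine (f := fun t => oneOn (E t)) ?_ rfl rfl ?_
  · intro t ht
    show Tendsto (fun s => oneOn (E s)) (𝓝[Icc 0 1] t) (𝓝 (oneOn (E t)))
    set E' : ℝ → Set ℝ := fun s => if s ∈ Icc (0:ℝ) 1 then E s else E t with hE'
    have hW : ∀ s, IsWSet (E' s) := by
      intro s
      by_cases h : s ∈ Icc (0:ℝ) 1
      · simp only [hE', h, if_true]; exact hE s h
      · simp only [hE', h, if_false]; exact hE t ht
    have hEE : ∀ᶠ s in 𝓝[Icc (0:ℝ) 1] t, E' s = E s := by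
      filter_upwards [self_mem_nhdsWithin] with s hs
      simp only [hE', hs, if_true]
    have h1 : Tendsto (fun s => volume (symmDiff (E' s) (E t))) (𝓝[Icc 0 1] t) (𝓝 0) := by
      refine (hc t ht).congr' ?_
      filter_upwards [hEE] with s hs
      rw [hs]
    have h2 := tendsto_indicatorConstLp_set (p := 2) (c := (1:ℂ)) (hs := (hE t ht).meas)
      (hμs := (hE t ht).ne_top) (ht := fun s => (hW s).meas) (hμt := fun s => (hW s).ne_top)
      (by norm_num) h1
    rw [oneOn_eq (hE t ht).meas (hE t ht).ne_top]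
    refine h2.congr' ?_
    filter_upwards [hEE] with s hs
    rw [← hs, oneOn_eq (hW s).meas (hW s).ne_top]
  · rintro _ ⟨t, ht, rfl⟩
    exact (hE t ht).isWav_one

end Pool.Agent.Wav
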