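import Pool.Agent.Lib.MP_0a5c67_an.F1
import Pool.Agent.Lib.MP_0a5c67_an.SetMSF

/-! Task F2: Speegle's theorem: the wavelet sets are path connected in measure. -/

set_option autoImplicit false

open MeasureTheory Filter Topology Set
open scoped ENNReal InnerProductSpace ComplexConjugate

noncomputable section

namespace Pool.Agent.Wav

open Pool.Agent.WaveletPath in
lemma IsWSet.toWSet {E : Set ℝ} (h : IsWSet E) : WSet E := ⟨h.meas, h.trans, h.dil⟩

open Pool.Agent.WaveletPath in
lemma IsWSet.ofWSet {E : Set ℝ} (h : WSet E) : IsWSet E := ⟨h.meas, h.tr, h.dil⟩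

open Pool.Agent.WaveletPath in
/-- Every wavelet set is joined to one fixed wavelet set. -/
theorem exists_common_wset : ∃ E0 : Set ℝ, IsWSet E0 ∧ ∀ E : Set ℝ, IsWSet E →
    ∃ W : ℝ → Set ℝ, W 0 = E ∧ W 1 = E0 ∧ (∀ t ∈ Icc (0 : ℝ) 1, IsWSet (W t)) ∧
      ∀ t ∈ Icc (0 : ℝ) 1, Tendsto (fun s => volume (symmDiff (W s) (W t)))
        (𝓝[Icc 0 1] t) (𝓝 0) := by
  classical
  obtain ⟨E0, hE0⟩ := exists_wSet
  refine ⟨E0, IsWSet.ofWSet hE0, fun E hE' => ?_⟩
  have hE := hE'.toWSet
  obtain ⟨M, hM, hMp⟩ := exists_good ((hE.tr.and hE.dil).and (hE0.tr.and hE0.dil))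
  have hEM : Exact E M := ⟨fun x hx => (hMp x hx).1.1, fun x hx => (hMp x hx).1.2⟩
  have hEM' : Exact E0 M := ⟨fun x hx => (hMp x hx).2.1, fun x hx => (hMp x hx).2.2⟩
  set A : ℝ → Set ℝ := fun t => Wt E M (clamp t) with hA
  set B : ℝ → Set ℝ := fun t => Wt E0 M (clamp (1 - t)) with hB
  set V : ℝ → Set ℝ := fun t => if t ≤ 1 / 2 then A t else B t with hV
  have hVW : ∀ t, WSet (V t) := by
    intro t
    by_cases h : t ≤ 1 / 2
    · simp only [hV, h, if_true]; exact wSet_Wt_clamp hE hM hEM t
    · simp only [hV, h, if_false]; exact wSet_Wt_clamp hE0 hM hEM' _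
  have hAB : A (1 / 2) = B (1 / 2) := by
    have h1 : clamp (1 / 2) = 1 / 2 := by norm_num [clamp]
    have h2 : clamp (1 - 1 / 2) = 1 / 2 := by norm_num [clamp]
    simp only [hA, hB, h1, h2]
    exact Wt_half E0
  have hst : ∀ t0, Stable (𝓝 t0) V (V t0) := by
    intro t0
    filter_upwards [stable_Wt hEM (clamp_mem t0), stable_Wt hEM' (clamp_mem (1 - t0))] with x h1 h2
    have h1' : ∀ᶠ s in 𝓝 t0, (x ∈ A s ↔ x ∈ A t0) := (clamp_tendsto t0).eventually h1
    have h2' : ∀ᶠ s in 𝓝 t0, (x ∈ B s ↔ x ∈ B t0) := by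
      have hc : Tendsto (fun t : ℝ => 1 - t) (𝓝 t0) (𝓝 (1 - t0)) :=
        (continuous_const.sub continuous_id).continuousAt
      exact ((clamp_tendsto (1 - t0)).comp hc).eventually h2
    rcases lt_trichotomy t0 (1 / 2) with h | h | h
    · filter_upwards [h1', Iio_mem_nhds h] with s hs hs2
      have hs2' : s ≤ 1 / 2 := le_of_lt hs2
      simp only [hV, hs2', h.le, if_true]
      exact hs
    · subst h
      filter_upwards [h1', h2'] with s hs hs2
      have e : V (1 / 2) = A (1 / 2) := by simp [hV]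
      rw [e]
      by_cases h3 : s ≤ 1 / 2
      · simp only [hV, h3, if_true]; exact hs
      · simp only [hV, h3, if_false]; rw [hAB]; exact hs2
    · filter_upwards [h2', Ioi_mem_nhds h] with s hs hs2
      have hs2' : ¬ s ≤ 1 / 2 := not_le.2 hs2
      have h' : ¬ t0 ≤ 1 / 2 := not_le.2 h
      simp only [hV, hs2', h', if_false]
      exact hs
  have hV0 : V 0 = E ∩ M := by
    have h0 : clamp 0 = 0 := by simp [clamp]
    have : (0:ℝ) ≤ 1 / 2 := by norm_num
    simp only [hV, this, if_true, hA, h0, Wt_zero]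
  have hV1 : V 1 = E0 ∩ M := by
    have h0 : clamp (1 - 1) = 0 := by simp [clamp]
    have : ¬ ((1:ℝ) ≤ 1 / 2) := by norm_num
    simp only [hV, this, if_false, hB, h0, Wt_zero]
  set W : ℝ → Set ℝ := fun t => if t = 0 then E else if t = 1 then E0 else V t with hW
  have hWV : ∀ t, W t =ᵐ[volume] V t := by
    intro t
    by_cases h0 : t = 0
    · subst h0
      simp only [hW, if_true, hV0]
      filter_upwards [hM.conull] with x hx
      apply propext
      exact ⟨fun h => ⟨h, hx⟩, fun h => h.1⟩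
    · by_cases h1 : t = 1
      · subst h1
        simp only [hW, one_ne_zero, if_true, if_false, hV1]
        filter_upwards [hM.conull] with x hx
        apply propext
        exact ⟨fun h => ⟨h, hx⟩, fun h => h.1⟩
      · simp only [hW, h0, h1, if_false]
        exact EventuallyEq.rfl
  refine ⟨W, by simp [hW], by simp [hW], fun t _ => ?_, fun t _ => ?_⟩
  · apply IsWSet.ofWSet
    apply (hVW t).congr
    · by_cases h0 : t = 0
      · subst h0; simp only [hW, if_true]; exact hE.meas
      · by_cases h1 : t = 1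
        · subst h1; simp only [hW, one_ne_zero, if_true, if_false]; exact hE0.meas
        · simp only [hW, h0, h1, if_false]; exact (hVW t).meas
    · filter_upwards [hWV t] with x hx
      have hx' : (x ∈ W t) = (x ∈ V t) := hx
      rw [hx']
  · have h1 := tendsto_symmDiff hVW (hst t)
    have h2 : ∀ s, volume (symmDiff (W s) (W t)) = volume (symmDiff (V s) (V t)) := by
      intro s
      apply measure_congr
      have a := hWV s
      have b := hWV t
      exact ((a.diff b).union (b.diff a))
    simp_rw [h2]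
    exact h1.mono_left nhdsWithin_le_nhds

end Pool.Agent.Wav
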