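import Pool.Agent.Lib.MP_0a5c67_an.D2
import Pool.Agent.Lib.MP_0a5c67_an.F2

/-! Task F3: assembly on the Fourier side. -/

set_option autoImplicit false

open MeasureTheory Filter Topology Set
open scoped ENNReal InnerProductSpace ComplexConjugate

noncomputable section

namespace Pool.Agent.Wav

/-- counting function of integer translates -/
def tcount (E : Set ℝ) (x : ℝ) : ℝ≥0∞ := ∑' k : ℤ, E.indicator (fun _ => (1 : ℝ≥0∞)) (x + k)

lemma measurable_tcount {E : Set ℝ} (hE : MeasurableSet E) : Measurable (tcount E) := by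
  unfold tcount
  refine Measurable.tsum fun k => ?_
  exact (measurable_const.indicator hE).comp (measurable_id.add_const _)

lemma tcount_per (E : Set ℝ) (x : ℝ) (l : ℤ) : tcount E (x + l) = tcount E x := by
  unfold tcount
  rw [← (Equiv.addLeft l).tsum_eq (fun k : ℤ => E.indicator (fun _ => (1 : ℝ≥0∞)) (x + k))]
  congr 1; ext k
  simp [add_assoc]

lemma exists_unique_of_tcount {E : Set ℝ} {x : ℝ} (h : tcount E x = 1) : ∃! k : ℤ, x + k ∈ E := by
  classical
  unfold tcount at h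
  have h0 : ∃ k : ℤ, x + k ∈ E := by
    by_contra hc
    push Not at hc
    have : ∀ k : ℤ, E.indicator (fun _ => (1 : ℝ≥0∞)) (x + k) = 0 := fun k => by simp [hc k]
    simp [this] at h
  obtain ⟨k, hk⟩ := h0
  refine ⟨k, hk, fun l hl => ?_⟩
  by_contra hne
  have h2 : ∑ i ∈ ({k, l} : Finset ℤ), E.indicator (fun _ => (1 : ℝ≥0∞)) (x + i) ≤ 1 :=
    (ENNReal.sum_le_tsum (f := fun i : ℤ => E.indicator (fun _ => (1 : ℝ≥0∞)) (x + i)) _).trans
      h.le
  have hl' : x + (l:ℝ) ∈ E := hl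
  rw [Finset.sum_pair (Ne.symm hne)] at h2
  simp only [hk, hl', indicator_of_mem] at h2
  norm_num at h2

/-- unfolding -/
lemma lintegral_tcount {E A : Set ℝ} (hE : MeasurableSet E) (hA : MeasurableSet A)
    (hA1 : A ⊆ Ico 0 1) :
    ∫⁻ x in A, tcount E x = volume (E ∩ {x | ∃ k : ℤ, x + k ∈ A}) := by
  unfold tcount
  rw [lintegral_tsum (f := fun (k : ℤ) (x : ℝ) => E.indicator (fun _ => (1 : ℝ≥0∞)) (x + k))
    (fun k => ((measurable_const.indicator hE).comp (measurable_id.add_const _)).aemeasurable)]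
  have h1 : ∀ k : ℤ, ∫⁻ x in A, E.indicator (fun _ => (1 : ℝ≥0∞)) (x + k)
      = volume (E ∩ (fun x : ℝ => x - k) ⁻¹' A) := by
    intro k
    have e1 : (fun x : ℝ => E.indicator (fun _ => (1 : ℝ≥0∞)) (x + k))
        = ((fun x : ℝ => x + k) ⁻¹' E).indicator 1 := by
      ext x
      by_cases h : x + (k:ℝ) ∈ E
      · rw [indicator_of_mem h, indicator_of_mem (show x ∈ (fun x : ℝ => x + k) ⁻¹' E from h)]
        rfl
      · rw [indicator_of_notMem h,
          indicator_of_notMem (show x ∉ (fun x : ℝ => x + k) ⁻¹' E from h)]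
    have hm : MeasurableSet ((fun x : ℝ => x + k) ⁻¹' E) := (measurable_id.add_const _) hE
    rw [e1, lintegral_indicator_one hm, Measure.restrict_apply hm]
    have e2 : (fun x : ℝ => x + k) ⁻¹' E ∩ A
        = (fun x : ℝ => x + k) ⁻¹' (E ∩ (fun x : ℝ => x - k) ⁻¹' A) := by
      ext x; simp
    rw [e2, measure_preimage_add_right]
  simp_rw [h1]
  rw [← measure_iUnion]
  · congr 1
    ext x
    simp only [mem_iUnion, mem_inter_iff, mem_preimage]
    constructor
    · rintro ⟨k, h, h'⟩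
      exact ⟨h, -k, by push_cast; rw [← sub_eq_add_neg]; exact h'⟩
    · rintro ⟨h, k, h'⟩
      exact ⟨-k, h, by push_cast; rw [sub_neg_eq_add]; exact h'⟩
  · intro k l hkl
    rw [Function.onFun, disjoint_left]
    rintro x ⟨_, h1⟩ ⟨_, h2⟩
    have a := hA1 h1
    have b := hA1 h2
    simp only [mem_Ico] at a b
    apply hkl
    have e1 : (k:ℝ) < l + 1 := by linarith
    have e2 : (l:ℝ) < k + 1 := by linarith
    have e1' : k < l + 1 := by exact_mod_cast e1
    have e2' : l < k + 1 := by exact_mod_cast e2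
    omega
  · intro k
    exact hE.inter ((measurable_id.sub_const _) hA)

lemma isWSet_trans {ψ : H} (ho : Orthonormal ℂ (fun k : ℤ => T k ψ)) {E : Set ℝ}
    (hE : MeasurableSet E) (hψ : ∀ᵐ x, ‖ψ x‖ = E.indicator (fun _ => (1 : ℝ)) x)
    (hfin : volume E ≠ ∞) :
    ∀ᵐ x : ℝ, ∃! k : ℤ, x + k ∈ E := by
  have key : ∀ A : Set ℝ, MeasurableSet A → A ⊆ Ico 0 1 →
      volume (E ∩ {x | ∃ k : ℤ, x + k ∈ A}) = volume A := by
    intro A hA hA1
    set B : Set ℝ := {x | ∃ k : ℤ, x + k ∈ A} with hB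
    have hBm : MeasurableSet B := by
      have : B = ⋃ k : ℤ, (fun x : ℝ => x + k) ⁻¹' A := by ext x; simp [hB]
      rw [this]
      exact MeasurableSet.iUnion fun k => (measurable_id.add_const _) hA
    have hBp : ∀ x, x + 1 ∈ B ↔ x ∈ B := by
      intro x
      constructor
      · rintro ⟨k, hk⟩
        exact ⟨k + 1, by push_cast; convert hk using 1; ring⟩
      · rintro ⟨k, hk⟩
        exact ⟨k - 1, by push_cast; convert hk using 1; ring⟩
    have hper : Per (ind B) := by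
      refine ⟨BM.ind hBm, fun x => ?_⟩
      by_cases h : x ∈ B
      · rw [ind_of_mem h, ind_of_mem ((hBp x).2 h)]
      · rw [ind_of_notMem h, ind_of_notMem (fun h' => h ((hBp x).1 h'))]
    have h1 := J_int ho hper
    have h2 : ∫ x, ind B x * (‖ψ x‖ ^ 2 : ℝ) = ((volume.real (E ∩ B) : ℝ) : ℂ) := by
      have e1 : (fun x => ind B x * ((‖ψ x‖ ^ 2 : ℝ) : ℂ)) =ᵐ[volume]
          (E ∩ B).indicator (fun _ => (1:ℂ)) := by
        filter_upwards [hψ] with x hx
        rw [hx]
        by_cases a : x ∈ E <;> by_cases b : x ∈ B <;> simp [ind, a, b]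
      rw [integral_congr_ae e1, integral_indicator_const _ (hE.inter hBm)]
      simp
    have h3 : ∫ x in Ico (0:ℝ) 1, ind B x = ((volume.real A : ℝ) : ℂ) := by
      have e1 : ∀ x ∈ Ico (0:ℝ) 1, ind B x = A.indicator (fun _ => (1:ℂ)) x := by
        intro x hx
        by_cases a : x ∈ A
        · rw [ind_of_mem (A := B) ⟨0, by simpa using a⟩]; simp [a]
        · have : x ∉ B := by
            rintro ⟨k, hk⟩
            have hk1 := hA1 hk
            simp only [mem_Ico] at hx hk1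
            have e1 : (k:ℝ) < 1 := by linarith
            have e2 : (-1:ℝ) < k := by linarith
            have e1' : k < 1 := by exact_mod_cast e1
            have e2' : -1 < k := by exact_mod_cast e2
            have : k = 0 := by omega
            subst this
            apply a; simpa using hk
          rw [ind_of_notMem this]; simp [a]
      rw [setIntegral_congr_fun measurableSet_Ico e1, integral_indicator_const _ hA]
      simp only [measureReal_restrict_apply hA, inter_eq_left.2 hA1]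
      simp
    rw [h2, h3] at h1
    have h4 : volume.real (E ∩ B) = volume.real A := by exact_mod_cast h1
    have f1 : volume (E ∩ B) ≠ ∞ := ne_top_of_le_ne_top hfin (measure_mono inter_subset_left)
    have f2 : volume A ≠ ∞ := ne_top_of_le_ne_top (by simp) (measure_mono hA1)
    exact (ENNReal.toReal_eq_toReal_iff' f1 f2).1 h4
  have h1 : ∀ᵐ x ∂(volume.restrict (Ico (0:ℝ) 1)), tcount E x = 1 := by
    apply ae_eq_of_forall_setLIntegral_eq_of_sigmaFinite (measurable_tcount hE) measurable_const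
    intro A hA hAfin
    rw [Measure.restrict_restrict hA]
    have hA' : MeasurableSet (A ∩ Ico 0 1) := hA.inter measurableSet_Ico
    rw [lintegral_tcount hE hA' inter_subset_right, key _ hA' inter_subset_right]
    simp
  rw [ae_restrict_iff' measurableSet_Ico] at h1
  have h2 := WaveletPath.ae_tr h1
  filter_upwards [h2] with x hx
  apply exists_unique_of_tcount
  rw [← tcount_per E x (-⌊x⌋)]
  apply hx
  push_cast
  constructor
  · have := Int.floor_le x; linarith
  · have := Int.lt_floor_add_one x; linarith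

lemma isWSet_dil {S : Set ℝ} (hhalf : ∀ x ∈ S, x / 2 ∈ S)
    (habs : ∀ᵐ x : ℝ, ∃ n : ℕ, x / 2 ^ n ∈ S) (hvol : volume S = 1) :
    ∀ᵐ x : ℝ, ∃! j : ℤ, (2 : ℝ) ^ j * x ∈ ({x : ℝ | x / 2 ∈ S} \ S) := by
  have hdown : ∀ (x : ℝ) (j : ℤ) (n : ℕ), (2:ℝ) ^ j * x ∈ S → (2:ℝ) ^ (j - n) * x ∈ S := by
    intro x j n hj
    induction n with
    | zero => simpa using hj
    | succ n ih =>
      have := hhalf _ ih
      have e : (2:ℝ) ^ (j - n) * x / 2 = 2 ^ (j - (n + 1 : ℕ)) * x := by
        have : j - (n + 1 : ℕ) = (j - n) - 1 := by push_cast; ring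
        rw [this, zpow_sub_one₀ (by norm_num)]; ring
      rwa [e] at this
  have hnull : ∀ᵐ x : ℝ, ∃ n : ℕ, (2:ℝ) ^ n * x ∉ S := by
    rw [ae_iff]
    push Not
    have h1 : ∀ n : ℕ, volume {x : ℝ | ∀ n : ℕ, (2:ℝ) ^ n * x ∈ S} ≤ 2⁻¹ ^ n := by
      intro n
      calc volume {x : ℝ | ∀ n : ℕ, (2:ℝ) ^ n * x ∈ S} ≤ volume ((fun x : ℝ => (2:ℝ) ^ n * x) ⁻¹' S) :=
            measure_mono fun x hx => hx n
        _ = 2⁻¹ ^ n := by
          rw [Real.volume_preimage_mul_left (by positivity), hvol, mul_one,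
            abs_of_pos (by positivity), ← inv_pow, ENNReal.ofReal_pow (by norm_num)]
          congr 1
          rw [ENNReal.ofReal_inv_of_pos (by norm_num)]
          norm_num
    have h2 : Tendsto (fun n : ℕ => (2⁻¹ : ℝ≥0∞) ^ n) atTop (𝓝 0) :=
      ENNReal.tendsto_pow_atTop_nhds_zero_of_lt_one (by norm_num)
    exact le_antisymm (ge_of_tendsto' h2 h1) bot_le
  filter_upwards [habs, hnull] with x h1 h2
  obtain ⟨n, hn⟩ := h1
  obtain ⟨m, hm⟩ := h2
  have hn' : (2:ℝ) ^ (-(n:ℤ)) * x ∈ S := by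
    rw [zpow_neg, zpow_natCast, ← div_eq_inv_mul]; exact hn
  have hm' : (2:ℝ) ^ (m:ℤ) * x ∉ S := by rw [zpow_natCast]; exact hm
  -- the least `i : ℕ` with `2^(i - n) x ∉ S`
  have hex : ∃ i : ℕ, (2:ℝ) ^ ((i:ℤ) - n) * x ∉ S := ⟨m + n, by push_cast; simpa using hm'⟩
  classical
  set i := Nat.find hex with hi
  have hi1 : (2:ℝ) ^ ((i:ℤ) - n) * x ∉ S := Nat.find_spec hex
  have hi0 : i ≠ 0 := by
    intro h0
    rw [h0] at hi1
    apply hi1; simpa using hn'
  have hi2 : (2:ℝ) ^ ((i:ℤ) - n - 1) * x ∈ S := by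
    have := Nat.find_min hex (m := i - 1) (by omega)
    rw [not_not] at this
    have e : ((i - 1 : ℕ) : ℤ) - n = (i:ℤ) - n - 1 := by omega
    rwa [e] at this
  have hdiv : ∀ j : ℤ, (2:ℝ) ^ j * x / 2 = 2 ^ (j - 1) * x := by
    intro j
    rw [zpow_sub_one₀ (by norm_num)]; ring
  refine ⟨(i:ℤ) - n, ⟨?_, hi1⟩, ?_⟩
  · show (2:ℝ) ^ ((i:ℤ) - n) * x / 2 ∈ S
    rw [hdiv]; exact hi2
  · rintro j ⟨hj1, hj2⟩
    have hj1' : (2:ℝ) ^ (j - 1) * x ∈ S := by rw [← hdiv]; exact hj1
    by_contra hne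
    rcases lt_or_gt_of_ne hne with h | h
    · -- j < i - n : then 2^j x ∈ S by going down from i - n - 1
      apply hj2
      have := hdown x ((i:ℤ) - n - 1) ((i:ℤ) - n - 1 - j).toNat hi2
      have e : (i:ℤ) - n - 1 - (((i:ℤ) - n - 1 - j).toNat : ℤ) = j := by omega
      rwa [e] at this
    · apply hi1
      have := hdown x (j - 1) (j - 1 - ((i:ℤ) - n)).toNat hj1'
      have e : j - 1 - ((j - 1 - ((i:ℤ) - n)).toNat : ℤ) = (i:ℤ) - n := by omega
      rwa [e] at this

/-- the set of an MSF wavelet is a wavelet set -/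
theorem IsMSF.isWSet {ψ : H} {S : Set ℝ} (hψ : IsMSF ψ S) :
    IsWSet ({x : ℝ | x / 2 ∈ S} \ S) := by
  have h2 : MeasurableSet {x : ℝ | x / 2 ∈ S} := (measurable_id.div_const 2) hψ.meas
  have hm : MeasurableSet ({x : ℝ | x / 2 ∈ S} \ S) := h2.diff hψ.meas
  refine ⟨hm, ?_, isWSet_dil hψ.half hψ.absb hψ.vol⟩
  apply isWSet_trans hψ.gm.orth hm hψ.norm
  have h3 : volume {x : ℝ | x / 2 ∈ S} ≠ ∞ := by
    have e : {x : ℝ | x / 2 ∈ S} = (fun x : ℝ => x * 2⁻¹) ⁻¹' S := by
      ext x; simp [div_eq_mul_inv]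
    rw [e, Real.volume_preimage_mul_right (by norm_num), hψ.vol]
    finiteness
  exact ne_top_of_le_ne_top h3 (measure_mono sdiff_subset)

theorem isPathConnected_isWav : IsPathConnected {φ : H | IsWav φ} := by
  obtain ⟨E0, hE0, hall⟩ := exists_common_wset
  refine ⟨oneOn E0, hE0.isWav_one, fun {ψ} hψ => ?_⟩
  obtain ⟨ψ', S, hm, hj⟩ := exists_msf hψ
  have hE := hm.isWSet
  have h2 := hE.joined_phase hm.norm
  obtain ⟨W, h0, h1, hW, hc⟩ := hall _ hE
  have h3 := joined_of_sets hW hc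
  rw [h0, h1] at h3
  exact (hj.trans (h2.trans h3)).symm

end Pool.Agent.Wav
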