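import Pool.Agent.Lib.MP_0a5c67_an.A1

/-! Task G1: the Fourier transform. -/

set_option autoImplicit false

open MeasureTheory Filter Topology Set
open scoped ENNReal InnerProductSpace ComplexConjugate

noncomputable section

namespace Pool.Agent.Wav

/-- the set of orthonormal wavelets, as in the frozen statement -/
def WavSet : Set H := {ψ : H |
      ∃ b : HilbertBasis (ℤ × ℤ) ℂ (Lp ℂ 2 (volume : Measure ℝ)),
        ∀ j k : ℤ, (⇑(b (j, k)) : ℝ → ℂ) =ᵐ[volume]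
          fun x : ℝ => ((((2:ℝ) ^ ((j:ℝ) / 2)) : ℝ) : ℂ) * ψ ((2:ℝ) ^ j * x - (k:ℝ))}

namespace G1

open SchwartzMap FourierTransform

/-- the Fourier transform on `L²` -/
abbrev FT : H ≃ₗᵢ[ℂ] H := Lp.fourierTransformₗᵢ ℝ ℂ

lemma FT_toLp (g : 𝓢(ℝ, ℂ)) : FT (g.toLp 2) = (𝓕 g).toLp 2 := SchwartzMap.toLp_fourier_eq g

/-- translation by an integer on the time side -/
def tr (k : ℤ) : H →ₗᵢ[ℂ] H :=
  Lp.compMeasurePreservingₗᵢ ℂ (fun x : ℝ => x - (k : ℝ))
    (measurePreserving_sub_right volume (k : ℝ))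

lemma tr_ae (k : ℤ) (f : H) : tr k f =ᵐ[volume] fun x => f (x - k) :=
  Lp.coeFn_compMeasurePreserving f (measurePreserving_sub_right volume (k : ℝ))

lemma fourier_tr (g : 𝓢(ℝ, ℂ)) (k : ℤ) (x : ℝ) :
    (𝓕 (g.compSubConstCLM ℂ (k : ℝ)) : 𝓢(ℝ, ℂ)) x =
      Complex.exp (-(2 * Real.pi * k * x : ℝ) * Complex.I) * (𝓕 g : 𝓢(ℝ, ℂ)) x := by
  rw [SchwartzMap.fourier_coe, SchwartzMap.fourier_coe,
    Real.fourier_real_eq_integral_exp_smul, Real.fourier_real_eq_integral_exp_smul]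
  have h := integral_sub_right_eq_self (μ := (volume : Measure ℝ)) (fun y : ℝ =>
    Complex.exp ((↑(-2 * Real.pi * (y + k) * x) : ℂ) * Complex.I) • g y) (k : ℝ)
  simp only [sub_add_cancel] at h
  have h2 : ∀ y : ℝ, (g.compSubConstCLM ℂ (k : ℝ)) y = g (y - k) := fun y => rfl
  simp_rw [h2]
  rw [h, ← integral_const_mul]
  refine integral_congr_ae (ae_of_all _ fun y => ?_)
  simp only [smul_eq_mul]
  rw [← mul_assoc, ← Complex.exp_add]
  congr 2
  push_cast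
  ring

/-- dilation of Schwartz functions -/
def sdil (c : ℝ) (hc : 0 < c) : 𝓢(ℝ, ℂ) →L[ℂ] 𝓢(ℝ, ℂ) :=
  SchwartzMap.compCLMOfContinuousLinearEquiv ℂ
    (ContinuousLinearEquiv.unitsEquivAut ℝ (Units.mk0 c hc.ne'))

lemma sdil_apply (c : ℝ) (hc : 0 < c) (g : 𝓢(ℝ, ℂ)) (x : ℝ) : sdil c hc g x = g (c * x) := by
  unfold sdil
  rw [SchwartzMap.compCLMOfContinuousLinearEquiv_apply]
  simp [mul_comm]

lemma fourier_sdil (c : ℝ) (hc : 0 < c) (g : 𝓢(ℝ, ℂ)) (x : ℝ) :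
    (𝓕 (sdil c hc g) : 𝓢(ℝ, ℂ)) x = (c⁻¹ : ℝ) * (𝓕 g : 𝓢(ℝ, ℂ)) (c⁻¹ * x) := by
  rw [SchwartzMap.fourier_coe, SchwartzMap.fourier_coe,
    Real.fourier_real_eq_integral_exp_smul, Real.fourier_real_eq_integral_exp_smul]
  have h := Measure.integral_comp_mul_left (fun y : ℝ =>
    Complex.exp ((↑(-2 * Real.pi * y * (c⁻¹ * x)) : ℂ) * Complex.I) • g y) c
  rw [abs_of_pos (inv_pos.2 hc)] at h
  simp_rw [sdil_apply]
  rw [Complex.real_smul] at h
  rw [← h]
  refine integral_congr_ae (ae_of_all _ fun y => ?_)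
  simp only
  congr 4
  have : c * c⁻¹ = 1 := mul_inv_cancel₀ hc.ne'
  calc -2 * Real.pi * y * x = -2 * Real.pi * y * x * 1 := by ring
    _ = -2 * Real.pi * (c * y) * (c⁻¹ * x) := by rw [← this]; ring

lemma ext_schwartz {A B : H → H} (hA : Continuous A) (hB : Continuous B)
    (h : ∀ g : 𝓢(ℝ, ℂ), A (g.toLp 2) = B (g.toLp 2)) (f : H) : A f = B f := by
  have hd : DenseRange (SchwartzMap.toLpCLM ℂ (E := ℝ) ℂ 2 (volume : Measure ℝ)) :=
    SchwartzMap.denseRange_toLpCLM ENNReal.ofNat_ne_top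
  exact congrFun (hd.equalizer hA hB (by
    funext g
    exact h g)) f

lemma FT_tr (k : ℤ) (f : H) : FT (tr k f) = T k (FT f) := by
  refine ext_schwartz (A := fun f => FT (tr k f)) (B := fun f => T k (FT f))
    (FT.continuous.comp (tr k).continuous) ((T k).continuous.comp FT.continuous) ?_ f
  intro g
  have h1 : tr k (g.toLp 2) = (g.compSubConstCLM ℂ (k : ℝ)).toLp 2 := by
    ext1
    refine (tr_ae k _).trans (EventuallyEq.trans ?_ (SchwartzMap.coeFn_toLp _ _ _).symm)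
    have h2 := (measurePreserving_sub_right volume (k : ℝ)).quasiMeasurePreserving.ae_eq
      (SchwartzMap.coeFn_toLp g 2 (volume : Measure ℝ))
    filter_upwards [h2] with x hx
    simp only [Function.comp_apply] at hx
    rw [hx]
    rfl
  rw [h1, FT_toLp, FT_toLp]
  ext1
  refine (SchwartzMap.coeFn_toLp _ _ _).trans (EventuallyEq.trans ?_
    (M_ae (Per.exp k).toBM _).symm)
  filter_upwards [SchwartzMap.coeFn_toLp (𝓕 g) 2 (volume : Measure ℝ)] with x hx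
  rw [hx, fourier_tr]

lemma FT_dil (c : ℝ) (hc : 0 < c) (f : H) : FT (dil c hc f) = dil c⁻¹ (inv_pos.2 hc) (FT f) := by
  refine ext_schwartz (A := fun f => FT (dil c hc f)) (B := fun f => dil c⁻¹ (inv_pos.2 hc) (FT f))
    (FT.continuous.comp (dil c hc).continuous)
    ((dil c⁻¹ (inv_pos.2 hc)).continuous.comp FT.continuous) ?_ f
  intro g
  have h1 : dil c hc (g.toLp 2) = ((Real.sqrt c : ℝ) : ℂ) • ((sdil c hc g).toLp 2 : H) := by
    ext1
    refine (dil_ae hc _).trans (EventuallyEq.trans ?_ (Lp.coeFn_smul _ _).symm)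
    filter_upwards [(qmp_mul hc).ae_eq (SchwartzMap.coeFn_toLp g 2 (volume : Measure ℝ)),
      SchwartzMap.coeFn_toLp (sdil c hc g) 2 (volume : Measure ℝ)] with x hx hx2
    simp only [Function.comp_apply] at hx
    rw [hx, Pi.smul_apply, hx2, sdil_apply, smul_eq_mul]
  rw [h1, map_smul, FT_toLp, FT_toLp]
  ext1
  refine (Lp.coeFn_smul _ _).trans (EventuallyEq.trans ?_ (dil_ae (inv_pos.2 hc) _).symm)
  filter_upwards [(qmp_mul (inv_pos.2 hc)).ae_eq
      (SchwartzMap.coeFn_toLp (𝓕 g) 2 (volume : Measure ℝ)),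
    SchwartzMap.coeFn_toLp (𝓕 (sdil c hc g)) 2 (volume : Measure ℝ)] with x hx hx2
  simp only [Function.comp_apply] at hx
  rw [hx, Pi.smul_apply, hx2, fourier_sdil, smul_eq_mul, ← mul_assoc, ← Complex.ofReal_mul]
  congr 2
  rw [Real.sqrt_inv, ← div_eq_mul_inv, Real.sqrt_div_self', one_div]

lemma dil_congr {c d : ℝ} (h : c = d) (hc : 0 < c) (hd : 0 < d) (f : H) :
    dil c hc f = dil d hd f := by
  subst h
  rfl

lemma D_zpow (j : ℤ) (f : H) : (D ^ j) f = dil ((2 : ℝ) ^ j)⁻¹ (by positivity) f := by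
  cases j with
  | ofNat n =>
    rw [Int.ofNat_eq_natCast, zpow_natCast, D_pow]
    refine dil_congr ?_ _ _ f
    rw [zpow_natCast, one_div, inv_pow]
  | negSucc n =>
    rw [zpow_negSucc]
    change (D ^ (n + 1)).symm f = _
    rw [D_pow_symm]
    refine dil_congr ?_ _ _ f
    rw [zpow_negSucc, inv_inv]

/-- the wavelet functions on the time side -/
def u (ψ : H) (j k : ℤ) : H := dil ((2 : ℝ) ^ j) (by positivity) (tr k ψ)

lemma u_ae (ψ : H) (j k : ℤ) : u ψ j k =ᵐ[volume]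
    fun x : ℝ => ((((2:ℝ) ^ ((j:ℝ) / 2)) : ℝ) : ℂ) * ψ ((2:ℝ) ^ j * x - (k:ℝ)) := by
  have hj : (0 : ℝ) < (2 : ℝ) ^ j := by positivity
  refine (dil_ae hj _).trans ?_
  filter_upwards [(qmp_mul hj).ae_eq (tr_ae k ψ)] with x hx
  simp only [Function.comp_apply] at hx
  rw [hx]
  congr 2
  rw [Real.sqrt_eq_rpow, ← Real.rpow_intCast, ← Real.rpow_mul (by norm_num)]
  congr 1
  ring

lemma FT_u (ψ : H) (j k : ℤ) : FT (u ψ j k) = (D ^ j) (T k (FT ψ)) := by
  rw [u, FT_dil, FT_tr, D_zpow]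

end G1

open G1 in
theorem mem_wavSet_iff (ψ : H) : ψ ∈ WavSet ↔ IsWav (Lp.fourierTransformₗᵢ ℝ ℂ ψ) := by
  constructor
  · rintro ⟨b, hb⟩
    have hb' : ∀ j k, b (j, k) = u ψ j k := by
      intro j k
      ext1
      exact (hb j k).trans (u_ae ψ j k).symm
    let b' : HilbertBasis (ℤ × ℤ) ℂ H := HilbertBasis.ofRepr (FT.symm.trans b.repr)
    have hbb : ⇑b' = fun jk : ℤ × ℤ => (D ^ jk.1) (T jk.2 (FT ψ)) := by
      funext jk
      rw [← FT_u, ← hb' jk.1 jk.2]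
      rfl
    refine ⟨?_, ?_⟩
    · have := b'.orthonormal
      rw [hbb] at this
      exact this
    · have := b'.dense_span
      rw [hbb] at this
      exact this
  · intro h
    let c : HilbertBasis (ℤ × ℤ) ℂ H := HilbertBasis.mk h.orth h.total.ge
    have hc : ∀ jk : ℤ × ℤ, c jk = (D ^ jk.1) (T jk.2 (FT ψ)) := by
      intro jk
      have : ⇑c = _ := HilbertBasis.coe_mk h.orth h.total.ge
      rw [this]
    let b : HilbertBasis (ℤ × ℤ) ℂ H := HilbertBasis.ofRepr (FT.trans c.repr)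
    refine ⟨b, fun j k => ?_⟩
    have hb : b (j, k) = u ψ j k := by
      have h1 : b (j, k) = FT.symm (c (j, k)) := rfl
      rw [h1, hc, ← FT_u, LinearIsometryEquiv.symm_apply_apply]
    rw [hb]
    exact u_ae ψ j k

theorem isPathConnected_wavSet (hp : IsPathConnected {φ : H | IsWav φ}) :
    IsPathConnected WavSet := by
  have h := hp.image (Lp.fourierTransformₗᵢ ℝ ℂ).symm.continuous
  convert h using 1
  ext ψ
  rw [mem_wavSet_iff]
  constructor
  · intro hψ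
    exact ⟨_, hψ, (Lp.fourierTransformₗᵢ ℝ ℂ).symm_apply_apply ψ⟩
  · rintro ⟨φ, hφ, rfl⟩
    simpa using hφ

end Pool.Agent.Wav
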