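import Pool.Agent.Lib.MP_0a5c67_an.SetSB

set_option autoImplicit false

open MeasureTheory Filter Topology Set
open scoped Pointwise

namespace Pool.Agent.WaveletPath

/-- the universal far set -/
def Far : Set ℝ := {x | ∃ N : ℕ, 2 ≤ N ∧ x - 2 ^ N ∈ Ioo (1:ℝ) 2}

/-- the universal near set -/
def Near : Set ℝ := {x | |x| < 1 / 2}

lemma tInj_near : TInj Near := by
  intro x hx k hk
  simp only [Near, Set.mem_ofPred_eq, abs_lt] at hx hk
  have h1 : ((k:ℤ):ℝ) < 1 := by linarith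
  have h2 : (-1:ℝ) < k := by linarith
  have h1' : k < 1 := by exact_mod_cast h1
  have h2' : -1 < k := by exact_mod_cast h2
  omega

lemma far_bounds {x : ℝ} {N : ℕ} (hN : 2 ≤ N) (hx : x - 2 ^ N ∈ Ioo (1:ℝ) 2) :
    (2:ℝ) ^ (N:ℤ) < x ∧ x < (2:ℝ) ^ ((N:ℤ) + 1) := by
  obtain ⟨h1, h2⟩ := hx
  have h4 : (4:ℝ) ≤ 2 ^ N := by
    calc (4:ℝ) = 2 ^ 2 := by norm_num
      _ ≤ 2 ^ N := pow_le_pow_right₀ (by norm_num) hN
  rw [zpow_add₀ (by norm_num)]
  simp only [zpow_natCast, zpow_one]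
  constructor <;> linarith

lemma dInj_far : DInj Far := by
  rintro x ⟨N, hN, hx⟩ j ⟨N', hN', hy⟩
  obtain ⟨a1, a2⟩ := far_bounds hN hx
  obtain ⟨b1, b2⟩ := far_bounds hN' hy
  have hpos : (0:ℝ) < 2 ^ j := by positivity
  -- 2^(j+N) < 2^j x < 2^(j+N+1)
  have c1 : (2:ℝ) ^ (j + N) < (2:ℝ) ^ j * x := by
    rw [zpow_add₀ (by norm_num)]
    exact mul_lt_mul_of_pos_left a1 hpos
  have c2 : (2:ℝ) ^ j * x < (2:ℝ) ^ (j + (N + 1)) := by
    rw [zpow_add₀ (by norm_num) j]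
    exact mul_lt_mul_of_pos_left a2 hpos
  have d1 : j + N < N' + 1 := (zpow_lt_zpow_iff_right₀ (by norm_num : (1:ℝ) < 2)).1 (c1.trans b2)
  have d2 : (N':ℤ) < j + (N + 1) := (zpow_lt_zpow_iff_right₀ (by norm_num : (1:ℝ) < 2)).1
    (b1.trans c2)
  have hj : j = N' - N := by omega
  -- now 2^j (2^N + ξ) = 2^N' + 2^j ξ
  have e1 : (2:ℝ) ^ j * x - 2 ^ N' = 2 ^ j * (x - 2 ^ N) := by
    have : (2:ℝ) ^ N' = 2 ^ j * 2 ^ N := by
      rw [hj, ← zpow_natCast, ← zpow_natCast, ← zpow_add₀ (by norm_num)]; congr 1; omega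
    rw [this]; ring
  rw [e1] at hy
  obtain ⟨x1, x2⟩ := hx
  obtain ⟨y1, y2⟩ := hy
  by_contra hne
  rcases lt_or_gt_of_ne hne with h | h
  · have : (2:ℝ) ^ j ≤ 2⁻¹ := by
      calc (2:ℝ) ^ j ≤ 2 ^ (-1 : ℤ) := zpow_le_zpow_right₀ (by norm_num) (by omega)
        _ = 2⁻¹ := by norm_num
    nlinarith
  · have : (2:ℝ) ≤ 2 ^ j := by
      calc (2:ℝ) = 2 ^ (1 : ℤ) := by norm_num
        _ ≤ 2 ^ j := zpow_le_zpow_right₀ (by norm_num) (by omega)
    nlinarith

lemma tInj_of_far {x : ℝ} {N N' : ℕ} (hN : 2 ≤ N) (hx : x - 2 ^ N ∈ Ioo (1:ℝ) 2)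
    (hN' : 2 ≤ N') (hx' : x - 2 ^ N' ∈ Ioo (1:ℝ) 2) : N = N' := by
  obtain ⟨a1, a2⟩ := far_bounds hN hx
  obtain ⟨b1, b2⟩ := far_bounds hN' hx'
  have d1 : (N:ℤ) < N' + 1 := (zpow_lt_zpow_iff_right₀ (by norm_num : (1:ℝ) < 2)).1 (a1.trans b2)
  have d2 : (N':ℤ) < N + 1 := (zpow_lt_zpow_iff_right₀ (by norm_num : (1:ℝ) < 2)).1 (b1.trans a2)
  omega

/-- points whose backward chain has length `> n` -/
def chainR : ℕ → Set ℝ
  | 0 => Far
  | n + 1 => Far ∩ tsat (Near ∩ dsat (chainR n))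

lemma sbA_stab {K P Q : Set ℝ} (hP : P ⊆ Far) (hQ : Q ⊆ Near) (n : ℕ) :
    ∀ x ∉ chainR n, ∀ m ≥ n, (x ∈ sbA K P Q m ↔ x ∈ sbA K P Q n) := by
  induction n with
  | zero =>
    intro x hx m _
    have : x ∉ sbA K P Q m := fun h => hx (hP (sbA_subset m h).1)
    simp [this, sbA]
  | succ n ih =>
    intro x hx m hm
    obtain ⟨m, rfl⟩ : ∃ m', m = m' + 1 := ⟨m - 1, by omega⟩
    have hmn : n ≤ m := by omega
    by_cases hxF : x ∈ Far
    · have hx2 : x ∉ tsat (Near ∩ dsat (chainR n)) := fun h => hx ⟨hxF, h⟩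
      simp only [sbA, Set.mem_sdiff]
      apply and_congr_right
      intro _
      apply not_congr
      constructor
      · rintro ⟨k, hk1, hk2⟩
        refine ⟨k, hk1, fun h => hk2 ?_⟩
        obtain ⟨j, hj⟩ := h
        exact ⟨j, sbA_mono hmn hj⟩
      · rintro ⟨k, hk1, hk2⟩
        refine ⟨k, hk1, fun h => hk2 ?_⟩
        obtain ⟨j, hj⟩ := h
        have : (2:ℝ) ^ j * (x + k) ∉ chainR n := by
          intro hc
          exact hx2 ⟨k, hQ hk1.1, j, hc⟩
        exact ⟨j, (ih _ this m hmn).1 hj⟩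
    · have h1 : x ∉ sbA K P Q (m + 1) := fun h => hxF (hP (sbA_subset _ h).1)
      have h2 : x ∉ sbA K P Q (n + 1) := fun h => hxF (hP (sbA_subset _ h).1)
      simp [h1, h2]

lemma sbU_iff {K P Q : Set ℝ} (hP : P ⊆ Far) (hQ : Q ⊆ Near) {n : ℕ} {x : ℝ}
    (hx : x ∉ chainR n) : x ∈ sbU K P Q ↔ x ∈ sbA K P Q n := by
  constructor
  · intro h
    obtain ⟨m, hm⟩ := mem_iUnion.1 h
    rcases le_total n m with hnm | hnm
    · exact (sbA_stab hP hQ n x hx m hnm).1 hm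
    · exact sbA_mono hnm hm
  · intro h
    exact mem_iUnion.2 ⟨n, h⟩

/-- the infinite chains, as a translation-invariant set -/
def chainV : Set ℝ := {x | ∀ n, x ∈ tsat (Near ∩ dsat (chainR n))}

lemma volume_chainV_zero : volume (chainV ∩ Ioo (1:ℝ) 2) = 0 := by
  set U : Set ℝ := chainV ∩ Ioo (1:ℝ) 2 with hU
  have hsub : U ⊆ ⋃ n : ℕ, ⋃ i : ℕ,
      (fun y : ℝ => ((2:ℝ)⁻¹ ^ (n + i + 4)) * (2 ^ (n + 2) + y) + 1) '' U := by
    intro x hx
    obtain ⟨hxV, hx1, hx2⟩ := hx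
    -- the unique k and j
    obtain ⟨k, hkN, j, hj⟩ := hxV 0
    have hall : ∀ n, (2:ℝ) ^ j * (x + k) ∈ chainR n := by
      intro n
      obtain ⟨k', hkN', j', hj'⟩ := hxV n
      have hkk : k' = k := tInj_near.eq hkN' hkN
      subst hkk
      have h1 : (2:ℝ) ^ j' * (x + k') ∈ Far := by
        cases n with
        | zero => exact hj'
        | succ n => exact hj'.1
      have : j' = j := dInj_far.eq h1 hj
      subst this
      exact hj'
    obtain ⟨N, hN, hy⟩ := hj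
    set y : ℝ := (2:ℝ) ^ j * (x + k) - 2 ^ N with hyd
    have hyV : y ∈ chainV := by
      intro n
      have h1 := hall (n + 1)
      have h2 : (2:ℝ) ^ j * (x + k) ∈ tsat (Near ∩ dsat (chainR n)) := h1.2
      have h3 : (2:ℝ) ^ j * (x + k) = y + ((2 ^ N : ℤ) : ℝ) := by
        rw [hyd]; push_cast; ring
      rw [h3] at h2
      exact (tsat_add _).1 h2
    have hyU : y ∈ U := ⟨hyV, hy⟩
    -- bounds
    have hpos : (0:ℝ) < 2 ^ j := by positivity
    have hz : (x + k) * 2 ^ j = 2 ^ N + y := by rw [hyd]; ring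
    have hxk_pos : 0 < x + k := by
      have : 0 < (x + k) * 2 ^ j := by
        rw [hz]; have := hy.1; positivity
      exact pos_of_mul_pos_left this hpos.le |> fun h => by
        by_contra hc
        push Not at hc
        nlinarith
    have hxk_lt : x + k < 1 / 2 := (abs_lt.1 hkN).2
    have hk : k = -1 := by
      have h1 : (k:ℝ) < 0 := by linarith
      have h2 : (-2:ℝ) < k := by linarith
      have h1' : k < 0 := by exact_mod_cast h1
      have h2' : -2 < k := by exact_mod_cast h2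
      omega
    have hjN : (N:ℤ) + 2 ≤ j := by
      have h1 : (2:ℝ) ^ (N:ℤ) < 2 ^ (j - 1) := by
        rw [zpow_sub₀ (by norm_num), zpow_one, zpow_natCast]
        have h2 : (2:ℝ) ^ N < 2 ^ N + y := by have := hy.1; linarith
        have h3 : (x + k) * 2 ^ j < 1 / 2 * 2 ^ j := mul_lt_mul_of_pos_right hxk_lt hpos
        rw [hz] at h3
        have : (2:ℝ) ^ j / 2 = 1 / 2 * 2 ^ j := by ring
        linarith
      have h2 := (zpow_lt_zpow_iff_right₀ (by norm_num : (1:ℝ) < 2)).1 h1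
      omega
    obtain ⟨n, rfl⟩ : ∃ n : ℕ, N = n + 2 := ⟨N - 2, by omega⟩
    obtain ⟨i, hi⟩ : ∃ i : ℕ, j = (n + i + 4 : ℕ) := ⟨(j - (n + 4)).toNat, by push_cast at hjN ⊢; omega⟩
    refine mem_iUnion.2 ⟨n, mem_iUnion.2 ⟨i, y, hyU, ?_⟩⟩
    have h5 : (x + k) = (2:ℝ)⁻¹ ^ (n + i + 4) * (2 ^ (n + 2) + y) := by
      rw [← hz, hi, zpow_natCast, inv_pow]
      field_simp
    rw [hk] at h5
    push_cast at h5
    show (2:ℝ)⁻¹ ^ (n + i + 4) * (2 ^ (n + 2) + y) + 1 = x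
    rw [← h5]; ring
  have hvol : volume U ≤ (4:ENNReal)⁻¹ * volume U := by
    calc volume U ≤ ∑' n : ℕ, ∑' i : ℕ, volume
          ((fun y : ℝ => ((2:ℝ)⁻¹ ^ (n + i + 4)) * (2 ^ (n + 2) + y) + 1) '' U) :=
          (measure_mono hsub).trans ((measure_iUnion_le _).trans
            (ENNReal.tsum_le_tsum fun n => measure_iUnion_le _))
      _ = ∑' n : ℕ, ∑' i : ℕ, (2:ENNReal)⁻¹ ^ (n + i + 4) * volume U := by
          congr 1; ext n; congr 1; ext i
          have : (fun y : ℝ => ((2:ℝ)⁻¹ ^ (n + i + 4)) * (2 ^ (n + 2) + y) + 1) '' U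
              = (fun y : ℝ => y + (((2:ℝ)⁻¹ ^ (n + i + 4)) * 2 ^ (n + 2) + 1)) ''
                ((fun y : ℝ => ((2:ℝ)⁻¹ ^ (n + i + 4)) * y) '' U) := by
            rw [image_image]
            congr 1; ext y; ring
          rw [this]
          have h1 : (fun y : ℝ => y + (((2:ℝ)⁻¹ ^ (n + i + 4)) * 2 ^ (n + 2) + 1)) ''
                ((fun y : ℝ => ((2:ℝ)⁻¹ ^ (n + i + 4)) * y) '' U)
              = (fun y : ℝ => y - (((2:ℝ)⁻¹ ^ (n + i + 4)) * 2 ^ (n + 2) + 1)) ⁻¹'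
                ((fun y : ℝ => ((2:ℝ)⁻¹ ^ (n + i + 4)) * y) '' U) := by
            ext z
            constructor
            · rintro ⟨w, hw, rfl⟩
              simpa using hw
            · intro hz
              exact ⟨_, hz, by simp⟩
          simp_rw [h1, sub_eq_add_neg]
          rw [measure_preimage_add_right]
          have h2 : (fun y : ℝ => ((2:ℝ)⁻¹ ^ (n + i + 4)) * y) '' U
              = ((2:ℝ)⁻¹ ^ (n + i + 4)) • U := by
            rfl
          rw [h2, Measure.addHaar_smul]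
          congr 1
          simp only [Module.finrank_self, pow_one]
          rw [abs_of_pos (by positivity), ENNReal.ofReal_pow (by norm_num)]
          congr 1
          rw [ENNReal.ofReal_inv_of_pos (by norm_num)]
          norm_num
      _ = (4:ENNReal)⁻¹ * volume U := by
          have h1 : ∀ n i : ℕ, (2:ENNReal)⁻¹ ^ (n + i + 4) * volume U =
              (2:ENNReal)⁻¹ ^ n * ((2:ENNReal)⁻¹ ^ i * ((2:ENNReal)⁻¹ ^ 4 * volume U)) := by
            intro n i; ring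
          simp_rw [h1, ENNReal.tsum_mul_left, ENNReal.tsum_mul_right, ENNReal.tsum_geometric]
          rw [ENNReal.one_sub_inv_two, inv_inv]
          rw [← mul_assoc, ← mul_assoc]
          congr 1
          have h2 : (2:ENNReal) * 2 = 4 := by norm_num
          rw [h2]
          have h3 : (2:ENNReal)⁻¹ ^ 4 = 4⁻¹ * 4⁻¹ := by
            rw [← ENNReal.inv_pow, ← ENNReal.mul_inv (by norm_num) (by norm_num)]
            norm_num
          rw [h3, ← mul_assoc, ENNReal.mul_inv_cancel (by norm_num) (by norm_num), one_mul]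
  have hfin : volume U ≠ ⊤ := by
    refine ne_top_of_le_ne_top ?_ (measure_mono (inter_subset_right : U ⊆ Ioo (1:ℝ) 2))
    simp
  by_contra hne
  have : (4:ENNReal)⁻¹ * volume U < 1 * volume U := by
    apply ENNReal.mul_lt_mul_left
    all_goals first | exact hne | exact hfin | simp
  rw [one_mul] at this
  exact absurd hvol (not_le.2 this)

end Pool.Agent.WaveletPath
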