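import Pool.Agent.Lib.MP_0a5c67_an.SetPath

set_option autoImplicit false

open MeasureTheory Filter Topology Set
open scoped Pointwise

namespace Pool.Agent.WaveletPath

def Pt (M : Set ℝ) (t : ℝ) : Set ℝ :=
  {x | x ∈ M ∧ ∃ N : ℕ, 2 ≤ N ∧ x - 2 ^ N ∈ Ioo (1:ℝ) 2 ∧ ⌊x - 2 ^ N + 1 / t⌋ = N}

def Qt (M : Set ℝ) (t : ℝ) : Set ℝ := {x | x ∈ M ∧ t / 2 ≤ |x| ∧ |x| < t}

def Kt (E M : Set ℝ) (t : ℝ) : Set ℝ :=
  {x | (x ∈ E ∧ x ∈ M) ∧ x ∉ tsat (Qt M t) ∧ x ∉ dsat (Pt M t) ∧ t ≤ (1 / 2 - t) * |x|}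

def Wt (E M : Set ℝ) (t : ℝ) : Set ℝ := sbW (Kt E M t) (Pt M t) (Qt M t)

variable {E M : Set ℝ} {t : ℝ}

lemma Pt_subset_Far : Pt M t ⊆ Far := fun _ ⟨_, N, h1, h2, _⟩ => ⟨N, h1, h2⟩

lemma Qt_subset_Near (ht : t ≤ 1 / 2) : Qt M t ⊆ Near := fun _ ⟨_, _, h⟩ => lt_of_lt_of_le h ht

lemma Pt_zero : Pt M 0 = ∅ := by
  ext x
  simp only [mem_empty_iff_false, iff_false]
  rintro ⟨_, N, h1, ⟨h2, h3⟩, h4⟩
  rw [div_zero, add_zero] at h4
  have : ⌊x - 2 ^ N⌋ = 1 := by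
    rw [Int.floor_eq_iff]
    constructor
    · push_cast; linarith
    · push_cast; linarith
  rw [this] at h4
  omega

lemma Qt_zero : Qt M 0 = ∅ := by
  ext x
  simp only [mem_empty_iff_false, iff_false]
  rintro ⟨_, h1, h2⟩
  exact absurd (abs_nonneg x) (not_le.2 h2)

lemma tsat_empty : tsat ∅ = ∅ := by ext x; simp [tsat]
lemma dsat_empty : dsat ∅ = ∅ := by ext x; simp [dsat]

lemma sbA_empty (K Q : Set ℝ) (n : ℕ) : sbA K ∅ Q n = ∅ := by
  cases n with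
  | zero => rfl
  | succ n => simp [sbA]

lemma Wt_zero : Wt E M 0 = E ∩ M := by
  have hK : Kt E M 0 = E ∩ M := by
    ext x
    constructor
    · intro h; exact h.1
    · intro h
      refine ⟨h, ?_, ?_, ?_⟩
      · rw [Qt_zero, tsat_empty]; exact fun h => h
      · rw [Pt_zero, dsat_empty]; exact fun h => h
      · have := abs_nonneg x
        nlinarith
  rw [Wt, hK, Qt_zero, Pt_zero, sbW]
  have hU : sbU (E ∩ M) ∅ ∅ = ∅ := by
    rw [sbU]; simp [sbA_empty]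
  rw [hU]
  simp

lemma Kt_half : Kt E M (1 / 2) = ∅ := by
  ext x
  simp only [mem_empty_iff_false, iff_false]
  rintro ⟨_, _, _, h⟩
  norm_num at h

lemma Wt_half (E' : Set ℝ) : Wt E M (1 / 2) = Wt E' M (1 / 2) := by
  rw [Wt, Wt, Kt_half, Kt_half]

lemma tInj_Pt : TInj (Pt M t) := by
  rintro x ⟨_, N, h1, ⟨h2, h3⟩, h4⟩ k ⟨_, N', h1', ⟨h2', h3'⟩, h4'⟩
  have e1 : (k:ℝ) - 2 ^ N' + 2 ^ N < 1 := by linarith
  have e2 : -1 < (k:ℝ) - 2 ^ N' + 2 ^ N := by linarith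
  have e1' : k - 2 ^ N' + 2 ^ N < 1 := by exact_mod_cast e1
  have e2' : -1 < k - 2 ^ N' + 2 ^ N := by exact_mod_cast e2
  have e3 : k - 2 ^ N' + 2 ^ N = 0 := by omega
  have e4 : (k:ℝ) - 2 ^ N' + 2 ^ N = 0 := by exact_mod_cast e3
  have e5 : x + k - 2 ^ N' = x - 2 ^ N := by linarith
  rw [e5, h4] at h4'
  have : N = N' := by exact_mod_cast h4'
  subst this
  have : k = 0 := by omega
  exact this

lemma dInj_Qt : DInj (Qt M t) := by
  rintro x ⟨_, h1, h2⟩ j ⟨_, h1', h2'⟩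
  have hpos : (0:ℝ) < 2 ^ j := by positivity
  rw [abs_mul, abs_of_pos hpos] at h1' h2'
  by_contra hne
  rcases lt_or_gt_of_ne hne with h | h
  · have : (2:ℝ) ^ j ≤ 2⁻¹ := by
      calc (2:ℝ) ^ j ≤ 2 ^ (-1 : ℤ) := zpow_le_zpow_right₀ (by norm_num) (by omega)
        _ = 2⁻¹ := by norm_num
    have := mul_le_mul_of_nonneg_right this (abs_nonneg x)
    linarith
  · have : (2:ℝ) ≤ 2 ^ j := by
      calc (2:ℝ) = 2 ^ (1 : ℤ) := by norm_num
        _ ≤ 2 ^ j := zpow_le_zpow_right₀ (by norm_num) (by omega)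
    have := mul_le_mul_of_nonneg_right this (abs_nonneg x)
    linarith

lemma mem_tsat_Pt (hM : Good M) (ht0 : 0 < t) (ht : t ≤ 1 / 2) {x : ℝ} (hx : x ∈ M) :
    x ∈ tsat (Pt M t) := by
  set ξ : ℝ := x + (1 - ⌊x⌋ : ℤ) with hξ
  have hξM : ξ ∈ M := hM.add x hx _
  have h1 : 1 < ξ := by
    have h1 := Int.floor_le x
    have h3 : (⌊x⌋ : ℝ) < x := lt_of_le_of_ne h1 (Ne.symm (by exact_mod_cast hM.irr x hx (⌊x⌋:ℚ)))
    rw [hξ]; push_cast; linarith
  have h2 : ξ < 2 := by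
    have h2 := Int.lt_floor_add_one x
    rw [hξ]; push_cast; linarith
  have hinv : 2 ≤ 1 / t := by
    rw [le_div_iff₀ ht0]; linarith
  have hfl : 2 ≤ ⌊ξ + 1 / t⌋ := by
    rw [Int.le_floor]; push_cast; linarith
  obtain ⟨N, hN⟩ : ∃ N : ℕ, ⌊ξ + 1 / t⌋ = N := ⟨⌊ξ + 1 / t⌋.toNat, by omega⟩
  refine ⟨(1 - ⌊x⌋) + 2 ^ N, ?_, N, ?_, ?_, ?_⟩
  · exact hM.add x hx _
  · rw [hN] at hfl; exact_mod_cast hfl
  · have : x + (((1 - ⌊x⌋) + 2 ^ N : ℤ) : ℝ) - 2 ^ N = ξ := by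
      rw [hξ]; push_cast; ring
    rw [this]; exact ⟨h1, h2⟩
  · have : x + (((1 - ⌊x⌋) + 2 ^ N : ℤ) : ℝ) - 2 ^ N = ξ := by
      rw [hξ]; push_cast; ring
    rw [this, hN]

lemma mem_dsat_Qt (hM : Good M) (ht0 : 0 < t) {x : ℝ} (hx : x ∈ M) :
    x ∈ dsat (Qt M t) := by
  have hx0 : x ≠ 0 := by exact_mod_cast hM.irr x hx 0
  have hpos : 0 < |x| / t := div_pos (abs_pos.2 hx0) ht0
  obtain ⟨n, hn1, hn2⟩ := exists_mem_Ico_zpow hpos (by norm_num : (1:ℝ) < 2)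
  rw [le_div_iff₀ ht0] at hn1
  rw [div_lt_iff₀ ht0] at hn2
  have hp : (0:ℝ) < 2 ^ (-(n + 1)) := by positivity
  have e1 : (2:ℝ) ^ (-(n + 1)) * 2 ^ (n + 1) = 1 := by
    rw [← zpow_add₀ (by norm_num)]; simp
  have e2 : (2:ℝ) ^ (n + 1) = 2 * 2 ^ n := by
    rw [zpow_add₀ (by norm_num)]; simp [mul_comm]
  refine ⟨-(n + 1), hM.mul x hx _, ?_, ?_⟩
  · rw [abs_mul, abs_of_pos hp]
    have h1 := mul_le_mul_of_nonneg_left hn1 hp.le
    have h2 : (2:ℝ) ^ (-(n + 1)) * (2 ^ n * t) = t / 2 := by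
      have : (2:ℝ) ^ (-(n + 1)) * (2 ^ n * t) = ((2:ℝ) ^ (-(n + 1)) * 2 ^ (n + 1)) * t / 2 := by
        rw [e2]; ring
      rw [this, e1, one_mul]
    linarith
  · rw [abs_mul, abs_of_pos hp]
    have h1 := mul_lt_mul_of_pos_left hn2 hp
    rw [← mul_assoc, e1, one_mul] at h1
    exact h1

/-- Exact tiling on `M` -/
structure Exact (E M : Set ℝ) : Prop where
  tr : ∀ x ∈ M, ∃! k : ℤ, x + k ∈ E
  dil : ∀ x ∈ M, ∃! j : ℤ, (2:ℝ) ^ j * x ∈ E

lemma Exact.tInj (h : Exact E M) : TInj (E ∩ M) := by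
  intro x hx k hk
  obtain ⟨k0, _, hk0⟩ := h.tr x hx.2
  have h1 := hk0 k hk.1
  have h2 := hk0 0 (by simpa using hx.1)
  rw [h1, h2]

lemma Exact.dInj (h : Exact E M) : DInj (E ∩ M) := by
  intro x hx k hk
  obtain ⟨k0, _, hk0⟩ := h.dil x hx.2
  have h1 := hk0 k hk.1
  have h2 := hk0 0 (by simpa using hx.1)
  rw [h1, h2]

lemma Kt_subset : Kt E M t ⊆ E ∩ M := fun _ h => h.1

/-- a wavelet set -/
structure WSet (W : Set ℝ) : Prop where
  meas : MeasurableSet W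
  tr : ∀ᵐ x ∂(volume : Measure ℝ), ∃! k : ℤ, x + (k : ℝ) ∈ W
  dil : ∀ᵐ x ∂(volume : Measure ℝ), ∃! j : ℤ, (2:ℝ) ^ j * x ∈ W

lemma measurableSet_Pt (hM : MeasurableSet M) : MeasurableSet (Pt M t) := by
  have : Pt M t = M ∩ ⋃ N : ℕ, {x | 2 ≤ N ∧ x - 2 ^ N ∈ Ioo (1:ℝ) 2 ∧ ⌊x - 2 ^ N + 1 / t⌋ = N} := by
    ext x; simp [Pt]
  rw [this]
  refine hM.inter (MeasurableSet.iUnion fun N => ?_)
  by_cases hN : 2 ≤ N
  · simp only [hN, true_and]
    have h1 : MeasurableSet {x : ℝ | x - 2 ^ N ∈ Ioo (1:ℝ) 2} :=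
      (measurable_id.sub_const _) measurableSet_Ioo
    have h2 : MeasurableSet {x : ℝ | ⌊x - 2 ^ N + 1 / t⌋ = N} := by
      have : Measurable fun x : ℝ => ⌊x - 2 ^ N + 1 / t⌋ :=
        Int.measurable_floor.comp ((measurable_id.sub_const _).add_const _)
      exact this (measurableSet_singleton _)
    exact h1.inter h2
  · simp [hN]

lemma measurableSet_Qt (hM : MeasurableSet M) : MeasurableSet (Qt M t) := by
  have h1 : MeasurableSet {x : ℝ | t / 2 ≤ |x|} := measurableSet_le measurable_const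
    (continuous_abs.measurable)
  have h2 : MeasurableSet {x : ℝ | |x| < t} := measurableSet_lt (continuous_abs.measurable)
    measurable_const
  exact hM.inter (h1.inter h2)

lemma measurableSet_Kt (hE : MeasurableSet E) (hM : MeasurableSet M) :
    MeasurableSet (Kt E M t) := by
  have h1 := (measurableSet_tsat (measurableSet_Qt (t := t) hM)).compl
  have h2 := (measurableSet_dsat (measurableSet_Pt (t := t) hM)).compl
  have h3 : MeasurableSet {x : ℝ | t ≤ (1 / 2 - t) * |x|} := measurableSet_le measurable_const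
    ((continuous_abs.measurable).const_mul _)
  exact (hE.inter hM).inter (h1.inter (h2.inter h3))

lemma measurableSet_Wt (hE : MeasurableSet E) (hM : MeasurableSet M) :
    MeasurableSet (Wt E M t) :=
  measurableSet_sbW (measurableSet_Kt hE hM) (measurableSet_Pt hM) (measurableSet_Qt hM)

lemma wSet_Wt (hE : MeasurableSet E) (hM : Good M) (hEM : Exact E M) (ht0 : 0 < t)
    (ht : t ≤ 1 / 2) : WSet (Wt E M t) := by
  have hKT : TInj (Kt E M t) := TInj.mono Kt_subset hEM.tInj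
  have hKD : DInj (Kt E M t) := DInj.mono Kt_subset hEM.dInj
  have hPT : TInj (Pt M t) := tInj_Pt
  have hPD : DInj (Pt M t) := DInj.mono Pt_subset_Far dInj_far
  have hQT : TInj (Qt M t) := TInj.mono (Qt_subset_Near ht) tInj_near
  have hQD : DInj (Qt M t) := dInj_Qt
  refine ⟨measurableSet_Wt hE hM.meas, ?_, ?_⟩
  · filter_upwards [hM.conull] with x hx
    apply sbW_T hKT hPT hQT
    · rintro x hx ⟨k, hk⟩
      apply hk.2.1
      exact (tsat_add k).2 (subset_tsat _ hx)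
    · exact mem_tsat_Pt hM ht0 ht hx
  · filter_upwards [hM.conull] with x hx
    apply sbW_D hKD hPD hQD
    · rintro x hx ⟨k, hk⟩
      apply hk.2.2.1
      exact (dsat_mul k).2 (subset_dsat _ hx)
    · exact mem_dsat_Qt hM ht0 hx

/-! ### stability of the families -/

lemma ev_lt_iff {f g : ℝ → ℝ} {t0 : ℝ} (hf : ContinuousAt f t0) (hg : ContinuousAt g t0)
    (h : f t0 ≠ g t0) : ∀ᶠ s in 𝓝 t0, (f s < g s ↔ f t0 < g t0) := by
  rcases lt_or_gt_of_ne h with h1 | h1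
  · filter_upwards [hf.eventually_lt hg h1] with s hs
    simp [hs, h1]
  · filter_upwards [hg.eventually_lt hf h1] with s hs
    constructor
    · intro h2; exact absurd (h2.trans hs) (lt_irrefl _)
    · intro h2; exact absurd (h2.trans h1) (lt_irrefl _)

lemma ev_le_iff {f g : ℝ → ℝ} {t0 : ℝ} (hf : ContinuousAt f t0) (hg : ContinuousAt g t0)
    (h : f t0 ≠ g t0) : ∀ᶠ s in 𝓝 t0, (f s ≤ g s ↔ f t0 ≤ g t0) := by
  filter_upwards [ev_lt_iff hg hf h.symm] with s hs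
  rw [← not_lt, ← not_lt, hs]

lemma stable_Qt (M : Set ℝ) (t0 : ℝ) : Stable (𝓝 t0) (Qt M) (Qt M t0) := by
  filter_upwards [ae_ne t0, ae_ne (-t0), ae_ne (t0 / 2), ae_ne (-(t0 / 2))] with x h1 h2 h3 h4
  have e1 : t0 / 2 ≠ |x| := by
    intro h
    rcases abs_choice x with h' | h'
    · exact h3 (by rw [h, h'])
    · exact h4 (by rw [h, h']; simp)
  have e2 : |x| ≠ t0 := by
    intro h
    rcases abs_choice x with h' | h'
    · exact h1 (by rw [← h, h'])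
    · exact h2 (by rw [← h, h']; simp)
  have a1 := ev_le_iff (f := fun s => s / 2) (g := fun _ => |x|) (t0 := t0)
    (by fun_prop) (by fun_prop) e1
  have a2 := ev_lt_iff (f := fun _ => |x|) (g := fun s => s) (t0 := t0)
    (by fun_prop) (by fun_prop) e2
  filter_upwards [a1, a2] with s h5 h6
  simp only [Qt, Set.mem_ofPred_eq]
  rw [h5, h6]

lemma stable_Pt (M : Set ℝ) {t0 : ℝ} (ht0 : 0 ≤ t0) :
    Stable (𝓝[Icc (0:ℝ) (1 / 2)] t0) (Pt M) (Pt M t0) := by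
  have hirr : ∀ᵐ x ∂(volume : Measure ℝ), ∀ n : ℤ, x ≠ (n:ℝ) - 1 / t0 := by
    rw [ae_all_iff]; intro n; exact ae_ne _
  filter_upwards [hirr] with x hx
  by_cases hF : x ∈ Far
  · obtain ⟨N, hN, hxN⟩ := hF
    have key : ∀ s, x ∈ Pt M s ↔ (x ∈ M ∧ ⌊x - 2 ^ N + 1 / s⌋ = N) := by
      intro s
      constructor
      · rintro ⟨h1, N', h2, h3, h4⟩
        have := tInj_of_far hN hxN h2 h3
        subst this
        exact ⟨h1, h4⟩
      · rintro ⟨h1, h2⟩
        exact ⟨h1, N, hN, hxN, h2⟩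
    rcases ht0.eq_or_lt with h0 | h0
    · -- t0 = 0
      subst h0
      have hev : ∀ᶠ s in 𝓝[Icc (0:ℝ) (1 / 2)] (0:ℝ), s < 1 / ((N:ℝ) + 1) := by
        apply mem_nhdsWithin_of_mem_nhds
        exact Iio_mem_nhds (by positivity)
      filter_upwards [hev, self_mem_nhdsWithin] with s hs hs2
      rcases hs2.1.eq_or_lt with h | h
      · rw [← h]
      · have hno : x ∉ Pt M 0 := by rw [Pt_zero]; exact fun h => h
        simp only [hno, iff_false]
        rw [key]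
        rintro ⟨_, h2⟩
        have h3 : (N:ℝ) + 1 < 1 / s := by
          rw [lt_div_iff₀ h]
          rw [lt_div_iff₀ (by positivity)] at hs
          linarith
        have h4 : x - 2 ^ N + 1 / s < N + 1 := by
          have := Int.lt_floor_add_one (x - 2 ^ N + 1 / s)
          rw [h2] at this
          exact_mod_cast this
        have := hxN.1
        linarith
    · have hcont : ContinuousAt (fun s : ℝ => x - 2 ^ N + 1 / s) t0 := by
        apply ContinuousAt.add continuousAt_const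
        exact continuousAt_const.div continuousAt_id h0.ne'
      set n := ⌊x - 2 ^ N + 1 / t0⌋ with hn
      have h1 : (n:ℝ) < x - 2 ^ N + 1 / t0 := by
        refine lt_of_le_of_ne (Int.floor_le _) ?_
        intro h
        apply hx (n + 2 ^ N)
        push_cast
        linarith
      have h2 : x - 2 ^ N + 1 / t0 < n + 1 := Int.lt_floor_add_one _
      apply mem_nhdsWithin_of_mem_nhds
      have h3 := hcont.eventually (Ioo_mem_nhds h1 h2)
      filter_upwards [h3] with s hs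
      show x ∈ Pt M s ↔ x ∈ Pt M t0
      rw [key, key]
      have : ⌊x - 2 ^ N + 1 / s⌋ = n := by
        rw [Int.floor_eq_iff]
        exact ⟨hs.1.le, hs.2⟩
      rw [this, ← hn]
  · refine Eventually.of_forall fun s => ?_
    constructor
    · intro h; exact absurd (Pt_subset_Far h) hF
    · intro h; exact absurd (Pt_subset_Far h) hF

lemma Stable.mono {l l' : Filter ℝ} {S : ℝ → Set ℝ} {S0 : Set ℝ} (h : Stable l S S0)
    (hl : l' ≤ l) : Stable l' S S0 := by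
  filter_upwards [h] with x hx
  exact hx.filter_mono hl

lemma stable_Kt (E M : Set ℝ) {t0 : ℝ} (ht0 : t0 ∈ Icc (0:ℝ) (1 / 2)) :
    Stable (𝓝[Icc (0:ℝ) (1 / 2)] t0) (Kt E M) (Kt E M t0) := by
  have hQ : Stable (𝓝[Icc (0:ℝ) (1 / 2)] t0) (Qt M) (Qt M t0) :=
    (stable_Qt M t0).mono nhdsWithin_le_nhds
  have hP := stable_Pt M ht0.1
  have hQ' := hQ.tsat tInj_near (E := Near) (by
    filter_upwards [self_mem_nhdsWithin] with s hs
    exact Qt_subset_Near hs.2) (Qt_subset_Near ht0.2)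
  have hP' := hP.dsat dInj_far (E := Far) (Eventually.of_forall fun s => Pt_subset_Far)
    Pt_subset_Far
  have hx : ∀ᵐ x ∂(volume : Measure ℝ), t0 ≠ (1 / 2 - t0) * |x| := by
    by_cases h : t0 = 1 / 2
    · subst h
      exact Eventually.of_forall fun x => by norm_num
    · filter_upwards [ae_ne (t0 / (1 / 2 - t0)), ae_ne (-(t0 / (1 / 2 - t0)))] with x h1 h2 h3
      have h4 : (1 / 2 - t0) ≠ 0 := fun h5 => h (by linarith)
      rcases abs_choice x with h' | h'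
      · apply h1
        rw [h'] at h3
        rw [eq_div_iff h4]
        linarith
      · apply h2
        rw [h'] at h3
        rw [← neg_div, eq_div_iff h4]
        linarith
  filter_upwards [hQ', hP', hx] with x h1 h2 h3
  have h4 : ∀ᶠ s in 𝓝[Icc (0:ℝ) (1 / 2)] t0, (s ≤ (1 / 2 - s) * |x| ↔ t0 ≤ (1 / 2 - t0) * |x|) :=
    mem_nhdsWithin_of_mem_nhds (ev_le_iff (f := fun s => s) (g := fun s => (1 / 2 - s) * |x|)
      (by fun_prop) (by fun_prop) h3)
  filter_upwards [h1, h2, h4] with s a b c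
  simp only [Kt, Set.mem_ofPred_eq]
  rw [a, b, c]

theorem stable_Wt {E M : Set ℝ} (hEM : Exact E M) {t0 : ℝ} (ht0 : t0 ∈ Icc (0:ℝ) (1 / 2)) :
    Stable (𝓝[Icc (0:ℝ) (1 / 2)] t0) (Wt E M) (Wt E M t0) := by
  refine Stable.sb (stable_Kt E M ht0) (stable_Pt M ht0.1)
    ((stable_Qt M t0).mono nhdsWithin_le_nhds) hEM.tInj hEM.dInj
    (Eventually.of_forall fun s => Kt_subset) Kt_subset
    (Eventually.of_forall fun s => Pt_subset_Far) Pt_subset_Far ?_ (Qt_subset_Near ht0.2) ae_chainV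
  filter_upwards [self_mem_nhdsWithin] with s hs
  exact Qt_subset_Near hs.2

end Pool.Agent.WaveletPath
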