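import Pool.Agent.Lib.MP_0a5c67_an.SetChain

set_option autoImplicit false

open MeasureTheory Filter Topology Set
open scoped Pointwise

namespace Pool.Agent.WaveletPath

/-! ### almost everywhere statements under affine maps -/

lemma ae_affine {p : ℝ → Prop} (h : ∀ᵐ x ∂(volume : Measure ℝ), p x) {a : ℝ} (ha : a ≠ 0)
    (b : ℝ) : ∀ᵐ x ∂(volume : Measure ℝ), p (a * x + b) := by
  have h1 : ∀ᵐ x ∂(volume : Measure ℝ), p (x + b) := by
    have := (measurePreserving_add_right (volume : Measure ℝ) b).quasiMeasurePreserving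
    exact this.ae h
  have h2 : Measure.QuasiMeasurePreserving (fun x : ℝ => a * x) volume volume := by
    refine ⟨measurable_const_mul a, ?_⟩
    have := Real.map_volume_mul_left ha
    rw [this]
    exact Measure.smul_absolutelyContinuous
  exact h2.ae h1

lemma ae_ne (c : ℝ) : ∀ᵐ x ∂(volume : Measure ℝ), x ≠ c := by
  exact Measure.ae_ne volume c

lemma ae_tr {p : ℝ → Prop} (h : ∀ᵐ x ∂(volume : Measure ℝ), p x) :
    ∀ᵐ x ∂(volume : Measure ℝ), ∀ k : ℤ, p (x + k) := by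
  rw [ae_all_iff]
  intro k
  have := ae_affine h one_ne_zero (k : ℝ)
  simpa using this

lemma ae_dil {p : ℝ → Prop} (h : ∀ᵐ x ∂(volume : Measure ℝ), p x) :
    ∀ᵐ x ∂(volume : Measure ℝ), ∀ j : ℤ, p ((2:ℝ) ^ j * x) := by
  rw [ae_all_iff]
  intro k
  have := ae_affine h (a := (2:ℝ) ^ k) (by positivity) 0
  simpa using this

/-! ### stable families -/

/-- pointwise a.e. local constancy of a family of sets along a filter -/
def Stable (l : Filter ℝ) (S : ℝ → Set ℝ) (S0 : Set ℝ) : Prop :=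
  ∀ᵐ x ∂(volume : Measure ℝ), ∀ᶠ s in l, (x ∈ S s ↔ x ∈ S0)

variable {l : Filter ℝ} {S T : ℝ → Set ℝ} {S0 T0 : Set ℝ}

lemma Stable.const (A : Set ℝ) : Stable l (fun _ => A) A :=
  Eventually.of_forall fun _ => Eventually.of_forall fun _ => Iff.rfl

lemma Stable.diff (h1 : Stable l S S0) (h2 : Stable l T T0) :
    Stable l (fun s => S s \ T s) (S0 \ T0) := by
  filter_upwards [h1, h2] with x a b
  filter_upwards [a, b] with s c d
  simp [Set.mem_sdiff, c, d]

lemma Stable.union (h1 : Stable l S S0) (h2 : Stable l T T0) :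
    Stable l (fun s => S s ∪ T s) (S0 ∪ T0) := by
  filter_upwards [h1, h2] with x a b
  filter_upwards [a, b] with s c d
  simp [c, d]

lemma Stable.tsat (h : Stable l S S0) {E : Set ℝ} (hE : TInj E) (hS : ∀ᶠ s in l, S s ⊆ E)
    (hS0 : S0 ⊆ E) : Stable l (fun s => tsat (S s)) (tsat S0) := by
  filter_upwards [ae_tr h] with x hx
  by_cases hk : ∃ k : ℤ, x + k ∈ E
  · obtain ⟨k, hk⟩ := hk
    filter_upwards [hx k, hS] with s hs hsE
    constructor
    · rintro ⟨l', hl⟩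
      have : l' = k := hE.eq (hsE hl) hk
      subst this
      exact ⟨l', hs.1 hl⟩
    · rintro ⟨l', hl⟩
      have : l' = k := hE.eq (hS0 hl) hk
      subst this
      exact ⟨l', hs.2 hl⟩
  · filter_upwards [hS] with s hsE
    constructor
    · rintro ⟨l', hl⟩
      exact absurd ⟨l', hsE hl⟩ hk
    · rintro ⟨l', hl⟩
      exact absurd ⟨l', hS0 hl⟩ hk

lemma Stable.dsat (h : Stable l S S0) {E : Set ℝ} (hE : DInj E) (hS : ∀ᶠ s in l, S s ⊆ E)
    (hS0 : S0 ⊆ E) : Stable l (fun s => dsat (S s)) (dsat S0) := by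
  filter_upwards [ae_dil h] with x hx
  by_cases hk : ∃ k : ℤ, (2:ℝ) ^ k * x ∈ E
  · obtain ⟨k, hk⟩ := hk
    filter_upwards [hx k, hS] with s hs hsE
    constructor
    · rintro ⟨l', hl⟩
      have : l' = k := hE.eq (hsE hl) hk
      subst this
      exact ⟨l', hs.1 hl⟩
    · rintro ⟨l', hl⟩
      have : l' = k := hE.eq (hS0 hl) hk
      subst this
      exact ⟨l', hs.2 hl⟩
  · filter_upwards [hS] with s hsE
    constructor
    · rintro ⟨l', hl⟩
      exact absurd ⟨l', hsE hl⟩ hk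
    · rintro ⟨l', hl⟩
      exact absurd ⟨l', hS0 hl⟩ hk

lemma Stable.sb {K P Q : ℝ → Set ℝ} {K0 P0 Q0 E : Set ℝ}
    (hK : Stable l K K0) (hP : Stable l P P0) (hQ : Stable l Q Q0)
    (hET : TInj E) (hED : DInj E) (hKE : ∀ᶠ s in l, K s ⊆ E) (hK0E : K0 ⊆ E)
    (hPF : ∀ᶠ s in l, P s ⊆ Far) (hP0F : P0 ⊆ Far)
    (hQN : ∀ᶠ s in l, Q s ⊆ Near) (hQ0N : Q0 ⊆ Near)
    (hchain : ∀ᵐ x ∂(volume : Measure ℝ), x ∉ chainV) :
    Stable l (fun s => sbW (K s) (P s) (Q s)) (sbW K0 P0 Q0) := by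
  have hKT := hK.tsat hET hKE hK0E
  have hKD := hK.dsat hED hKE hK0E
  have hsub : ∀ n (K P Q : Set ℝ), P ⊆ Far → sbA K P Q n ⊆ Far :=
    fun n K P Q h x hx => h (sbA_subset n hx).1
  have hsubU : ∀ (K P Q : Set ℝ), P ⊆ Far → sbU K P Q ⊆ Far :=
    fun K P Q h x hx => h (sbU_subset hx).1
  have hA : ∀ n, Stable l (fun s => sbA (K s) (P s) (Q s) n) (sbA K0 P0 Q0 n) := by
    intro n
    induction n with
    | zero => exact Stable.const _
    | succ n ih =>
      have h1 := ih.dsat dInj_far (hPF.mono fun s hs => hsub n _ _ _ hs) (hsub n _ _ _ hP0F)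
      have h2 := (hQ.diff hKD).diff h1
      have h3 := h2.tsat tInj_near (hQN.mono fun s hs x hx => hs hx.1.1)
        (fun x hx => hQ0N hx.1.1)
      exact (hP.diff hKT).diff h3
  have hU : Stable l (fun s => sbU (K s) (P s) (Q s)) (sbU K0 P0 Q0) := by
    filter_upwards [hchain, ae_all_iff.2 hA] with x hx hxA
    have : ∃ n, x ∉ chainR n := by
      by_contra hc
      push Not at hc
      exact hx fun n => (hc (n + 1)).2
    obtain ⟨n, hn⟩ := this
    filter_upwards [hxA n, hPF, hQN] with s h1 h2 h3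
    rw [sbU_iff h2 h3 hn, sbU_iff hP0F hQ0N hn]
    exact h1
  exact (hK.union hU).union ((hQ.diff hKD).diff
    (hU.dsat dInj_far (hPF.mono fun s hs => hsubU _ _ _ hs) (hsubU _ _ _ hP0F)))

/-! ### good conull sets -/

structure Good (M : Set ℝ) : Prop where
  meas : MeasurableSet M
  conull : ∀ᵐ x ∂(volume : Measure ℝ), x ∈ M
  add : ∀ x ∈ M, ∀ k : ℤ, x + k ∈ M
  mul : ∀ x ∈ M, ∀ j : ℤ, (2:ℝ) ^ j * x ∈ M
  irr : ∀ x ∈ M, ∀ q : ℚ, x ≠ q

lemma exists_good {p : ℝ → Prop} (h : ∀ᵐ x ∂(volume : Measure ℝ), p x) :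
    ∃ M, Good M ∧ ∀ x ∈ M, p x := by
  have hrat : ∀ᵐ x ∂(volume : Measure ℝ), ∀ q : ℚ, x ≠ (q : ℝ) := by
    rw [ae_all_iff]
    intro q
    exact ae_ne _
  have h' := h.and hrat
  obtain ⟨N, hN1, hN2, hN3⟩ := exists_measurable_superset_of_null (ae_iff.1 h')
  have hN3' : ∀ᵐ x ∂(volume : Measure ℝ), x ∉ N := by
    rw [ae_iff]
    simpa using hN3
  refine ⟨{x | ∀ j : ℤ, ∀ q : ℚ, (2:ℝ) ^ j * x + q ∉ N}, ⟨?_, ?_, ?_, ?_, ?_⟩, ?_⟩
  · have : {x : ℝ | ∀ j : ℤ, ∀ q : ℚ, (2:ℝ) ^ j * x + q ∉ N} =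
        ⋂ j : ℤ, ⋂ q : ℚ, (fun x : ℝ => (2:ℝ) ^ j * x + q) ⁻¹' Nᶜ := by
      ext x; simp
    rw [this]
    exact MeasurableSet.iInter fun j => MeasurableSet.iInter fun q =>
      ((measurable_id.const_mul _).add_const _) hN2.compl
  · have : ∀ᵐ x ∂(volume : Measure ℝ), ∀ j : ℤ, ∀ q : ℚ, (2:ℝ) ^ j * x + q ∉ N := by
      rw [ae_all_iff]; intro j
      rw [ae_all_iff]; intro q
      exact ae_affine hN3' (by positivity) _
    exact this
  · intro x hx k j q
    have := hx j (2 ^ j * k + q)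
    push_cast at this
    rw [mul_add, add_assoc]
    exact this
  · intro x hx i j q
    have := hx (j + i) q
    rw [zpow_add₀ (by norm_num), mul_assoc] at this
    exact this
  · intro x hx q hq
    have h1 := hx 0 0
    simp only [zpow_zero, one_mul, Rat.cast_zero, add_zero] at h1
    have h2 : ¬ (¬ (p x ∧ ∀ q : ℚ, x ≠ q)) := fun h => h1 (hN1 h)
    push Not at h2
    exact h2.2 q hq
  · intro x hx
    have h1 := hx 0 0
    simp only [zpow_zero, one_mul, Rat.cast_zero, add_zero] at h1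
    have h2 : ¬ (¬ (p x ∧ ∀ q : ℚ, x ≠ q)) := fun h => h1 (hN1 h)
    push Not at h2
    exact h2.1

lemma ae_chainV : ∀ᵐ x ∂(volume : Measure ℝ), x ∉ chainV := by
  have h0 : ∀ᵐ x ∂(volume : Measure ℝ), x ∉ chainV ∩ Ioo (1:ℝ) 2 := by
    rw [ae_iff]
    simp only [not_not]
    exact volume_chainV_zero
  have hrat : ∀ᵐ x ∂(volume : Measure ℝ), ∀ q : ℤ, x ≠ (q : ℝ) := by
    rw [ae_all_iff]
    intro q
    exact ae_ne _
  filter_upwards [ae_tr h0, hrat] with x hx hxr hc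
  apply hx (1 - ⌊x⌋)
  constructor
  · intro n
    exact (tsat_add _).2 (hc n)
  · have h1 := Int.floor_le x
    have h2 := Int.lt_floor_add_one x
    have h3 : (⌊x⌋ : ℝ) < x := lt_of_le_of_ne h1 (Ne.symm (hxr _))
    push_cast
    constructor <;> linarith

end Pool.Agent.WaveletPath
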