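import Mathlib

set_option autoImplicit false

open MeasureTheory Filter Topology Set

namespace Pool.Agent.WaveletPath

/-! Translation / dilation saturations and the Schroeder–Bernstein construction of wavelet sets. -/

/-- all points having an integer translate in `S` -/
def tsat (S : Set ℝ) : Set ℝ := {x | ∃ k : ℤ, x + k ∈ S}

/-- all points having a dyadic dilate in `S` -/
def dsat (S : Set ℝ) : Set ℝ := {x | ∃ j : ℤ, (2:ℝ) ^ j * x ∈ S}

def TInj (S : Set ℝ) : Prop := ∀ x ∈ S, ∀ k : ℤ, x + k ∈ S → k = 0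

def DInj (S : Set ℝ) : Prop := ∀ x ∈ S, ∀ j : ℤ, (2:ℝ) ^ j * x ∈ S → j = 0

lemma tsat_mono {S T : Set ℝ} (h : S ⊆ T) : tsat S ⊆ tsat T := fun _ ⟨k, hk⟩ => ⟨k, h hk⟩
lemma dsat_mono {S T : Set ℝ} (h : S ⊆ T) : dsat S ⊆ dsat T := fun _ ⟨k, hk⟩ => ⟨k, h hk⟩

lemma subset_tsat (S : Set ℝ) : S ⊆ tsat S := fun x hx => ⟨0, by simpa using hx⟩
lemma subset_dsat (S : Set ℝ) : S ⊆ dsat S := fun x hx => ⟨0, by simpa using hx⟩

lemma tsat_add {S : Set ℝ} {x : ℝ} (k : ℤ) : x + k ∈ tsat S ↔ x ∈ tsat S := by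
  constructor
  · rintro ⟨l, hl⟩
    exact ⟨k + l, by push_cast; rwa [← add_assoc]⟩
  · rintro ⟨l, hl⟩
    exact ⟨l - k, by push_cast; convert hl using 1; ring⟩

lemma dsat_mul {S : Set ℝ} {x : ℝ} (j : ℤ) : (2:ℝ) ^ j * x ∈ dsat S ↔ x ∈ dsat S := by
  constructor
  · rintro ⟨l, hl⟩
    exact ⟨l + j, by rw [zpow_add₀ (by norm_num)]; rwa [mul_assoc]⟩
  · rintro ⟨l, hl⟩
    refine ⟨l - j, ?_⟩
    rw [← mul_assoc, ← zpow_add₀ (by norm_num)]
    simpa using hl

lemma TInj.mono {S T : Set ℝ} (h : S ⊆ T) (hT : TInj T) : TInj S :=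
  fun x hx k hk => hT x (h hx) k (h hk)
lemma DInj.mono {S T : Set ℝ} (h : S ⊆ T) (hT : DInj T) : DInj S :=
  fun x hx k hk => hT x (h hx) k (h hk)

lemma TInj.eq {S : Set ℝ} (h : TInj S) {x : ℝ} {k l : ℤ} (hk : x + k ∈ S) (hl : x + l ∈ S) :
    k = l := by
  have := h (x + k) hk (l - k) (by push_cast; convert hl using 1; ring)
  omega

lemma DInj.eq {S : Set ℝ} (h : DInj S) {x : ℝ} {k l : ℤ} (hk : (2:ℝ) ^ k * x ∈ S)
    (hl : (2:ℝ) ^ l * x ∈ S) : k = l := by
  have := h ((2:ℝ) ^ k * x) hk (l - k) (by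
    rw [← mul_assoc, ← zpow_add₀ (by norm_num)]; simpa using hl)
  omega

lemma measurableSet_tsat {S : Set ℝ} (h : MeasurableSet S) : MeasurableSet (tsat S) := by
  have : tsat S = ⋃ k : ℤ, (fun x : ℝ => x + k) ⁻¹' S := by
    ext x; simp [tsat]
  rw [this]
  exact MeasurableSet.iUnion fun k => (measurable_id.add_const _) h

lemma measurableSet_dsat {S : Set ℝ} (h : MeasurableSet S) : MeasurableSet (dsat S) := by
  have : dsat S = ⋃ j : ℤ, (fun x : ℝ => (2:ℝ) ^ j * x) ⁻¹' S := by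
    ext x; simp [dsat]
  rw [this]
  exact MeasurableSet.iUnion fun k => (measurable_id.const_mul _) h

section SB

/-- the Schroeder–Bernstein iteration -/
def sbA (K P Q : Set ℝ) : ℕ → Set ℝ
  | 0 => ∅
  | n + 1 => (P \ tsat K) \ tsat ((Q \ dsat K) \ dsat (sbA K P Q n))

def sbU (K P Q : Set ℝ) : Set ℝ := ⋃ n, sbA K P Q n

def sbW (K P Q : Set ℝ) : Set ℝ := K ∪ sbU K P Q ∪ ((Q \ dsat K) \ dsat (sbU K P Q))

variable {K P Q : Set ℝ}

lemma sbA_mono : Monotone (sbA K P Q) := by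
  apply monotone_nat_of_le_succ
  intro n
  induction n with
  | zero => exact empty_subset _
  | succ n ih =>
    intro x hx
    refine ⟨hx.1, fun h => hx.2 ?_⟩
    exact tsat_mono (sdiff_subset_sdiff_right (dsat_mono ih)) h

lemma sbA_subset (n : ℕ) : sbA K P Q n ⊆ P \ tsat K := by
  cases n with
  | zero => exact empty_subset _
  | succ n => exact fun x hx => hx.1

lemma sbU_subset : sbU K P Q ⊆ P \ tsat K := iUnion_subset sbA_subset

lemma sbU_eq (hQ : TInj Q) :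
    sbU K P Q = (P \ tsat K) \ tsat ((Q \ dsat K) \ dsat (sbU K P Q)) := by
  ext x
  constructor
  · intro hx
    obtain ⟨n, hn⟩ := mem_iUnion.1 hx
    have hn' := sbA_mono (Nat.le_succ n) hn
    refine ⟨hn'.1, fun h => hn'.2 ?_⟩
    exact tsat_mono (sdiff_subset_sdiff_right (dsat_mono (subset_iUnion _ n))) h
  · rintro ⟨hx, h⟩
    by_cases hq : x ∈ tsat (Q \ dsat K)
    · obtain ⟨k, hk⟩ := hq
      have hk2 : x + k ∈ dsat (sbU K P Q) := by
        by_contra hc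
        exact h ⟨k, hk, hc⟩
      obtain ⟨j, hj⟩ := hk2
      obtain ⟨n, hn⟩ := mem_iUnion.1 hj
      refine mem_iUnion.2 ⟨n + 1, hx, ?_⟩
      rintro ⟨l, hl⟩
      have : k = l := hQ.eq hk.1 hl.1.1
      subst this
      exact hl.2 ⟨j, hn⟩
    · refine mem_iUnion.2 ⟨1, hx, fun h' => hq ?_⟩
      exact tsat_mono sdiff_subset h'

lemma measurableSet_sbA (hK : MeasurableSet K) (hP : MeasurableSet P) (hQ : MeasurableSet Q)
    (n : ℕ) : MeasurableSet (sbA K P Q n) := by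
  induction n with
  | zero => exact MeasurableSet.empty
  | succ n ih =>
    exact (hP.diff (measurableSet_tsat hK)).diff (measurableSet_tsat
      ((hQ.diff (measurableSet_dsat hK)).diff (measurableSet_dsat ih)))

lemma measurableSet_sbU (hK : MeasurableSet K) (hP : MeasurableSet P) (hQ : MeasurableSet Q) :
    MeasurableSet (sbU K P Q) := MeasurableSet.iUnion (measurableSet_sbA hK hP hQ)

lemma measurableSet_sbW (hK : MeasurableSet K) (hP : MeasurableSet P) (hQ : MeasurableSet Q) :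
    MeasurableSet (sbW K P Q) :=
  (hK.union (measurableSet_sbU hK hP hQ)).union ((hQ.diff (measurableSet_dsat hK)).diff
    (measurableSet_dsat (measurableSet_sbU hK hP hQ)))

/-- `W` meets the translation class of every `x` which has a translate in `P` exactly once -/
lemma sbW_T (hKT : TInj K) (hPT : TInj P) (hQT : TInj Q)
    (hKQ : ∀ x ∈ Q, x ∉ tsat K) {x : ℝ} (hx : x ∈ tsat P) :
    ∃! k : ℤ, x + k ∈ sbW K P Q := by
  by_cases hK : x ∈ tsat K
  · obtain ⟨k, hk⟩ := hK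
    refine ⟨k, Or.inl (Or.inl hk), ?_⟩
    intro l hl
    rcases hl with (hl | hl) | hl
    · exact hKT.eq hl hk
    · exact absurd ((tsat_add l).2 ⟨k, hk⟩) (sbU_subset hl).2
    · exact absurd ((tsat_add l).2 ⟨k, hk⟩) (hKQ _ hl.1.1)
  · obtain ⟨k, hk⟩ := hx
    have hkK : x + k ∉ tsat K := fun h => hK ((tsat_add k).1 h)
    by_cases hA : x + k ∈ sbU K P Q
    · refine ⟨k, Or.inl (Or.inr hA), ?_⟩
      intro l hl
      rcases hl with (hl | hl) | hl
      · exact absurd ⟨l, hl⟩ hK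
      · exact hPT.eq (sbU_subset hl).1 hk
      · exfalso
        rw [sbU_eq hQT] at hA
        apply hA.2
        refine (tsat_add k).2 ⟨l, hl⟩
    · have h2 : x + k ∈ tsat ((Q \ dsat K) \ dsat (sbU K P Q)) := by
        by_contra hc
        apply hA
        rw [sbU_eq hQT]
        exact ⟨⟨hk, hkK⟩, hc⟩
      obtain ⟨l, hl⟩ := (tsat_add k).1 h2
      refine ⟨l, Or.inr hl, ?_⟩
      intro m hm
      rcases hm with (hm | hm) | hm
      · exact absurd ⟨m, hm⟩ hK
      · exfalso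
        have : m = k := hPT.eq (sbU_subset hm).1 hk
        subst this
        exact hA hm
      · exact hQT.eq hm.1.1 hl.1.1

lemma sbW_D (hKD : DInj K) (hPD : DInj P) (hQD : DInj Q)
    (hKP : ∀ x ∈ P, x ∉ dsat K) {x : ℝ} (hx : x ∈ dsat Q) :
    ∃! j : ℤ, (2:ℝ) ^ j * x ∈ sbW K P Q := by
  by_cases hK : x ∈ dsat K
  · obtain ⟨k, hk⟩ := hK
    refine ⟨k, Or.inl (Or.inl hk), ?_⟩
    intro l hl
    rcases hl with (hl | hl) | hl
    · exact hKD.eq hl hk
    · exact absurd ((dsat_mul l).2 ⟨k, hk⟩) (hKP _ (sbU_subset hl).1)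
    · exact absurd ((dsat_mul l).2 ⟨k, hk⟩) hl.1.2
  · obtain ⟨k, hk⟩ := hx
    have hkK : (2:ℝ) ^ k * x ∉ dsat K := fun h => hK ((dsat_mul k).1 h)
    by_cases hA : (2:ℝ) ^ k * x ∈ dsat (sbU K P Q)
    · obtain ⟨l, hl⟩ := (dsat_mul k).1 hA
      refine ⟨l, Or.inl (Or.inr hl), ?_⟩
      intro m hm
      rcases hm with (hm | hm) | hm
      · exact absurd ⟨m, hm⟩ hK
      · exact hPD.eq (sbU_subset hm).1 (sbU_subset hl).1
      · exfalso
        have : m = k := hQD.eq hm.1.1 hk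
        subst this
        exact hm.2 hA
    · refine ⟨k, Or.inr ⟨⟨hk, hkK⟩, hA⟩, ?_⟩
      intro m hm
      rcases hm with (hm | hm) | hm
      · exact absurd ⟨m, hm⟩ hK
      · exfalso
        exact hA ((dsat_mul k).2 ⟨m, hm⟩)
      · exact hQD.eq hm.1.1 hk

end SB

end Pool.Agent.WaveletPath
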